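import Pool.Agent.Lib_MP_0bab5c_y.MN

/-!
# Cleaning

`Clean G W k n ε θ δ0 ε1 E`: see the structure.  `n` is the number of vertices of the graph we started
with.

Proof of `cleaning`.  A configuration is a triple `(G', W', H)`, `G' ≤ G`, `W' ⊆ W`, `H` a finite set of
pairwise disjoint nonempty subsets of `W` (the homes with their original extents), each of size between `δ0 k` and
`16 k`, such that for all `X ∈ H` the number `a X = #{u ∈ W' | ∃ x ∈ X ∩ W', G'.Adj x u}` is at most `18 k`, and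
`e2 G' W' - (1 + kap + ε/2) k |W'| ≥ (3/8) ε k n - 2 ε1 k ∑_{X ∈ H} (18 k - a X)` where `n = |W|`.
`(G, W, ∅)` is a configuration.  Choose a configuration with `|W'| + (n - |H|) + e2 G' W'` minimal (note
`|H| ≤ n`, the members of `H` are disjoint and nonempty).  Then no move is possible:
(M1) If `u ∈ W'`, `X ∈ H` and `0 < |nb G' (X ∩ W') u| < ε1 k`: delete the edges between `u` and `X ∩ W'`
(`G'' = G'` without the edges `s(u,x)`, `x ∈ X ∩ W'`): `e2` decreases by `2 |nb G' (X ∩ W') u| ≤ 2 ε1 k`, `a X` decreases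
by at least one, the other `a` do not increase.
(M2) If `X ⊆ W'` is nonempty with `e2 G' W' - e2 G' (W' \ X) < (1 + kap + ε/2) k |X|`: pass to `W' \ X`.
(M3) If `X ⊆ W'`, `|X| ≤ 16 k`, `|bd G' W' X| ≤ (1 + 16 θ) k` and `|X \ ⋃ H| > δ0 k`: add `X \ ⋃ H` to `H`; its `a` is at most
`|X| + |bd X| ≤ 18 k` (`16 θ ≤ 1`).
In the end: `ι = {X ∈ H | X ∩ W' ≠ ∅}` (as a subtype), `E X = X ∩ W'`, `Fintype.card ι ≤ |H|`, `|H| δ0 k ≤ n` (disjoint
sets of size at least `δ0 k` in `W`).  The total loss is `2 ε1 k * 18 k * |H| ≤ 36 (ε1/δ0) k n ≤ (ε/8) k n` as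
`288 ε1 ≤ ε δ0`, so `e2 G' W' ≥ (1 + kap + ε/2) k |W'| + (ε/4) k n`; in particular `W'` is nonempty
(`e2` of the empty set is `0`, `n > 0`).  Small cuts and `RC` pass to subsets of `W` and subgraphs of `G`
(restrict `A` to `W'`; boundaries only get smaller).
-/

namespace Pool.Agent.LC0y

open Finset Pool.Agent.LC0bab
open scoped Classical

universe u

variable {V : Type u}

/-- A clean graph with homes `E i`. -/
structure Clean {ι : Type u} [Fintype ι] (G : SimpleGraph V) (W : Finset V) (k : ℕ)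
    (n ε θ δ0 ε1 : ℝ) (E : ι → Finset V) : Prop where
  sub : ∀ i, E i ⊆ W
  ne : ∀ i, (E i).Nonempty
  disj : ∀ i j, i ≠ j → Disjoint (E i) (E j)
  cardE : ∀ i, (E i).card ≤ 16 * k
  cardN : ∀ i, (nbs G W (E i)).card ≤ 18 * k
  few : (Fintype.card ι : ℝ) * (δ0 * k) ≤ n
  thick : ∀ u ∈ W, ∀ i, nb G (E i) u = ∅ ∨ ε1 * k ≤ ((nb G (E i) u).card : ℝ)
  cover : ∀ X ⊆ W, X.card ≤ 16 * k → ((bd G W X).card : ℝ) ≤ (1 + 16 * θ) * k →
    ((X.filter (fun v => ∀ i, v ∉ E i)).card : ℝ) ≤ δ0 * k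
  inc : ∀ X ⊆ W, (1 + kap + ε / 2) * k * X.card ≤ (e2 G W : ℝ) - e2 G (W \ X)
  scut : ∀ x ∈ W, ∀ z ∈ W, x ≠ z → SmC G W k x z ∨ SmC G W k z x
  cap : ∀ x ∈ W, ∃ A ⊆ W, x ∈ A ∧ (bd G W A).card ≤ k ∧ A.card ≤ 16 * k
  rc : RC G k W ∅

private lemma cl_e2 (G : SimpleGraph V) (X : Finset V) :
    e2 G X = ((X ×ˢ X).filter (fun p => G.Adj p.1 p.2)).card := by
  unfold e2 ee nb
  rw [card_filter, sum_product]
  exact sum_congr rfl fun x _ => card_filter _ _

private lemma cl_e2_mono {G G' : SimpleGraph V} {X X' : Finset V} (h : G' ≤ G) (hX : X' ⊆ X) :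
    e2 G' X' ≤ e2 G X := by
  rw [cl_e2, cl_e2]
  apply card_le_card
  intro p hp
  rw [mem_filter, mem_product] at hp ⊢
  exact ⟨⟨hX hp.1.1, hX hp.1.2⟩, h hp.2⟩

private lemma cl_nbs_mono {G G' : SimpleGraph V} {W W' X X' : Finset V} (h : G' ≤ G)
    (hW : W' ⊆ W) (hX : X' ⊆ X) : nbs G' W' X' ⊆ nbs G W X := by
  intro v hv
  rw [mem_nbs] at hv ⊢
  obtain ⟨h1, x, hx, hxv⟩ := hv
  exact ⟨hW h1, x, hX hx, h hxv⟩

private lemma cl_bd {G G' : SimpleGraph V} {W W' A : Finset V} (h : G' ≤ G) (hW : W' ⊆ W) :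
    (bd G' W' (A ∩ W')).card ≤ (bd G W A).card := by
  apply card_le_card
  intro v hv
  rw [mem_bd] at hv ⊢
  obtain ⟨hv1, hv2, a, ha, hav⟩ := hv
  exact ⟨hW hv1, fun hA => hv2 (mem_inter.2 ⟨hA, hv1⟩), a, (mem_inter.1 ha).1, h hav⟩

/-- The graph without the edges between `u` and `S`. -/
private def clDel (G : SimpleGraph V) (u : V) (S : Finset V) : SimpleGraph V where
  Adj a b := G.Adj a b ∧ ¬ ((a = u ∧ b ∈ S) ∨ (b = u ∧ a ∈ S))
  symm := ⟨fun a b h => ⟨h.1.symm, fun h' => h.2 (by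
    rcases h' with h' | h'
    · exact Or.inr h'
    · exact Or.inl h')⟩⟩
  loopless := ⟨fun a h => G.irrefl h.1⟩

private lemma clDel_le (G : SimpleGraph V) (u : V) (S : Finset V) : clDel G u S ≤ G :=
  fun _ _ h => h.1

private lemma cl_e2_del (G : SimpleGraph V) {W S : Finset V} {u : V} (hu : u ∈ W) (hS : S ⊆ W) :
    e2 G W ≤ e2 (clDel G u S) W + 2 * (nb G S u).card ∧
      ((nb G S u).Nonempty → e2 (clDel G u S) W < e2 G W) := by
  rw [cl_e2, cl_e2]
  constructor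
  · have h1 : (W ×ˢ W).filter (fun p => G.Adj p.1 p.2) ⊆
        (W ×ˢ W).filter (fun p => (clDel G u S).Adj p.1 p.2) ∪
          (({u} ×ˢ nb G S u) ∪ (nb G S u ×ˢ {u})) := by
      rintro ⟨a, b⟩ hp
      rw [mem_filter] at hp
      by_cases h : (a = u ∧ b ∈ S) ∨ (b = u ∧ a ∈ S)
      · apply mem_union_right
        rcases h with ⟨rfl, hb⟩ | ⟨rfl, ha⟩
        · apply mem_union_left
          rw [mem_product]
          exact ⟨mem_singleton_self _, mem_nb.2 ⟨hb, hp.2⟩⟩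
        · apply mem_union_right
          rw [mem_product]
          exact ⟨mem_nb.2 ⟨ha, hp.2.symm⟩, mem_singleton_self _⟩
      · apply mem_union_left
        rw [mem_filter]
        exact ⟨hp.1, hp.2, h⟩
    refine (card_le_card h1).trans ((card_union_le _ _).trans ?_)
    apply Nat.add_le_add_left
    refine (card_union_le _ _).trans ?_
    rw [card_product, card_product, card_singleton]
    omega
  · rintro ⟨x, hx⟩
    rw [mem_nb] at hx
    apply card_lt_card
    rw [ssubset_iff_of_subset]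
    · refine ⟨(u, x), ?_, ?_⟩
      · rw [mem_filter, mem_product]
        exact ⟨⟨hu, hS hx.1⟩, hx.2⟩
      · rw [mem_filter]
        rintro ⟨-, h⟩
        exact h.2 (Or.inl ⟨rfl, hx.1⟩)
    · intro p hp
      rw [mem_filter] at hp ⊢
      exact ⟨hp.1, hp.2.1⟩

/-- The configurations of the cleaning process. -/
private structure ClCfg (G : SimpleGraph V) (W : Finset V) (k : ℕ) (ε δ0 ε1 : ℝ)
    (G' : SimpleGraph V) (W' : Finset V) (H : Finset (Finset V)) : Prop where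
  le : G' ≤ G
  sub : W' ⊆ W
  hsub : ∀ X ∈ H, X ⊆ W
  hlow : ∀ X ∈ H, δ0 * k ≤ (X.card : ℝ)
  hne : ∀ X ∈ H, X.Nonempty
  hup : ∀ X ∈ H, X.card ≤ 16 * k
  hdisj : ∀ X ∈ H, ∀ Y ∈ H, X ≠ Y → Disjoint X Y
  ha : ∀ X ∈ H, (nbs G' W' (X ∩ W')).card ≤ 18 * k
  pot : 3 / 8 * ε * k * W.card - 2 * ε1 * k *
      ∑ X ∈ H, (18 * (k : ℝ) - ((nbs G' W' (X ∩ W')).card : ℝ)) ≤
    (e2 G' W' : ℝ) - (1 + kap + ε / 2) * k * W'.card

private lemma ClCfg.sum_card {G : SimpleGraph V} {W : Finset V} {k : ℕ} {ε δ0 ε1 : ℝ}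
    {G' : SimpleGraph V} {W' : Finset V} {H : Finset (Finset V)}
    (h : ClCfg G W k ε δ0 ε1 G' W' H) : ∑ X ∈ H, X.card ≤ W.card := by
  have h1 : (H.biUnion id).card = ∑ X ∈ H, (id X).card :=
    card_biUnion fun X hX Y hY hXY => h.hdisj X hX Y hY hXY
  have h2 : H.biUnion id ⊆ W := by
    intro v hv
    rw [mem_biUnion] at hv
    obtain ⟨X, hX, hv⟩ := hv
    exact h.hsub X hX hv
  have h3 := card_le_card h2
  rw [h1] at h3
  exact h3

private lemma ClCfg.card_le {G : SimpleGraph V} {W : Finset V} {k : ℕ} {ε δ0 ε1 : ℝ}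
    {G' : SimpleGraph V} {W' : Finset V} {H : Finset (Finset V)}
    (h : ClCfg G W k ε δ0 ε1 G' W' H) : H.card ≤ W.card := by
  refine le_trans ?_ h.sum_card
  rw [card_eq_sum_ones]
  exact sum_le_sum fun X hX => (h.hne X hX).card_pos

private lemma ClCfg.few {G : SimpleGraph V} {W : Finset V} {k : ℕ} {ε δ0 ε1 : ℝ}
    {G' : SimpleGraph V} {W' : Finset V} {H : Finset (Finset V)}
    (h : ClCfg G W k ε δ0 ε1 G' W' H) : (H.card : ℝ) * (δ0 * k) ≤ W.card := by
  have h1 : (H.card : ℝ) * (δ0 * k) ≤ ∑ X ∈ H, (X.card : ℝ) := by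
    rw [← nsmul_eq_mul]
    exact card_nsmul_le_sum _ _ _ fun X hX => h.hlow X hX
  refine h1.trans ?_
  exact_mod_cast h.sum_card

theorem cleaning {ε θ δ0 ε1 : ℝ} (hε : 0 < ε) (hθ : 0 ≤ θ) (hθ1 : 16 * θ ≤ 1) (hδ0 : 0 < δ0)
    (hε1 : 0 < ε1) (hc : 288 * ε1 ≤ ε * δ0) {k : ℕ} (hk : 0 < k) (G : SimpleGraph V)
    (W : Finset V) (hW : W.Nonempty) (hrc : RC G k W ∅)
    (he : (1 + kap + 7 / 8 * ε) * k * W.card ≤ e2 G W)
    (hs : ∀ x ∈ W, ∀ z ∈ W, x ≠ z → SmC G W k x z ∨ SmC G W k z x)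
    (hcap : ∀ x ∈ W, ∃ A ⊆ W, x ∈ A ∧ (bd G W A).card ≤ k ∧ A.card ≤ 16 * k) :
    ∃ (ι : Type u) (_ : Fintype ι) (G' : SimpleGraph V) (W' : Finset V) (E : ι → Finset V),
      W' ⊆ W ∧ Clean G' W' k (W.card : ℝ) ε θ δ0 ε1 E ∧
      (1 + kap + ε / 2) * k * W'.card + ε / 4 * k * W.card ≤ e2 G' W' := by
  classical
  have hkR : (0 : ℝ) < k := by exact_mod_cast hk
  have hδk : 0 < δ0 * k := mul_pos hδ0 hkR
  -- the minimal configuration
  obtain ⟨⟨G', W', H⟩, hcfg, hmin⟩ := (measure (fun p : SimpleGraph V × Finset V ×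
    Finset (Finset V) => p.2.1.card + (W.card - p.2.2.card) + e2 p.1 p.2.1)).wf.has_min
    {p | ClCfg G W k ε δ0 ε1 p.1 p.2.1 p.2.2} ⟨(G, W, ∅), by
      refine ⟨le_refl _, subset_rfl, ?_, ?_, ?_, ?_, ?_, ?_, ?_⟩
      · intro X hX; exact absurd hX (notMem_empty X)
      · intro X hX; exact absurd hX (notMem_empty X)
      · intro X hX; exact absurd hX (notMem_empty X)
      · intro X hX; exact absurd hX (notMem_empty X)
      · intro X hX; exact absurd hX (notMem_empty X)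
      · intro X hX; exact absurd hX (notMem_empty X)
      · show 3 / 8 * ε * k * W.card - 2 * ε1 * k * ∑ X ∈ (∅ : Finset (Finset V)),
          (18 * (k : ℝ) - ((nbs G W (X ∩ W)).card : ℝ)) ≤
            (e2 G W : ℝ) - (1 + kap + ε / 2) * k * W.card
        rw [sum_empty]
        nlinarith [he]⟩
  have hcfg' : ClCfg G W k ε δ0 ε1 G' W' H := hcfg
  have hmin' : ∀ (G'' : SimpleGraph V) (W'' : Finset V) (H' : Finset (Finset V)),
      ClCfg G W k ε δ0 ε1 G'' W'' H' → W'.card + (W.card - H.card) + e2 G' W' ≤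
        W''.card + (W.card - H'.card) + e2 G'' W'' := by
    intro G'' W'' H' h
    exact not_lt.mp (hmin (G'', W'', H') h)
  clear hmin hcfg
  -- the moves are not possible
  have M1 : ∀ u ∈ W', ∀ X ∈ H, nb G' (X ∩ W') u = ∅ ∨
      ε1 * k ≤ ((nb G' (X ∩ W') u).card : ℝ) := by
    intro u hu X hX
    by_contra hcon
    push Not at hcon
    obtain ⟨hne, hlt⟩ := hcon
    have hne' : (nb G' (X ∩ W') u).Nonempty := hne
    obtain ⟨hd1, hd2⟩ := cl_e2_del G' hu (inter_subset_right : X ∩ W' ⊆ W')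
    have hle := clDel_le G' u (X ∩ W')
    generalize hG2 : clDel G' u (X ∩ W') = G2 at hd1 hd2 hle
    have hlt2 := hd2 hne'
    have hcfg2 : ClCfg G W k ε δ0 ε1 G2 W' H := by
      refine ⟨hle.trans hcfg'.le, hcfg'.sub, hcfg'.hsub, hcfg'.hlow, hcfg'.hne, hcfg'.hup,
        hcfg'.hdisj, fun Y hY => (card_le_card (cl_nbs_mono hle subset_rfl subset_rfl)).trans
          (hcfg'.ha Y hY), ?_⟩
      have hpot := hcfg'.pot
      -- the sum increases by at least one
      have hX1 : (nbs G2 W' (X ∩ W')).card + 1 ≤ (nbs G' W' (X ∩ W')).card := by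
        apply card_lt_card
        rw [ssubset_iff_of_subset (cl_nbs_mono hle subset_rfl subset_rfl)]
        refine ⟨u, ?_, ?_⟩
        · obtain ⟨x, hx⟩ := hne'
          rw [mem_nb] at hx
          exact mem_nbs.2 ⟨hu, x, hx.1, hx.2.symm⟩
        · intro hmem
          rw [mem_nbs] at hmem
          obtain ⟨-, x, hx, hxu⟩ := hmem
          rw [← hG2] at hxu
          exact hxu.2 (Or.inr ⟨rfl, hx⟩)
      have hsum : ∑ Y ∈ H, (18 * (k : ℝ) - ((nbs G' W' (Y ∩ W')).card : ℝ)) + 1 ≤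
          ∑ Y ∈ H, (18 * (k : ℝ) - ((nbs G2 W' (Y ∩ W')).card : ℝ)) := by
        rw [← add_sum_erase H _ hX, ← add_sum_erase H _ hX]
        have h1 : ∑ Y ∈ H.erase X, (18 * (k : ℝ) - ((nbs G' W' (Y ∩ W')).card : ℝ)) ≤
            ∑ Y ∈ H.erase X, (18 * (k : ℝ) - ((nbs G2 W' (Y ∩ W')).card : ℝ)) := by
          refine sum_le_sum fun Y _ => ?_
          have h2 : ((nbs G2 W' (Y ∩ W')).card : ℝ) ≤ (nbs G' W' (Y ∩ W')).card := by
            exact_mod_cast card_le_card (cl_nbs_mono hle subset_rfl subset_rfl)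
          linarith
        have h3 : ((nbs G2 W' (X ∩ W')).card : ℝ) + 1 ≤ (nbs G' W' (X ∩ W')).card := by
          exact_mod_cast hX1
        linarith
      have hd1' : (e2 G' W' : ℝ) ≤ e2 G2 W' + 2 * ((nb G' (X ∩ W') u).card : ℝ) := by
        exact_mod_cast hd1
      have h5 : 2 * ε1 * k * (∑ Y ∈ H, (18 * (k : ℝ) - ((nbs G' W' (Y ∩ W')).card : ℝ)) + 1) ≤
          2 * ε1 * k * ∑ Y ∈ H, (18 * (k : ℝ) - ((nbs G2 W' (Y ∩ W')).card : ℝ)) :=
        mul_le_mul_of_nonneg_left hsum (by positivity)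
      have h6 : 2 * ε1 * k * (∑ Y ∈ H, (18 * (k : ℝ) - ((nbs G' W' (Y ∩ W')).card : ℝ)) + 1) =
          2 * ε1 * k * ∑ Y ∈ H, (18 * (k : ℝ) - ((nbs G' W' (Y ∩ W')).card : ℝ)) +
            2 * (ε1 * k) := by ring
      linarith
    have h7 := hmin' G2 W' H hcfg2
    omega
  have M2 : ∀ X ⊆ W', (1 + kap + ε / 2) * k * X.card ≤ (e2 G' W' : ℝ) - e2 G' (W' \ X) := by
    intro X hX
    rcases X.eq_empty_or_nonempty with rfl | hXne
    · rw [sdiff_empty, card_empty]
      simp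
    by_contra hcon
    push Not at hcon
    have hcard : (W' \ X).card + X.card = W'.card := card_sdiff_add_card_eq_card hX
    have hcardR : ((W' \ X).card : ℝ) = W'.card - X.card := by
      have : ((W' \ X).card : ℝ) + X.card = W'.card := by exact_mod_cast hcard
      linarith
    have hcfg2 : ClCfg G W k ε δ0 ε1 G' (W' \ X) H := by
      have hmono : ∀ Y : Finset V, nbs G' (W' \ X) (Y ∩ (W' \ X)) ⊆ nbs G' W' (Y ∩ W') :=
        fun Y => cl_nbs_mono (le_refl _) sdiff_subset (inter_subset_inter_left sdiff_subset)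
      refine ⟨hcfg'.le, sdiff_subset.trans hcfg'.sub, hcfg'.hsub, hcfg'.hlow, hcfg'.hne,
        hcfg'.hup, hcfg'.hdisj, fun Y hY => (card_le_card (hmono Y)).trans (hcfg'.ha Y hY), ?_⟩
      have hpot := hcfg'.pot
      have hsum : ∑ Y ∈ H, (18 * (k : ℝ) - ((nbs G' W' (Y ∩ W')).card : ℝ)) ≤
          ∑ Y ∈ H, (18 * (k : ℝ) - ((nbs G' (W' \ X) (Y ∩ (W' \ X))).card : ℝ)) := by
        refine sum_le_sum fun Y _ => ?_
        have h2 : ((nbs G' (W' \ X) (Y ∩ (W' \ X))).card : ℝ) ≤ (nbs G' W' (Y ∩ W')).card := by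
          exact_mod_cast card_le_card (hmono Y)
        linarith
      have h5 := mul_le_mul_of_nonneg_left hsum (show 0 ≤ 2 * ε1 * k by positivity)
      rw [hcardR]
      have h6 : (1 + kap + ε / 2) * k * ((W'.card : ℝ) - X.card) =
          (1 + kap + ε / 2) * k * W'.card - (1 + kap + ε / 2) * k * X.card := by ring
      linarith
    have h7 := hmin' G' (W' \ X) H hcfg2
    have h8 : e2 G' (W' \ X) ≤ e2 G' W' := cl_e2_mono (le_refl _) sdiff_subset
    have h9 := hXne.card_pos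
    omega
  have M3 : ∀ X ⊆ W', X.card ≤ 16 * k → ((bd G' W' X).card : ℝ) ≤ (1 + 16 * θ) * k →
      ((X \ H.biUnion id).card : ℝ) ≤ δ0 * k := by
    intro X hX hXc hXb
    by_contra hcon
    push Not at hcon
    generalize hY : X \ H.biUnion id = Y at hcon
    have hYX : Y ⊆ X := by rw [← hY]; exact sdiff_subset
    have hYne : Y.Nonempty := by
      rw [← card_pos]
      have h1 : (0 : ℝ) < Y.card := by linarith
      exact_mod_cast h1
    have hYd : ∀ Z ∈ H, Disjoint Y Z := by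
      intro Z hZ
      rw [disjoint_left]
      intro v hv hvZ
      rw [← hY, mem_sdiff] at hv
      exact hv.2 (mem_biUnion.2 ⟨Z, hZ, hvZ⟩)
    have hYH : Y ∉ H := by
      intro hmem
      have h1 := hYd Y hmem
      rw [disjoint_self_iff_empty] at h1
      exact hYne.ne_empty h1
    have hYa : (nbs G' W' (Y ∩ W')).card ≤ 18 * k := by
      have h1 : nbs G' W' (Y ∩ W') ⊆ X ∪ bd G' W' X := by
        intro v hv
        rw [mem_nbs] at hv
        obtain ⟨hvW, x, hx, hxv⟩ := hv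
        rw [mem_union, mem_bd]
        by_cases hvX : v ∈ X
        · exact Or.inl hvX
        · exact Or.inr ⟨hvW, hvX, x, hYX (mem_inter.1 hx).1, hxv⟩
      have h2 : ((nbs G' W' (Y ∩ W')).card : ℝ) ≤ (X.card : ℝ) + (bd G' W' X).card := by
        exact_mod_cast (card_le_card h1).trans (card_union_le _ _)
      have h3 : (X.card : ℝ) ≤ 16 * k := by exact_mod_cast hXc
      have h4 : ((nbs G' W' (Y ∩ W')).card : ℝ) ≤ 18 * k := by nlinarith
      exact_mod_cast h4
    have hcfg2 : ClCfg G W k ε δ0 ε1 G' W' (insert Y H) := by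
      refine ⟨hcfg'.le, hcfg'.sub, ?_, ?_, ?_, ?_, ?_, ?_, ?_⟩
      · intro Z hZ
        rcases mem_insert.1 hZ with rfl | hZ
        · exact hYX.trans (hX.trans hcfg'.sub)
        · exact hcfg'.hsub Z hZ
      · intro Z hZ
        rcases mem_insert.1 hZ with rfl | hZ
        · exact hcon.le
        · exact hcfg'.hlow Z hZ
      · intro Z hZ
        rcases mem_insert.1 hZ with rfl | hZ
        · exact hYne
        · exact hcfg'.hne Z hZ
      · intro Z hZ
        rcases mem_insert.1 hZ with rfl | hZ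
        · exact (card_le_card hYX).trans hXc
        · exact hcfg'.hup Z hZ
      · intro Z hZ Z' hZ' hne
        rcases mem_insert.1 hZ with rfl | hZ
        · rcases mem_insert.1 hZ' with rfl | hZ'
          · exact absurd rfl hne
          · exact hYd Z' hZ'
        · rcases mem_insert.1 hZ' with e | hZ'
          · rw [e]
            exact (hYd Z hZ).symm
          · exact hcfg'.hdisj Z hZ Z' hZ' hne
      · intro Z hZ
        rcases mem_insert.1 hZ with rfl | hZ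
        · exact hYa
        · exact hcfg'.ha Z hZ
      · have hpot := hcfg'.pot
        rw [sum_insert hYH]
        have h1 : ((nbs G' W' (Y ∩ W')).card : ℝ) ≤ 18 * k := by exact_mod_cast hYa
        have h2 : 0 ≤ 2 * ε1 * k * (18 * (k : ℝ) - ((nbs G' W' (Y ∩ W')).card : ℝ)) :=
          mul_nonneg (by positivity) (by linarith)
        have h3 : 2 * ε1 * k * (18 * (k : ℝ) - ((nbs G' W' (Y ∩ W')).card : ℝ) +
            ∑ Z ∈ H, (18 * (k : ℝ) - ((nbs G' W' (Z ∩ W')).card : ℝ))) =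
            2 * ε1 * k * (18 * (k : ℝ) - ((nbs G' W' (Y ∩ W')).card : ℝ)) +
            2 * ε1 * k * ∑ Z ∈ H, (18 * (k : ℝ) - ((nbs G' W' (Z ∩ W')).card : ℝ)) := by ring
        linarith
    have h7 := hmin' G' W' (insert Y H) hcfg2
    have h8 := hcfg2.card_le
    rw [card_insert_of_notMem hYH] at h7 h8
    omega
  -- the loss
  have hloss : 2 * ε1 * k * ∑ X ∈ H, (18 * (k : ℝ) - ((nbs G' W' (X ∩ W')).card : ℝ)) ≤
      ε / 8 * k * W.card := by
    have h1 : ∑ X ∈ H, (18 * (k : ℝ) - ((nbs G' W' (X ∩ W')).card : ℝ)) ≤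
        (H.card : ℝ) * (18 * k) := by
      rw [← nsmul_eq_mul]
      refine sum_le_card_nsmul _ _ _ fun X _ => ?_
      have : (0 : ℝ) ≤ (nbs G' W' (X ∩ W')).card := Nat.cast_nonneg _
      linarith
    have h2 := hcfg'.few
    have h3 : 2 * ε1 * k * ∑ X ∈ H, (18 * (k : ℝ) - ((nbs G' W' (X ∩ W')).card : ℝ)) ≤
        2 * ε1 * k * ((H.card : ℝ) * (18 * k)) :=
      mul_le_mul_of_nonneg_left h1 (by positivity)
    have h4 : 36 * ε1 * k * ((H.card : ℝ) * (δ0 * k)) ≤ 36 * ε1 * k * W.card :=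
      mul_le_mul_of_nonneg_left h2 (by positivity)
    have h5 : 36 * ε1 * k * W.card ≤ δ0 * (ε / 8 * k * W.card) := by
      have h6 : 36 * ε1 * (k * W.card) ≤ δ0 * (ε / 8) * (k * W.card) :=
        mul_le_mul_of_nonneg_right (by linarith) (by positivity)
      linarith
    have h6 : δ0 * (2 * ε1 * k * ((H.card : ℝ) * (18 * k))) ≤ δ0 * (ε / 8 * k * W.card) := by
      have h7 : δ0 * (2 * ε1 * k * ((H.card : ℝ) * (18 * k))) =
          36 * ε1 * k * ((H.card : ℝ) * (δ0 * k)) := by ring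
      linarith
    exact h3.trans (le_of_mul_le_mul_left h6 hδ0)
  have hfinal : (1 + kap + ε / 2) * k * W'.card + ε / 4 * k * W.card ≤ (e2 G' W' : ℝ) := by
    have hpot := hcfg'.pot
    linarith
  -- the homes
  refine ⟨{X : Finset V // X ∈ H.filter (fun X => (X ∩ W').Nonempty)}, inferInstance, G', W',
    fun X => X.1 ∩ W', hcfg'.sub, ?_, hfinal⟩
  have hmem : ∀ X : {X : Finset V // X ∈ H.filter (fun X => (X ∩ W').Nonempty)},
      X.1 ∈ H ∧ (X.1 ∩ W').Nonempty := fun X => mem_filter.1 X.2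
  refine
    { sub := fun X => inter_subset_right
      ne := fun X => (hmem X).2
      disj := ?_
      cardE := fun X => (card_le_card inter_subset_left).trans (hcfg'.hup X.1 (hmem X).1)
      cardN := fun X => hcfg'.ha X.1 (hmem X).1
      few := ?_
      thick := fun u hu X => M1 u hu X.1 (hmem X).1
      cover := ?_
      inc := M2
      scut := ?_
      cap := ?_
      rc := ?_ }
  · intro X Y hXY
    exact disjoint_of_subset_left inter_subset_left (disjoint_of_subset_right inter_subset_left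
      (hcfg'.hdisj X.1 (hmem X).1 Y.1 (hmem Y).1 fun e => hXY (Subtype.ext e)))
  · rw [Fintype.card_coe]
    refine le_trans (mul_le_mul_of_nonneg_right ?_ hδk.le) hcfg'.few
    exact_mod_cast card_le_card (filter_subset _ _)
  · intro X hX hXc hXb
    refine le_trans ?_ (M3 X hX hXc hXb)
    have h1 : X.filter (fun v => ∀ i : {X : Finset V //
        X ∈ H.filter (fun X => (X ∩ W').Nonempty)}, v ∉ i.1 ∩ W') ⊆ X \ H.biUnion id := by
      intro v hv
      rw [mem_filter] at hv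
      rw [mem_sdiff, mem_biUnion]
      refine ⟨hv.1, ?_⟩
      rintro ⟨Y, hY, hvY⟩
      have h2 : v ∈ Y ∩ W' := mem_inter.2 ⟨hvY, hX hv.1⟩
      exact hv.2 ⟨Y, mem_filter.2 ⟨hY, ⟨v, h2⟩⟩⟩ h2
    exact_mod_cast card_le_card h1
  · have aux : ∀ x z : V, x ∈ W' → SmC G W k x z → SmC G' W' k x z := by
      intro x z hx hS
      obtain ⟨A, h1, h2, h3⟩ := hS
      refine ⟨A ∩ W', ⟨inter_subset_right, mem_inter.2 ⟨h1.mem, hx⟩,
        fun h => h1.out (mem_inter.1 h).1,
        fun a ha haz => h1.adj a (mem_inter.1 ha).1 (hcfg'.le haz)⟩, ?_, ?_⟩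
      · exact (cl_bd hcfg'.le hcfg'.sub).trans h2
      · exact (card_le_card inter_subset_left).trans h3
    intro x hx z hz hxz
    rcases hs x (hcfg'.sub hx) z (hcfg'.sub hz) hxz with h | h
    · exact Or.inl (aux x z hx h)
    · exact Or.inr (aux z x hz h)
  · intro x hx
    obtain ⟨A, h1, h2, h3, h4⟩ := hcap x (hcfg'.sub hx)
    exact ⟨A ∩ W', inter_subset_right, mem_inter.2 ⟨h2, hx⟩,
      (cl_bd hcfg'.le hcfg'.sub).trans h3, (card_le_card inter_subset_left).trans h4⟩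
  · have aux : ∀ x y : V, x ∈ W' → RCut G k W ∅ x y → RCut G' k W' ∅ x y := by
      intro x y hx hS
      obtain ⟨A, h1, h2, h3, h4, h5, h6⟩ := hS
      exact ⟨A ∩ W', inter_subset_right, mem_inter.2 ⟨h2, hx⟩, fun h => h3 (mem_inter.1 h).1,
        fun a ha hay => h4 a (mem_inter.1 ha).1 (hcfg'.le hay), disjoint_empty_right _,
        (cl_bd hcfg'.le hcfg'.sub).trans h6⟩
    intro x hx y hy hxy
    rw [sdiff_empty] at hx hy
    rcases hrc x (by rw [sdiff_empty]; exact hcfg'.sub hx) y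
      (by rw [sdiff_empty]; exact hcfg'.sub hy) hxy with h | h
    · exact Or.inl (aux x y hx h)
    · exact Or.inr (aux y x hy h)

end Pool.Agent.LC0y
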