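import Mathlib

/-!
# Components of bounded sets in a graph of bounded degree (pure)

`H` is a symmetric relation on a finite type with at most `Δ` relatives per element.  For a finite set
`I` let `comp I` be the set of connected components of `H` restricted to `I`.  If `|I| ≤ N`, a component
containing `i` lies in the ball of radius `N` around `i`, which has at most `(Δ + 1)^N` elements, so
there are at most `B1 = 2^((Δ+1)^N)` sets `J` which contain `i` and are a component of some `I` with
`|I| ≤ N`.

Suggested proof: for `I` and `i ∈ I` define `C I i 0 = {i}` and `C I i (t+1) = C I i t ∪ {j ∈ I | ∃ a ∈ C I i t, H a j}`;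
the sets increase, they stay in `I`, hence `C I i N` is closed under `H` inside `I` when `|I| ≤ N`
(as long as it is not closed the size grows by one at each step).  `C I i N` is contained in the ball
`ball i N` (same recursion without `I`), of size `≤ (Δ+1)^N`.  The relation `j ∈ C I i N` on `I` is an
equivalence relation (it is the reachability relation: use minimality, `C I i N` is the least subset
of `I` containing `i` and closed under `H` inside `I`).  `comp I = I.image (fun i => C I i N)`.
-/

namespace Pool.Agent.LC0y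

open Finset
open scoped Classical

universe u

/-- adjacency inside `I` -/
private def rel {ι : Type u} (H : ι → ι → Prop) (I : Finset ι) (a b : ι) : Prop :=
  a ∈ I ∧ b ∈ I ∧ H a b

private noncomputable def cc {ι : Type u} (H : ι → ι → Prop) (I : Finset ι) (i : ι) : Finset ι :=
  I.filter (fun j => Relation.ReflTransGen (rel H I) i j)

private noncomputable def ball {ι : Type u} [Fintype ι] (H : ι → ι → Prop) (i : ι) :
    ℕ → Finset ι
  | 0 => {i}
  | t + 1 => ball H i t ∪ univ.filter (fun j => ∃ a ∈ ball H i t, H a j)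

private noncomputable def dd {ι : Type u} (H : ι → ι → Prop) (I : Finset ι) (i : ι) :
    ℕ → Finset ι
  | 0 => {i}
  | t + 1 => dd H I i t ∪ I.filter (fun j => ∃ a ∈ dd H I i t, H a j)

private theorem ball_card {ι : Type u} [Fintype ι] {H : ι → ι → Prop} {Δ : ℕ}
    (hd : ∀ i, (univ.filter (fun j => H i j)).card ≤ Δ) (i : ι) (t : ℕ) :
    (ball H i t).card ≤ (Δ + 1) ^ t := by
  induction t with
  | zero => simp [ball]
  | succ t ih =>
    have h1 : univ.filter (fun j => ∃ a ∈ ball H i t, H a j) ⊆
        (ball H i t).biUnion (fun a => univ.filter (fun j => H a j)) := by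
      intro j hj
      obtain ⟨a, ha, hj⟩ := (mem_filter.1 hj).2
      exact mem_biUnion.2 ⟨a, ha, mem_filter.2 ⟨mem_univ _, hj⟩⟩
    have h2 : ((ball H i t).biUnion (fun a => univ.filter (fun j => H a j))).card ≤
        (ball H i t).card * Δ := card_biUnion_le_card_mul _ _ _ fun a _ => hd a
    show (ball H i t ∪ univ.filter (fun j => ∃ a ∈ ball H i t, H a j)).card ≤ _
    calc (ball H i t ∪ univ.filter (fun j => ∃ a ∈ ball H i t, H a j)).card
        ≤ (ball H i t).card + (univ.filter (fun j => ∃ a ∈ ball H i t, H a j)).card :=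
          card_union_le _ _
      _ ≤ (ball H i t).card + (ball H i t).card * Δ :=
          Nat.add_le_add_left ((card_le_card h1).trans h2) _
      _ = (ball H i t).card * (Δ + 1) := by ring
      _ ≤ (Δ + 1) ^ t * (Δ + 1) := Nat.mul_le_mul_right _ ih
      _ = (Δ + 1) ^ (t + 1) := (pow_succ _ _).symm

private theorem dd_sub_ball {ι : Type u} [Fintype ι] (H : ι → ι → Prop) (I : Finset ι) (i : ι)
    (t : ℕ) : dd H I i t ⊆ ball H i t := by
  induction t with
  | zero => exact Subset.refl _
  | succ t ih =>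
    intro j hj
    rcases mem_union.1 hj with hj | hj
    · exact mem_union_left _ (ih hj)
    · obtain ⟨a, ha, hj⟩ := (mem_filter.1 hj).2
      exact mem_union_right _ (mem_filter.2 ⟨mem_univ _, a, ih ha, hj⟩)

private theorem ball_mono {ι : Type u} [Fintype ι] (H : ι → ι → Prop) (i : ι) {s t : ℕ}
    (h : s ≤ t) : ball H i s ⊆ ball H i t := by
  induction h with
  | refl => exact Subset.refl _
  | step _ ih => exact ih.trans subset_union_left

private theorem dd_sub {ι : Type u} (H : ι → ι → Prop) {I : Finset ι} {i : ι} (hi : i ∈ I)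
    (t : ℕ) : dd H I i t ⊆ I := by
  induction t with
  | zero => exact singleton_subset_iff.2 hi
  | succ t ih => exact union_subset ih (filter_subset _ _)

private theorem mem_dd {ι : Type u} (H : ι → ι → Prop) (I : Finset ι) (i : ι) (t : ℕ) :
    i ∈ dd H I i t := by
  induction t with
  | zero => exact mem_singleton_self i
  | succ t ih => exact mem_union_left _ ih

private theorem exists_stable {ι : Type u} (H : ι → ι → Prop) {I : Finset ι} {i : ι}
    (hi : i ∈ I) {N : ℕ} (hN : I.card ≤ N) : ∃ t ≤ N, dd H I i (t + 1) = dd H I i t := by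
  by_contra hc
  push Not at hc
  have h1 : ∀ t, t ≤ N + 1 → t + 1 ≤ (dd H I i t).card := by
    intro t
    induction t with
    | zero =>
      intro _
      exact card_pos.2 ⟨i, mem_dd H I i 0⟩
    | succ t ih =>
      intro ht
      have h2 := ih (by omega)
      have h3 : dd H I i t ⊂ dd H I i (t + 1) :=
        Finset.ssubset_iff_subset_ne.2 ⟨subset_union_left, (hc t (by omega)).symm⟩
      have h4 := card_lt_card h3
      omega
  have h2 := h1 (N + 1) le_rfl
  have h3 := card_le_card (dd_sub H hi (N + 1))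
  omega

private theorem cc_sub_ball {ι : Type u} [Fintype ι] (H : ι → ι → Prop) {I : Finset ι} {i : ι}
    (hi : i ∈ I) {N : ℕ} (hN : I.card ≤ N) : cc H I i ⊆ ball H i N := by
  obtain ⟨t, ht, he⟩ := exists_stable H hi hN
  intro j hj
  have h1 : j ∈ dd H I i t := by
    have h2 : Relation.ReflTransGen (rel H I) i j := (mem_filter.1 hj).2
    clear hj
    induction h2 with
    | refl => exact mem_dd H I i t
    | tail _ hbc ih =>
      rw [← he]
      exact mem_union_right _ (mem_filter.2 ⟨hbc.2.1, _, ih, hbc.2.2⟩)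
  exact ball_mono H i ht (dd_sub_ball H I i t h1)

private theorem rel_symm {ι : Type u} {H : ι → ι → Prop} (hs : ∀ i j, H i j → H j i)
    {I : Finset ι} {i j : ι} (h : Relation.ReflTransGen (rel H I) i j) :
    Relation.ReflTransGen (rel H I) j i := by
  induction h with
  | refl => exact Relation.ReflTransGen.refl
  | tail _ hbc ih => exact Relation.ReflTransGen.head ⟨hbc.2.1, hbc.1, hs _ _ hbc.2.2⟩ ih

private theorem cc_eq {ι : Type u} {H : ι → ι → Prop} (hs : ∀ i j, H i j → H j i)
    {I : Finset ι} {i j : ι} (h : j ∈ cc H I i) : cc H I i = cc H I j := by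
  have h1 : Relation.ReflTransGen (rel H I) i j := (mem_filter.1 h).2
  ext x
  simp only [cc, mem_filter]
  exact ⟨fun hx => ⟨hx.1, (rel_symm hs h1).trans hx.2⟩, fun hx => ⟨hx.1, h1.trans hx.2⟩⟩

private theorem mem_cc {ι : Type u} (H : ι → ι → Prop) {I : Finset ι} {i : ι} (hi : i ∈ I) :
    i ∈ cc H I i := mem_filter.2 ⟨hi, Relation.ReflTransGen.refl⟩

theorem exists_comp (Δ N : ℕ) : ∃ B1 : ℕ, ∀ (ι : Type u) [Fintype ι] (H : ι → ι → Prop),
    (∀ i j, H i j → H j i) → (∀ i, (univ.filter (fun j => H i j)).card ≤ Δ) →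
    ∃ comp : Finset ι → Finset (Finset ι),
      (∀ I : Finset ι, I.card ≤ N →
        (∀ J ∈ comp I, J ⊆ I ∧ J.Nonempty) ∧ (∀ i ∈ I, ∃ J ∈ comp I, i ∈ J) ∧
        (∀ J ∈ comp I, ∀ J' ∈ comp I, J ≠ J' → Disjoint J J') ∧
        (∀ J ∈ comp I, ∀ J' ∈ comp I, J ≠ J' → ∀ i ∈ J, ∀ i' ∈ J', ¬ H i i')) ∧
      ∀ i, ((univ : Finset (Finset ι)).filter
        (fun J => i ∈ J ∧ ∃ I : Finset ι, I.card ≤ N ∧ J ∈ comp I)).card ≤ B1 := by
  refine ⟨2 ^ ((Δ + 1) ^ N), fun ι _ H hs hd => ⟨fun I => I.image (fun i => cc H I i), ?_, ?_⟩⟩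
  · intro I _
    refine ⟨?_, ?_, ?_, ?_⟩
    · intro J hJ
      obtain ⟨i, hi, rfl⟩ := mem_image.1 hJ
      exact ⟨filter_subset _ _, i, mem_cc H hi⟩
    · intro i hi
      exact ⟨cc H I i, mem_image.2 ⟨i, hi, rfl⟩, mem_cc H hi⟩
    · intro J hJ J' hJ' hne
      obtain ⟨i, hi, rfl⟩ := mem_image.1 hJ
      obtain ⟨i', hi', rfl⟩ := mem_image.1 hJ'
      rw [disjoint_left]
      intro x hx hx'
      exact hne ((cc_eq hs hx).trans (cc_eq hs hx').symm)
    · intro J hJ J' hJ' hne x hx x' hx' hH
      obtain ⟨i, hi, rfl⟩ := mem_image.1 hJ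
      obtain ⟨i', hi', rfl⟩ := mem_image.1 hJ'
      apply hne
      have h1 : x' ∈ cc H I i := by
        refine mem_filter.2 ⟨(mem_filter.1 hx').1, ?_⟩
        exact (mem_filter.1 hx).2.tail ⟨(mem_filter.1 hx).1, (mem_filter.1 hx').1, hH⟩
      exact (cc_eq hs h1).trans (cc_eq hs hx').symm
  · intro i
    have h1 : ((univ : Finset (Finset ι)).filter
        (fun J => i ∈ J ∧ ∃ I : Finset ι, I.card ≤ N ∧ J ∈ I.image (fun i => cc H I i))) ⊆
        (ball H i N).powerset := by
      intro J hJ
      obtain ⟨hiJ, I, hI, hJI⟩ := (mem_filter.1 hJ).2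
      obtain ⟨i', hi', rfl⟩ := mem_image.1 hJI
      rw [mem_powerset, cc_eq hs hiJ]
      exact cc_sub_ball H (mem_filter.1 hiJ).1 hI
    refine (card_le_card h1).trans ?_
    rw [card_powerset]
    exact Nat.pow_le_pow_right (by norm_num) (ball_card hd i N)

end Pool.Agent.LC0y
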