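import Pool.Agent.Lib_MP_0bab5c_y.Y0

/-!
# The number lemma

`κ = kap = 7 - 4√3 = β^2`, `β = 2 - √3`, `c = 1 + κ = 4 β = 8 - 4√3`, `(1-β)^2 = 2β`.

`num_lemma`: for `0 ≤ s < 1`, `ξ ≤ s`, `ξ ≤ t`, `0 ≤ t`, `0 < p`:
`ξ - p (s+κ)/(1-s) ≤ (t/p) (κ + min 1 (κ/p) * max 0 (1-t-p))`.

Proof.  The right side `F` is `≥ 0`; if `ξ ≤ 0` the left side is `≤ 0`.  Let `ξ > 0`; `(s+κ)/(1-s)` increases with
`s`, so we may take `s = ξ` (then `ξ < 1`): it suffices `f := ξ - p (ξ+κ)/(1-ξ) ≤ F`.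
(a) `f ≤ κ (1-p)/p` for `p ≤ 1`, and `f ≤ 0` for `p ≥ 1`.  Multiply by `(1-ξ)`: with `x = 1-ξ`, `c = 1 + κ`:
`f x = (1-x) x - p (c - x) = x - x^2 - p c + p x`, so `f = 1 + p - x - p c / x ≤ 1 + p - 2 √(p c)`; and
`p (1 + p - 2√(pc)) ≤ κ (1-p)` is `(with p = z^2) z^2 (z - √c)^2 ≤ κ = (c/4)^2`, i.e. `z (√c - z) ≤ c/4` and
`z(√c - z) ≥ -c/4` for `z ≤ 1`.  (Direct: it suffices to show, for all `0 < x ≤ 1`, `0 < p ≤ 1`,
`p (1+p) - p x - p^2 c / x ≤ κ (1-p)`, i.e. `x (p (1+p) - κ (1-p)) ≤ p x^2 + p^2 c`; since `p x^2 + p^2 c ≥ 2 p √(pc) x` and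
`p^2 + c p - κ ≤ 2 p √(c p)`, the last one is the square statement.)
(b) `t ≥ 1 - p`: `F ≥ κ t / p ≥ κ (1-p)/p` if `p ≤ 1`; use (a).
(c) `t < 1 - p`, `p ≤ κ`: `F = (t/p)(κ + 1 - t - p) ≥ (t/p)(1-t) ≥ t ≥ ξ ≥ f`.
(d) `t < 1 - p`, `p > κ`: `F = (t/p)(κ + (κ/p)(1-t-p)) = κ t (1-t)/p^2`.  If `t ≥ p`: `t(1-t) ≥ p(1-p)` (concavity, `p ≤ t ≤ 1-p`)
and (a) applies.  If `t < p`: `t < 1/2`, so `t(1-t) ≥ ξ(1-ξ)`, and it remains
(e) `f ≤ κ ξ (1-ξ)/p^2` for all `p > 0`, `0 < ξ < 1`:  with `A = ξ(1-ξ)`, `B = ξ + κ`: `p^2 (A - p B) ≤ κ ξ (1-ξ)^2`.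
`p^2 (A - p B) ≤ 4 A^3/(27 B^2)` (because `27 B^2 p^2 (A - pB) ≤ 4 A^3` is `(2A - 3pB)^2 (A + 3 p B) ≥ 0`: indeed
`4A^3 - 27 p^2 B^2 A + 27 p^3 B^3 = (2A - 3pB)^2 (A + 3pB)`), and `4 A^3 ≤ 27 B^2 κ ξ (1-ξ)^2`, i.e.
`4 ξ^2 (1-ξ) ≤ 27 κ (ξ+κ)^2` on `[0,1]`: true with 6 percent to spare (use `0.0717 ≤ κ ≤ 0.0719`;
`27 κ (ξ+κ)^2 - 4 ξ^2 (1-ξ)` is a cubic in `ξ`, positive on `[0,1]`, minimum about `0.0138` near `ξ = 0.27`).
-/

namespace Pool.Agent.LC0y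

open Finset Pool.Agent.LC0bab
open scoped Classical

lemma kap_pos : 0 < kap := by
  unfold kap
  have h : Real.sqrt 3 < 7 / 4 := by
    rw [Real.sqrt_lt' (by norm_num)]
    norm_num
  linarith

lemma kap_bounds : 0.0717 < kap ∧ kap < 0.0719 := by
  unfold kap
  have h1 : Real.sqrt 3 < 1.732075 := by
    rw [Real.sqrt_lt' (by norm_num)]
    norm_num
  have h2 : 1.732026 < Real.sqrt 3 := by
    apply Real.lt_sqrt_of_sq_lt
    norm_num
  constructor <;> linarith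

/-- `kap = b^2` with `b^2 = 4 b - 1`. -/
private lemma kap_eq : ∃ b : ℝ, kap = b ^ 2 ∧ b ^ 2 = 4 * b - 1 ∧ 0.2679 < b ∧ b < 0.26798 := by
  have h1 : Real.sqrt 3 < 1.732075 := by
    rw [Real.sqrt_lt' (by norm_num)]
    norm_num
  have h2 : 1.732026 < Real.sqrt 3 := by
    apply Real.lt_sqrt_of_sq_lt
    norm_num
  have h3 : Real.sqrt 3 ^ 2 = 3 := Real.sq_sqrt (by norm_num)
  refine ⟨2 - Real.sqrt 3, ?_, ?_, by linarith, by linarith⟩
  · unfold kap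
    nlinarith
  · nlinarith

private lemma disc_nonpos {q : ℝ} (h1 : 1 / 5 ≤ q) (h2 : q ≤ 4) :
    (q - 1) ^ 2 * (q ^ 2 - 6 * q + 1) ≤ 0 := by
  have h3 : q ^ 2 - 6 * q + 1 ≤ 0 := by nlinarith [mul_nonneg (sub_nonneg.2 h1) (sub_nonneg.2 h2)]
  have h4 : 0 ≤ (q - 1) ^ 2 := sq_nonneg _
  nlinarith

/-- (a), the case `p ≤ 1`, in the form without division. -/
private lemma caseA {x p : ℝ} (hx0 : 0 < x) (hp0 : 0 < p) (hp1 : p ≤ 1) :
    x * (p * (1 + p) - kap * (1 - p)) ≤ p * x ^ 2 + p ^ 2 * (1 + kap) := by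
  obtain ⟨b, hkb, hb2, hb0, hb1⟩ := kap_eq
  have hk : kap = 4 * b - 1 := by rw [hkb, hb2]
  set E : ℝ := p * (1 + p) - kap * (1 - p) with hE
  by_cases hE0 : E ≤ 0
  · have h1 : x * E ≤ 0 := mul_nonpos_of_nonneg_of_nonpos hx0.le hE0
    have h2 : 0 ≤ p * x ^ 2 := by positivity
    have h3 : 0 ≤ p ^ 2 * (1 + kap) := by
      have := kap_pos
      positivity
    linarith
  · push Not at hE0
    -- q = p / b
    have hbpos : (0:ℝ) < b := by linarith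
    obtain ⟨q, hq⟩ : ∃ q : ℝ, p = b * q := ⟨p / b, by field_simp⟩
    have hqpos : 0 < q := by
      by_contra hcon
      push Not at hcon
      have : b * q ≤ 0 := mul_nonpos_of_nonneg_of_nonpos hbpos.le hcon
      linarith
    have hq4 : q ≤ 4 := by
      by_contra hcon
      push Not at hcon
      have : b * 4 < b * q := mul_lt_mul_of_pos_left hcon hbpos
      linarith
    have hEq : E = b ^ 2 * (q ^ 2 + 4 * q - 1) := by
      rw [hE, hq, hkb]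
      have : b * q + (b ^ 2) * (b * q) = 4 * b ^ 2 * q := by
        have h5 : 1 + b ^ 2 = 4 * b := by linarith
        calc b * q + (b ^ 2) * (b * q) = b * q * (1 + b ^ 2) := by ring
          _ = b * q * (4 * b) := by rw [h5]
          _ = 4 * b ^ 2 * q := by ring
      nlinarith [this]
    have hq5 : 1 / 5 ≤ q := by
      by_contra hcon
      push Not at hcon
      have h6 : q ^ 2 + 4 * q - 1 < 0 := by nlinarith
      have h7 : E < 0 := by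
        rw [hEq]
        have : 0 < b ^ 2 := by positivity
        nlinarith
      linarith
    have hdisc : E ^ 2 ≤ 4 * p * (p ^ 2 * (1 + kap)) := by
      have h8 := disc_nonpos hq5 hq4
      have h9 : E ^ 2 - 4 * p * (p ^ 2 * (1 + kap)) =
          b ^ 4 * ((q - 1) ^ 2 * (q ^ 2 - 6 * q + 1)) := by
        rw [hEq, hq, hkb]
        have h5 : 1 + b ^ 2 = 4 * b := by linarith
        rw [h5]
        ring
      have h10 : b ^ 4 * ((q - 1) ^ 2 * (q ^ 2 - 6 * q + 1)) ≤ 0 :=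
        mul_nonpos_of_nonneg_of_nonpos (by positivity) h8
      linarith
    -- discriminant argument: 4 p (p x^2 + C - x E) = (2 p x - E)^2 + (4 p C - E^2)
    have h11 : 0 ≤ 4 * p * (p * x ^ 2 + p ^ 2 * (1 + kap) - x * E) := by
      nlinarith [sq_nonneg (2 * p * x - E)]
    have h12 : 0 ≤ p * x ^ 2 + p ^ 2 * (1 + kap) - x * E := by
      by_contra hcon
      push Not at hcon
      have : 4 * p * (p * x ^ 2 + p ^ 2 * (1 + kap) - x * E) < 0 :=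
        mul_neg_of_pos_of_neg (by linarith) hcon
      linarith
    linarith

/-- (a) for `p ≤ 1`. -/
private lemma caseA1 {ξ p : ℝ} (hξ1 : ξ < 1) (hp0 : 0 < p) (hp1 : p ≤ 1) :
    ξ - p * (ξ + kap) / (1 - ξ) ≤ kap * (1 - p) / p := by
  have hx : 0 < 1 - ξ := by linarith
  have h := caseA hx hp0 hp1
  rw [le_div_iff₀ hp0, sub_mul, sub_le_iff_le_add]
  have h2 : p * (ξ + kap) / (1 - ξ) * p = p ^ 2 * (ξ + kap) / (1 - ξ) := by ring
  rw [h2]
  have h3 : ξ * p - kap * (1 - p) ≤ p ^ 2 * (ξ + kap) / (1 - ξ) := by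
    rw [le_div_iff₀ hx]
    nlinarith
  linarith

private lemma cubic_pos {k ξ : ℝ} (hk0 : 0.0717 < k) (hξ0 : 0 ≤ ξ) (hξ1 : ξ ≤ 1) :
    4 * ξ ^ 2 * (1 - ξ) ≤ 27 * k * (ξ + k) ^ 2 := by
  have h1 : 27 * (0.0717:ℝ) * (ξ + 0.0717) ^ 2 ≤ 27 * k * (ξ + k) ^ 2 := by
    have h2 : (ξ + 0.0717) ^ 2 ≤ (ξ + k) ^ 2 := by nlinarith
    have h3 : 0 ≤ (ξ + 0.0717) ^ 2 := sq_nonneg _
    nlinarith
  have h4 : 4 * ξ ^ 2 * (1 - ξ) ≤ 27 * (0.0717:ℝ) * (ξ + 0.0717) ^ 2 := by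
    nlinarith [mul_nonneg hξ0 (sq_nonneg (ξ - 0.27)), sq_nonneg (ξ - 0.27),
      mul_nonneg (sub_nonneg.2 hξ1) (sq_nonneg (ξ - 0.27))]
  linarith

/-- (e). -/
private lemma caseE {ξ p : ℝ} (hξ0 : 0 < ξ) (hξ1 : ξ < 1) (hp0 : 0 < p) :
    ξ - p * (ξ + kap) / (1 - ξ) ≤ kap * ξ * (1 - ξ) / p ^ 2 := by
  obtain ⟨hk0, hk1⟩ := kap_bounds
  have hx : 0 < 1 - ξ := by linarith
  set A : ℝ := ξ * (1 - ξ) with hA
  set B : ℝ := ξ + kap with hB
  have hApos : 0 < A := mul_pos hξ0 hx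
  have hBpos : 0 < B := by
    rw [hB]
    have := kap_pos
    linarith
  have h1 : 27 * B ^ 2 * (p ^ 2 * (A - p * B)) ≤ 4 * A ^ 3 := by
    have h2 : 4 * A ^ 3 - 27 * B ^ 2 * (p ^ 2 * (A - p * B)) = (2 * A - 3 * p * B) ^ 2 * (A + 3 * p * B) := by
      ring
    have h3 : 0 ≤ (2 * A - 3 * p * B) ^ 2 * (A + 3 * p * B) := by positivity
    linarith
  have h4 : 4 * A ^ 3 ≤ 27 * B ^ 2 * (kap * ξ * (1 - ξ) ^ 2) := by
    have h5 := cubic_pos hk0 hξ0.le hξ1.le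
    have h6 : 4 * A ^ 3 = (ξ * (1 - ξ) ^ 2) * (4 * ξ ^ 2 * (1 - ξ)) := by
      rw [hA]
      ring
    have h7 : 27 * B ^ 2 * (kap * ξ * (1 - ξ) ^ 2) = (ξ * (1 - ξ) ^ 2) * (27 * kap * (ξ + kap) ^ 2) := by
      rw [hB]
      ring
    rw [h6, h7]
    exact mul_le_mul_of_nonneg_left h5 (by positivity)
  have h8 : p ^ 2 * (A - p * B) ≤ kap * ξ * (1 - ξ) ^ 2 := by
    have h9 : 0 < 27 * B ^ 2 := by positivity
    exact le_of_mul_le_mul_left (h1.trans h4) h9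
  have h10 : ξ - p * B / (1 - ξ) = (A - p * B) / (1 - ξ) := by
    rw [hA]
    field_simp
  rw [h10, div_le_div_iff₀ hx (by positivity)]
  nlinarith

/-- The number lemma. -/
theorem num_lemma {s ξ t p : ℝ} (hs0 : 0 ≤ s) (hs1 : s < 1) (hξs : ξ ≤ s) (hξt : ξ ≤ t)
    (ht : 0 ≤ t) (hp : 0 < p) :
    ξ - p * (s + kap) / (1 - s) ≤
      t / p * (kap + min 1 (kap / p) * max 0 (1 - t - p)) := by
  have hkpos := kap_pos
  have hx : 0 < 1 - s := by linarith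
  have hF0 : 0 ≤ t / p * (kap + min 1 (kap / p) * max 0 (1 - t - p)) := by
    have h1 : 0 ≤ min 1 (kap / p) := le_min (by norm_num) (by positivity)
    have h2 : 0 ≤ max 0 (1 - t - p) := le_max_left _ _
    have h3 : 0 ≤ t / p := by positivity
    have h4 : 0 ≤ min 1 (kap / p) * max 0 (1 - t - p) := mul_nonneg h1 h2
    exact mul_nonneg h3 (by linarith)
  rcases le_or_gt ξ 0 with hξ | hξ
  · have h5 : 0 ≤ p * (s + kap) / (1 - s) := by positivity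
    linarith
  have hξ1 : ξ < 1 := lt_of_le_of_lt hξs hs1
  have hxi : 0 < 1 - ξ := by linarith
  -- reduce to s = ξ
  have hmono : p * (ξ + kap) / (1 - ξ) ≤ p * (s + kap) / (1 - s) := by
    rw [div_le_div_iff₀ hxi hx]
    have h6 : (ξ + kap) * (1 - s) ≤ (s + kap) * (1 - ξ) := by nlinarith
    nlinarith
  have hred : ξ - p * (s + kap) / (1 - s) ≤ ξ - p * (ξ + kap) / (1 - ξ) := by linarith
  refine hred.trans ?_
  rcases le_or_gt 1 p with hp1 | hp1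
  · have h7 : ξ ≤ p * (ξ + kap) / (1 - ξ) := by
      rw [le_div_iff₀ hxi]
      nlinarith
    linarith
  have hA := caseA1 hξ1 hp hp1.le
  rcases le_or_gt (1 - p) t with htp | htp
  · have h8 : max 0 (1 - t - p) = 0 := max_eq_left (by linarith)
    rw [h8, mul_zero, add_zero]
    refine hA.trans ?_
    have h9 : t / p * kap = kap * t / p := by ring
    rw [h9]
    apply div_le_div_of_nonneg_right _ hp.le
    exact mul_le_mul_of_nonneg_left htp hkpos.le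
  have h10 : max 0 (1 - t - p) = 1 - t - p := max_eq_right (by linarith)
  rw [h10]
  rcases le_or_gt p kap with hpk | hpk
  · have h11 : min 1 (kap / p) = 1 := min_eq_left (by rw [le_div_iff₀ hp]; linarith)
    rw [h11, one_mul]
    have h12 : t ≤ t / p * (kap + (1 - t - p)) := by
      have h13 : t / p * (kap + (1 - t - p)) = t * (kap + (1 - t - p)) / p := by ring
      rw [h13, le_div_iff₀ hp]
      apply mul_le_mul_of_nonneg_left _ ht
      linarith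
    have h14 : 0 ≤ p * (ξ + kap) / (1 - ξ) := by positivity
    linarith
  · have h15 : min 1 (kap / p) = kap / p := min_eq_right (by rw [div_le_one hp]; exact hpk.le)
    rw [h15]
    have h16 : t / p * (kap + kap / p * (1 - t - p)) = kap * (t * (1 - t)) / p ^ 2 := by
      field_simp
      ring
    rw [h16]
    rcases le_or_gt p t with hpt | hpt
    · refine hA.trans ?_
      rw [div_le_div_iff₀ hp (by positivity)]
      have h17 : p * (1 - p) ≤ t * (1 - t) := by nlinarith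
      have h18 : kap * (p * (1 - p)) ≤ kap * (t * (1 - t)) := mul_le_mul_of_nonneg_left h17 hkpos.le
      nlinarith
    · refine (caseE hξ hξ1 hp).trans ?_
      apply div_le_div_of_nonneg_right _ (by positivity)
      have h19 : ξ * (1 - ξ) ≤ t * (1 - t) := by nlinarith
      calc kap * ξ * (1 - ξ) = kap * (ξ * (1 - ξ)) := by ring
        _ ≤ kap * (t * (1 - t)) := mul_le_mul_of_nonneg_left h19 hkpos.le

end Pool.Agent.LC0y
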