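import Pool.Agent.Lib_MP_0bab5c_y.Y0

/-!
# Frames (homes and classes), cut systems, keys and twins
-/

namespace Pool.Agent.LC0y

open Finset Pool.Agent.LC0bab
open scoped Classical

universe u

variable {V ι : Type u}

/-- Homes `E i` and, for every vertex, its classes (disjoint nonempty sets of homes). -/
structure Frame [Fintype ι] (G : SimpleGraph V) (W : Finset V) (k N B1 : ℕ) (E : ι → Finset V)
    (cls : V → Finset (Finset ι)) : Prop where
  sub : ∀ i, E i ⊆ W
  disj : ∀ i j, i ≠ j → Disjoint (E i) (E j)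
  cardE : ∀ i, (E i).card ≤ 16 * k
  cardN : ∀ i, (nbs G W (E i)).card ≤ 18 * k
  cdisj : ∀ v ∈ W, ∀ J ∈ cls v, ∀ J' ∈ cls v, J ≠ J' → Disjoint J J'
  csize : ∀ v ∈ W, ∑ J ∈ cls v, J.card ≤ N
  cne : ∀ v ∈ W, ∀ J ∈ cls v, J.Nonempty
  ccount : ∀ i, ((univ : Finset (Finset ι)).filter
    (fun J => i ∈ J ∧ ∃ v ∈ W, J ∈ cls v)).card ≤ B1

/-- A family of cuts: any two different vertices of `W` are separated in one direction. -/
structure CutSys (G : SimpleGraph V) (W : Finset V) (k : ℕ) (σ : ℝ)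
    (Cut : V → V → Finset V → Prop) : Prop where
  sep : ∀ v z A, Cut v z A → SepSet G W v z A
  small : ∀ v z A, Cut v z A → ((bd G W A).card : ℝ) ≤ (1 + σ) * k
  total : ∀ v ∈ W, ∀ z ∈ W, v ≠ z → (∃ A, Cut v z A) ∨ (∃ A, Cut z v A)

/-- `v` and `z` have almost the same degrees to all payer cells of the homes of `J`. -/
def SameKey {M : ℕ} (G : SimpleGraph V) (E : ι → Finset V) (c : ι → V → Fin M) (q : ℝ)
    (J : Finset ι) (v z : V) : Prop :=
  ∀ i ∈ J, (nb G (E i) v = ∅ ↔ nb G (E i) z = ∅) ∧ ∀ j : Fin M,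
    |((nb G (cell (E i) (c i) j) v).card : ℝ) - ((nb G (cell (E i) (c i) j) z).card : ℝ)| ≤
      q * ((cell (E i) (c i) j).card : ℝ)

/-- The key of `v` with respect to the class `J`. -/
noncomputable def keyf {M : ℕ} (G : SimpleGraph V) (E : ι → Finset V) (c : ι → V → Fin M) (q : ℝ)
    (J : Finset ι) (v : V) : ι → Option (Fin M → ℕ) := fun i =>
  if i ∈ J then
    (if nb G (E i) v = ∅ then none else
      some (fun j => ⌊((nb G (cell (E i) (c i) j) v).card : ℝ) /
        (q * ((cell (E i) (c i) j).card : ℝ))⌋₊))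
  else none

/-- The twin map `nx` and the set `Ex` of exceptional pairs (vertex, class). -/
structure Twins {M : ℕ} (G : SimpleGraph V) (W : Finset V) (E : ι → Finset V)
    (c : ι → V → Fin M) (q : ℝ) (cls : V → Finset (Finset ι)) (Cut : V → V → Finset V → Prop)
    (nx : Finset ι → V → V) (Ex : Finset (V × Finset ι)) : Prop where
  mem : ∀ v ∈ W, ∀ J ∈ cls v, (v, J) ∉ Ex → nx J v ∈ W ∧ J ∈ cls (nx J v) ∧ nx J v ≠ v
  key : ∀ v ∈ W, ∀ J ∈ cls v, (v, J) ∉ Ex → keyf G E c q J (nx J v) = keyf G E c q J v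
  cut : ∀ v ∈ W, ∀ J ∈ cls v, (v, J) ∉ Ex → ∃ A, Cut v (nx J v) A
  inj : ∀ J, ∀ v ∈ W, ∀ v' ∈ W, J ∈ cls v → J ∈ cls v' → (v, J) ∉ Ex → (v', J) ∉ Ex →
    nx J v = nx J v' → v = v'

/-- `v` may request from `x` within the home `i`. -/
def MReq (G : SimpleGraph V) (W : Finset V) (cls : V → Finset (Finset ι))
    (nx : Finset ι → V → V) (Ex : Finset (V × Finset ι)) (i : ι) (v x : V) : Prop :=
  v ∈ W ∧ G.Adj v x ∧ ∃ J ∈ cls v, i ∈ J ∧ (v, J) ∉ Ex ∧ ¬ G.Adj (nx J v) x

/-- The set `C` is split by the cut side `A`. -/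
def Split (G : SimpleGraph V) (W : Finset V) (η : ℝ) (A C : Finset V) : Prop :=
  η * (C.card : ℝ) ≤ ((A ∩ C).card : ℝ) ∧
    η * (C.card : ℝ) ≤ (((W \ (A ∪ bd G W A)) ∩ C).card : ℝ)

/-- Equal keys imply almost equal degrees. -/
theorem sameKey_of_keyf {M : ℕ} {G : SimpleGraph V} {E : ι → Finset V} {c : ι → V → Fin M}
    {q : ℝ} (hq : 0 < q) {J : Finset ι} {v z : V} (h : keyf G E c q J v = keyf G E c q J z) :
    SameKey G E c q J v z := by
  intro i hi
  have h1 := congrFun h i
  unfold keyf at h1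
  simp only [hi, if_true] at h1
  by_cases hv : nb G (E i) v = ∅
  · by_cases hz : nb G (E i) z = ∅
    · refine ⟨⟨fun _ => hz, fun _ => hv⟩, fun j => ?_⟩
      have e1 : nb G (cell (E i) (c i) j) v = ∅ := by
        rw [← subset_empty, ← hv]
        exact nb_mono cell_subset v
      have e2 : nb G (cell (E i) (c i) j) z = ∅ := by
        rw [← subset_empty, ← hz]
        exact nb_mono cell_subset z
      rw [e1, e2]
      simp only [card_empty, Nat.cast_zero, sub_self, abs_zero]
      positivity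
    · simp [hv, hz] at h1
  · by_cases hz : nb G (E i) z = ∅
    · simp [hv, hz] at h1
    · refine ⟨⟨fun h => absurd h hv, fun h => absurd h hz⟩, fun j => ?_⟩
      simp only [hv, hz, if_false, Option.some.injEq] at h1
      have h2 := congrFun h1 j
      rcases (Nat.cast_nonneg (α := ℝ) (cell (E i) (c i) j).card).eq_or_lt with h0 | h0
      · have e0 : cell (E i) (c i) j = ∅ := by
          rw [← card_eq_zero]
          exact_mod_cast h0.symm
        rw [e0]
        simp [nb]
      · have hqc : 0 < q * ((cell (E i) (c i) j).card : ℝ) := mul_pos hq h0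
        set a : ℝ := ((nb G (cell (E i) (c i) j) v).card : ℝ) with ha
        set b : ℝ := ((nb G (cell (E i) (c i) j) z).card : ℝ) with hb
        have ha0 : 0 ≤ a := by rw [ha]; positivity
        have hb0 : 0 ≤ b := by rw [hb]; positivity
        have f1 := Nat.floor_le (a := a / (q * ((cell (E i) (c i) j).card : ℝ))) (by positivity)
        have f2 := Nat.lt_floor_add_one (a / (q * ((cell (E i) (c i) j).card : ℝ)))
        have f3 := Nat.floor_le (a := b / (q * ((cell (E i) (c i) j).card : ℝ))) (by positivity)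
        have f4 := Nat.lt_floor_add_one (b / (q * ((cell (E i) (c i) j).card : ℝ)))
        rw [h2] at f1 f2
        rw [div_lt_iff₀ hqc] at f2 f4
        rw [le_div_iff₀ hqc] at f1 f3
        rw [abs_le]
        constructor <;> nlinarith

end Pool.Agent.LC0y
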