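import Pool.Agent.Lib_MP_0bab5c_y.IN
import Pool.Agent.Lib_MP_0bab5c_y.RF

/-!
# Trimmed cuts

Let `A` be the small cut side of `SmC G W k v z` (`|A| ≤ 16 k`, `|bd A| ≤ k`).  `A1 = A ∩ Q v`: by `QSys.cap`
`bp A1 ≤ bp A ≤ k + 16 θ k`.  `A2 = A1` without the vertices different from `v` which lie in no home: at most
`δ0 k` vertices are removed (`QBd.hub`), and `bd A2 ⊆ bd A1 ∪ (removed vertices)`, so
`|bd A2| ≤ (1 + 16 θ + δ0) k`.  `SepSet` is inherited by subsets containing `v`.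
-/

namespace Pool.Agent.LC0y

open Finset Pool.Agent.LC0bab
open scoped Classical

universe u

/-- Trimmed cut. -/
structure TCut {V ι : Type u} (G : SimpleGraph V) (W : Finset V) (k : ℕ) (θ δ0 : ℝ)
    (E : ι → Finset V) (Q : V → Finset V) (v z : V) (A : Finset V) : Prop where
  sep : SepSet G W v z A
  inQ : A ⊆ Q v
  homes : ∀ a ∈ A, a ≠ v → ∃ i, a ∈ E i
  bdA : ((bd G W A).card : ℝ) ≤ (1 + (16 * θ + δ0)) * k

theorem trim {V ι : Type u} [Fintype ι] {G : SimpleGraph V} {W : Finset V} {k : ℕ}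
    {θ δ0 : ℝ} (hθ : 0 ≤ θ) {E : ι → Finset V} {Q : V → Finset V} (hQ : QSys G W θ Q)
    (hB : QBd G W k θ δ0 E Q) {v z : V} (hv : v ∈ W) (h : SmC G W k v z) :
    ∃ A, TCut G W k θ δ0 E Q v z A := by
  obtain ⟨A, hsep, hbd, hcard⟩ := h
  have hvA : v ∈ A := hsep.mem
  have hcap := hQ.cap hv hsep.sub hvA
  have hvQ := hQ.mem v hv
  set A1 : Finset V := A ∩ Q v with hA1
  set A2 : Finset V := A1.filter (fun a => a = v ∨ ∃ i, a ∈ E i) with hA2
  set R : Finset V := (Q v).filter (fun a => ∀ i, a ∉ E i) with hR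
  have hv1 : v ∈ A1 := mem_inter.2 ⟨hvA, hvQ⟩
  have h21 : A2 ⊆ A1 := filter_subset _ _
  have h1A : A1 ⊆ A := inter_subset_left
  have hsub : bd G W A2 ⊆ bd G W A1 ∪ R := by
    intro w hw
    obtain ⟨hwW, hw2, a, ha, haw⟩ := mem_bd.1 hw
    by_cases hw1 : w ∈ A1
    · refine mem_union_right _ (mem_filter.2 ⟨(mem_inter.1 hw1).2, ?_⟩)
      intro i hi
      exact hw2 (mem_filter.2 ⟨hw1, Or.inr ⟨i, hi⟩⟩)
    · exact mem_union_left _ (mem_bd.2 ⟨hwW, hw1, a, h21 ha, haw⟩)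
  refine ⟨A2, ⟨(h21.trans h1A).trans hsep.sub, mem_filter.2 ⟨hv1, Or.inl rfl⟩,
    fun hz => hsep.out (h1A (h21 hz)), fun a ha haz => hsep.adj a (h1A (h21 ha)) haz⟩,
    fun a ha => (mem_inter.1 (h21 ha)).2, ?_, ?_⟩
  · intro a ha hav
    exact (mem_filter.1 ha).2.resolve_left hav
  · have h1 : ((bd G W A2).card : ℝ) ≤ ((bd G W A1).card : ℝ) + (R.card : ℝ) := by
      exact_mod_cast (card_le_card hsub).trans (card_union_le _ _)
    have h2 : (R.card : ℝ) ≤ δ0 * k := by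
      convert hB.hub v hv
    have h3 : ((bd G W A).card : ℝ) ≤ k := by exact_mod_cast hbd
    have h4 : (A.card : ℝ) ≤ 16 * k := by exact_mod_cast hcard
    have h5 : θ * (A.card : ℝ) ≤ θ * (16 * k) := mul_le_mul_of_nonneg_left h4 hθ
    have h6 : 0 ≤ θ * (A1.card : ℝ) := mul_nonneg hθ (Nat.cast_nonneg _)
    unfold bp at hcap
    linarith

theorem trim_cutsys {V ι : Type u} [Fintype ι] {G : SimpleGraph V} {W : Finset V} {k : ℕ}
    {n ε θ δ0 ε1 : ℝ} (hθ : 0 ≤ θ) {E : ι → Finset V} (hC : Clean G W k n ε θ δ0 ε1 E)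
    {Q : V → Finset V} (hQ : QSys G W θ Q) (hB : QBd G W k θ δ0 E Q) :
    CutSys G W k (16 * θ + δ0) (fun v z A => v ∈ W ∧ TCut G W k θ δ0 E Q v z A) := by
  refine ⟨fun v z A h => h.2.sep, fun v z A h => h.2.bdA, ?_⟩
  intro v hv z hz hvz
  rcases hC.scut v hv z hz hvz with h | h
  · obtain ⟨A, hA⟩ := trim hθ hQ hB hv h
    exact Or.inl ⟨A, hv, hA⟩
  · obtain ⟨A, hA⟩ := trim hθ hQ hB hz h
    exact Or.inr ⟨A, hz, hA⟩

end Pool.Agent.LC0y
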