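import Pool.Agent.Lib_MP_0bab5c_y.FR0
import Pool.Agent.Lib_MP_0bab5c_y.TR

/-!
# Separation of the classes and the bracket inequalities

`Z J = Q u ∩ EJ E J` for `J ∈ cls u`, `u` in no home.

`cls_sep`.  A vertex `y ∈ bd (Z J)` is (a) in `bd (Q u)`, or (b) in `Q u ∩ E i'` with `i' ∉ J`, `i' ∈ J'` for another class (then
`y ∈ E i' ∩ nbs (E i)` for some `i ∈ J`), or (c) in `Q u` and in no home.  (c) costs at most `δ0 k` for each `J`; (b) costs, summed over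
`J`, at most `∑_{(i,i')} δ k ≤ N^2 δ k ≤ δ0 k`.  (a): a vertex of `bd (Q u)` lying in `r ≥ 1` of the sets `bd (Z J)` lies in at
least `r - 1` of the sets `nbs (E i) ∩ nbs (E i')` with `i < i'` in different classes (count pairs of classes: `r - 1 ≤ r(r-1)/2`); so
`∑_J |bd (Z J) ∩ bd (Q u)| ≤ |bd (Q u) ∩ ⋃ bd (Z J)| + N^2 δ k`.  The set `R = nb W u \ (Q u ∪ ⋃ bd (Z J))` is contained in
`bd (Q u)` and disjoint from all `bd (Z J)`.  Altogether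
`∑_J |bd (Z J)| + |R| ≤ |bd (Q u)| + 2 δ0 k + |cls u| δ0 k`.
`cls_card`: by `QBd.low` each `|bd (Z J)| ≥ k/31` (`Z J` is nonempty), so `|cls u| (1/31 - δ0) ≤ 1 + 16 θ + 2 δ0`, hence `|cls u| ≤ 33` for `δ0 ≤
1/1000`, `16 θ ≤ 1/100`.

`deg_split`: `nb W u ⊆ Q u ∪ bd (Q u)`; a neighbour in `Q u` in a home lies in some `Z J`; neighbours in `Q u` in no home: at
most `δ0 k`.  So `|nb W u| ≤ ∑_J |nb (Z J ∪ bd (Z J)) u| + |R| + δ0 k`.

`bracket_hub`.  `A` trimmed cut of `u`, `Z = Z J`.  `bd (A ∪ Z) ⊆ (bd A \ Z) ∪ (bd Z \ (A ∪ bd A))`, `A ∪ Z ⊆ Q u` contains `u`, so by `QSys.min`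
`bp (Q u) ≤ |bd A| - |bd A ∩ Z| + |bd Z| - |bd Z ∩ (A ∪ bd A)| + 15 θ k`, i.e.
(*) `|bd A ∩ Z| + |bd Z ∩ (A ∪ bd A)| ≤ (1 + 16 θ + δ0) k + |bd Z| - bp (Q u) + 15 θ k`.
With `F = EJ E J \ (Z ∪ bd Z)`: `|nb (Z ∪ bd Z) u| - |nb (EJ) u| = |nb (bd Z \ EJ) u| - |nb F u|` and
`|bd A ∩ EJ| ≤ |bd A ∩ Z| + |bd A ∩ bd Z ∩ EJ| + |bd A ∩ F|`.  A vertex `y ∈ bd A ∩ F` is adjacent to `u` (then `y ∈ nb F u`) or to some
`a ∈ A`, `a ≠ u`, which lies in a home `E i'` and in `Q u`, so `i'` lies in a class `J'`; `J' = J` would give `a ∈ Z`, `y ∈ bd Z` (or `y ∈ Z`),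
impossible; so `y ∈ E i ∩ nbs (E i')` with `i ∈ J`, `i' ∈ J'`: at most `N^2 δ k ≤ δ0 k` such `y`.  Finally
`nb (bd Z \ EJ) u ⊆ (bd Z \ EJ) ∩ (A ∪ bd A)`.  Hence
`|nb (Z ∪ bd Z) u| - (|nb (EJ) u| - |bd A ∩ EJ|) ≤ |bd A ∩ Z| + |bd Z ∩ (A ∪ bd A)| + δ0 k`, and (*) finishes.

`bracket_home`.  `v ∈ E i0`, `cls v = {J}`.  A neighbour `y ∈ W \ EJ` of `v` is not in `A` (elements of `A` other than `v` lie in homes, and a home
adjacent to `v` is in `J`), so it is in `bd A \ EJ`.  Hence `|nb W v| = |nb (EJ) v| + |nb (W \ EJ) v| ≤ |nb (EJ) v| + |bd A| - |bd A ∩ EJ|`.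
-/

namespace Pool.Agent.LC0y

open Finset Pool.Agent.LC0bab
open scoped Classical

universe u

/-- The part of the region of `u` in the homes of `J`. -/
noncomputable def ZZ {V ι : Type u} (E : ι → Finset V) (Q : V → Finset V) (u : V)
    (J : Finset ι) : Finset V := Q u ∩ EJ E J

/-- Neighbours of `u` outside the region and outside the boundaries of the classes. -/
noncomputable def RR {V ι : Type u} (G : SimpleGraph V) (W : Finset V) (E : ι → Finset V)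
    (Q : V → Finset V) (cls : V → Finset (Finset ι)) (u : V) : Finset V :=
  nb G W u \ (Q u ∪ (cls u).biUnion (fun J => bd G W (ZZ E Q u J)))

end Pool.Agent.LC0y
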