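import Pool.Agent.Lib_MP_0bab5c_y.PY0

/-!
# The slack inequality

`Z ⊆ Hm` is a class of the hub `u`, `U = UU G Q Z u`, `Y = Z \ U`, `p ≥ |bd Z|`, `V' ⊆ U`.
`req v x ≥ 0` is supported on pairs with `v ∈ W`, `v ~ x`, `x ∈ Q v`.
`slack`: `∑_{x ∈ V'} (D x + Req x - Rec x) ≤ |V'| (|U| + p) + ∑_{x ∈ V'} |nb Y x| + e` where `D x = |nb W x|`,
`Req x = ∑_{v ∈ W} req v x`, `Rec x = ∑_{y ∈ W} req x y`, and `e` bounds
`∑_{v ∈ W} max 0 (|nb V' v| + ∑_{x ∈ V'} req v x - |V'|)`.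

Proof.  For `x ∈ V'`: `N(x) ∩ W ⊆ Z ∪ bd Z = V' ∪ (U \ V') ∪ Y ∪ bd Z` (disjoint), so
`∑ D x = ∑_{x∈V'} |nb V' x| + ∑_{x∈V'} |nb Y x| + ∑_{v ∈ (U \ V') ∪ bd Z} |nb V' v|` (double counting), and the first sum
is `≤ |V'|^2`.  `∑_{x∈V'} Req x = ∑_{v ∈ W} ∑_{x ∈ V'} req v x`.  The part of `v ∈ V'` is at most
`∑_{v ∈ V'} Rec v`.  If `v ∉ V'` requests from `x ∈ V'`: `v ∈ N(x)`, so `v ∈ Z` or `v ∈ bd Z`; `v ∈ Y` is impossible:
`x ∈ Q v` implies `Q x ⊆ Q v` and `Q x` contains a neighbour of `u`, so `v ∈ U`.  So `v ∈ T := (U \ V') ∪ bd Z`, and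
`∑_{v ∈ T} (|nb V' v| + ∑_{x∈V'} req v x) ≤ |T| |V'| + e ≤ (|U| - |V'| + p)|V'| + e`.  Add.
-/

namespace Pool.Agent.LC0y

open Finset Pool.Agent.LC0bab
open scoped Classical

universe u

variable {V : Type u}

theorem slack (G : SimpleGraph V) (W : Finset V) (Q : V → Finset V) (req : V → V → ℝ)
    (hreq : ∀ v x, 0 ≤ req v x)
    (hsupp : ∀ v x, req v x ≠ 0 → v ∈ W ∧ G.Adj v x ∧ x ∈ Q v)
    (hQQ : ∀ v ∈ W, ∀ w ∈ Q v, Q w ⊆ Q v)
    (Z : Finset V) (hZ : Z ⊆ W) (u : V) (p : ℝ) (hp : ((bd G W Z).card : ℝ) ≤ p)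
    (V' : Finset V) (hV : V' ⊆ UU G Q Z u) (e : ℝ)
    (he : ∑ v ∈ W, max 0 (((nb G V' v).card : ℝ) + ∑ x ∈ V', req v x - (V'.card : ℝ)) ≤ e) :
    ∑ x ∈ V', (((nb G W x).card : ℝ) + ∑ v ∈ W, req v x - ∑ y ∈ W, req x y) ≤
      (V'.card : ℝ) * (((UU G Q Z u).card : ℝ) + p) +
        ∑ x ∈ V', ((nb G (Z \ UU G Q Z u) x).card : ℝ) + e := by
  set U := UU G Q Z u with hU
  set Y := Z \ U with hY
  set T := (U \ V') ∪ bd G W Z with hT
  have hUZ : U ⊆ Z := filter_subset _ _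
  have hVZ : V' ⊆ Z := hV.trans hUZ
  have hVW : V' ⊆ W := hVZ.trans hZ
  have hYW : Y ⊆ W := sdiff_subset.trans hZ
  have hTW : T ⊆ W := union_subset (sdiff_subset.trans (hUZ.trans hZ)) bd_subset
  let a : V → V → ℝ := fun x v => if G.Adj x v then 1 else 0
  have ha0 : ∀ x v, 0 ≤ a x v := fun x v => by
    show (0 : ℝ) ≤ if G.Adj x v then 1 else 0
    split_ifs
    · exact zero_le_one
    · exact le_rfl
  have ha1 : ∀ x v, a x v ≤ 1 := fun x v => by
    show (if G.Adj x v then 1 else 0 : ℝ) ≤ 1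
    split_ifs
    · exact le_rfl
    · exact zero_le_one
  have hnb : ∀ (S : Finset V) (x : V), ((nb G S x).card : ℝ) = ∑ v ∈ S, a x v := fun S x => by
    show (((S.filter (fun v => G.Adj x v)).card : ℕ) : ℝ) = ∑ v ∈ S, if G.Adj x v then (1 : ℝ) else 0
    rw [Finset.card_filter, Nat.cast_sum]
    refine sum_congr rfl fun v _ => ?_
    split_ifs
    · exact Nat.cast_one
    · exact Nat.cast_zero
  have hac : ∀ x v, a x v = a v x := fun x v => by
    show (if G.Adj x v then (1 : ℝ) else 0) = if G.Adj v x then 1 else 0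
    simp only [G.adj_comm]
  -- pointwise bound
  have hpt : ∀ x ∈ V', ∀ v ∈ W, a x v + req v x ≤
      (if v ∈ V' then a x v + req v x else 0) + (if v ∈ T then a x v + req v x else 0) +
        (if v ∈ Y then a x v else 0) := by
    intro x hx v hv
    have hf0 : 0 ≤ a x v + req v x := add_nonneg (ha0 x v) (hreq v x)
    have h1 : (0 : ℝ) ≤ if v ∈ V' then a x v + req v x else 0 := by
      split_ifs
      · exact hf0
      · exact le_rfl
    have h2 : (0 : ℝ) ≤ if v ∈ T then a x v + req v x else 0 := by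
      split_ifs
      · exact hf0
      · exact le_rfl
    have h3 : (0 : ℝ) ≤ if v ∈ Y then a x v else 0 := by
      split_ifs
      · exact ha0 x v
      · exact le_rfl
    by_cases hvV : v ∈ V'
    · rw [if_pos hvV]
      linarith
    by_cases hvT : v ∈ T
    · rw [if_pos hvT]
      linarith
    by_cases hvY : v ∈ Y
    · -- no request from `Y`
      have hr : req v x = 0 := by
        by_contra hne
        obtain ⟨hvW, hadj, hxQ⟩ := hsupp v x hne
        have hxU : x ∈ U := hV hx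
        rw [hU, UU, mem_filter] at hxU
        obtain ⟨-, y, hy, hyu⟩ := hxU
        have hvZ : v ∈ Z := (mem_sdiff.1 hvY).1
        have hvU : v ∈ U := by
          rw [hU, UU, mem_filter]
          exact ⟨hvZ, y, hQQ v hvW x hxQ hy, hyu⟩
        exact (mem_sdiff.1 hvY).2 hvU
      rw [if_pos hvY]
      linarith
    · -- `v` is not adjacent to `x`
      have hvZ : v ∉ Z := by
        intro hvZ
        by_cases hvU : v ∈ U
        · exact hvT (mem_union_left _ (mem_sdiff.2 ⟨hvU, hvV⟩))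
        · exact hvY (mem_sdiff.2 ⟨hvZ, hvU⟩)
      have hna : ¬ G.Adj x v := by
        intro hadj
        exact hvT (mem_union_right _ (mem_bd.2 ⟨hv, hvZ, x, hVZ hx, hadj⟩))
      have ha : a x v = 0 := if_neg hna
      have hr : req v x = 0 := by
        by_contra hne
        exact hna (hsupp v x hne).2.1.symm
      have hz : a x v + req v x = 0 := by rw [ha, hr, add_zero]
      linarith
  have hsum : ∀ x ∈ V', ∑ v ∈ W, (a x v + req v x) ≤
      ∑ v ∈ V', (a x v + req v x) + ∑ v ∈ T, (a x v + req v x) + ∑ v ∈ Y, a x v := by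
    intro x hx
    refine (sum_le_sum (hpt x hx)).trans (le_of_eq ?_)
    rw [sum_add_distrib, sum_add_distrib, sum_ite_mem, sum_ite_mem, sum_ite_mem,
      inter_eq_right.2 hVW, inter_eq_right.2 hTW, inter_eq_right.2 hYW]
  have hrec : ∀ x ∈ V', ∑ y ∈ V', req x y ≤ ∑ y ∈ W, req x y := fun x _ =>
    sum_le_sum_of_subset_of_nonneg hVW fun y _ _ => hreq x y
  -- the part of `T`
  have hTt : ∑ v ∈ T, ∑ x ∈ V', (a x v + req v x) ≤ (T.card : ℝ) * V'.card + e := by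
    have h1 : ∀ v ∈ T, ∑ x ∈ V', (a x v + req v x) ≤ (V'.card : ℝ) +
        max 0 (((nb G V' v).card : ℝ) + ∑ x ∈ V', req v x - (V'.card : ℝ)) := by
      intro v _
      have h2 : ∑ x ∈ V', (a x v + req v x) = ((nb G V' v).card : ℝ) + ∑ x ∈ V', req v x := by
        rw [sum_add_distrib, hnb]
        congr 1
        exact sum_congr rfl fun x _ => hac x v
      rw [h2]
      have h3 := le_max_right (0 : ℝ)
        (((nb G V' v).card : ℝ) + ∑ x ∈ V', req v x - (V'.card : ℝ))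
      linarith
    refine (sum_le_sum h1).trans ?_
    rw [sum_add_distrib, sum_const, nsmul_eq_mul]
    have h4 : ∑ v ∈ T, max 0 (((nb G V' v).card : ℝ) + ∑ x ∈ V', req v x - (V'.card : ℝ)) ≤ e :=
      (sum_le_sum_of_subset_of_nonneg hTW fun v _ _ => le_max_left _ _).trans he
    linarith
  have hTc : (T.card : ℝ) ≤ (U.card : ℝ) - V'.card + p := by
    have h1 : T.card ≤ (U \ V').card + (bd G W Z).card := card_union_le _ _
    have h2 : (U \ V').card + V'.card = U.card := by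
      rw [card_sdiff_add_card_eq_card hV]
    have h3 : (T.card : ℝ) ≤ ((U \ V').card : ℝ) + ((bd G W Z).card : ℝ) := by exact_mod_cast h1
    have h4 : ((U \ V').card : ℝ) + (V'.card : ℝ) = (U.card : ℝ) := by exact_mod_cast h2
    linarith
  have hVV : ∑ x ∈ V', ∑ v ∈ V', a x v ≤ (V'.card : ℝ) * V'.card := by
    have h1 : ∑ x ∈ V', ∑ v ∈ V', a x v ≤ ∑ _x ∈ V', ∑ _v ∈ V', (1 : ℝ) :=
      sum_le_sum fun x _ => sum_le_sum fun v _ => ha1 x v
    refine h1.trans (le_of_eq ?_)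
    simp
  -- assembly
  have hL : ∑ x ∈ V', (((nb G W x).card : ℝ) + ∑ v ∈ W, req v x - ∑ y ∈ W, req x y) ≤
      ∑ x ∈ V', (∑ v ∈ V', (a x v + req v x) + ∑ v ∈ T, (a x v + req v x) + ∑ v ∈ Y, a x v -
        ∑ y ∈ V', req x y) := by
    refine sum_le_sum fun x hx => ?_
    have h1 := hsum x hx
    have h2 := hrec x hx
    rw [sum_add_distrib, ← hnb] at h1
    linarith
  refine hL.trans ?_
  rw [sum_sub_distrib, sum_add_distrib, sum_add_distrib]
  have h5 : ∑ x ∈ V', ∑ v ∈ V', (a x v + req v x) =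
      ∑ x ∈ V', ∑ v ∈ V', a x v + ∑ x ∈ V', ∑ y ∈ V', req x y := by
    simp only [sum_add_distrib]
    congr 1
    exact sum_comm
  have h6 : ∑ x ∈ V', ∑ v ∈ T, (a x v + req v x) = ∑ v ∈ T, ∑ x ∈ V', (a x v + req v x) :=
    sum_comm
  have h7 : ∑ x ∈ V', ∑ v ∈ Y, a x v = ∑ x ∈ V', ((nb G Y x).card : ℝ) :=
    sum_congr rfl fun x _ => (hnb Y x).symm
  rw [h5, h6, h7]
  have h8 : (T.card : ℝ) * V'.card ≤ ((U.card : ℝ) - V'.card + p) * V'.card :=
    mul_le_mul_of_nonneg_right hTc (Nat.cast_nonneg _)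
  nlinarith [hTt, hVV, h8]

end Pool.Agent.LC0y
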