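import Pool.Agent.Lib_MP_0bab5c_y.RQ5
import Pool.Agent.Lib_MP_0bab5c_y.SB0
import Pool.Agent.Lib_MP_0bab5c_y.SL
import Pool.Agent.Lib_MP_0bab5c_y.NM

/-!
# Context of the final computation

All objects together: clean graph, regions, classes, requests; `σ = 16 θ + δ0`.
-/

namespace Pool.Agent.LC0y

open Finset Pool.Agent.LC0bab
open scoped Classical

universe u

variable {V ι : Type u} [Fintype ι]

/-- All objects together. -/
structure Ctx (G : SimpleGraph V) (W : Finset V) (k N B1 : ℕ) (n ε θ δ0 ε1 δ τ : ℝ)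
    (E : ι → Finset V) (Q : V → Finset V) (cls : V → Finset (Finset ι)) (req : V → V → ℝ)
    (Ex : Finset (V × Finset ι)) : Prop where
  hk : 0 < k
  hθ : 0 < θ
  hθ1 : θ ≤ 1 / 2000
  hδ0 : 0 < δ0
  hδ1 : δ0 ≤ 1 / 2000
  hδ : 0 ≤ δ
  hNδ : (N : ℝ) ^ 2 * δ ≤ δ0
  hτ : 0 < τ
  hC : Clean G W k n ε θ δ0 ε1 E
  hQ : QSys G W θ Q
  hB : QBd G W k θ δ0 E Q
  hF : Frame G W k N B1 E cls
  hS : ClsSys G W k δ E Q cls
  hR : ReqSys G W k (16 * θ + δ0) τ E cls
    (fun v z A => v ∈ W ∧ TCut G W k θ δ0 E Q v z A) req Ex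

/-- The home vertices. -/
noncomputable def HM (W : Finset V) (E : ι → Finset V) : Finset V :=
  W.filter (fun v => ∃ i, v ∈ E i)

/-- What `v` receives from its requests. -/
noncomputable def Rec (W : Finset V) (req : V → V → ℝ) (v : V) : ℝ := ∑ x ∈ W, req v x

/-- What is requested from `x`. -/
noncomputable def Rq (W : Finset V) (req : V → V → ℝ) (x : V) : ℝ := ∑ v ∈ W, req v x

/-- Signed slack. -/
noncomputable def ssl (G : SimpleGraph V) (W : Finset V) (k : ℕ) (req : V → V → ℝ) (v : V) : ℝ :=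
  (k : ℝ) - ((nb G W v).card : ℝ) - Rq W req v + Rec W req v

/-- Slack. -/
noncomputable def sl (G : SimpleGraph V) (W : Finset V) (k : ℕ) (req : V → V → ℝ) (v : V) : ℝ :=
  max 0 (ssl G W k req v)

/-- The vertex `v` has no exceptional class. -/
def Good (cls : V → Finset (Finset ι)) (Ex : Finset (V × Finset ι)) (v : V) : Prop :=
  ∀ J ∈ cls v, (v, J) ∉ Ex

/-- The payment to `u` from the members of `Z` in this context. -/
noncomputable def payc (G : SimpleGraph V) (W : Finset V) (k : ℕ) (θ : ℝ) (E : ι → Finset V)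
    (Q : V → Finset V) (req : V → V → ℝ) (Z : Finset V) (u : V) : ℝ :=
  pay G W (HM W E) (k : ℝ) Q (fun v => bp G W θ (Q v)) (sl G W k req) Z u

end Pool.Agent.LC0y
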