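import Pool.Agent.Lib_MP_0bab5c_y.PY0

/-! # Payments: nonnegativity, total, disjoint sets (see the docstring of PY0.lean) -/

namespace Pool.Agent.LC0y

open Finset Pool.Agent.LC0bab
open scoped Classical

universe u

variable {V : Type u}

private lemma py1_kap_nonneg : 0 ≤ kap := by
  unfold kap
  have h : Real.sqrt 3 ≤ 7 / 4 := by
    rw [Real.sqrt_le_left (by norm_num)]
    norm_num
  linarith

private lemma py1_send_nonneg (Hm : Finset V) (k : ℝ) (hk : 0 ≤ k) (B s : V → ℝ)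
    (hB : ∀ v ∈ Hm, 0 < B v) (hs : ∀ v ∈ Hm, 0 ≤ s v) (v : V) (hv : v ∈ Hm) :
    0 ≤ (kap * k + s v) / B v :=
  div_nonneg (add_nonneg (mul_nonneg py1_kap_nonneg hk) (hs v hv)) (hB v hv).le

private lemma py1_inc_nonneg (G : SimpleGraph V) (W Hm : Finset V) (k : ℝ) (hk : 0 ≤ k)
    (Q : V → Finset V) (B s : V → ℝ) (hB : ∀ v ∈ Hm, 0 < B v) (hs : ∀ v ∈ Hm, 0 ≤ s v) (w : V) :
    0 ≤ inc G W Hm k Q B s w := by
  unfold inc
  exact sum_nonneg fun v hv => py1_send_nonneg Hm k hk B s hB hs v (mem_filter.1 hv).1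

private lemma py1_term_nonneg (G : SimpleGraph V) (W Hm : Finset V) (k : ℝ) (hk : 0 ≤ k)
    (Q : V → Finset V) (B s : V → ℝ) (hB : ∀ v ∈ Hm, 0 < B v) (hs : ∀ v ∈ Hm, 0 ≤ s v)
    (w : V) (hw : w ∈ Hm) :
    0 ≤ (kap * k + s w + inc G W Hm k Q B s w) / B w :=
  div_nonneg (add_nonneg (add_nonneg (mul_nonneg py1_kap_nonneg hk) (hs w hw))
    (py1_inc_nonneg G W Hm k hk Q B s hB hs w)) (hB w hw).le

theorem pay_nonneg (G : SimpleGraph V) (W Hm : Finset V) (k : ℝ) (hk : 0 ≤ k)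
    (Q : V → Finset V) (B s : V → ℝ) (hB : ∀ v ∈ Hm, 0 < B v) (hs : ∀ v ∈ Hm, 0 ≤ s v)
    (Z : Finset V) (hZ : Z ⊆ Hm) (u : V) : 0 ≤ pay G W Hm k Q B s Z u := by
  unfold pay
  exact sum_nonneg fun w hw =>
    py1_term_nonneg G W Hm k hk Q B s hB hs w (hZ (mem_filter.1 hw).1)

/-- Swapping a filtered double sum of terms which depend on the inner variable only. -/
private lemma py1_swap (S T : Finset V) (R : V → V → Prop) [∀ u w, Decidable (R u w)]
    (c : V → ℝ) :
    ∑ u ∈ S, ∑ w ∈ T.filter (fun w => R u w), c w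
      = ∑ w ∈ T, ((S.filter (fun u => R u w)).card : ℝ) * c w := by
  have h1 : ∀ u ∈ S, ∑ w ∈ T.filter (fun w => R u w), c w
      = ∑ w ∈ T, if R u w then c w else 0 := fun u _ => sum_filter _ _
  rw [sum_congr rfl h1, sum_comm]
  refine sum_congr rfl fun w _ => ?_
  rw [← sum_filter, sum_const, nsmul_eq_mul]

theorem pay_total (G : SimpleGraph V) (W Hm : Finset V) (k : ℝ) (hk : 0 ≤ k)
    (Q : V → Finset V) (B s : V → ℝ) (hB : ∀ v ∈ Hm, 0 < B v)
    (hBb : ∀ v ∈ Hm, ((bd G W (Q v)).card : ℝ) ≤ B v) (hs : ∀ v ∈ Hm, 0 ≤ s v) :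
    ∑ u ∈ W \ Hm, pay G W Hm k Q B s Hm u ≤ ∑ w ∈ Hm, (kap * k + s w) := by
  have e1 : ∑ u ∈ W \ Hm, pay G W Hm k Q B s Hm u
      = ∑ w ∈ Hm, (((W \ Hm).filter (fun u => u ∈ bd G W (Q w))).card : ℝ)
          * ((kap * k + s w + inc G W Hm k Q B s w) / B w) := by
    unfold pay
    exact py1_swap (W \ Hm) Hm (fun u w => u ∈ bd G W (Q w))
      (fun w => (kap * k + s w + inc G W Hm k Q B s w) / B w)
  have e2 : ∑ w ∈ Hm, inc G W Hm k Q B s w
      = ∑ v ∈ Hm, ((Hm.filter (fun w => w ∈ bd G W (Q v))).card : ℝ)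
          * ((kap * k + s v) / B v) := by
    unfold inc
    exact py1_swap Hm Hm (fun w v => w ∈ bd G W (Q v)) (fun v => (kap * k + s v) / B v)
  -- the two parts of the boundary
  have hcard : ∀ w ∈ Hm, (((W \ Hm).filter (fun u => u ∈ bd G W (Q w))).card : ℝ)
      + ((Hm.filter (fun u => u ∈ bd G W (Q w))).card : ℝ) ≤ B w := by
    intro w hw
    have hdis : Disjoint ((W \ Hm).filter (fun u => u ∈ bd G W (Q w)))
        (Hm.filter (fun u => u ∈ bd G W (Q w))) := by
      rw [Finset.disjoint_left]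
      intro a ha hb
      exact (mem_sdiff.1 (mem_filter.1 ha).1).2 (mem_filter.1 hb).1
    have hle : ((W \ Hm).filter (fun u => u ∈ bd G W (Q w))).card
        + (Hm.filter (fun u => u ∈ bd G W (Q w))).card ≤ (bd G W (Q w)).card := by
      rw [← card_union_of_disjoint hdis]
      refine card_le_card ?_
      intro a ha
      rcases mem_union.1 ha with ha | ha
      · exact (mem_filter.1 ha).2
      · exact (mem_filter.1 ha).2
    have hle' : (((W \ Hm).filter (fun u => u ∈ bd G W (Q w))).card : ℝ)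
        + ((Hm.filter (fun u => u ∈ bd G W (Q w))).card : ℝ) ≤ ((bd G W (Q w)).card : ℝ) := by
      exact_mod_cast hle
    exact hle'.trans (hBb w hw)
  have key : ∀ w ∈ Hm, (((W \ Hm).filter (fun u => u ∈ bd G W (Q w))).card : ℝ)
          * ((kap * k + s w + inc G W Hm k Q B s w) / B w)
        ≤ inc G W Hm k Q B s w + ((kap * k + s w)
          - ((Hm.filter (fun u => u ∈ bd G W (Q w))).card : ℝ) * ((kap * k + s w) / B w)) := by
    intro w hw
    have hBw := hB w hw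
    have hc := hcard w hw
    have hI := py1_inc_nonneg G W Hm k hk Q B s hB hs w
    have hS : 0 ≤ kap * k + s w := add_nonneg (mul_nonneg py1_kap_nonneg hk) (hs w hw)
    set x : ℝ := (((W \ Hm).filter (fun u => u ∈ bd G W (Q w))).card : ℝ) with hx
    set y : ℝ := ((Hm.filter (fun u => u ∈ bd G W (Q w))).card : ℝ) with hy
    set I : ℝ := inc G W Hm k Q B s w with hIdef
    set S : ℝ := kap * k + s w with hSdef
    have hy0 : 0 ≤ y := by rw [hy]; positivity
    have hx0 : 0 ≤ x := by rw [hx]; positivity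
    have h1 : x * ((S + I) / B w) = (x * S + x * I) / B w := by ring
    have h2 : I + (S - y * (S / B w)) = (I * B w + S * B w - y * S) / B w := by
      field_simp
      ring
    rw [h1, h2]
    refine div_le_div_of_nonneg_right ?_ hBw.le
    nlinarith [mul_nonneg hS (sub_nonneg.2 hc), mul_nonneg hI (sub_nonneg.2 hc),
      mul_nonneg hI hy0]
  rw [e1]
  calc _ ≤ ∑ w ∈ Hm, (inc G W Hm k Q B s w + ((kap * k + s w)
          - ((Hm.filter (fun u => u ∈ bd G W (Q w))).card : ℝ) * ((kap * k + s w) / B w))) :=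
        sum_le_sum key
    _ = ∑ w ∈ Hm, (kap * k + s w) := by
        rw [sum_add_distrib, sum_sub_distrib, e2]
        ring

/-- Payments of disjoint sets add up. -/
theorem pay_disj (G : SimpleGraph V) (W Hm : Finset V) (k : ℝ) (hk : 0 ≤ k)
    (Q : V → Finset V) (B s : V → ℝ) (hB : ∀ v ∈ Hm, 0 < B v) (hs : ∀ v ∈ Hm, 0 ≤ s v)
    {α : Type u} (I : Finset α) (Z : α → Finset V) (hZ : ∀ a ∈ I, Z a ⊆ Hm)
    (hd : ∀ a ∈ I, ∀ b ∈ I, a ≠ b → Disjoint (Z a) (Z b)) (u : V) :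
    ∑ a ∈ I, pay G W Hm k Q B s (Z a) u ≤ pay G W Hm k Q B s Hm u := by
  unfold pay
  rw [← sum_biUnion (s := I) (t := fun a => (Z a).filter (fun w => u ∈ bd G W (Q w)))
    (f := fun w => (kap * k + s w + inc G W Hm k Q B s w) / B w)]
  · refine sum_le_sum_of_subset_of_nonneg ?_ ?_
    · intro w hw
      rcases mem_biUnion.1 hw with ⟨a, ha, hwa⟩
      have h := mem_filter.1 hwa
      exact mem_filter.2 ⟨hZ a ha h.1, h.2⟩
    · intro w hw _
      exact py1_term_nonneg G W Hm k hk Q B s hB hs w (mem_filter.1 hw).1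
  · intro a ha b hb hab
    have h := hd a ha b hb hab
    exact h.mono (filter_subset _ _) (filter_subset _ _)

end Pool.Agent.LC0y
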