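import Pool.Agent.Lib_MP_0bab5c_y.PY0
import Pool.Agent.Lib_MP_0bab5c_y.NM

/-! # Payments of one class (see the docstring of PY0.lean) -/

namespace Pool.Agent.LC0y

open Finset Pool.Agent.LC0bab
open scoped Classical

universe u

variable {V : Type u}

private lemma inc_lower (G : SimpleGraph V) (W Hm : Finset V) (hW : Hm ⊆ W) (k : ℝ) (hk : 0 < k)
    (Q : V → Finset V) (hQ : ∀ v ∈ Hm, v ∈ Q v) (hQQ : ∀ v ∈ Hm, ∀ w ∈ Q v, Q w ⊆ Q v)
    (B s : V → ℝ) (hB : ∀ v ∈ Hm, 0 < B v) (hs : ∀ v ∈ Hm, 0 ≤ s v)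
    (Z : Finset V) (hZ : Z ⊆ Hm) (u : V)
    (p : ℝ) (hBp : ∀ w ∈ Z, B w ≤ p) (w : V) (hw : w ∈ UU G Q Z u) :
    kap * k / p * ((nb G (Z \ UU G Q Z u) w).card : ℝ) ≤ inc G W Hm k Q B s w := by
  have hkap := kap_pos
  obtain ⟨hwZ, x, hxQ, hxu⟩ := mem_filter.1 hw
  have hsub : nb G (Z \ UU G Q Z u) w ⊆ Hm.filter (fun v => w ∈ bd G W (Q v)) := by
    intro v hv
    rw [mem_nb, mem_sdiff] at hv
    obtain ⟨⟨hvZ, hvU⟩, hadj⟩ := hv
    have hvH := hZ hvZ
    rw [mem_filter]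
    refine ⟨hvH, mem_bd.2 ⟨hW (hZ hwZ), ?_, v, hQ v hvH, hadj.symm⟩⟩
    intro hwv
    exact hvU (mem_filter.2 ⟨hvZ, x, hQQ v hvH w hwv hxQ, hxu⟩)
  have hnn : ∀ v ∈ Hm.filter (fun v => w ∈ bd G W (Q v)), 0 ≤ (kap * k + s v) / B v := by
    intro v hv
    have hvH := (mem_filter.1 hv).1
    have := hs v hvH
    exact div_nonneg (by positivity) (hB v hvH).le
  have h1 : ∑ v ∈ nb G (Z \ UU G Q Z u) w, (kap * k + s v) / B v ≤ inc G W Hm k Q B s w :=
    sum_le_sum_of_subset_of_nonneg hsub (fun v hv _ => hnn v hv)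
  have h2 : ∀ v ∈ nb G (Z \ UU G Q Z u) w, kap * k / p ≤ (kap * k + s v) / B v := by
    intro v hv
    rw [mem_nb, mem_sdiff] at hv
    have hvZ := hv.1.1
    have hvH := hZ hvZ
    have h3 := hs v hvH
    have h4 := hB v hvH
    have h5 := hBp v hvZ
    have h6 : 0 ≤ kap * k := by positivity
    exact div_le_div₀ (by linarith) (by linarith) h4 h5
  have h3 := card_nsmul_le_sum _ _ _ h2
  rw [nsmul_eq_mul] at h3
  linarith

theorem pay_class (G : SimpleGraph V) (W Hm : Finset V) (hW : Hm ⊆ W) (k : ℝ) (hk : 0 < k)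
    (Q : V → Finset V) (hQ : ∀ v ∈ Hm, v ∈ Q v) (hQQ : ∀ v ∈ Hm, ∀ w ∈ Q v, Q w ⊆ Q v)
    (B s : V → ℝ) (hB : ∀ v ∈ Hm, 0 < B v) (hs : ∀ v ∈ Hm, 0 ≤ s v)
    (Z : Finset V) (hZ : Z ⊆ Hm) (u : V) (hu : u ∈ W) (huQ : ∀ w ∈ Z, u ∉ Q w)
    (p : ℝ) (hp : 0 < p) (hBp : ∀ w ∈ Z, B w ≤ p) (e : ℝ) (he : 0 ≤ e)
    (hsl : ∀ V' ⊆ UU G Q Z u, ∑ w ∈ V', (k - ((UU G Q Z u).card : ℝ) - p -
      ((nb G (Z \ UU G Q Z u) w).card : ℝ)) - e ≤ ∑ w ∈ V', s w) :
    ((UU G Q Z u).card : ℝ) / p * (kap * k + min 1 (kap * k / p) *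
      max 0 (k - ((UU G Q Z u).card : ℝ) - p)) - e / p ≤ pay G W Hm k Q B s Z u := by
  have hkap := kap_pos
  have hincl := inc_lower G W Hm hW k hk Q hQ hQQ B s hB hs Z hZ u p hBp
  set U := UU G Q Z u with hU
  have hUZ : U ⊆ Z := filter_subset _ _
  set y : V → ℝ := fun w => ((nb G (Z \ U) w).card : ℝ) with hy
  have hy0 : ∀ w, 0 ≤ y w := fun w => Nat.cast_nonneg _
  set a : ℝ := kap * k / p with ha
  have ha0 : 0 ≤ a := by positivity
  set m : ℝ := min 1 a with hm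
  have hm0 : 0 ≤ m := le_min zero_le_one ha0
  have hm1 : m ≤ 1 := min_le_left _ _
  have hma : m ≤ a := min_le_right _ _
  set r : ℝ := k - (U.card : ℝ) - p with hr
  -- the payment
  have hfil : Z.filter (fun w => u ∈ bd G W (Q w)) = U := by
    rw [hU]
    unfold UU
    refine filter_congr fun w hw => ?_
    rw [mem_bd]
    constructor
    · rintro ⟨_, _, h⟩
      exact h
    · intro h
      exact ⟨hu, huQ w hw, h⟩
  have hpay : ∑ w ∈ U, (kap * k + s w + a * y w) / p ≤ pay G W Hm k Q B s Z u := by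
    unfold pay
    rw [hfil]
    refine sum_le_sum fun w hw => ?_
    have hwZ := hUZ hw
    have hwH := hZ hwZ
    have h1 : a * y w ≤ inc G W Hm k Q B s w := hincl w hw
    have h2 := hs w hwH
    have h3 : 0 ≤ a * y w := mul_nonneg ha0 (hy0 w)
    have h4 : 0 ≤ kap * k := by positivity
    exact div_le_div₀ (by linarith) (by linarith) (hB w hwH) (hBp w hwZ)
  refine le_trans ?_ hpay
  rw [← sum_div]
  have hkey : (U.card : ℝ) * (m * max 0 r) - e ≤ ∑ w ∈ U, (s w + a * y w) := by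
    have hnn : ∀ w ∈ U, 0 ≤ s w + a * y w := fun w hw =>
      add_nonneg (hs w (hZ (hUZ hw))) (mul_nonneg ha0 (hy0 w))
    rcases le_or_gt r 0 with hr0 | hr0
    · rw [max_eq_left hr0, mul_zero, mul_zero]
      have := sum_nonneg hnn
      linarith
    · rw [max_eq_right hr0.le]
      have hs1 := hsl (U.filter (fun w => y w ≤ r)) (filter_subset _ _)
      have h1 : ∑ w ∈ U.filter (fun w => y w ≤ r), m * r - e ≤
          ∑ w ∈ U.filter (fun w => y w ≤ r), (s w + a * y w) := by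
        have h2 : ∑ w ∈ U.filter (fun w => y w ≤ r), m * r ≤
            ∑ w ∈ U.filter (fun w => y w ≤ r), ((r - y w) + a * y w) := by
          refine sum_le_sum fun w hw => ?_
          have hyr := (mem_filter.1 hw).2
          have e1 : m * (r - y w) ≤ 1 * (r - y w) :=
            mul_le_mul_of_nonneg_right hm1 (by linarith)
          have e2 : m * y w ≤ a * y w := mul_le_mul_of_nonneg_right hma (hy0 w)
          nlinarith
        rw [sum_add_distrib] at h2 ⊢
        linarith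
      have h3 : ∑ w ∈ U.filter (fun w => ¬ y w ≤ r), m * r ≤
          ∑ w ∈ U.filter (fun w => ¬ y w ≤ r), (s w + a * y w) := by
        refine sum_le_sum fun w hw => ?_
        obtain ⟨hwU, hyr⟩ := mem_filter.1 hw
        push Not at hyr
        have e1 := hs w (hZ (hUZ hwU))
        have e2 : m * y w ≤ a * y w := mul_le_mul_of_nonneg_right hma (hy0 w)
        have e3 : m * r ≤ m * y w := mul_le_mul_of_nonneg_left hyr.le hm0
        linarith
      have h4 := sum_filter_add_sum_filter_not U (fun w => y w ≤ r) (fun w => s w + a * y w)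
      have h5 := sum_filter_add_sum_filter_not U (fun w => y w ≤ r) (fun _ => m * r)
      have h6 : ∑ _x ∈ U, m * r = (U.card : ℝ) * (m * r) := by
        rw [sum_const, nsmul_eq_mul]
      linarith
  have hsplit : ∑ w ∈ U, (kap * k + s w + a * y w) =
      (U.card : ℝ) * (kap * k) + ∑ w ∈ U, (s w + a * y w) := by
    have h1 : ∀ w ∈ U, kap * k + s w + a * y w = kap * k + (s w + a * y w) := fun w _ => by ring
    rw [sum_congr rfl h1, sum_add_distrib, sum_const, nsmul_eq_mul]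
  rw [hsplit]
  have hfin : (U.card : ℝ) / p * (kap * k + m * max 0 r) - e / p =
      ((U.card : ℝ) * (kap * k) + ((U.card : ℝ) * (m * max 0 r) - e)) / p := by
    ring
  rw [hfin]
  exact div_le_div_of_nonneg_right (by linarith) hp.le

end Pool.Agent.LC0y
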