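import Pool.Agent.Lib_MP_0bab5c_y.FN0
import Pool.Agent.Lib_MP_0bab5c_y.PY1
import Pool.Agent.Lib_MP_0bab5c_y.PY2

/-!
# Payment of one class in the context

`u ∈ W` in no home, `J ∈ cls u`, `Z = ZZ E Q u J`, `p = bp G W θ Z`, `t = |UU G Q Z u|`, and no `w ∈ Z` has `u ∈ Q w`.
Apply `pay_class` with `B v = bp G W θ (Q v)`, `s = sl`, `e = N τ k^2`:
* `p ≥ |bd Z| ≥ k/31` (`QBd.low`, `Z` is a nonempty subset of `Q u`, by `ClsSys.met` and `Frame.cne`); `B w ≤ p` for `w ∈ Z` by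
`QSys.min`; `B v > 0` (`QBd.low` for `Q v`);
* `Z ⊆ HM`, since `Z ⊆ Q u ⊆ W` and `Z ⊆ EJ E J`;
* for `V' ⊆ UU G Q Z u`: `slack` (SL.lean) with `e`: `req v x ≠ 0` implies `x ∈ Q v` (`ReqSys.supp`, `TCut.inQ`), and
`∑_{v ∈ W} max 0 (|nb V' v| + ∑_{x ∈ V'} req v x - |V'|) ≤ ∑_{i ∈ J} ∑_{v ∈ W} max 0 (the same for V' ∩ E i) ≤ |J| τ k^2 ≤ N τ k^2`
(`V'` is the disjoint union of the `V' ∩ E i`, `i ∈ J`; `max 0 (∑ a_i) ≤ ∑ max 0 a_i`; `ReqSys.fixed`; `|J| ≤ N` by `csize`).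
So `∑_{w ∈ V'} ssl w ≥ |V'| (k - t - p) - ∑ |nb (Z \ UU) w| - e` and `ssl ≤ sl`.
Then `e/p ≤ 31 N τ k`.
-/

namespace Pool.Agent.LC0y

open Finset Pool.Agent.LC0bab
open scoped Classical

universe u

variable {V ι : Type u} [Fintype ι]

omit [Fintype ι] in
/-- A subset of `EJ E J` is the disjoint union of its traces on the homes. -/
private lemma fn1_sum_trace {E : ι → Finset V}
    (hdisj : ∀ i j, i ≠ j → Disjoint (E i) (E j)) {J : Finset ι} {V' : Finset V}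
    (hV : V' ⊆ EJ E J) (f : V → ℝ) :
    ∑ x ∈ V', f x = ∑ i ∈ J, ∑ x ∈ V' ∩ E i, f x := by
  have hd : (J : Set ι).PairwiseDisjoint (fun i => V' ∩ E i) := by
    intro i _ j _ hij
    exact (hdisj i j hij).mono inter_subset_right inter_subset_right
  rw [← sum_biUnion hd]
  refine sum_congr ?_ (fun _ _ => rfl)
  ext x
  rw [mem_biUnion]
  constructor
  · intro hx
    obtain ⟨i, hi, hxi⟩ := mem_EJ.1 (hV hx)
    exact ⟨i, hi, mem_inter.2 ⟨hx, hxi⟩⟩
  · rintro ⟨i, _, hx⟩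
    exact (mem_inter.1 hx).1

/-- `nb` as a sum of indicators. -/
private lemma fn1_nb_card (G : SimpleGraph V) (S : Finset V) (v : V) :
    ((nb G S v).card : ℝ) = ∑ x ∈ S, if G.Adj v x then (1 : ℝ) else 0 := by
  unfold nb
  rw [Finset.card_filter, Nat.cast_sum]
  refine sum_congr rfl fun x _ => ?_
  split_ifs <;> simp

/-- The positive part of a sum is at most the sum of the positive parts. -/
private lemma fn1_max_sum {α : Type u} (J : Finset α) (a : α → ℝ) :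
    max 0 (∑ i ∈ J, a i) ≤ ∑ i ∈ J, max 0 (a i) := by
  refine max_le (sum_nonneg fun i _ => le_max_left _ _) (sum_le_sum fun i _ => le_max_right _ _)

theorem class_pay {G : SimpleGraph V} {W : Finset V} {k N B1 : ℕ} {n ε θ δ0 ε1 δ τ : ℝ}
    {E : ι → Finset V} {Q : V → Finset V} {cls : V → Finset (Finset ι)} {req : V → V → ℝ}
    {Ex : Finset (V × Finset ι)} (h : Ctx G W k N B1 n ε θ δ0 ε1 δ τ E Q cls req Ex)
    {u : V} (hu : u ∈ W) (hun : ∀ i, u ∉ E i) {J : Finset ι} (hJ : J ∈ cls u)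
    (hno : ∀ w ∈ ZZ E Q u J, u ∉ Q w) :
    ((UU G Q (ZZ E Q u J) u).card : ℝ) / bp G W θ (ZZ E Q u J) *
        (kap * k + min 1 (kap * k / bp G W θ (ZZ E Q u J)) *
          max 0 (k - ((UU G Q (ZZ E Q u J) u).card : ℝ) - bp G W θ (ZZ E Q u J))) -
        31 * N * τ * k ≤ payc G W k θ E Q req (ZZ E Q u J) u := by
  have hkR : (0 : ℝ) < k := by exact_mod_cast h.hk
  have hτ := h.hτ
  have hbdle : ∀ X : Finset V, ((bd G W X).card : ℝ) ≤ bp G W θ X := by
    intro X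
    have h1 : 0 ≤ θ * (X.card : ℝ) := mul_nonneg h.hθ.le (Nat.cast_nonneg _)
    unfold bp
    linarith
  set Z := ZZ E Q u J with hZdef
  set p := bp G W θ Z with hp
  set U := UU G Q Z u with hUdef
  have hZQ : Z ⊆ Q u := by
    rw [hZdef]
    exact inter_subset_left
  have hZE : Z ⊆ EJ E J := by
    rw [hZdef]
    exact inter_subset_right
  have hQW : Q u ⊆ W := h.hQ.sub u hu
  have hZW : Z ⊆ W := hZQ.trans hQW
  have hZne : Z.Nonempty := by
    obtain ⟨i, hi⟩ := h.hF.cne u hu J hJ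
    obtain ⟨x, hx⟩ := h.hS.met u hu hun J hJ i hi
    refine ⟨x, ?_⟩
    rw [hZdef]
    exact mem_inter.2 ⟨(mem_inter.1 hx).1, mem_EJ.2 ⟨i, hi, (mem_inter.1 hx).2⟩⟩
  have hlow : (k : ℝ) / 31 ≤ ((bd G W Z).card : ℝ) := h.hB.low u hu Z hZQ hZne
  have hpk : (k : ℝ) / 31 ≤ p := hlow.trans (hbdle Z)
  have hp0 : 0 < p := lt_of_lt_of_le (by positivity) hpk
  have hZH : Z ⊆ HM W E := by
    intro x hx
    obtain ⟨i, _, hxi⟩ := mem_EJ.1 (hZE hx)
    exact mem_filter.2 ⟨hZW hx, i, hxi⟩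
  have hHW : HM W E ⊆ W := filter_subset _ _
  have hJN : (J.card : ℝ) ≤ N := by
    have h1 := (single_le_sum (f := fun J : Finset ι => J.card) (fun _ _ => Nat.zero_le _) hJ).trans
      (h.hF.csize u hu)
    exact_mod_cast h1
  have he0 : 0 ≤ (N : ℝ) * (τ * (k : ℝ) ^ 2) := by positivity
  -- the error term
  have herr : ∀ V' ⊆ U, ∑ v ∈ W, max 0 (((nb G V' v).card : ℝ) + ∑ x ∈ V', req v x -
      (V'.card : ℝ)) ≤ (N : ℝ) * (τ * (k : ℝ) ^ 2) := by
    intro V' hV'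
    have hVE : V' ⊆ EJ E J := (hV'.trans (filter_subset _ _)).trans hZE
    have h1 : ∀ v ∈ W, max 0 (((nb G V' v).card : ℝ) + ∑ x ∈ V', req v x - (V'.card : ℝ)) ≤
        ∑ i ∈ J, max 0 (((nb G (V' ∩ E i) v).card : ℝ) + ∑ x ∈ V' ∩ E i, req v x -
          ((V' ∩ E i).card : ℝ)) := by
      intro v _
      have e1 : ((nb G V' v).card : ℝ) = ∑ i ∈ J, ((nb G (V' ∩ E i) v).card : ℝ) := by
        rw [fn1_nb_card, fn1_sum_trace h.hF.disj hVE]
        exact sum_congr rfl fun i _ => (fn1_nb_card G _ v).symm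
      have e2 : ∑ x ∈ V', req v x = ∑ i ∈ J, ∑ x ∈ V' ∩ E i, req v x :=
        fn1_sum_trace h.hF.disj hVE _
      have e3 : (V'.card : ℝ) = ∑ i ∈ J, ((V' ∩ E i).card : ℝ) := by
        have := fn1_sum_trace h.hF.disj hVE (fun _ => (1 : ℝ))
        simpa using this
      rw [e1, e2, e3, ← sum_add_distrib, ← sum_sub_distrib]
      exact fn1_max_sum J _
    refine (sum_le_sum h1).trans ?_
    rw [sum_comm]
    have h2 : ∀ i ∈ J, ∑ v ∈ W, max 0 (((nb G (V' ∩ E i) v).card : ℝ) +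
        ∑ x ∈ V' ∩ E i, req v x - ((V' ∩ E i).card : ℝ)) ≤ τ * (k : ℝ) ^ 2 := fun i _ =>
      h.hR.fixed i (V' ∩ E i) inter_subset_right
    refine (sum_le_sum h2).trans ?_
    rw [sum_const, nsmul_eq_mul]
    exact mul_le_mul_of_nonneg_right hJN (by positivity)
  have hmain := pay_class G W (HM W E) hHW (k : ℝ) hkR Q
    (fun v hv => h.hQ.mem v (hHW hv)) (fun v hv => h.hQ.down v (hHW hv))
    (fun v => bp G W θ (Q v)) (sl G W k req)
    (by
      intro v hv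
      have hvW := hHW hv
      have h1 := h.hB.low v hvW (Q v) subset_rfl ⟨v, h.hQ.mem v hvW⟩
      have h2 := hbdle (Q v)
      have h3 : 0 < (k : ℝ) / 31 := by positivity
      show 0 < bp G W θ (Q v)
      linarith)
    (fun v _ => le_max_left _ _) Z hZH u hu hno p hp0
    (by
      intro w hw
      exact h.hQ.min w (hZW hw) Z hZW hw)
    ((N : ℝ) * (τ * (k : ℝ) ^ 2)) he0
    (by
      intro V' hV'
      have hsl := slack G W Q req h.hR.nonneg
        (by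
          intro v x hne
          obtain ⟨hvW, hadj, J', _, i, _, _, z, A, hcut, hxA⟩ := h.hR.supp v x hne
          exact ⟨hvW, hadj, hcut.2.inQ hxA⟩)
        h.hQ.down Z hZW u p (hbdle Z) V' hV' _ (herr V' hV')
      have h1 : ∑ w ∈ V', ssl G W k req w ≤ ∑ w ∈ V', sl G W k req w :=
        sum_le_sum fun w _ => le_max_right _ _
      have h2 : ∑ w ∈ V', ssl G W k req w = (V'.card : ℝ) * k -
          ∑ x ∈ V', (((nb G W x).card : ℝ) + ∑ v ∈ W, req v x - ∑ y ∈ W, req x y) := by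
        have e1 : ∀ w ∈ V', ssl G W k req w = (k : ℝ) -
            (((nb G W w).card : ℝ) + ∑ v ∈ W, req v w - ∑ y ∈ W, req w y) := by
          intro w _
          unfold ssl Rq Rec
          ring
        rw [sum_congr rfl e1, sum_sub_distrib, sum_const, nsmul_eq_mul]
      have h3 : ∑ w ∈ V', ((k : ℝ) - ((UU G Q Z u).card : ℝ) - p -
          ((nb G (Z \ UU G Q Z u) w).card : ℝ)) = (V'.card : ℝ) * (k - ((UU G Q Z u).card : ℝ) - p) -
          ∑ w ∈ V', ((nb G (Z \ UU G Q Z u) w).card : ℝ) := by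
        rw [sum_sub_distrib, sum_const, nsmul_eq_mul]
      rw [h3]
      linarith)
  have hep : (N : ℝ) * (τ * (k : ℝ) ^ 2) / p ≤ 31 * N * τ * k := by
    rw [div_le_iff₀ hp0]
    have h1 : (31 * N * τ * k) * ((k : ℝ) / 31) ≤ 31 * N * τ * k * p :=
      mul_le_mul_of_nonneg_left hpk (by positivity)
    have h2 : (31 * N * τ * k) * ((k : ℝ) / 31) = (N : ℝ) * (τ * (k : ℝ) ^ 2) := by ring
    linarith
  unfold payc
  linarith

end Pool.Agent.LC0y
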