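import Pool.Agent.Lib_MP_0bab5c_y.SB0

/-! # The bracket inequality of a hub (proof in the docstring of SB0.lean) -/

namespace Pool.Agent.LC0y

open Finset Pool.Agent.LC0bab
open scoped Classical

universe u

/-- the vertices which are close to two homes in different classes -/
private theorem bad_card {V ι : Type u} {k N : ℕ} {δ : ℝ} (hδ : 0 ≤ δ)
    (NN : ι → Finset V) (C : Finset (Finset ι)) (hC : ∑ J ∈ C, J.card ≤ N) (J : Finset ι)
    (hJ : J ∈ C) (hfar : ∀ J' ∈ C, J ≠ J' → ∀ i ∈ J, ∀ i' ∈ J',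
      ((NN i ∩ NN i').card : ℝ) ≤ δ * k) :
    ((J.biUnion (fun i => (C.erase J).biUnion (fun J' => J'.biUnion
      (fun i' => NN i ∩ NN i')))).card : ℝ) ≤ (N : ℝ) ^ 2 * δ * k := by
  have hJN : J.card ≤ N :=
    (single_le_sum (f := fun J : Finset ι => J.card) (fun _ _ => Nat.zero_le _) hJ).trans hC
  have hEN : ∑ J' ∈ C.erase J, J'.card ≤ N :=
    (sum_le_sum_of_subset (erase_subset _ _)).trans hC
  have hδk : 0 ≤ δ * (k : ℝ) := mul_nonneg hδ (Nat.cast_nonneg _)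
  have h1 : ((J.biUnion (fun i => (C.erase J).biUnion (fun J' => J'.biUnion
      (fun i' => NN i ∩ NN i')))).card : ℝ) ≤
      ∑ i ∈ J, ∑ J' ∈ C.erase J, ∑ i' ∈ J', ((NN i ∩ NN i').card : ℝ) := by
    have h2 : (J.biUnion (fun i => (C.erase J).biUnion (fun J' => J'.biUnion
      (fun i' => NN i ∩ NN i')))).card ≤
      ∑ i ∈ J, ∑ J' ∈ C.erase J, ∑ i' ∈ J', (NN i ∩ NN i').card := by
      refine card_biUnion_le.trans (sum_le_sum fun i _ => ?_)
      refine card_biUnion_le.trans (sum_le_sum fun J' _ => ?_)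
      exact card_biUnion_le
    exact_mod_cast h2
  have h2 : ∑ i ∈ J, ∑ J' ∈ C.erase J, ∑ i' ∈ J', ((NN i ∩ NN i').card : ℝ) ≤
      ∑ i ∈ J, (N : ℝ) * (δ * k) := by
    refine sum_le_sum fun i hi => ?_
    have h3 : ∑ J' ∈ C.erase J, ∑ i' ∈ J', ((NN i ∩ NN i').card : ℝ) ≤
        ∑ J' ∈ C.erase J, (J'.card : ℝ) * (δ * k) := by
      refine sum_le_sum fun J' hJ' => ?_
      rw [← nsmul_eq_mul, ← sum_const]
      refine sum_le_sum fun i' hi' => ?_
      exact hfar J' (mem_of_mem_erase hJ') (ne_of_mem_erase hJ').symm i hi i' hi'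
    refine h3.trans ?_
    rw [← sum_mul]
    refine mul_le_mul_of_nonneg_right ?_ hδk
    exact_mod_cast hEN
  refine h1.trans (h2.trans ?_)
  rw [sum_const, nsmul_eq_mul]
  have h3 : (J.card : ℝ) * ((N : ℝ) * (δ * k)) ≤ (N : ℝ) * ((N : ℝ) * (δ * k)) := by
    refine mul_le_mul_of_nonneg_right ?_ (mul_nonneg (Nat.cast_nonneg _) hδk)
    exact_mod_cast hJN
  refine h3.trans (le_of_eq ?_)
  ring

theorem bracket_hub {V ι : Type u} [Fintype ι] {G : SimpleGraph V} {W : Finset V}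
    {k N B1 : ℕ} {θ δ δ0 : ℝ} {E : ι → Finset V} {Q : V → Finset V}
    {cls : V → Finset (Finset ι)} (hθ : 0 ≤ θ)
    (hQ : QSys G W θ Q) (hB : QBd G W k θ δ0 E Q) (hF : Frame G W k N B1 E cls)
    (hS : ClsSys G W k δ E Q cls) (hδ : 0 ≤ δ) (hNδ : (N : ℝ) ^ 2 * δ ≤ δ0)
    {u : V} (hu : u ∈ W) (hun : ∀ i, u ∉ E i) {J : Finset ι} (hJ : J ∈ cls u) {z : V}
    {A : Finset V} (hA : TCut G W k θ δ0 E Q u z A) :
    ((nb G (ZZ E Q u J ∪ bd G W (ZZ E Q u J)) u).card : ℝ) - k + bp G W θ (Q u) -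
        ((bd G W (ZZ E Q u J)).card : ℝ) ≤
      ((nb G (EJ E J) u).card : ℝ) - ((bd G W A ∩ EJ E J).card : ℝ) +
        (31 * θ + 2 * δ0) * k := by
  set Z : Finset V := ZZ E Q u J with hZdef
  set U : Finset V := EJ E J with hUdef
  have hZU : Z ⊆ U := inter_subset_right
  have hZQ : Z ⊆ Q u := inter_subset_left
  have hQW : Q u ⊆ W := hQ.sub u hu
  have huA : u ∈ A := hA.sep.mem
  -- the boundary of the union
  have c1 : (bd G W (A ∪ Z)).card + (bd G W A ∩ Z).card + (bd G W Z ∩ (A ∪ bd G W A)).card ≤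
      (bd G W A).card + (bd G W Z).card := by
    have h1 : bd G W (A ∪ Z) ⊆ (bd G W A \ Z) ∪ (bd G W Z \ (A ∪ bd G W A)) := by
      intro y hy
      obtain ⟨hyW, hyn, a, ha, hay⟩ := mem_bd.1 hy
      have hyA : y ∉ A := fun h => hyn (mem_union_left _ h)
      have hyZ : y ∉ Z := fun h => hyn (mem_union_right _ h)
      by_cases hyb : y ∈ bd G W A
      · exact mem_union_left _ (mem_sdiff.2 ⟨hyb, hyZ⟩)
      · have haZ : a ∈ Z := by
          rcases mem_union.1 ha with h | h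
          · exact absurd (mem_bd.2 ⟨hyW, hyA, a, h, hay⟩) hyb
          · exact h
        refine mem_union_right _ (mem_sdiff.2 ⟨mem_bd.2 ⟨hyW, hyZ, a, haZ, hay⟩, ?_⟩)
        intro h
        rcases mem_union.1 h with h | h
        · exact hyA h
        · exact hyb h
    have h2 := (card_le_card h1).trans (card_union_le _ _)
    have h3 := card_sdiff_add_card_inter (bd G W A) Z
    have h4 := card_sdiff_add_card_inter (bd G W Z) (A ∪ bd G W A)
    omega
  -- the degree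
  set F : Finset V := U \ (Z ∪ bd G W Z) with hFdef
  have c2 : (nb G (Z ∪ bd G W Z) u).card + (nb G F u).card =
      (nb G (bd G W Z \ U) u).card + (nb G U u).card := by
    have h1 := nb_card_split (G := G) (W := Z ∪ bd G W Z) (X := (Z ∪ bd G W Z) ∩ U)
      inter_subset_left u
    have h2 := nb_card_split (G := G) (W := U) (X := (Z ∪ bd G W Z) ∩ U)
      inter_subset_right u
    have h3 : (Z ∪ bd G W Z) \ ((Z ∪ bd G W Z) ∩ U) = bd G W Z \ U := by
      ext y
      simp only [mem_sdiff, mem_union, mem_inter, not_and]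
      constructor
      · rintro ⟨h, h'⟩
        have hyU : y ∉ U := h' h
        rcases h with h | h
        · exact absurd (hZU h) hyU
        · exact ⟨h, hyU⟩
      · rintro ⟨h, h'⟩
        exact ⟨Or.inr h, fun _ => h'⟩
    have h4 : U \ ((Z ∪ bd G W Z) ∩ U) = F := by
      ext y
      simp only [hFdef, mem_sdiff, mem_union, mem_inter, not_and]
      constructor
      · rintro ⟨h, h'⟩
        exact ⟨h, fun h2 => h' h2 h⟩
      · rintro ⟨h, h'⟩
        exact ⟨h, fun h2 _ => h' h2⟩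
    rw [h3] at h1
    rw [h4] at h2
    omega
  have c3 : (bd G W A ∩ U).card ≤ (bd G W A ∩ Z).card + (bd G W A ∩ bd G W Z ∩ U).card +
      (bd G W A ∩ F).card := by
    have h1 : bd G W A ∩ U ⊆ (bd G W A ∩ Z) ∪ (bd G W A ∩ bd G W Z ∩ U) ∪ (bd G W A ∩ F) := by
      intro y hy
      obtain ⟨hy1, hy2⟩ := mem_inter.1 hy
      by_cases h1 : y ∈ Z
      · exact mem_union_left _ (mem_union_left _ (mem_inter.2 ⟨hy1, h1⟩))
      by_cases h2 : y ∈ bd G W Z
      · exact mem_union_left _ (mem_union_right _ (mem_inter.2 ⟨mem_inter.2 ⟨hy1, h2⟩, hy2⟩))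
      · refine mem_union_right _ (mem_inter.2 ⟨hy1, mem_sdiff.2 ⟨hy2, ?_⟩⟩)
        intro h
        rcases mem_union.1 h with h | h
        · exact h1 h
        · exact h2 h
    exact (card_le_card h1).trans ((card_union_le _ _).trans
      (Nat.add_le_add_right (card_union_le _ _) _))
  have c4 : (nb G (bd G W Z \ U) u).card + (bd G W A ∩ bd G W Z ∩ U).card ≤
      (bd G W Z ∩ (A ∪ bd G W A)).card := by
    have hd : Disjoint (nb G (bd G W Z \ U) u) (bd G W A ∩ bd G W Z ∩ U) := by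
      rw [disjoint_left]
      intro y h1 h2
      exact (mem_sdiff.1 (mem_nb.1 h1).1).2 (mem_inter.1 h2).2
    rw [← card_union_of_disjoint hd]
    refine card_le_card (union_subset ?_ ?_)
    · intro y hy
      obtain ⟨hy1, hy2⟩ := mem_nb.1 hy
      obtain ⟨hy3, hy4⟩ := mem_sdiff.1 hy1
      refine mem_inter.2 ⟨hy3, ?_⟩
      by_cases hyA : y ∈ A
      · exact mem_union_left _ hyA
      · exact mem_union_right _ (mem_bd.2 ⟨bd_subset hy3, hyA, u, huA, hy2⟩)
    · intro y hy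
      obtain ⟨hy1, hy2⟩ := mem_inter.1 hy
      obtain ⟨hy3, hy4⟩ := mem_inter.1 hy1
      exact mem_inter.2 ⟨hy4, mem_union_right _ hy3⟩
  -- the bad vertices
  set NN : ι → Finset V := fun i => E i ∪ nbs G W (E i) with hNN
  set Bad : Finset V := J.biUnion (fun i => ((cls u).erase J).biUnion (fun J' => J'.biUnion
      (fun i' => NN i ∩ NN i'))) with hBad
  have hbad : (Bad.card : ℝ) ≤ (N : ℝ) ^ 2 * δ * k :=
    bad_card hδ NN (cls u) (hF.csize u hu) J hJ
      (fun J' hJ' hne i hi i' hi' => hS.far u hu hun J hJ J' hJ' hne i hi i' hi')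
  have c5 : (bd G W A ∩ F).card ≤ (nb G F u).card + Bad.card := by
    refine (card_le_card ?_).trans (card_union_le _ _)
    intro y hy
    obtain ⟨hy1, hyF⟩ := mem_inter.1 hy
    obtain ⟨hyW, hyA, a, haA, hay⟩ := mem_bd.1 hy1
    obtain ⟨hyU, hyn⟩ := mem_sdiff.1 hyF
    by_cases hau : a = u
    · subst hau
      exact mem_union_left _ (mem_nb.2 ⟨hyF, hay⟩)
    · refine mem_union_right _ ?_
      obtain ⟨i', hi'⟩ := hA.homes a haA hau
      have haQ : a ∈ Q u := hA.inQ haA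
      obtain ⟨J', hJ', hiJ'⟩ := hS.all u hu hun i' ⟨a, mem_inter.2 ⟨haQ, hi'⟩⟩
      have hne : J' ≠ J := by
        rintro rfl
        have haZ : a ∈ Z := mem_inter.2 ⟨haQ, mem_EJ.2 ⟨i', hiJ', hi'⟩⟩
        apply hyn
        by_cases hyZ : y ∈ Z
        · exact mem_union_left _ hyZ
        · exact mem_union_right _ (mem_bd.2 ⟨hyW, hyZ, a, haZ, hay⟩)
      obtain ⟨i, hiJ, hyi⟩ := mem_EJ.1 hyU
      refine mem_biUnion.2 ⟨i, hiJ, mem_biUnion.2 ⟨J', mem_erase.2 ⟨hne, hJ'⟩,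
        mem_biUnion.2 ⟨i', hiJ', mem_inter.2 ⟨mem_union_left _ hyi, mem_union_right _ ?_⟩⟩⟩⟩
      exact mem_nbs.2 ⟨hyW, a, hi', hay⟩
  -- the minimality of `Q u`
  have hAZ : A ∪ Z ⊆ Q u := union_subset hA.inQ hZQ
  have c6 : bp G W θ (Q u) ≤ ((bd G W (A ∪ Z)).card : ℝ) + θ * (15 * k) := by
    have h1 := hQ.min u hu (A ∪ Z) (hAZ.trans hQW) (mem_union_left _ huA)
    refine h1.trans ?_
    unfold bp
    have h2 : ((A ∪ Z).card : ℝ) ≤ 15 * k := by
      have := (card_le_card hAZ).trans (hB.cardQ u hu)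
      exact_mod_cast this
    have h3 := mul_le_mul_of_nonneg_left h2 hθ
    linarith
  have c7 := hA.bdA
  have hk : (0 : ℝ) ≤ k := Nat.cast_nonneg _
  have hNk : (N : ℝ) ^ 2 * δ * k ≤ δ0 * k := mul_le_mul_of_nonneg_right hNδ hk
  have r1 : ((bd G W (A ∪ Z)).card : ℝ) + (bd G W A ∩ Z).card +
      (bd G W Z ∩ (A ∪ bd G W A)).card ≤ (bd G W A).card + (bd G W Z).card := by
    exact_mod_cast c1
  have r2 : ((nb G (Z ∪ bd G W Z) u).card : ℝ) + (nb G F u).card =
      (nb G (bd G W Z \ U) u).card + (nb G U u).card := by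
    exact_mod_cast c2
  have r3 : ((bd G W A ∩ U).card : ℝ) ≤ (bd G W A ∩ Z).card +
      (bd G W A ∩ bd G W Z ∩ U).card + (bd G W A ∩ F).card := by
    exact_mod_cast c3
  have r4 : ((nb G (bd G W Z \ U) u).card : ℝ) + (bd G W A ∩ bd G W Z ∩ U).card ≤
      (bd G W Z ∩ (A ∪ bd G W A)).card := by
    exact_mod_cast c4
  have r5 : ((bd G W A ∩ F).card : ℝ) ≤ (nb G F u).card + Bad.card := by
    exact_mod_cast c5
  have e1 : (1 + (16 * θ + δ0)) * (k : ℝ) = k + 16 * (θ * k) + δ0 * k := by ring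
  have e2 : (31 * θ + 2 * δ0) * (k : ℝ) = 31 * (θ * k) + 2 * (δ0 * k) := by ring
  have e3 : θ * (15 * (k : ℝ)) = 15 * (θ * k) := by ring
  rw [e1] at c7
  rw [e3] at c6
  rw [e2]
  linarith

end Pool.Agent.LC0y
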