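import Pool.Agent.Lib_MP_0bab5c_y.FN1
import Pool.Agent.Lib_MP_0bab5c_y.SB3

/-!
# The inequality of one class

`u ∈ W` in no home, `J ∈ cls u`, `(u,J) ∉ Ex`, `Z = ZZ E Q u J`, `p = bp G W θ Z`, `T = |nb (Z ∪ bd Z) u|`, `RJ = ∑_{x ∈ EJ E J} req u x`,
`μ = bp G W θ (Q u) / k`.
`class_deg`: `ReqSys.class_ineq` gives a trimmed cut `A`, `bracket_hub` gives
`T - k + bp (Q u) - |bd Z| ≤ RJ + τ k + (31 θ + 2 δ0) k`, and `|bd Z| ≤ p`.
`class_num`: if no `w ∈ Z` has `u ∈ Q w`: put `s = max 0 (1 - μ)` (so `s < 1` because `bp (Q u) ≥ k/31 > 0`),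
`ξ = (T - RJ - p)/k - σ3`, `σ3 = 31 θ + 2 δ0 + τ`, `t = |UU G Q Z u|`.  `class_deg`: `ξ ≤ 1 - μ ≤ s`.  `T ≤ |nb Z u| + |bd Z| ≤ t + p` (a neighbour `x ∈ Z` of `u` is in
`UU` since `x ∈ Q x`), so `ξ ≤ t/k`.  `num_lemma` with `t/k`, `p/k`, multiplied by `k`, and `class_pay`:
`(T - RJ - p - σ3 k) - p (s + kap)/(1 - s) ≤ payc Z u + 31 N τ k`.
-/

namespace Pool.Agent.LC0y

open Finset Pool.Agent.LC0bab
open scoped Classical

universe u

variable {V ι : Type u} [Fintype ι]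

theorem class_deg {G : SimpleGraph V} {W : Finset V} {k N B1 : ℕ} {n ε θ δ0 ε1 δ τ : ℝ}
    {E : ι → Finset V} {Q : V → Finset V} {cls : V → Finset (Finset ι)} {req : V → V → ℝ}
    {Ex : Finset (V × Finset ι)} (h : Ctx G W k N B1 n ε θ δ0 ε1 δ τ E Q cls req Ex)
    {u : V} (hu : u ∈ W) (hun : ∀ i, u ∉ E i) {J : Finset ι} (hJ : J ∈ cls u)
    (hEx : (u, J) ∉ Ex) :
    ((nb G (ZZ E Q u J ∪ bd G W (ZZ E Q u J)) u).card : ℝ) ≤
      k - bp G W θ (Q u) + ((bd G W (ZZ E Q u J)).card : ℝ) + ∑ x ∈ EJ E J, req u x +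
        (31 * θ + 2 * δ0 + τ) * k := by
  obtain ⟨z, A, _, _, hcut, hineq⟩ := h.hR.class_ineq u hu J hJ hEx
  have hb := bracket_hub h.hθ.le h.hQ h.hB h.hF h.hS h.hδ h.hNδ hu hun hJ hcut.2
  have e1 : (31 * θ + 2 * δ0 + τ) * (k : ℝ) = (31 * θ + 2 * δ0) * k + τ * k := by ring
  rw [e1]
  linarith

theorem class_num {G : SimpleGraph V} {W : Finset V} {k N B1 : ℕ} {n ε θ δ0 ε1 δ τ : ℝ}
    {E : ι → Finset V} {Q : V → Finset V} {cls : V → Finset (Finset ι)} {req : V → V → ℝ}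
    {Ex : Finset (V × Finset ι)} (h : Ctx G W k N B1 n ε θ δ0 ε1 δ τ E Q cls req Ex)
    {u : V} (hu : u ∈ W) (hun : ∀ i, u ∉ E i) {J : Finset ι} (hJ : J ∈ cls u)
    (hEx : (u, J) ∉ Ex) (hno : ∀ w ∈ ZZ E Q u J, u ∉ Q w) {s : ℝ}
    (hs : s = max 0 (1 - bp G W θ (Q u) / k)) :
    ((nb G (ZZ E Q u J ∪ bd G W (ZZ E Q u J)) u).card : ℝ) - ∑ x ∈ EJ E J, req u x -
        bp G W θ (ZZ E Q u J) - (31 * θ + 2 * δ0 + τ) * k -
        bp G W θ (ZZ E Q u J) * (s + kap) / (1 - s) ≤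
      payc G W k θ E Q req (ZZ E Q u J) u + 31 * N * τ * k := by
  have hdeg := class_deg h hu hun hJ hEx
  have hpay := class_pay h hu hun hJ hno
  have hk : (0 : ℝ) < k := by exact_mod_cast h.hk
  have hZQ : ZZ E Q u J ⊆ Q u := inter_subset_left
  have hQW : Q u ⊆ W := h.hQ.sub u hu
  have hZne : (ZZ E Q u J).Nonempty := by
    obtain ⟨i, hi⟩ := h.hF.cne u hu J hJ
    obtain ⟨x, hx⟩ := h.hS.met u hu hun J hJ i hi
    obtain ⟨hx1, hx2⟩ := mem_inter.1 hx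
    exact ⟨x, mem_inter.2 ⟨hx1, mem_EJ.2 ⟨i, hi, hx2⟩⟩⟩
  have hlowZ := h.hB.low u hu _ hZQ hZne
  have hlowQ := h.hB.low u hu (Q u) (Subset.refl _) ⟨u, h.hQ.mem u hu⟩
  have hbpZ : ((bd G W (ZZ E Q u J)).card : ℝ) ≤ bp G W θ (ZZ E Q u J) := by
    unfold bp
    have := mul_nonneg h.hθ.le (Nat.cast_nonneg (α := ℝ) (ZZ E Q u J).card)
    linarith
  have hbpQ : ((bd G W (Q u)).card : ℝ) ≤ bp G W θ (Q u) := by
    unfold bp
    have := mul_nonneg h.hθ.le (Nat.cast_nonneg (α := ℝ) (Q u).card)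
    linarith
  have hk31 : (0 : ℝ) < (k : ℝ) / 31 := by positivity
  set p : ℝ := bp G W θ (ZZ E Q u J) with hp
  set T : ℝ := ((nb G (ZZ E Q u J ∪ bd G W (ZZ E Q u J)) u).card : ℝ) with hT
  set RJ : ℝ := ∑ x ∈ EJ E J, req u x with hRJ
  set t : ℝ := ((UU G Q (ZZ E Q u J) u).card : ℝ) with ht
  have hp0 : 0 < p := by linarith
  have hq0 : 0 < bp G W θ (Q u) := by linarith
  have hRJ0 : 0 ≤ RJ := sum_nonneg (fun x _ => h.hR.nonneg u x)
  have hσ0 : 0 ≤ (31 * θ + 2 * δ0 + τ) * (k : ℝ) := by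
    have h1 := h.hθ
    have h2 := h.hδ0
    have h3 := h.hτ
    positivity
  have ht0 : 0 ≤ t := Nat.cast_nonneg _
  have hTt : T ≤ t + p := by
    have h1 : nb G (ZZ E Q u J) u ⊆ UU G Q (ZZ E Q u J) u := by
      intro x hx
      obtain ⟨hx1, hx2⟩ := mem_nb.1 hx
      exact mem_filter.2 ⟨hx1, x, h.hQ.mem x (hQW (hZQ hx1)), hx2.symm⟩
    have h2 : (nb G (ZZ E Q u J ∪ bd G W (ZZ E Q u J)) u).card ≤
        (UU G Q (ZZ E Q u J) u).card + (bd G W (ZZ E Q u J)).card := by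
      rw [nb_union]
      exact (card_union_le _ _).trans (Nat.add_le_add (card_le_card h1) (card_le_card nb_subset))
    have h3 : T ≤ t + ((bd G W (ZZ E Q u J)).card : ℝ) := by
      rw [hT, ht]
      exact_mod_cast h2
    linarith
  have hs0 : 0 ≤ s := by
    rw [hs]
    exact le_max_left _ _
  have hs1 : s < 1 := by
    rw [hs]
    refine max_lt (by norm_num) ?_
    have : 0 < bp G W θ (Q u) / k := div_pos hq0 hk
    linarith
  have hξs : (T - RJ - p - (31 * θ + 2 * δ0 + τ) * k) / k ≤ s := by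
    have h1 : (T - RJ - p - (31 * θ + 2 * δ0 + τ) * k) / k ≤ 1 - bp G W θ (Q u) / k := by
      rw [div_le_iff₀ hk, sub_mul, one_mul, div_mul_cancel₀ _ hk.ne']
      linarith
    exact h1.trans (by rw [hs]; exact le_max_right _ _)
  have hξt : (T - RJ - p - (31 * θ + 2 * δ0 + τ) * k) / k ≤ t / k := by
    refine div_le_div_of_nonneg_right ?_ hk.le
    linarith
  have hnum := num_lemma hs0 hs1 hξs hξt (div_nonneg ht0 hk.le) (div_pos hp0 hk)
  have e1 : t / k / (p / k) = t / p := by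
    field_simp
  have e2 : kap / (p / k) = kap * k / p := by
    field_simp
  have e3 : max 0 (1 - t / k - p / k) * k = max 0 (k - t - p) := by
    rw [max_mul_of_nonneg _ _ hk.le, zero_mul]
    congr 1
    field_simp
  have h4 : ((T - RJ - p - (31 * θ + 2 * δ0 + τ) * k) / k - p / k * (s + kap) / (1 - s)) * k ≤
      (t / k / (p / k) * (kap + min 1 (kap / (p / k)) * max 0 (1 - t / k - p / k))) * k :=
    mul_le_mul_of_nonneg_right hnum hk.le
  have e4 : ((T - RJ - p - (31 * θ + 2 * δ0 + τ) * k) / k - p / k * (s + kap) / (1 - s)) * k =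
      T - RJ - p - (31 * θ + 2 * δ0 + τ) * k - p * (s + kap) / (1 - s) := by
    have h5 : 1 - s ≠ 0 := by linarith
    field_simp
  have e5 : (t / k / (p / k) * (kap + min 1 (kap / (p / k)) * max 0 (1 - t / k - p / k))) * k =
      t / p * (kap * k + min 1 (kap * k / p) * max 0 (k - t - p)) := by
    rw [e1, e2, ← e3]
    ring
  rw [e4, e5] at h4
  linarith

end Pool.Agent.LC0y
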