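import Pool.Agent.Lib_MP_0bab5c_y.SB1

/-! # Number of classes, splitting of the degree (proof in the docstring of SB0.lean) -/

namespace Pool.Agent.LC0y

open Finset Pool.Agent.LC0bab
open scoped Classical

universe u

private theorem hub_cover {V ι : Type u} {G : SimpleGraph V} {W : Finset V} {k : ℕ}
    {θ δ0 : ℝ} {E : ι → Finset V} {Q : V → Finset V} (hB : QBd G W k θ δ0 E Q)
    {u : V} (hu : u ∈ W) : ∃ Hb : Finset V, (Hb.card : ℝ) ≤ δ0 * k ∧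
      ∀ y ∈ Q u, (∀ i, y ∉ E i) → y ∈ Hb :=
  ⟨_, hB.hub u hu, fun _ h1 h2 => mem_filter.2 ⟨h1, h2⟩⟩

theorem cls_card {V ι : Type u} [Fintype ι] {G : SimpleGraph V} {W : Finset V} {k N B1 : ℕ}
    {θ δ δ0 : ℝ} {E : ι → Finset V} {Q : V → Finset V} {cls : V → Finset (Finset ι)}
    (hk : 0 < k) (hQ : QSys G W θ Q) (hB : QBd G W k θ δ0 E Q) (hF : Frame G W k N B1 E cls)
    (hS : ClsSys G W k δ E Q cls) (hδ0 : 0 ≤ δ0) (hδ01 : δ0 ≤ 1 / 1000)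
    (hθ : 0 ≤ θ) (hθ1 : 16 * θ ≤ 1 / 100) (hδ : 0 ≤ δ)
    (hNδ : (N : ℝ) ^ 2 * δ ≤ δ0) {u : V} (hu : u ∈ W) (hun : ∀ i, u ∉ E i) :
    (cls u).card ≤ 33 := by
  have hkR : (0 : ℝ) < k := by exact_mod_cast hk
  have hsep := cls_sep hQ hB hF hS hδ0 hδ hNδ hu hun
  have hlow : ∀ J ∈ cls u, (k : ℝ) / 31 ≤ ((bd G W (ZZ E Q u J)).card : ℝ) := by
    intro J hJ
    obtain ⟨i, hi⟩ := hF.cne u hu J hJ
    obtain ⟨x, hx⟩ := hS.met u hu hun J hJ i hi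
    refine hB.low u hu (ZZ E Q u J) inter_subset_left ⟨x, ?_⟩
    exact mem_inter.2 ⟨(mem_inter.1 hx).1, mem_EJ.2 ⟨i, hi, (mem_inter.1 hx).2⟩⟩
  have hsum : ((cls u).card : ℝ) * ((k : ℝ) / 31) ≤
      ∑ J ∈ cls u, ((bd G W (ZZ E Q u J)).card : ℝ) := by
    rw [← nsmul_eq_mul]
    exact card_nsmul_le_sum _ _ _ hlow
  have hR : (0 : ℝ) ≤ ((RR G W E Q cls u).card : ℝ) := Nat.cast_nonneg _
  have hbd := hB.bdQ u hu
  by_contra hcon
  push Not at hcon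
  have hc : (34 : ℝ) ≤ ((cls u).card : ℝ) := by exact_mod_cast hcon
  have h1 : ((cls u).card : ℝ) * ((k : ℝ) / 31) ≤
      (1 + 16 * θ) * k + (2 + ((cls u).card : ℝ)) * δ0 * k := by linarith
  have h2 : ((cls u).card : ℝ) / 31 ≤ (1 + 16 * θ) + (2 + ((cls u).card : ℝ)) * δ0 := by
    refine le_of_mul_le_mul_right ?_ hkR
    calc ((cls u).card : ℝ) / 31 * k = ((cls u).card : ℝ) * ((k : ℝ) / 31) := by ring
      _ ≤ (1 + 16 * θ) * k + (2 + ((cls u).card : ℝ)) * δ0 * k := h1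
      _ = ((1 + 16 * θ) + (2 + ((cls u).card : ℝ)) * δ0) * k := by ring
  have h3 : (2 + ((cls u).card : ℝ)) * δ0 ≤ (2 + ((cls u).card : ℝ)) * (1 / 1000) :=
    mul_le_mul_of_nonneg_left hδ01 (by linarith)
  linarith

theorem deg_split {V ι : Type u} [Fintype ι] {G : SimpleGraph V} {W : Finset V} {k : ℕ}
    {θ δ δ0 : ℝ} {E : ι → Finset V} {Q : V → Finset V} {cls : V → Finset (Finset ι)}
    (hQ : QSys G W θ Q) (hB : QBd G W k θ δ0 E Q) (hS : ClsSys G W k δ E Q cls)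
    {u : V} (hu : u ∈ W) (hun : ∀ i, u ∉ E i) :
    ((nb G W u).card : ℝ) ≤
      ∑ J ∈ cls u, ((nb G (ZZ E Q u J ∪ bd G W (ZZ E Q u J)) u).card : ℝ) +
        ((RR G W E Q cls u).card : ℝ) + δ0 * k := by
  obtain ⟨Hb, hHb, hHb'⟩ : ∃ Hb : Finset V, (Hb.card : ℝ) ≤ δ0 * k ∧
      ∀ y ∈ Q u, (∀ i, y ∉ E i) → y ∈ Hb :=
    hub_cover hB hu
  have hsub : nb G W u ⊆
      ((cls u).biUnion (fun J => nb G (ZZ E Q u J ∪ bd G W (ZZ E Q u J)) u) ∪
        RR G W E Q cls u) ∪ Hb := by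
    intro y hy
    obtain ⟨hyW, hadj⟩ := mem_nb.1 hy
    by_cases hyQ : y ∈ Q u
    · by_cases hyE : ∀ i, y ∉ E i
      · exact mem_union_right _ (hHb' y hyQ hyE)
      · push Not at hyE
        obtain ⟨i, hyi⟩ := hyE
        obtain ⟨J, hJ, hiJ⟩ := hS.all u hu hun i ⟨y, mem_inter.2 ⟨hyQ, hyi⟩⟩
        refine mem_union_left _ (mem_union_left _ (mem_biUnion.2 ⟨J, hJ, mem_nb.2 ⟨?_, hadj⟩⟩))
        exact mem_union_left _ (mem_inter.2 ⟨hyQ, mem_EJ.2 ⟨i, hiJ, hyi⟩⟩)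
    · by_cases hyb : y ∈ (cls u).biUnion (fun J => bd G W (ZZ E Q u J))
      · obtain ⟨J, hJ, hyJ⟩ := mem_biUnion.1 hyb
        refine mem_union_left _ (mem_union_left _ (mem_biUnion.2 ⟨J, hJ, mem_nb.2 ⟨?_, hadj⟩⟩))
        exact mem_union_right _ hyJ
      · refine mem_union_left _ (mem_union_right _ ?_)
        unfold RR
        refine mem_sdiff.2 ⟨hy, fun h => ?_⟩
        rcases mem_union.1 h with h | h
        · exact hyQ h
        · exact hyb h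
  have h1 : (nb G W u).card ≤
      ∑ J ∈ cls u, (nb G (ZZ E Q u J ∪ bd G W (ZZ E Q u J)) u).card +
        (RR G W E Q cls u).card + Hb.card :=
    (card_le_card hsub).trans ((card_union_le _ _).trans
      (Nat.add_le_add_right ((card_union_le _ _).trans
        (Nat.add_le_add_right card_biUnion_le _)) _))
  have h2 : ((nb G W u).card : ℝ) ≤
      ∑ J ∈ cls u, ((nb G (ZZ E Q u J ∪ bd G W (ZZ E Q u J)) u).card : ℝ) +
        ((RR G W E Q cls u).card : ℝ) + (Hb.card : ℝ) := by exact_mod_cast h1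
  linarith

end Pool.Agent.LC0y
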