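import Pool.Agent.Lib_MP_0bab5c_y.FN2
import Pool.Agent.Lib_MP_0bab5c_y.SB2
import Pool.Agent.Lib_MP_0bab5c_y.PY1

/-!
# The inequality of a hub and of a home vertex

`hub_final`.  `u ∈ W` in no home, all classes not exceptional; `m = |cls u| ≤ 33`, `μ = bp (Q u)/k ≥ 1/31`,
`σ3 = 31 θ + 2 δ0 + τ`, `T_J`, `p_J = bp (Z J)`, `R_J = ∑_{x ∈ EJ E J} req u x`.  `∑_J R_J ≤ Rec u` (the `EJ E J` are disjoint subsets of `W`).
`∑_J |bd (Z J)| + |RR| ≤ |bd (Q u)| + 35 δ0 k` (cls_sep), `D u ≤ ∑_J T_J + |RR| + δ0 k` (deg_split).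
Case (i): some `w ∈ Z J` has `u ∈ Q w`.  Then `Q w = Q u` (`down` twice), `bp (Q u) = bp (Q w) ≤ bp (Z J) ≤ |bd (Z J)| + 15 θ k`.  If there were
another class `J'`: `|bd (Z J)| + |bd (Z J')| ≤ |bd (Q u)| + 35 δ0 k ≤ |bd (Z J)| + (15 θ + 35 δ0) k`, but `|bd (Z J')| ≥ k/31 > (15 θ + 35 δ0) k`:
contradiction.  So `cls u = {J}` and with `class_deg` `D u ≤ k - bp (Q u) + |bd (Z J)| + R_J + σ3 k + |RR| + δ0 k ≤ k + Rec u + σ3 k + 36 δ0 k`.
Case (ii): no such `w`.  `class_num` summed over `J` with `s = max 0 (1 - μ)` and `∑_J payc (Z J) u ≤ payc HM u` (`pay_disj`):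
`∑ T_J ≤ Rec u + (1 + (s+kap)/(1-s)) ∑ p_J + payc HM u + 33 σ3 k + 33 * 31 N τ k`.  `∑ p_J ≤ ∑ |bd (Z J)| + θ |Q u| ≤ bp (Q u) + 35 δ0 k - |RR|`
(the `Z J` are disjoint subsets of `Q u`).  If `μ ≤ 1`: `s = 1 - μ`, `(s+kap)/(1-s) = (1 - μ + kap)/μ ≤ 34`, so
`∑ p_J (s+kap)/(1-s) ≤ (1 - μ + kap) k + 34 * 35 δ0 k`, and `∑ p_J + |RR| ≤ μ k + 35 δ0 k`: total
`D u ≤ (1 + kap) k + Rec u + payc + (34*35 + 35 + 1) δ0 k + 33 σ3 k + 1023 N τ k`.  If `μ > 1`: `s = 0`, `∑ p_J ≤ (1 + 16 θ + 35 δ0) k`, similar.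
In all cases the error is at most `(1300 δ0 + 1100 θ + 1100 (N+1) τ) k`.  (`payc ≥ 0` by `pay_nonneg`.)

`home_neg`.  `v ∈ E i`, `cls v = {J}`, `(v,J) ∉ Ex`: `class_ineq` and `bracket_home` give `D v ≤ k + ∑_{x ∈ EJ} req v x + τ k + (16θ+δ0) k ≤
k + Rec v + (16 θ + δ0 + τ) k`.  `- ssl v = D v + Rq v - k - Rec v ≤ Rq v + (16θ+δ0+τ) k`, and
`- ssl v ≤ D v + Rq v - k ≤ (16θ+δ0) k + max 0 (D v + Rq v - (1 + (16θ+δ0)) k)`.
-/

namespace Pool.Agent.LC0y

open Finset Pool.Agent.LC0bab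
open scoped Classical

universe u

variable {V ι : Type u} [Fintype ι]

theorem hub_final {G : SimpleGraph V} {W : Finset V} {k N B1 : ℕ} {n ε θ δ0 ε1 δ τ : ℝ}
    {E : ι → Finset V} {Q : V → Finset V} {cls : V → Finset (Finset ι)} {req : V → V → ℝ}
    {Ex : Finset (V × Finset ι)} (h : Ctx G W k N B1 n ε θ δ0 ε1 δ τ E Q cls req Ex)
    {u : V} (hu : u ∈ W) (hun : ∀ i, u ∉ E i) (hg : Good cls Ex u) :
    ((nb G W u).card : ℝ) ≤ (1 + kap) * k + Rec W req u +
      payc G W k θ E Q req (HM W E) u + (1300 * δ0 + 1100 * θ + 1100 * (N + 1) * τ) * k := by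
  -- constants
  have hk0 : (0 : ℝ) < k := by exact_mod_cast h.hk
  have hkap0 : 0 < kap := kap_pos
  have hkap1 : kap < 0.0719 := kap_bounds.2
  have hθ0 := h.hθ
  have hθ1 := h.hθ1
  have hδ0 := h.hδ0
  have hδ1 := h.hδ1
  have hτ := h.hτ
  have hN0 : (0 : ℝ) ≤ N := Nat.cast_nonneg N
  have hθk : 0 < θ * k := mul_pos hθ0 hk0
  have hδk : 0 < δ0 * k := mul_pos hδ0 hk0
  have hτk : 0 < τ * k := mul_pos hτ hk0
  have hNτk : 0 ≤ N * (τ * k) := mul_nonneg hN0 hτk.le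
  have hθk1 : θ * k ≤ 1 / 2000 * k := mul_le_mul_of_nonneg_right hθ1 hk0.le
  have hδk1 : δ0 * k ≤ 1 / 2000 * k := mul_le_mul_of_nonneg_right hδ1 hk0.le
  have hkapk : 0 < kap * k := mul_pos hkap0 hk0
  -- sets
  have hQW : Q u ⊆ W := h.hQ.sub u hu
  have hZQ : ∀ J, ZZ E Q u J ⊆ Q u := fun J => inter_subset_left
  have hZW : ∀ J, ZZ E Q u J ⊆ W := fun J => (hZQ J).trans hQW
  have hZne : ∀ J ∈ cls u, (ZZ E Q u J).Nonempty := by
    intro J hJ
    obtain ⟨i, hi⟩ := h.hF.cne u hu J hJ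
    obtain ⟨x, hx⟩ := h.hS.met u hu hun J hJ i hi
    rw [mem_inter] at hx
    exact ⟨x, mem_inter.2 ⟨hx.1, mem_EJ.2 ⟨i, hi, hx.2⟩⟩⟩
  have hEJd : ∀ J ∈ cls u, ∀ J' ∈ cls u, J ≠ J' → Disjoint (EJ E J) (EJ E J') := by
    intro J hJ J' hJ' hne
    rw [disjoint_left]
    intro x hx hx'
    obtain ⟨i, hi, hxi⟩ := mem_EJ.1 hx
    obtain ⟨i', hi', hxi'⟩ := mem_EJ.1 hx'
    have hii : i ≠ i' := by
      rintro rfl
      exact disjoint_left.1 (h.hF.cdisj u hu J hJ J' hJ' hne) hi hi'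
    exact disjoint_left.1 (h.hF.disj i i' hii) hxi hxi'
  have hZd : ∀ J ∈ cls u, ∀ J' ∈ cls u, J ≠ J' → Disjoint (ZZ E Q u J) (ZZ E Q u J') := by
    intro J hJ J' hJ' hne
    exact (hEJd J hJ J' hJ' hne).mono inter_subset_right inter_subset_right
  have hZH : ∀ J, ZZ E Q u J ⊆ HM W E := by
    intro J x hx
    obtain ⟨hx1, hx2⟩ := mem_inter.1 hx
    obtain ⟨i, _, hi⟩ := mem_EJ.1 hx2
    exact mem_filter.2 ⟨hQW hx1, i, hi⟩
  -- the main inequalities
  have hm : ((cls u).card : ℝ) ≤ 33 := by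
    have := cls_card h.hk h.hQ h.hB h.hF h.hS hδ0.le (by linarith) hθ0.le (by linarith) h.hδ
      h.hNδ hu hun
    exact_mod_cast this
  have hm0 : (0 : ℝ) ≤ ((cls u).card : ℝ) := Nat.cast_nonneg _
  have hsep := cls_sep h.hQ h.hB h.hF h.hS hδ0.le h.hδ h.hNδ hu hun
  have hsep' : ∑ J ∈ cls u, ((bd G W (ZZ E Q u J)).card : ℝ) +
      ((RR G W E Q cls u).card : ℝ) ≤ ((bd G W (Q u)).card : ℝ) + 35 * (δ0 * k) := by
    have h1 : (2 + ((cls u).card : ℝ)) * δ0 * k ≤ 35 * (δ0 * k) := by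
      have : (2 + ((cls u).card : ℝ)) * δ0 * k = (2 + ((cls u).card : ℝ)) * (δ0 * k) := by ring
      rw [this]
      exact mul_le_mul_of_nonneg_right (by linarith) hδk.le
    linarith
  have hdeg := deg_split h.hQ h.hB h.hS hu hun
  have hRR0 : (0 : ℝ) ≤ ((RR G W E Q cls u).card : ℝ) := Nat.cast_nonneg _
  have hRec : ∑ J ∈ cls u, ∑ x ∈ EJ E J, req u x ≤ Rec W req u := by
    have hpd : ∀ J ∈ cls u, ∀ J' ∈ cls u, J ≠ J' → Disjoint (EJ E J) (EJ E J') := hEJd
    have h1 : ∑ J ∈ cls u, ∑ x ∈ EJ E J, req u x =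
        ∑ x ∈ (cls u).biUnion (fun J => EJ E J), req u x := by
      rw [sum_biUnion]
      intro J hJ J' hJ' hne
      exact hpd J hJ J' hJ' hne
    rw [h1]
    refine sum_le_sum_of_subset_of_nonneg ?_ (fun x _ _ => h.hR.nonneg u x)
    intro x hx
    obtain ⟨J, _, hx2⟩ := mem_biUnion.1 hx
    obtain ⟨i, _, hi⟩ := mem_EJ.1 hx2
    exact h.hF.sub i hi
  have hbq : ((bd G W (Q u)).card : ℝ) + θ * ((Q u).card : ℝ) = bp G W θ (Q u) := rfl
  have hQc0 : 0 ≤ θ * ((Q u).card : ℝ) := mul_nonneg hθ0.le (Nat.cast_nonneg _)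
  have hqlow : (k : ℝ) / 31 ≤ bp G W θ (Q u) := by
    have := h.hB.low u hu (Q u) (Subset.refl _) ⟨u, h.hQ.mem u hu⟩
    linarith
  have hqup : bp G W θ (Q u) ≤ (1 + 16 * θ) * k := h.hB.bpQ u hu
  have hBpos : ∀ v ∈ HM W E, 0 < bp G W θ (Q v) := by
    intro v hv
    have hvW : v ∈ W := (mem_filter.1 hv).1
    have h1 := h.hB.low v hvW (Q v) (Subset.refl _) ⟨v, h.hQ.mem v hvW⟩
    have h2 : 0 ≤ θ * ((Q v).card : ℝ) := mul_nonneg hθ0.le (Nat.cast_nonneg _)
    have h3 : bp G W θ (Q v) = ((bd G W (Q v)).card : ℝ) + θ * ((Q v).card : ℝ) := rfl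
    rw [h3]
    have h4 : 0 < (k : ℝ) / 31 := by positivity
    linarith
  have hs0 : ∀ v ∈ HM W E, 0 ≤ sl G W k req v := fun v _ => le_max_left _ _
  have hpay0 : 0 ≤ payc G W k θ E Q req (HM W E) u := by
    unfold payc
    exact pay_nonneg G W (HM W E) (k : ℝ) hk0.le Q _ _ hBpos hs0 (HM W E) (Subset.refl _) u
  by_cases hcase : ∃ J ∈ cls u, ∃ w ∈ ZZ E Q u J, u ∈ Q w
  · -- case (i)
    obtain ⟨J, hJ, w, hw, huw⟩ := hcase
    have hwQ : w ∈ Q u := hZQ J hw
    have hwW : w ∈ W := hQW hwQ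
    have hQQ : Q w = Q u :=
      Subset.antisymm (h.hQ.down u hu w hwQ) (h.hQ.down w hwW u huw)
    have h1 : bp G W θ (Q u) ≤ bp G W θ (ZZ E Q u J) := by
      rw [← hQQ]
      exact h.hQ.min w hwW _ (hZW J) hw
    have hZc : ((ZZ E Q u J).card : ℝ) ≤ 15 * k := by
      have h2 := card_le_card (hZQ J)
      have h3 := h.hB.cardQ u hu
      exact_mod_cast h2.trans h3
    have h2 : bp G W θ (ZZ E Q u J) ≤ ((bd G W (ZZ E Q u J)).card : ℝ) + 15 * (θ * k) := by
      have h3 : bp G W θ (ZZ E Q u J) =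
        ((bd G W (ZZ E Q u J)).card : ℝ) + θ * ((ZZ E Q u J).card : ℝ) := rfl
      have h4 := mul_le_mul_of_nonneg_left hZc hθ0.le
      rw [h3]
      linarith
    have hone : cls u = {J} := by
      by_contra hne
      obtain ⟨J', hJ', hJJ⟩ : ∃ J' ∈ cls u, J' ≠ J := by
        by_contra hall
        push Not at hall
        exact hne (Finset.eq_singleton_iff_unique_mem.2 ⟨hJ, hall⟩)
      have h3 : ((bd G W (ZZ E Q u J)).card : ℝ) + ((bd G W (ZZ E Q u J')).card : ℝ) ≤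
          ∑ J ∈ cls u, ((bd G W (ZZ E Q u J)).card : ℝ) := by
        have hsub : ({J, J'} : Finset (Finset ι)) ⊆ cls u := by
          intro x hx
          rw [mem_insert, mem_singleton] at hx
          rcases hx with rfl | rfl
          · exact hJ
          · exact hJ'
        have h4 := sum_le_sum_of_subset_of_nonneg
          (f := fun J => ((bd G W (ZZ E Q u J)).card : ℝ)) hsub
          (fun x _ _ => Nat.cast_nonneg _)
        rwa [sum_pair hJJ.symm] at h4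
      have h4 := h.hB.low u hu _ (hZQ J') (hZne J' hJ')
      linarith
    have hcd := class_deg h hu hun hJ (hg J hJ)
    rw [hone, sum_singleton] at hsep' hdeg hRec
    have e1 : (31 * θ + 2 * δ0 + τ) * k = 31 * (θ * k) + 2 * (δ0 * k) + τ * k := by ring
    have e2 : (1 + kap) * (k : ℝ) = k + kap * k := by ring
    have e3 : (1300 * δ0 + 1100 * θ + 1100 * (N + 1) * τ) * (k : ℝ) =
      1300 * (δ0 * k) + 1100 * (θ * k) + 1100 * (N * (τ * k)) + 1100 * (τ * k) := by ring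
    rw [e1] at hcd
    rw [e2, e3]
    linarith
  · -- case (ii)
    push Not at hcase
    obtain ⟨s, hs⟩ : ∃ s : ℝ, s = max 0 (1 - bp G W θ (Q u) / k) := ⟨_, rfl⟩
    have hcn : ∀ J ∈ cls u, _ := fun J hJ =>
      class_num h hu hun hJ (hg J hJ) (hcase J hJ) hs
    have hsum := sum_le_sum hcn
    have hpd : ∑ J ∈ cls u, payc G W k θ E Q req (ZZ E Q u J) u ≤
        payc G W k θ E Q req (HM W E) u := by
      unfold payc
      exact pay_disj G W (HM W E) (k : ℝ) hk0.le Q _ _ hBpos hs0 (cls u)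
        (fun J => ZZ E Q u J) (fun J _ => hZH J) hZd u
    obtain ⟨P, hP⟩ : ∃ P : ℝ, P = ∑ J ∈ cls u, bp G W θ (ZZ E Q u J) := ⟨_, rfl⟩
    obtain ⟨c, hc⟩ : ∃ c : ℝ, c = (s + kap) / (1 - s) := ⟨_, rfl⟩
    have hsum2 : ∑ J ∈ cls u, (((nb G (ZZ E Q u J ∪ bd G W (ZZ E Q u J)) u).card : ℝ) -
        ∑ x ∈ EJ E J, req u x -
        bp G W θ (ZZ E Q u J) - (31 * θ + 2 * δ0 + τ) * k -
        bp G W θ (ZZ E Q u J) * (s + kap) / (1 - s)) =
        ∑ J ∈ cls u, ((nb G (ZZ E Q u J ∪ bd G W (ZZ E Q u J)) u).card : ℝ) -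
        ∑ J ∈ cls u, ∑ x ∈ EJ E J, req u x - P -
        ((cls u).card : ℝ) * ((31 * θ + 2 * δ0 + τ) * k) - P * c := by
      have h1 : ∀ J ∈ cls u, bp G W θ (ZZ E Q u J) * (s + kap) / (1 - s) =
          bp G W θ (ZZ E Q u J) * c := by
        intro J _
        rw [hc, mul_div_assoc]
      have h2 : ∑ J ∈ cls u, bp G W θ (ZZ E Q u J) * c = P * c := by rw [hP, sum_mul]
      rw [sum_sub_distrib, sum_sub_distrib, sum_sub_distrib, sum_sub_distrib,
        sum_congr rfl h1, h2, ← hP, sum_const, nsmul_eq_mul]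
    have hsum3 : ∑ J ∈ cls u, (payc G W k θ E Q req (ZZ E Q u J) u + 31 * N * τ * k) =
        ∑ J ∈ cls u, payc G W k θ E Q req (ZZ E Q u J) u +
          ((cls u).card : ℝ) * (31 * N * τ * k) := by
      rw [sum_add_distrib, sum_const, nsmul_eq_mul]
    rw [hsum2, hsum3] at hsum
    have hm1 : ((cls u).card : ℝ) * ((31 * θ + 2 * δ0 + τ) * k) ≤
        33 * ((31 * θ + 2 * δ0 + τ) * k) :=
      mul_le_mul_of_nonneg_right hm (by positivity)
    have hm2 : ((cls u).card : ℝ) * (31 * N * τ * k) ≤ 33 * (31 * N * τ * k) :=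
      mul_le_mul_of_nonneg_right hm (by positivity)
    -- the bound for `P`
    have hZsum : ∑ J ∈ cls u, ((ZZ E Q u J).card : ℝ) ≤ ((Q u).card : ℝ) := by
      have h1 : ((cls u).biUnion (fun J => ZZ E Q u J)).card =
          ∑ J ∈ cls u, (ZZ E Q u J).card := by
        rw [card_biUnion]
        intro J hJ J' hJ' hne
        exact hZd J hJ J' hJ' hne
      have h2 : (cls u).biUnion (fun J => ZZ E Q u J) ⊆ Q u := by
        intro x hx
        obtain ⟨J, _, hx2⟩ := mem_biUnion.1 hx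
        exact hZQ J hx2
      have h3 := card_le_card h2
      rw [h1] at h3
      exact_mod_cast h3
    have hP1 : P = ∑ J ∈ cls u, ((bd G W (ZZ E Q u J)).card : ℝ) +
        θ * ∑ J ∈ cls u, ((ZZ E Q u J).card : ℝ) := by
      rw [hP, mul_sum, ← sum_add_distrib]
      rfl
    have hP2 : P + ((RR G W E Q cls u).card : ℝ) ≤ bp G W θ (Q u) + 35 * (δ0 * k) := by
      have h1 := mul_le_mul_of_nonneg_left hZsum hθ0.le
      rw [hP1]
      linarith
    have hP0 : 0 ≤ P := by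
      rw [hP]
      refine sum_nonneg (fun J _ => ?_)
      have h3 : bp G W θ (ZZ E Q u J) =
        ((bd G W (ZZ E Q u J)).card : ℝ) + θ * ((ZZ E Q u J).card : ℝ) := rfl
      rw [h3]
      have h4 : 0 ≤ θ * ((ZZ E Q u J).card : ℝ) := mul_nonneg hθ0.le (Nat.cast_nonneg _)
      have h5 : (0 : ℝ) ≤ ((bd G W (ZZ E Q u J)).card : ℝ) := Nat.cast_nonneg _
      linarith
    obtain ⟨q, hq⟩ : ∃ q : ℝ, q = bp G W θ (Q u) := ⟨_, rfl⟩
    rw [← hq] at hP2 hqlow hqup hs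
    have hq0 : 0 < q := lt_of_lt_of_le (by positivity) hqlow
    have e1 : (31 * θ + 2 * δ0 + τ) * k = 31 * (θ * k) + 2 * (δ0 * k) + τ * k := by ring
    have e2 : (1 + kap) * (k : ℝ) = k + kap * k := by ring
    have e3 : (1300 * δ0 + 1100 * θ + 1100 * (N + 1) * τ) * (k : ℝ) =
      1300 * (δ0 * k) + 1100 * (θ * k) + 1100 * (N * (τ * k)) + 1100 * (τ * k) := by ring
    have e4 : 31 * (N : ℝ) * τ * k = 31 * (N * (τ * k)) := by ring
    have e5 : (1 + 16 * θ) * (k : ℝ) = k + 16 * (θ * k) := by ring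
    rw [e1] at hsum hm1
    rw [e4] at hsum hm2
    rw [e5] at hqup
    rw [e2, e3]
    -- the main numerical estimate
    have hnum : P + P * c + ((RR G W E Q cls u).card : ℝ) ≤
        k + kap * k + 1226 * (δ0 * k) + 32 * (θ * k) := by
      by_cases hqk : q ≤ k
      · have hs1 : s = 1 - q / k := by
          rw [hs]
          apply max_eq_right
          rw [sub_nonneg, div_le_one hk0]
          exact hqk
        have hcq : c = (k - q + kap * k) / q := by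
          rw [hc, hs1]
          have : 1 - (1 - q / (k : ℝ)) = q / k := by ring
          rw [this]
          field_simp
        have hc0 : 0 ≤ c := by
          rw [hcq]
          apply div_nonneg _ hq0.le
          linarith
        have hc1 : c ≤ 34 := by
          rw [hcq, div_le_iff₀ hq0]
          have : kap * k ≤ 0.0719 * k := mul_le_mul_of_nonneg_right hkap1.le hk0.le
          linarith
        have hqc : q * c = k - q + kap * k := by
          rw [hcq]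
          field_simp
        have h1 : P * c ≤ (q + 35 * (δ0 * k)) * c :=
          mul_le_mul_of_nonneg_right (by linarith) hc0
        have h2 : (δ0 * k) * c ≤ (δ0 * k) * 34 := mul_le_mul_of_nonneg_left hc1 hδk.le
        have h3 : (q + 35 * (δ0 * k)) * c = q * c + 35 * ((δ0 * k) * c) := by ring
        rw [h3, hqc] at h1
        linarith
      · push Not at hqk
        have hs1 : s = 0 := by
          rw [hs]
          apply max_eq_left
          rw [sub_nonpos, one_le_div hk0]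
          exact hqk.le
        have hc1 : c = kap := by
          rw [hc, hs1]
          simp
        rw [hc1]
        have h1 : P * kap ≤ (k + 16 * (θ * k) + 35 * (δ0 * k)) * kap :=
          mul_le_mul_of_nonneg_right (by linarith) hkap0.le
        have h2 : (θ * k) * kap ≤ (θ * k) * 0.0719 := mul_le_mul_of_nonneg_left hkap1.le hθk.le
        have h3 : (δ0 * k) * kap ≤ (δ0 * k) * 0.0719 := mul_le_mul_of_nonneg_left hkap1.le hδk.le
        have h4 : (k + 16 * (θ * k) + 35 * (δ0 * k)) * kap =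
          kap * k + 16 * ((θ * k) * kap) + 35 * ((δ0 * k) * kap) := by ring
        rw [h4] at h1
        linarith
    linarith

end Pool.Agent.LC0y
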