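import Pool.Agent.Lib_MP_0bab5c_y.SB0

/-! # The bracket inequality of a home vertex (proof in the docstring of SB0.lean) -/

namespace Pool.Agent.LC0y

open Finset Pool.Agent.LC0bab
open scoped Classical

universe u

theorem bracket_home {V ι : Type u} [Fintype ι] {G : SimpleGraph V} {W : Finset V}
    {k : ℕ} {θ δ δ0 : ℝ} {E : ι → Finset V} {Q : V → Finset V}
    {cls : V → Finset (Finset ι)} (hE : ∀ i, E i ⊆ W) (hS : ClsSys G W k δ E Q cls)
    {v : V} (hv : v ∈ W) {i : ι} (hvi : v ∈ E i) {J : Finset ι} (hJ : cls v = {J}) {z : V}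
    {A : Finset V} (hA : TCut G W k θ δ0 E Q v z A) :
    ((nb G W v).card : ℝ) - k ≤ ((nb G (EJ E J) v).card : ℝ) -
      ((bd G W A ∩ EJ E J).card : ℝ) + (16 * θ + δ0) * k := by
  have hEJ : EJ E J ⊆ W := by
    intro x hx
    obtain ⟨i', _, hx'⟩ := mem_EJ.1 hx
    exact hE i' hx'
  obtain ⟨J0, hJ0, hall⟩ := hS.home v hv i hvi
  have hJJ : J0 = J := by
    rw [hJ0] at hJ
    exact singleton_injective hJ
  subst hJJ
  have hsub : nb G (W \ EJ E J0) v ⊆ bd G W A \ EJ E J0 := by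
    intro y hy
    obtain ⟨hy1, hvy⟩ := mem_nb.1 hy
    obtain ⟨hyW, hyJ⟩ := mem_sdiff.1 hy1
    refine mem_sdiff.2 ⟨mem_bd.2 ⟨hyW, ?_, v, hA.sep.mem, hvy⟩, hyJ⟩
    intro hyA
    obtain ⟨i', hi'⟩ := hA.homes y hyA hvy.ne'
    exact hyJ (mem_EJ.2 ⟨i', hall i' ⟨y, hi', hvy⟩, hi'⟩)
  have h1 := nb_card_split (G := G) hEJ v
  have h2 := card_le_card hsub
  have h3 := card_sdiff_add_card_inter (bd G W A) (EJ E J0)
  have h4 := hA.bdA
  have h1' : ((nb G W v).card : ℝ) = ((nb G (EJ E J0) v).card : ℝ) +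
      ((nb G (W \ EJ E J0) v).card : ℝ) := by exact_mod_cast h1
  have h2' : ((nb G (W \ EJ E J0) v).card : ℝ) ≤ ((bd G W A \ EJ E J0).card : ℝ) := by
    exact_mod_cast h2
  have h3' : ((bd G W A \ EJ E J0).card : ℝ) + ((bd G W A ∩ EJ E J0).card : ℝ) =
      ((bd G W A).card : ℝ) := by exact_mod_cast h3
  have h5 : (1 + (16 * θ + δ0)) * (k : ℝ) = k + (16 * θ + δ0) * k := by ring
  rw [h5] at h4
  linarith

end Pool.Agent.LC0y
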