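import Pool.Agent.Lib_MP_0bab5c_y.FN0
import Pool.Agent.Lib_MP_0bab5c_y.SB4

/-! # The inequality of a home vertex (proof in the docstring of FN3.lean) -/

namespace Pool.Agent.LC0y

open Finset Pool.Agent.LC0bab
open scoped Classical

universe u

variable {V ι : Type u} [Fintype ι]

theorem home_neg {G : SimpleGraph V} {W : Finset V} {k N B1 : ℕ} {n ε θ δ0 ε1 δ τ : ℝ}
    {E : ι → Finset V} {Q : V → Finset V} {cls : V → Finset (Finset ι)} {req : V → V → ℝ}
    {Ex : Finset (V × Finset ι)} (h : Ctx G W k N B1 n ε θ δ0 ε1 δ τ E Q cls req Ex)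
    {v : V} (hv : v ∈ W) {i : ι} (hvi : v ∈ E i) (hg : Good cls Ex v) :
    - ssl G W k req v ≤ (16 * θ + δ0 + τ) * k +
      min (Rq W req v) (max 0 (((nb G W v).card : ℝ) + Rq W req v -
        (1 + (16 * θ + δ0)) * k)) := by
  obtain ⟨J, hJ, _⟩ := h.hS.home v hv i hvi
  have hJm : J ∈ cls v := by
    rw [hJ]
    exact mem_singleton_self J
  obtain ⟨z, A, _, _, ⟨_, hA⟩, hineq⟩ := h.hR.class_ineq v hv J hJm (hg J hJm)
  have hbr := bracket_home h.hC.sub h.hS hv hvi hJ hA
  have hsub : EJ E J ⊆ W := by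
    intro x hx
    obtain ⟨j, _, hxj⟩ := mem_EJ.1 hx
    exact h.hC.sub j hxj
  have hRec : ∑ x ∈ EJ E J, req v x ≤ Rec W req v := by
    unfold Rec
    exact sum_le_sum_of_subset_of_nonneg hsub (fun x _ _ => h.hR.nonneg v x)
  have hRec0 : 0 ≤ Rec W req v := by
    unfold Rec
    exact sum_nonneg (fun x _ => h.hR.nonneg v x)
  have hk : (0 : ℝ) < k := by exact_mod_cast h.hk
  have hτk : 0 < τ * k := mul_pos h.hτ hk
  have h1 : - ssl G W k req v - (16 * θ + δ0 + τ) * k ≤ Rq W req v := by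
    unfold ssl
    linarith
  have h2 : - ssl G W k req v - (16 * θ + δ0 + τ) * k ≤
      max 0 (((nb G W v).card : ℝ) + Rq W req v - (1 + (16 * θ + δ0)) * k) := by
    refine le_trans ?_ (le_max_right _ _)
    unfold ssl
    linarith
  have h3 := le_min h1 h2
  linarith

end Pool.Agent.LC0y
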