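import Pool.Agent.Lib_MP_0bab5c_y.FN3
import Pool.Agent.Lib_MP_0bab5c_y.FN4
import Pool.Agent.Lib_MP_0bab5c_y.PY1

/-!
# The total

`H = HM W E`, `bad = {v in W | not Good v}`: `|bad| ≤ |Ex|` (choose an exceptional class of every bad vertex, injective).
`D v ≤ 17 k` (`QBd.deg`), `Rq v ≤ D v` (`req ≤ 1`, supported on neighbours), `Rec, Rq ≥ 0`.
For `v ∈ H`: `D v = k - ssl v - Rq v + Rec v = k - sl v + neg v - Rq v + Rec v` with `neg v = max 0 (- ssl v)`;
`neg v ≤ (16θ+δ0+τ) k + min (Rq v) (max 0 (D v + Rq v - (1 + (16θ+δ0)) k))` if `v` is good (`home_neg`; the right side is `≥ 0`), and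
`neg v ≤ D v + Rq v ≤ 34 k` otherwise.
For `u ∈ W \ H`: `hub_final` if good, `D u ≤ 17 k` otherwise (`payc ≥ 0`, `Rec ≥ 0`).
`∑_{u ∈ W \ H} payc H u ≤ ∑_{w ∈ H} (kap k + sl w)` (`pay_total`), `∑_{v ∈ W} Rec v = ∑_{x ∈ W} Rq x = ∑_{x ∈ H} Rq x` (`Rq x = 0` outside the homes),
`∑_{v ∈ W} min .. ≤ τ k |W|` (`solvent`).  `e2 G W = ∑_{v ∈ W} D v`.  Sum.
-/

namespace Pool.Agent.LC0y

open Finset Pool.Agent.LC0bab
open scoped Classical

universe u

variable {V ι : Type u} [Fintype ι]

lemma mem_HM {W : Finset V} {E : ι → Finset V} {v : V} : v ∈ HM W E ↔ v ∈ W ∧ ∃ i, v ∈ E i := by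
  simp [HM]

theorem total_bound {G : SimpleGraph V} {W : Finset V} {k N B1 : ℕ} {n ε θ δ0 ε1 δ τ : ℝ}
    {E : ι → Finset V} {Q : V → Finset V} {cls : V → Finset (Finset ι)} {req : V → V → ℝ}
    {Ex : Finset (V × Finset ι)} (h : Ctx G W k N B1 n ε θ δ0 ε1 δ τ E Q cls req Ex) :
    (e2 G W : ℝ) ≤ (1 + kap) * k * W.card +
      (16 * θ + δ0 + 2 * τ + (1300 * δ0 + 1100 * θ + 1100 * (N + 1) * τ)) * k * W.card +
      51 * k * Ex.card := by
  have hk0 : (0 : ℝ) < k := by exact_mod_cast h.hk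
  have hθ := h.hθ
  have hδ0 := h.hδ0
  have hτ := h.hτ
  have hkap := kap_pos
  have hkb := kap_bounds
  set H : Finset V := HM W E with hH
  have hHW : H ⊆ W := filter_subset _ _
  have hD17 : ∀ v ∈ W, ((nb G W v).card : ℝ) ≤ 17 * k := fun v hv => by
    exact_mod_cast h.hB.deg v hv
  have hreq0 := h.hR.nonneg
  have hRec0 : ∀ v, 0 ≤ Rec W req v := fun v => sum_nonneg (fun x _ => hreq0 v x)
  have hRq0 : ∀ x, 0 ≤ Rq W req x := fun x => sum_nonneg (fun v _ => hreq0 v x)
  have hRqD : ∀ x ∈ W, Rq W req x ≤ ((nb G W x).card : ℝ) := by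
    intro x hx
    unfold Rq
    have h1 : ∑ v ∈ W, req v x ≤ ∑ v ∈ W, (if v ∈ nb G W x then (1 : ℝ) else 0) := by
      refine sum_le_sum (fun v hv => ?_)
      by_cases h0 : req v x = 0
      · rw [h0]
        split_ifs <;> norm_num
      · have hs := h.hR.supp v x h0
        rw [if_pos (mem_nb.2 ⟨hv, hs.2.1.symm⟩)]
        exact h.hR.le_one v x
    refine h1.trans (le_of_eq ?_)
    rw [← sum_filter, sum_const, nsmul_eq_mul, mul_one]
    congr 2
    ext v
    rw [mem_filter]
    exact ⟨fun hh => hh.2, fun hh => ⟨(mem_nb.1 hh).1, hh⟩⟩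
  -- bad vertices
  set bad : Finset V := W.filter (fun v => ¬ Good cls Ex v) with hbad
  have hbadcard : (bad.card : ℝ) ≤ Ex.card := by
    have hex : ∀ v ∈ bad, ∃ J, (v, J) ∈ Ex := by
      intro v hv
      rw [hbad, mem_filter] at hv
      unfold Good at hv
      push Not at hv
      obtain ⟨_, J, _, hJ⟩ := hv
      exact ⟨J, hJ⟩
    choose! f hf using hex
    have : bad.card ≤ Ex.card := by
      refine card_le_card_of_injOn (fun v => (v, f v)) (fun v hv => hf v hv) ?_
      intro a _ b _ hab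
      exact (Prod.mk.injEq _ _ _ _ ▸ hab).1
    exact_mod_cast this
  have hbadW : bad ⊆ W := filter_subset _ _
  set mn : V → ℝ := fun v => min (Rq W req v) (max 0 (((nb G W v).card : ℝ) + Rq W req v -
        (1 + (16 * θ + δ0)) * k)) with hmn
  have hmn0 : ∀ v, 0 ≤ mn v := fun v => le_min (hRq0 v) (le_max_left _ _)
  set X : ℝ := (16 * θ + δ0 + τ) * k with hX
  have hX0 : 0 ≤ X := by positivity
  set Er : ℝ := (1300 * δ0 + 1100 * θ + 1100 * (N + 1) * τ) * k with hEr
  have hEr0 : 0 ≤ Er := by positivity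
  set b : V → ℝ := fun v => if v ∈ bad then (1 : ℝ) else 0 with hb
  have hb0 : ∀ v, 0 ≤ b v := fun v => by
    simp only [hb]
    split_ifs <;> norm_num
  -- home vertices
  have hhome : ∀ v ∈ H, ((nb G W v).card : ℝ) ≤
      k - sl G W k req v - Rq W req v + Rec W req v + X + mn v + 34 * k * b v := by
    intro v hv
    obtain ⟨hvW, i, hi⟩ := mem_HM.1 hv
    have e1 : ((nb G W v).card : ℝ) = k - ssl G W k req v - Rq W req v + Rec W req v := by
      unfold ssl
      ring
    have e2 : sl G W k req v ≤ ssl G W k req v + max 0 (- ssl G W k req v) := by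
      unfold sl
      rcases le_total 0 (ssl G W k req v) with h0 | h0
      · rw [max_eq_right h0]
        have := le_max_left (0 : ℝ) (- ssl G W k req v)
        linarith
      · rw [max_eq_left h0]
        have := le_max_right (0 : ℝ) (- ssl G W k req v)
        linarith
    have e3 : max 0 (- ssl G W k req v) ≤ X + mn v + 34 * k * b v := by
      apply max_le
      · have := hmn0 v
        have := hb0 v
        positivity
      · by_cases hg : Good cls Ex v
        · have := home_neg h hvW hi hg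
          have h3 : 0 ≤ 34 * (k : ℝ) * b v := mul_nonneg (by positivity) (hb0 v)
          simp only [hmn, hX]
          linarith
        · have hvb : v ∈ bad := by
            rw [hbad, mem_filter]
            exact ⟨hvW, hg⟩
          have hb1 : b v = 1 := by simp only [hb]; rw [if_pos hvb]
          have h1 := hRqD v hvW
          have h2 := hD17 v hvW
          have h3 := hRec0 v
          have h4 := hmn0 v
          rw [hb1]
          unfold ssl
          linarith
    linarith
  -- hubs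
  have hpay0 : ∀ u, 0 ≤ payc G W k θ E Q req H u := by
    intro u
    unfold payc
    refine pay_nonneg G W (HM W E) k hk0.le Q _ _ ?_ (fun v _ => le_max_left _ _) _
      (Subset.refl _) u
    intro v hv
    have hvW := (mem_HM.1 hv).1
    have h1 := h.hB.low v hvW (Q v) (Subset.refl _) ⟨v, h.hQ.mem v hvW⟩
    have h2 : 0 ≤ θ * ((Q v).card : ℝ) := by positivity
    unfold bp
    have h3 : 0 < (k : ℝ) / 31 := by positivity
    linarith
  have hhub : ∀ u ∈ W \ H, ((nb G W u).card : ℝ) ≤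
      (1 + kap) * k + Rec W req u + payc G W k θ E Q req H u + Er + 17 * k * b u := by
    intro u hu
    obtain ⟨huW, huH⟩ := mem_sdiff.1 hu
    have hun : ∀ i, u ∉ E i := fun i hi => huH (mem_HM.2 ⟨huW, i, hi⟩)
    by_cases hg : Good cls Ex u
    · have := hub_final h huW hun hg
      have h3 : 0 ≤ 17 * (k : ℝ) * b u := mul_nonneg (by positivity) (hb0 u)
      simp only [hEr]
      linarith
    · have hub : u ∈ bad := by
        rw [hbad, mem_filter]
        exact ⟨huW, hg⟩
      have hb1 : b u = 1 := by simp only [hb]; rw [if_pos hub]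
      have h2 := hD17 u huW
      have h3 := hRec0 u
      have h4 := hpay0 u
      rw [hb1]
      have h5 : 0 ≤ (1 + kap) * (k : ℝ) := by positivity
      linarith
  -- sums
  have hsumD : (e2 G W : ℝ) = ∑ v ∈ H, ((nb G W v).card : ℝ) +
      ∑ v ∈ W \ H, ((nb G W v).card : ℝ) := by
    have e : (e2 G W : ℝ) = ∑ v ∈ W, ((nb G W v).card : ℝ) := by
      unfold e2 ee
      push_cast
      rfl
    rw [e, ← sum_sdiff hHW]
    ring
  have hs1 := sum_le_sum hhome
  have hs2 := sum_le_sum hhub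
  have hRecRq : ∑ v ∈ W, Rec W req v = ∑ x ∈ H, Rq W req x := by
    have e1 : ∑ v ∈ W, Rec W req v = ∑ x ∈ W, Rq W req x := by
      unfold Rec Rq
      rw [sum_comm]
    rw [e1]
    symm
    refine sum_subset hHW (fun x hx hxH => ?_)
    unfold Rq
    refine sum_eq_zero (fun v _ => ?_)
    by_contra h0
    obtain ⟨_, _, J, _, i, _, hxi, _⟩ := h.hR.supp v x h0
    exact hxH (mem_HM.2 ⟨hx, i, hxi⟩)
  have hpayt : ∑ u ∈ W \ H, payc G W k θ E Q req H u ≤ ∑ w ∈ H, (kap * k + sl G W k req w) := by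
    unfold payc
    refine pay_total G W (HM W E) k hk0.le Q _ _ ?_ ?_ (fun v _ => le_max_left _ _)
    · intro v hv
      have hvW := (mem_HM.1 hv).1
      have h1 := h.hB.low v hvW (Q v) (Subset.refl _) ⟨v, h.hQ.mem v hvW⟩
      have h2 : 0 ≤ θ * ((Q v).card : ℝ) := by positivity
      show 0 < bp G W θ (Q v)
      unfold bp
      have h3 : 0 < (k : ℝ) / 31 := by positivity
      linarith
    · intro v _
      show _ ≤ bp G W θ (Q v)
      unfold bp
      have h2 : 0 ≤ θ * ((Q v).card : ℝ) := by positivity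
      linarith
  have hmnsum : ∑ v ∈ H, mn v ≤ τ * k * W.card := by
    refine (sum_le_sum_of_subset_of_nonneg hHW (fun v _ _ => hmn0 v)).trans ?_
    exact h.hR.solvent
  have hbsum : ∑ v ∈ W, b v ≤ Ex.card := by
    simp only [hb]
    rw [← sum_filter, sum_const, nsmul_eq_mul, mul_one]
    refine le_trans ?_ hbadcard
    exact_mod_cast card_le_card (fun v hv => (mem_filter.1 hv).2)
  have hbH : ∑ v ∈ H, b v + ∑ v ∈ W \ H, b v = ∑ v ∈ W, b v := by
    rw [← sum_sdiff hHW]
    ring
  have hRecH : ∑ v ∈ H, Rec W req v + ∑ v ∈ W \ H, Rec W req v = ∑ v ∈ W, Rec W req v := by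
    rw [← sum_sdiff hHW]
    ring
  have hcards : (H.card : ℝ) + ((W \ H).card : ℝ) = W.card := by
    rw [← card_sdiff_add_card_eq_card hHW]
    push_cast
    ring
  have hb1 : 0 ≤ ∑ v ∈ W \ H, b v := sum_nonneg (fun v _ => hb0 v)
  have hb2 : 0 ≤ ∑ v ∈ H, b v := sum_nonneg (fun v _ => hb0 v)
  have t1 : ∑ v ∈ H, ((nb G W v).card : ℝ) ≤ k * H.card - ∑ v ∈ H, sl G W k req v -
      ∑ v ∈ H, Rq W req v + ∑ v ∈ H, Rec W req v + X * H.card + ∑ v ∈ H, mn v +
      34 * k * ∑ v ∈ H, b v := by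
    refine hs1.trans (le_of_eq ?_)
    simp only [sum_add_distrib, sum_sub_distrib, sum_const, nsmul_eq_mul, ← mul_sum]
    ring
  have t2 : ∑ v ∈ W \ H, ((nb G W v).card : ℝ) ≤ (1 + kap) * k * (W \ H).card +
      ∑ v ∈ W \ H, Rec W req v + ∑ v ∈ W \ H, payc G W k θ E Q req H v + Er * (W \ H).card +
      17 * k * ∑ v ∈ W \ H, b v := by
    refine hs2.trans (le_of_eq ?_)
    simp only [sum_add_distrib, sum_const, nsmul_eq_mul, ← mul_sum]
    ring
  have t3 : ∑ w ∈ H, (kap * k + sl G W k req w) = kap * k * H.card +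
      ∑ v ∈ H, sl G W k req v := by
    simp only [sum_add_distrib, sum_const, nsmul_eq_mul]
    ring
  have hHc : (0 : ℝ) ≤ H.card := by positivity
  have hWc : (0 : ℝ) ≤ (W \ H).card := by positivity
  have u1 : X * H.card ≤ X * W.card := mul_le_mul_of_nonneg_left (by linarith) hX0
  have u2 : Er * (W \ H).card ≤ Er * W.card := mul_le_mul_of_nonneg_left (by linarith) hEr0
  have u3 : 34 * (k : ℝ) * ∑ v ∈ H, b v + 17 * k * ∑ v ∈ W \ H, b v ≤ 51 * k * Ex.card := by
    have w1 : ∑ v ∈ H, b v ≤ Ex.card := by linarith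
    have w2 : ∑ v ∈ W \ H, b v ≤ Ex.card := by linarith
    have w3 := mul_le_mul_of_nonneg_left w1 (by positivity : (0 : ℝ) ≤ 34 * k)
    have w4 := mul_le_mul_of_nonneg_left w2 (by positivity : (0 : ℝ) ≤ 17 * k)
    linarith
  have u4 : (1 + kap) * k * H.card + (1 + kap) * k * (W \ H).card = (1 + kap) * k * W.card := by
    rw [← hcards]
    ring
  have u5 : X * W.card + Er * W.card + τ * k * W.card =
      (16 * θ + δ0 + 2 * τ + (1300 * δ0 + 1100 * θ + 1100 * (N + 1) * τ)) * k * W.card := by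
    rw [hX, hEr]
    ring
  rw [hsumD]
  linarith

end Pool.Agent.LC0y
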