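import Pool.Agent.Lib_MP_0bab5c_y.FR1

/-! # The frame (proof in the docstring of FR0.lean) -/

namespace Pool.Agent.LC0y

open Finset Pool.Agent.LC0bab
open scoped Classical

universe u

/-- A vertex of `W` is adjacent to at most `17 / ε1` homes. -/
private theorem adj_homes {V ι : Type u} [Fintype ι] {G : SimpleGraph V} {W : Finset V} {k : ℕ}
    {n ε θ δ0 ε1 : ℝ} (hk : 0 < k) (hε1 : 0 < ε1) {E : ι → Finset V}
    (hC : Clean G W k n ε θ δ0 ε1 E) {Q : V → Finset V} (hB : QBd G W k θ δ0 E Q) {x : V}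
    (hx : x ∈ W) :
    ((univ.filter (fun i => (nb G (E i) x).Nonempty)).card : ℝ) ≤ 17 / ε1 := by
  have hkR : (0 : ℝ) < k := by exact_mod_cast hk
  set S := univ.filter (fun i => (nb G (E i) x).Nonempty) with hS
  have h1 : ((S.biUnion (fun i => nb G (E i) x)).card : ℝ) =
      ∑ i ∈ S, ((nb G (E i) x).card : ℝ) := by
    rw [card_biUnion]
    · push_cast; rfl
    · intro i _ j _ hij
      exact disjoint_of_subset_left nb_subset (disjoint_of_subset_right nb_subset (hC.disj i j hij))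
  have h2 : (S.card : ℝ) * (ε1 * k) ≤ ∑ i ∈ S, ((nb G (E i) x).card : ℝ) := by
    rw [← nsmul_eq_mul]
    refine card_nsmul_le_sum _ _ _ (fun i hi => ?_)
    rcases hC.thick x hx i with h | h
    · exact absurd h (Finset.nonempty_iff_ne_empty.1 (mem_filter.1 hi).2)
    · exact h
  have h3 : (S.biUnion (fun i => nb G (E i) x)) ⊆ nb G W x := by
    intro y hy
    obtain ⟨i, _, hy⟩ := mem_biUnion.1 hy
    exact nb_mono (hC.sub i) x hy
  have h4 : ((S.biUnion (fun i => nb G (E i) x)).card : ℝ) ≤ 17 * k := by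
    have h5 := (card_le_card h3).trans (hB.deg x hx)
    exact_mod_cast h5
  have h5 : (S.card : ℝ) * (ε1 * k) ≤ 17 * k := by
    rw [h1] at h4
    exact h2.trans h4
  rw [le_div_iff₀ hε1]
  have h6 : ((S.card : ℝ) * ε1) * k ≤ 17 * k := by
    calc ((S.card : ℝ) * ε1) * k = (S.card : ℝ) * (ε1 * k) := by ring
      _ ≤ 17 * k := h5
  exact le_of_mul_le_mul_right h6 hkR

theorem exists_frame (ε1 δ : ℝ) (hε1 : 0 < ε1) (hε2 : ε1 ≤ 1) (hδ : 0 < δ) (N : ℕ)
    (hN : 100 / ε1 ≤ N) : ∃ B1 : ℕ, ∀ (V ι : Type u) [Fintype ι] (G : SimpleGraph V)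
    (W : Finset V) (k : ℕ) (n ε θ δ0 : ℝ) (E : ι → Finset V) (Q : V → Finset V),
    0 < k → 0 < θ → 16 * θ ≤ 1 → Clean G W k n ε θ δ0 ε1 E → QSys G W θ Q →
    QBd G W k θ δ0 E Q →
    ∃ cls : V → Finset (Finset ι), Frame G W k N B1 E cls ∧ ClsSys G W k δ E Q cls := by
  obtain ⟨B1, hB1⟩ := exists_comp ⌈34 * (1 + 17 / ε1) / δ⌉₊ N
  refine ⟨B1 + N, fun V ι _ G W k n ε θ δ0 E Q hk hθ hθ1 hC hQ hB => ?_⟩
  have hkR : (0 : ℝ) < k := by exact_mod_cast hk
  -- the closed neighbourhoods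
  let Nc : ι → Finset V := fun i => E i ∪ nbs G W (E i)
  have hNcW : ∀ i, Nc i ⊆ W := fun i => union_subset (hC.sub i) nbs_subset
  have hNcard : ∀ i, (Nc i).card ≤ 34 * k := by
    intro i
    have h1 := card_union_le (E i) (nbs G W (E i))
    have h2 := hC.cardE i
    have h3 := hC.cardN i
    show (E i ∪ nbs G W (E i)).card ≤ 34 * k
    omega
  -- every vertex lies in few of them
  have hmult : ∀ x ∈ W, ((univ.filter (fun i => x ∈ Nc i)).card : ℝ) ≤ 1 + 17 / ε1 := by
    intro x hx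
    have hsub : univ.filter (fun i => x ∈ Nc i) ⊆
        univ.filter (fun i => x ∈ E i) ∪ univ.filter (fun i => (nb G (E i) x).Nonempty) := by
      intro i hi
      have hi' := (mem_filter.1 hi).2
      rcases mem_union.1 hi' with h | h
      · exact mem_union_left _ (mem_filter.2 ⟨mem_univ _, h⟩)
      · obtain ⟨_, y, hy, hadj⟩ := mem_nbs.1 h
        exact mem_union_right _ (mem_filter.2 ⟨mem_univ _, y, mem_nb.2 ⟨hy, hadj.symm⟩⟩)
    have h1 : (univ.filter (fun i => x ∈ E i)).card ≤ 1 := by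
      rw [card_le_one]
      intro i hi j hj
      by_contra hij
      exact disjoint_left.1 (hC.disj i j hij) (mem_filter.1 hi).2 (mem_filter.1 hj).2
    have h2 := adj_homes hk hε1 hC hB hx
    have h3 := (card_le_card hsub).trans (card_union_le _ _)
    have h3' : ((univ.filter (fun i => x ∈ Nc i)).card : ℝ) ≤
        ((univ.filter (fun i => x ∈ E i)).card : ℝ) +
          ((univ.filter (fun i => (nb G (E i) x).Nonempty)).card : ℝ) := by exact_mod_cast h3
    have h1' : ((univ.filter (fun i => x ∈ E i)).card : ℝ) ≤ 1 := by exact_mod_cast h1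
    linarith
  -- the relation
  let H : ι → ι → Prop := fun i i' => i ≠ i' ∧ δ * k < (((Nc i) ∩ (Nc i')).card : ℝ)
  have hHs : ∀ i j, H i j → H j i := by
    intro i j h
    refine ⟨h.1.symm, ?_⟩
    rw [inter_comm]
    exact h.2
  have hHd : ∀ i, (univ.filter (fun j => H i j)).card ≤ ⌈34 * (1 + 17 / ε1) / δ⌉₊ := by
    intro i
    set S := univ.filter (fun j => H i j) with hS
    have h1 : (S.card : ℝ) * (δ * k) ≤ ∑ j ∈ S, (((Nc i) ∩ (Nc j)).card : ℝ) := by
      rw [← nsmul_eq_mul]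
      exact card_nsmul_le_sum _ _ _ (fun j hj => (mem_filter.1 hj).2.2.le)
    have h2 : ∑ j ∈ S, (((Nc i) ∩ (Nc j)).card : ℝ) ≤
        ∑ x ∈ Nc i, ((univ.filter (fun j => x ∈ Nc j)).card : ℝ) := by
      have h3 : ∑ j ∈ S, (((Nc i) ∩ (Nc j)).card : ℝ) ≤
          ∑ j : ι, (((Nc i) ∩ (Nc j)).card : ℝ) := by
        refine sum_le_sum_of_subset_of_nonneg (subset_univ _) (fun _ _ _ => by positivity)
      have h4 : ∑ j : ι, (((Nc i) ∩ (Nc j)).card : ℝ) =
          ∑ x ∈ Nc i, ((univ.filter (fun j => x ∈ Nc j)).card : ℝ) := by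
        have h5 : ∀ j : ι, (((Nc i) ∩ (Nc j)).card : ℝ) =
            ∑ x ∈ Nc i, (if x ∈ Nc j then (1 : ℝ) else 0) := by
          intro j
          rw [← filter_mem_eq_inter, card_filter]
          push_cast
          rfl
        have h6 : ∀ x : V, ((univ.filter (fun j => x ∈ Nc j)).card : ℝ) =
            ∑ j : ι, (if x ∈ Nc j then (1 : ℝ) else 0) := by
          intro x
          rw [card_filter]
          push_cast
          rfl
        simp_rw [h5, h6]
        exact sum_comm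
      linarith
    have h3 : ∑ x ∈ Nc i, ((univ.filter (fun j => x ∈ Nc j)).card : ℝ) ≤
        (34 * k) * (1 + 17 / ε1) := by
      have h4 : ∑ x ∈ Nc i, ((univ.filter (fun j => x ∈ Nc j)).card : ℝ) ≤
          (Nc i).card • (1 + 17 / ε1) := by
        exact sum_le_card_nsmul _ _ _ (fun x hx => hmult x (hNcW i hx))
      rw [nsmul_eq_mul] at h4
      have h5 : ((Nc i).card : ℝ) ≤ 34 * k := by exact_mod_cast hNcard i
      have h6 : (0 : ℝ) ≤ 1 + 17 / ε1 := by positivity
      exact h4.trans (mul_le_mul_of_nonneg_right h5 h6)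
    have h4 : (S.card : ℝ) * δ * k ≤ 34 * (1 + 17 / ε1) * k := by
      have := (h1.trans h2).trans h3
      calc (S.card : ℝ) * δ * k = (S.card : ℝ) * (δ * k) := by ring
        _ ≤ (34 * k) * (1 + 17 / ε1) := this
        _ = 34 * (1 + 17 / ε1) * k := by ring
    have h5 : (S.card : ℝ) * δ ≤ 34 * (1 + 17 / ε1) := le_of_mul_le_mul_right h4 hkR
    have h6 : (S.card : ℝ) ≤ 34 * (1 + 17 / ε1) / δ := by
      rw [le_div_iff₀ hδ]
      exact h5
    have h7 : (S.card : ℝ) ≤ (⌈34 * (1 + 17 / ε1) / δ⌉₊ : ℝ) := h6.trans (Nat.le_ceil _)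
    exact_mod_cast h7
  obtain ⟨comp, hcomp, hcount⟩ := hB1 ι H hHs (fun i => by convert hHd i)
  -- sizes
  have hinv : 1 ≤ 1 / ε1 := by
    rw [le_div_iff₀ hε1]
    linarith
  have hN' : 100 * (1 / ε1) ≤ N := by
    have : 100 * (1 / ε1) = 100 / ε1 := by ring
    rw [this]; exact hN
  let Ad : ι → Finset ι := fun i =>
    insert i (univ.filter (fun i' => ∃ x ∈ E i, ∃ y ∈ E i', G.Adj x y))
  have hAdmem : ∀ i i', i' ∈ Ad i ↔ i' = i ∨ ∃ x ∈ E i, ∃ y ∈ E i', G.Adj x y := by
    intro i i'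
    simp [Ad]
  have hAdsymm : ∀ i i', i' ∈ Ad i → i ∈ Ad i' := by
    intro i i' h
    rw [hAdmem] at h ⊢
    rcases h with h | ⟨x, hx, y, hy, hxy⟩
    · exact Or.inl h.symm
    · exact Or.inr ⟨y, hy, x, hx, hxy.symm⟩
  have hAdcard : ∀ i, (Ad i).card ≤ N := by
    intro i
    have h1 := home_adj hk hε1 hC i
    have h2 : (Ad i).card ≤ (univ.filter (fun i' => ∃ x ∈ E i, ∃ y ∈ E i', G.Adj x y)).card + 1 :=
      card_insert_le _ _
    have h2' : ((Ad i).card : ℝ) ≤
        ((univ.filter (fun i' => ∃ x ∈ E i, ∃ y ∈ E i', G.Adj x y)).card : ℝ) + 1 := by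
      exact_mod_cast h2
    have h3 : (18 : ℝ) / ε1 = 18 * (1 / ε1) := by ring
    rw [h3] at h1
    have h4 : ((Ad i).card : ℝ) ≤ N := by linarith
    exact_mod_cast h4
  let I : V → Finset ι := fun u => univ.filter (fun i => (Q u ∩ E i).Nonempty)
  have hIcard : ∀ u ∈ W, (∀ i, u ∉ E i) → (I u).card ≤ N := by
    intro u hu hun
    have h1 := homes_met hk hθ hθ1 hε1 hC hQ hB hu hun
    have h3 : (34 : ℝ) / ε1 = 34 * (1 / ε1) := by ring
    rw [h3] at h1
    have h4 : ((I u).card : ℝ) ≤ N := by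
      have h5 : ((I u).card : ℝ) ≤ 34 * (1 / ε1) := h1
      linarith
    exact_mod_cast h4
  let cls : V → Finset (Finset ι) := fun v =>
    if h : ∃ i, v ∈ E i then {Ad h.choose} else comp (I v)
  have hcls1 : ∀ v i, v ∈ E i → cls v = {Ad i} := by
    intro v i hv
    have h : ∃ i, v ∈ E i := ⟨i, hv⟩
    have h1 : cls v = {Ad h.choose} := dif_pos h
    have h2 : h.choose = i := by
      by_contra hne
      exact disjoint_left.1 (hC.disj _ _ hne) h.choose_spec hv
    rw [h1, h2]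
  have hcls2 : ∀ v, (∀ i, v ∉ E i) → cls v = comp (I v) := by
    intro v hv
    have h : ¬ ∃ i, v ∈ E i := fun ⟨i, hi⟩ => hv i hi
    exact dif_neg h
  have hdich : ∀ v, (∃ i, v ∈ E i) ∨ (∀ i, v ∉ E i) := by
    intro v
    by_cases h : ∃ i, v ∈ E i
    · exact Or.inl h
    · exact Or.inr (fun i hi => h ⟨i, hi⟩)
  refine ⟨cls, ?_, ?_⟩
  · refine ⟨hC.sub, hC.disj, hC.cardE, hC.cardN, ?_, ?_, ?_, ?_⟩
    · intro v hv J hJ J' hJ' hne
      rcases hdich v with ⟨i, hi⟩ | hun
      · rw [hcls1 v i hi] at hJ hJ'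
        exact absurd ((mem_singleton.1 hJ).trans (mem_singleton.1 hJ').symm) hne
      · rw [hcls2 v hun] at hJ hJ'
        exact (hcomp (I v) (hIcard v hv hun)).2.2.1 J hJ J' hJ' hne
    · intro v hv
      rcases hdich v with ⟨i, hi⟩ | hun
      · rw [hcls1 v i hi, sum_singleton]
        exact hAdcard i
      · rw [hcls2 v hun]
        have hc := hcomp (I v) (hIcard v hv hun)
        have h1 : ((comp (I v)).biUnion id).card = ∑ J ∈ comp (I v), J.card := by
          rw [card_biUnion]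
          · rfl
          · intro J hJ J' hJ' hne
            exact hc.2.2.1 J hJ J' hJ' hne
        rw [← h1]
        refine (card_le_card ?_).trans (hIcard v hv hun)
        intro i hi
        obtain ⟨J, hJ, hiJ⟩ := mem_biUnion.1 hi
        exact (hc.1 J hJ).1 hiJ
    · intro v hv J hJ
      rcases hdich v with ⟨i, hi⟩ | hun
      · rw [hcls1 v i hi] at hJ
        rw [mem_singleton.1 hJ]
        exact ⟨i, (hAdmem i i).2 (Or.inl rfl)⟩
      · rw [hcls2 v hun] at hJ
        exact ((hcomp (I v) (hIcard v hv hun)).1 J hJ).2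
    · intro i
      have hsub : ((univ : Finset (Finset ι)).filter
          (fun J => i ∈ J ∧ ∃ v ∈ W, J ∈ cls v)) ⊆
          ((univ : Finset (Finset ι)).filter
            (fun J => i ∈ J ∧ ∃ I : Finset ι, I.card ≤ N ∧ J ∈ comp I)) ∪ (Ad i).image Ad := by
        intro J hJ
        obtain ⟨hiJ, v, hv, hJv⟩ := (mem_filter.1 hJ).2
        rcases hdich v with ⟨i', hi'⟩ | hun
        · rw [hcls1 v i' hi'] at hJv
          have hJe := mem_singleton.1 hJv
          rw [hJe] at hiJ ⊢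
          exact mem_union_right _ (mem_image.2 ⟨i', hAdsymm i' i hiJ, rfl⟩)
        · rw [hcls2 v hun] at hJv
          exact mem_union_left _ (mem_filter.2 ⟨mem_univ _, hiJ, I v, hIcard v hv hun, hJv⟩)
      have h1 := (card_le_card hsub).trans (card_union_le _ _)
      have h2 := hcount i
      have h3 : ((Ad i).image Ad).card ≤ N := card_image_le.trans (hAdcard i)
      omega
  · refine ⟨?_, ?_, ?_, ?_⟩
    · intro v _ i hi
      refine ⟨Ad i, hcls1 v i hi, ?_⟩
      rintro i' ⟨x, hx, hadj⟩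
      exact (hAdmem i i').2 (Or.inr ⟨v, hi, x, hx, hadj⟩)
    · intro u hu hun J hJ i hiJ
      rw [hcls2 u hun] at hJ
      have h1 := ((hcomp (I u) (hIcard u hu hun)).1 J hJ).1 hiJ
      exact (mem_filter.1 h1).2
    · intro u hu hun i hi
      rw [hcls2 u hun]
      exact (hcomp (I u) (hIcard u hu hun)).2.1 i (mem_filter.2 ⟨mem_univ _, hi⟩)
    · intro u hu hun J hJ J' hJ' hne i hi i' hi'
      rw [hcls2 u hun] at hJ hJ'
      have hc := hcomp (I u) (hIcard u hu hun)
      have h1 := hc.2.2.2 J hJ J' hJ' hne i hi i' hi'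
      have h2 : i ≠ i' := by
        intro h
        rw [h] at hi
        exact disjoint_left.1 (hc.2.2.1 J hJ J' hJ' hne) hi hi'
      by_contra h3
      exact h1 ⟨h2, not_le.1 h3⟩

end Pool.Agent.LC0y
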