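import Pool.Agent.Lib_MP_0bab5c_y.FN5
import Pool.Agent.Lib_MP_0bab5c_y.FR2

/-!
# The exact upper bound for graphs with cuts
-/

namespace Pool.Agent.LC0y

open Finset Pool.Agent.LC0bab
open scoped Classical

universe u

/-- For large `k`, twice the number of edges is at most `(8 - 4√3 + ε) k` times the number of
vertices. -/
theorem exact_core1 (ε : ℝ) (hε : 0 < ε) (hε1 : ε ≤ 1) : ∃ k0 : ℕ, ∀ k : ℕ, k0 ≤ k →
    ∀ (V : Type u) (G : SimpleGraph V) (W : Finset V), RC G k W ∅ →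
      (e2 G W : ℝ) ≤ (1 + kap + ε) * k * W.card := by
  set θ : ℝ := ε / 20000 with hθdef
  set δ0 : ℝ := ε / 20000 with hδdef
  have hθ : 0 < θ := by rw [hθdef]; positivity
  have hδ0 : 0 < δ0 := by rw [hδdef]; positivity
  have hθ1 : θ ≤ 1 / 2000 := by rw [hθdef]; linarith
  have hδ1 : δ0 ≤ 1 / 2000 := by rw [hδdef]; linarith
  set e1 : ℝ := ε * δ0 / 288 with he1def
  have he1 : 0 < e1 := by rw [he1def]; positivity
  have he1' : e1 ≤ 1 := by
    rw [he1def]
    have : ε * δ0 ≤ 1 * (1 / 2000) := mul_le_mul hε1 hδ1 hδ0.le zero_le_one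
    linarith
  obtain ⟨N, hN⟩ := exists_nat_ge (100 / e1)
  have hN0 : (0 : ℝ) < N := lt_of_lt_of_le (by positivity) hN
  set δ : ℝ := δ0 / (N : ℝ) ^ 2 with hδNdef
  have hδ : 0 < δ := by rw [hδNdef]; positivity
  have hNδ : (N : ℝ) ^ 2 * δ ≤ δ0 := by
    rw [hδNdef]
    apply le_of_eq
    field_simp
  set τ : ℝ := ε / (11020 * (N + 1)) with hτdef
  have hτ : 0 < τ := by rw [hτdef]; positivity
  have hτ1 : 1102 * (N + 1) * τ = ε / 10 := by
    rw [hτdef]
    field_simp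
    norm_num
  obtain ⟨B1, hB1⟩ := exists_frame.{u} e1 δ he1 he1' hδ N hN
  obtain ⟨B, kR, hReq⟩ := req_main.{u} N B1 (16 * θ + δ0) τ (by positivity)
    (by linarith) hτ
  obtain ⟨kA, hA⟩ := exists_min_core.{u} ε hε hε1
  obtain ⟨kB, hBd⟩ := q_bounds.{u} θ hθ (by linarith)
  obtain ⟨kC, hkC⟩ := exists_nat_gt (204 * B / (δ0 * ε))
  refine ⟨kR + kA + kB + kC + 1, fun k hk V G W hrc => ?_⟩
  by_contra hcon
  push Not at hcon
  have hk0 : 0 < k := by omega
  have hkr : (0 : ℝ) < k := by exact_mod_cast hk0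
  obtain ⟨W', hW', hne, hrc', he', hs', hcap'⟩ := hA k (by omega) V G W hrc hcon
  obtain ⟨ι, hι, G', W2, E, hW2, hC, hbig⟩ := cleaning (θ := θ) (δ0 := δ0) (ε1 := e1) hε hθ.le
    (by linarith) hδ0 he1 (by rw [he1def]; linarith) hk0 G W' hne hrc' he' hs' hcap'
  obtain ⟨Q, hQ⟩ := exists_qsys G' W2 θ
  have hB := hBd k (by omega) V ι G' W2 _ _ _ _ E Q hε hC hQ
  obtain ⟨cls, hF, hS⟩ := hB1 V ι G' W2 k _ _ θ δ0 E Q hk0 hθ (by linarith) hC hQ hB
  have hCS := trim_cutsys hθ.le hC hQ hB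
  obtain ⟨req, Ex, hR, hEx⟩ := hReq k (by omega) V ι G' W2 E cls _ hF hCS
  have hctx : Ctx G' W2 k N B1 (W'.card : ℝ) ε θ δ0 e1 δ τ E Q cls req Ex :=
    ⟨hk0, hθ, hθ1, hδ0, hδ1, hδ.le, hNδ, hτ, hC, hQ, hB, hF, hS, hR⟩
  have htot := total_bound hctx
  have hn : (0 : ℝ) < W'.card := by exact_mod_cast hne.card_pos
  -- the exceptional pairs are negligible
  have h1 : (51 : ℝ) * k * Ex.card < ε / 4 * k * W'.card := by
    have h2 : (Ex.card : ℝ) ≤ B * Fintype.card ι := by exact_mod_cast hEx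
    have h3 := hC.few
    have h4 : (204 * B / (δ0 * ε) : ℝ) < k := by
      refine hkC.trans_le ?_
      exact_mod_cast (by omega : kC ≤ k)
    rw [div_lt_iff₀ (by positivity)] at h4
    have h5 : (Ex.card : ℝ) * (δ0 * k) ≤ B * W'.card := by
      calc (Ex.card : ℝ) * (δ0 * k) ≤ (B * Fintype.card ι) * (δ0 * k) :=
            mul_le_mul_of_nonneg_right h2 (by positivity)
        _ = B * ((Fintype.card ι : ℝ) * (δ0 * k)) := by ring
        _ ≤ B * W'.card := mul_le_mul_of_nonneg_left h3 (by positivity)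
    have h6 : (51 : ℝ) * Ex.card * (δ0 * k) * 4 < ε * W'.card * (δ0 * k) := by
      have : (51 : ℝ) * Ex.card * (δ0 * k) * 4 ≤ 204 * B * W'.card := by nlinarith
      have h7 : (204 : ℝ) * B * W'.card < k * (δ0 * ε) * W'.card :=
        mul_lt_mul_of_pos_right h4 hn
      linarith
    have h8 : (51 : ℝ) * Ex.card * 4 < ε * W'.card := by
      have hpos : (0 : ℝ) < δ0 * k := by positivity
      by_contra hc
      push Not at hc
      have := mul_le_mul_of_nonneg_right hc hpos.le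
      linarith
    have := mul_lt_mul_of_pos_right h8 hkr
    linarith
  have h9 : (16 * θ + δ0 + 2 * τ + (1300 * δ0 + 1100 * θ + 1100 * (N + 1) * τ)) * k * W2.card ≤
      ε / 2 * k * W2.card := by
    apply mul_le_mul_of_nonneg_right _ (by positivity)
    apply mul_le_mul_of_nonneg_right _ hkr.le
    have h10 : 2 * τ ≤ 2 * (N + 1) * τ := by nlinarith
    have h11 : (1100 : ℝ) * (N + 1) * τ + 2 * (N + 1) * τ = ε / 10 := by
      rw [← hτ1]
      ring
    rw [hθdef, hδdef]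
    linarith
  nlinarith [htot, hbig, h1, h9]

theorem exact_core (ε : ℝ) (hε : 0 < ε) : ∃ k0 : ℕ, ∀ k : ℕ, k0 ≤ k →
    ∀ (V : Type u) (G : SimpleGraph V) (W : Finset V), RC G k W ∅ →
      (e2 G W : ℝ) ≤ (1 + kap + ε) * k * W.card := by
  obtain ⟨k0, hk0⟩ := exact_core1.{u} (min ε 1) (lt_min hε one_pos) (min_le_right _ _)
  refine ⟨k0, fun k hk V G W hrc => (hk0 k hk V G W hrc).trans ?_⟩
  apply mul_le_mul_of_nonneg_right _ (by positivity)
  apply mul_le_mul_of_nonneg_right _ (by positivity)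
  have := min_le_left ε 1
  linarith

end Pool.Agent.LC0y
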