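import Pool.Agent.Lib_MP_0bab5c_y.IN
import Pool.Agent.Lib_MP_0bab5c_y.RF
import Pool.Agent.Lib_MP_0bab5c_y.CP

/-!
# Homes met by regions, and the classes

`homes_met`: `u ∈ W` in no home.  Let `P = Q u ∩ E i` be nonempty.  If `|P| < ε1 k/2`: some `y ∈ Q u \ P` is adjacent to a
vertex of `P`: otherwise `bd (Q u \ P) ⊆ bd (Q u)` and `bp (Q u \ P) ≤ bp (Q u) - θ |P| < bp (Q u)`, contradiction to
`QSys.min` (`u ∈ Q u \ P`).  By `thick` `|nb (E i) y| ≥ ε1 k` and `nb (E i) y ⊆ Q u ∪ bd (Q u)`, so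
`|bd (Q u) ∩ E i| ≥ ε1 k/2`.  The homes are disjoint: at most `15 k/(ε1 k/2)` homes with `|P| ≥ ε1 k/2` and at most
`2 k/(ε1 k/2)` others: together `≤ 34/ε1`.

`adj_homes`: a vertex `v` is adjacent to at most `17/ε1` homes (`thick`, `deg`).  `home_adj`: at most `18/ε1`
homes `E i'` contain a vertex adjacent to `E i`: if `y ∈ E i'` is adjacent to `x ∈ E i` then `nb (E i') x` is nonempty, so it has
`≥ ε1 k` elements, all in `nbs G W (E i) ∩ E i'`; `|nbs G W (E i)| ≤ 18 k`.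

`exists_frame`.  `Nc i = E i ∪ nbs G W (E i)`, of size `≤ 34 k`; `H i i'` iff `i ≠ i'` and `|Nc i ∩ Nc i'| > δ k`.  Every
vertex lies in at most `1 + 17/ε1` of the sets `Nc i'`, so `#{i' | H i i'} ≤ 34 (1 + 17/ε1)/δ =: Δ`.  Let `comp` be given by
`exists_comp Δ N`.  For `u` in no home: `cls u = comp {i | (Q u ∩ E i).Nonempty}`; for `v ∈ E i`: `cls v = {Ad i}` with
`Ad i = {i} ∪ {i' | some vertex of E i' is adjacent to E i}`, `|Ad i| ≤ 1 + 18/ε1 ≤ N`, and `i' ∈ Ad i ↔ i ∈ Ad i'`, so at most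
`N` of the sets `Ad i'` contain `i`.  `B1 = B1(exists_comp) + N`.
-/

namespace Pool.Agent.LC0y

open Finset Pool.Agent.LC0bab
open scoped Classical

universe u

/-- The classes of the vertices. -/
structure ClsSys {V ι : Type u} (G : SimpleGraph V) (W : Finset V) (k : ℕ) (δ : ℝ)
    (E : ι → Finset V) (Q : V → Finset V) (cls : V → Finset (Finset ι)) : Prop where
  home : ∀ v ∈ W, ∀ i, v ∈ E i → ∃ J, cls v = {J} ∧ ∀ i', (∃ x ∈ E i', G.Adj v x) → i' ∈ J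
  met : ∀ u ∈ W, (∀ i, u ∉ E i) → ∀ J ∈ cls u, ∀ i ∈ J, (Q u ∩ E i).Nonempty
  all : ∀ u ∈ W, (∀ i, u ∉ E i) → ∀ i, (Q u ∩ E i).Nonempty → ∃ J ∈ cls u, i ∈ J
  far : ∀ u ∈ W, (∀ i, u ∉ E i) → ∀ J ∈ cls u, ∀ J' ∈ cls u, J ≠ J' → ∀ i ∈ J, ∀ i' ∈ J',
    (((E i ∪ nbs G W (E i)) ∩ (E i' ∪ nbs G W (E i'))).card : ℝ) ≤ δ * k

end Pool.Agent.LC0y
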