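import Pool.Agent.Lib_MP_0bab5c_y.FR0

/-! # Homes met by a region, homes adjacent to a home (proof in the docstring of FR0.lean) -/

namespace Pool.Agent.LC0y

open Finset Pool.Agent.LC0bab
open scoped Classical

universe u

/-- Disjoint homes each containing at least `c` elements of `S`. -/
private theorem count_homes {V ι : Type u} {E : ι → Finset V}
    (hd : ∀ i j, i ≠ j → Disjoint (E i) (E j)) (S : Finset V) (F : Finset ι) {c : ℝ}
    (h : ∀ i ∈ F, c ≤ ((S ∩ E i).card : ℝ)) : (F.card : ℝ) * c ≤ (S.card : ℝ) := by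
  have h1 : (F.card : ℝ) * c ≤ ∑ i ∈ F, ((S ∩ E i).card : ℝ) := by
    have := Finset.card_nsmul_le_sum F (fun i => ((S ∩ E i).card : ℝ)) c h
    simpa [nsmul_eq_mul] using this
  have h2 : ∑ i ∈ F, (S ∩ E i).card = (F.biUnion (fun i => S ∩ E i)).card := by
    rw [card_biUnion]
    intro i _ j _ hij
    exact disjoint_of_subset_left inter_subset_right
      (disjoint_of_subset_right inter_subset_right (hd i j hij))
  have h3 : (F.biUnion (fun i => S ∩ E i)).card ≤ S.card :=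
    card_le_card (biUnion_subset.2 fun i _ => inter_subset_left)
  have h4 : ∑ i ∈ F, ((S ∩ E i).card : ℝ) ≤ (S.card : ℝ) := by
    rw [← h2] at h3
    exact_mod_cast h3
  exact h1.trans h4

theorem homes_met {V ι : Type u} [Fintype ι] {G : SimpleGraph V} {W : Finset V} {k : ℕ}
    {n ε θ δ0 ε1 : ℝ} (hk : 0 < k) (hθ : 0 < θ) (hθ1 : 16 * θ ≤ 1) (hε1 : 0 < ε1)
    {E : ι → Finset V} (hC : Clean G W k n ε θ δ0 ε1 E)
    {Q : V → Finset V} (hQ : QSys G W θ Q) (hB : QBd G W k θ δ0 E Q) {u : V} (hu : u ∈ W)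
    (hun : ∀ i, u ∉ E i) :
    ((univ.filter (fun i => (Q u ∩ E i).Nonempty)).card : ℝ) ≤ 34 / ε1 := by
  have hk' : (0 : ℝ) < k := by exact_mod_cast hk
  have hkey : ∀ i ∈ univ.filter (fun i => (Q u ∩ E i).Nonempty),
      ε1 * k / 2 ≤ (((Q u ∪ bd G W (Q u)) ∩ E i).card : ℝ) := by
    intro i hi
    have hP : (Q u ∩ E i).Nonempty := (mem_filter.1 hi).2
    -- a vertex of the region outside the home adjacent to the home
    have hex : ∃ y ∈ Q u \ (Q u ∩ E i), ∃ p ∈ Q u ∩ E i, G.Adj y p := by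
      by_contra hcon
      push Not at hcon
      have hmem : u ∈ Q u \ (Q u ∩ E i) :=
        mem_sdiff.2 ⟨hQ.mem u hu, fun h => hun i (mem_inter.1 h).2⟩
      have h1 := hQ.min u hu (Q u \ (Q u ∩ E i)) (sdiff_subset.trans (hQ.sub u hu)) hmem
      have h2 : bd G W (Q u \ (Q u ∩ E i)) ⊆ bd G W (Q u) := by
        intro v hv
        obtain ⟨hvW, hvn, a, ha, hav⟩ := mem_bd.1 hv
        refine mem_bd.2 ⟨hvW, ?_, a, (mem_sdiff.1 ha).1, hav⟩
        intro hvQ
        by_cases hvE : v ∈ E i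
        · exact hcon a ha v (mem_inter.2 ⟨hvQ, hvE⟩) hav
        · exact hvn (mem_sdiff.2 ⟨hvQ, fun h => hvE (mem_inter.1 h).2⟩)
      have h3 : ((bd G W (Q u \ (Q u ∩ E i))).card : ℝ) ≤ ((bd G W (Q u)).card : ℝ) := by
        exact_mod_cast card_le_card h2
      have h4 : ((Q u \ (Q u ∩ E i)).card : ℝ) + ((Q u ∩ E i).card : ℝ) = ((Q u).card : ℝ) := by
        have := card_sdiff_add_card_eq_card (s := Q u ∩ E i) (t := Q u) inter_subset_left
        exact_mod_cast this
      have h5 : (0 : ℝ) < ((Q u ∩ E i).card : ℝ) := by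
        exact_mod_cast card_pos.2 hP
      have h6 := mul_pos hθ h5
      unfold bp at h1
      nlinarith
    obtain ⟨y, hy, p, hp, hyp⟩ := hex
    have hyQ : y ∈ Q u := (mem_sdiff.1 hy).1
    have hyW : y ∈ W := hQ.sub u hu hyQ
    have hne : nb G (E i) y ≠ ∅ := by
      intro h0
      have : p ∈ nb G (E i) y := mem_nb.2 ⟨(mem_inter.1 hp).2, hyp⟩
      rw [h0] at this
      exact absurd this (notMem_empty p)
    have hth := (hC.thick y hyW i).resolve_left hne
    have hsub : nb G (E i) y ⊆ (Q u ∪ bd G W (Q u)) ∩ E i := by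
      intro a ha
      obtain ⟨haE, haa⟩ := mem_nb.1 ha
      refine mem_inter.2 ⟨?_, haE⟩
      by_cases haQ : a ∈ Q u
      · exact mem_union_left _ haQ
      · exact mem_union_right _ (mem_bd.2 ⟨hC.sub i haE, haQ, y, hyQ, haa⟩)
    have h1 : ((nb G (E i) y).card : ℝ) ≤ (((Q u ∪ bd G W (Q u)) ∩ E i).card : ℝ) := by
      exact_mod_cast card_le_card hsub
    have h2 : 0 < ε1 * k := mul_pos hε1 hk'
    linarith
  have hcount := count_homes hC.disj (Q u ∪ bd G W (Q u)) _ hkey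
  have hQ1 : ((Q u ∪ bd G W (Q u)).card : ℝ) ≤ 17 * k := by
    have h1 : ((Q u ∪ bd G W (Q u)).card : ℝ) ≤
        ((Q u).card : ℝ) + ((bd G W (Q u)).card : ℝ) := by
      exact_mod_cast card_union_le _ _
    have h2 : ((Q u).card : ℝ) ≤ 15 * k := by exact_mod_cast hB.cardQ u hu
    have h3 := hB.bdQ u hu
    have h4 : (1 + 16 * θ) * (k : ℝ) ≤ 2 * k :=
      mul_le_mul_of_nonneg_right (by linarith) hk'.le
    linarith
  rw [le_div_iff₀ hε1]
  have h5 := hcount.trans hQ1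
  have h6 : ((univ.filter (fun i => (Q u ∩ E i).Nonempty)).card : ℝ) * ε1 * k ≤ 34 * k := by
    linarith
  exact le_of_mul_le_mul_right h6 hk'

theorem home_adj {V ι : Type u} [Fintype ι] {G : SimpleGraph V} {W : Finset V} {k : ℕ}
    {n ε θ δ0 ε1 : ℝ} (hk : 0 < k) (hε1 : 0 < ε1) {E : ι → Finset V}
    (hC : Clean G W k n ε θ δ0 ε1 E) (i : ι) :
    ((univ.filter (fun i' => ∃ x ∈ E i, ∃ y ∈ E i', G.Adj x y)).card : ℝ) ≤ 18 / ε1 := by
  have hk' : (0 : ℝ) < k := by exact_mod_cast hk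
  have hkey : ∀ i' ∈ univ.filter (fun i' => ∃ x ∈ E i, ∃ y ∈ E i', G.Adj x y),
      ε1 * k ≤ ((nbs G W (E i) ∩ E i').card : ℝ) := by
    intro i' hi'
    obtain ⟨x, hx, y, hy, hxy⟩ := (mem_filter.1 hi').2
    have hxW : x ∈ W := hC.sub i hx
    have hne : nb G (E i') x ≠ ∅ := by
      intro h0
      have : y ∈ nb G (E i') x := mem_nb.2 ⟨hy, hxy⟩
      rw [h0] at this
      exact absurd this (notMem_empty y)
    have hth := (hC.thick x hxW i').resolve_left hne
    have hsub : nb G (E i') x ⊆ nbs G W (E i) ∩ E i' := by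
      intro a ha
      obtain ⟨haE, haa⟩ := mem_nb.1 ha
      exact mem_inter.2 ⟨mem_nbs.2 ⟨hC.sub i' haE, x, hx, haa⟩, haE⟩
    have h1 : ((nb G (E i') x).card : ℝ) ≤ ((nbs G W (E i) ∩ E i').card : ℝ) := by
      exact_mod_cast card_le_card hsub
    linarith
  have hcount := count_homes hC.disj (nbs G W (E i)) _ hkey
  have h2 : ((nbs G W (E i)).card : ℝ) ≤ 18 * k := by exact_mod_cast hC.cardN i
  rw [le_div_iff₀ hε1]
  have h5 := hcount.trans h2
  have h6 : ((univ.filter (fun i' => ∃ x ∈ E i, ∃ y ∈ E i', G.Adj x y)).card : ℝ) * ε1 * k ≤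
      18 * k := by
    linarith
  exact le_of_mul_le_mul_right h6 hk'

end Pool.Agent.LC0y
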