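import Mathlib

/-!
# Hamiltonian path of a semicomplete digraph (pure)

Proof: a finite set `s` with a relation `R` such that `R a b ∨ R b a` for all `a ≠ b` in `s` can be
listed as `a_1, ..., a_n` with `R a_t a_(t+1)` for all `t`.  Induction: insert a new element `x` in the
list `l = b :: l'`: if `R x b` take `x :: l`, otherwise `R b x` and insert `x` in `l'` (the result
starts with `x` or with the head of `l'`, so `b ::` it is still a chain).  Let `t` be the last element
and `nx a_i = a_(i+1)`.
-/

namespace Pool.Agent.LC0y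

open Finset
open scoped Classical

universe u

private theorem chain_insert {α : Type u} (R : α → α → Prop) (x : α) :
    ∀ (l : List α), (∀ b ∈ l, R x b ∨ R b x) → l.IsChain R →
      ∃ l' : List α, l'.Perm (x :: l) ∧ l'.IsChain R ∧ ∀ y ∈ l'.head?, y = x ∨ y ∈ l.head?
  | [], _, _ => ⟨[x], List.Perm.refl _, List.isChain_singleton x, by
      intro y hy
      left
      simpa [eq_comm] using hy⟩
  | b :: l0, h, hc => by
      by_cases hx : R x b
      · refine ⟨x :: b :: l0, List.Perm.refl _, ?_, ?_⟩
        · exact List.isChain_cons_cons.2 ⟨hx, hc⟩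
        · intro y hy
          left
          simpa [eq_comm] using hy
      · have hbx : R b x := (h b List.mem_cons_self).resolve_left hx
        have hc' := List.isChain_cons.1 hc
        obtain ⟨l1, hp, h1, hh⟩ := chain_insert R x l0
          (fun c hcm => h c (List.mem_cons_of_mem _ hcm)) hc'.2
        refine ⟨b :: l1, ?_, ?_, ?_⟩
        · exact (List.Perm.cons b hp).trans (List.Perm.swap x b l0)
        · refine List.isChain_cons.2 ⟨?_, h1⟩
          intro y hy
          rcases hh y hy with rfl | hy'
          · exact hbx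
          · exact hc'.1 y hy'
        · intro y hy
          right
          simpa [eq_comm] using hy

private theorem exists_chain {α : Type u} (R : α → α → Prop) :
    ∀ (l : List α), l.Nodup → (∀ a ∈ l, ∀ b ∈ l, a ≠ b → R a b ∨ R b a) →
      ∃ l' : List α, l'.Perm l ∧ l'.IsChain R
  | [], _, _ => ⟨[], List.Perm.refl _, List.isChain_nil⟩
  | x :: l0, hn, h => by
      have hn' := List.nodup_cons.1 hn
      obtain ⟨l1, hp, h1⟩ := exists_chain R l0 hn'.2
        (fun a ha b hb hab => h a (List.mem_cons_of_mem _ ha) b (List.mem_cons_of_mem _ hb) hab)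
      obtain ⟨l2, hp2, h2, _⟩ := chain_insert R x l1 (fun b hb => by
        have hb' : b ∈ l0 := hp.mem_iff.1 hb
        exact h x List.mem_cons_self b (List.mem_cons_of_mem _ hb')
          (fun hxb => hn'.1 (hxb ▸ hb'))) h1
      exact ⟨l2, hp2.trans (List.Perm.cons x hp), h2⟩

theorem ham_next {α : Type u} (s : Finset α) (R : α → α → Prop)
    (h : ∀ a ∈ s, ∀ b ∈ s, a ≠ b → R a b ∨ R b a) :
    ∃ (t : Finset α) (nx : α → α), t ⊆ s ∧ t.card ≤ 1 ∧
      (∀ a ∈ s, a ∉ t → nx a ∈ s ∧ nx a ≠ a ∧ R a (nx a)) ∧
      ∀ a ∈ s, ∀ b ∈ s, a ∉ t → b ∉ t → nx a = nx b → a = b := by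
  obtain ⟨l, hp, hc⟩ := exists_chain R s.toList s.nodup_toList
    (fun a ha b hb hab => h a (Finset.mem_toList.1 ha) b (Finset.mem_toList.1 hb) hab)
  have hmem : ∀ a, a ∈ l ↔ a ∈ s := fun a => by rw [hp.mem_iff, Finset.mem_toList]
  have hnd : l.Nodup := hp.nodup_iff.2 s.nodup_toList
  have hidx : ∀ a ∈ s, l.idxOf a < l.length := fun a ha => List.idxOf_lt_length_iff.2 ((hmem a).2 ha)
  have hget : ∀ a (ha : a ∈ s), l[l.idxOf a]'(hidx a ha) = a := fun a ha => List.getElem_idxOf (hidx a ha)
  have key : ∀ a ∈ s, a ∉ s.filter (fun a => l.idxOf a + 1 = l.length) →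
      l.idxOf a + 1 < l.length := by
    intro a ha hat
    have h1 := hidx a ha
    have h2 : l.idxOf a + 1 ≠ l.length := fun h3 => hat (Finset.mem_filter.2 ⟨ha, h3⟩)
    omega
  have hinj : ∀ a ∈ s, ∀ b ∈ s, l.idxOf a = l.idxOf b → a = b := by
    intro a ha b hb hab
    have h1 := hget a ha
    have h2 := hget b hb
    rw [← h1, ← h2]
    congr 1
  refine ⟨s.filter (fun a => l.idxOf a + 1 = l.length), fun a => l.getD (l.idxOf a + 1) a,
    Finset.filter_subset _ _, ?_, ?_, ?_⟩
  · refine Finset.card_le_one.2 ?_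
    intro a ha b hb
    have ha' := Finset.mem_filter.1 ha
    have hb' := Finset.mem_filter.1 hb
    exact hinj a ha'.1 b hb'.1 (by omega)
  · intro a ha hat
    have hk := key a ha hat
    have hg : l.getD (l.idxOf a + 1) a = l[l.idxOf a + 1]'hk := by
      rw [List.getD_eq_getElem _ _ hk]
    have hga := hget a ha
    beta_reduce
    rw [hg]
    refine ⟨(hmem _).1 (List.getElem_mem hk), ?_, ?_⟩
    · intro he
      have h3 : l[l.idxOf a + 1]'hk = l[l.idxOf a]'(hidx a ha) := by rw [he, hga]
      have h4 := (hnd.getElem_inj_iff).1 h3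
      omega
    · have h5 := List.isChain_iff_getElem.1 hc (l.idxOf a) hk
      rw [hga] at h5
      exact h5
  · intro a ha b hb hat hbt he
    have hka := key a ha hat
    have hkb := key b hb hbt
    beta_reduce at he
    rw [List.getD_eq_getElem _ _ hka, List.getD_eq_getElem _ _ hkb] at he
    have h4 := (hnd.getElem_inj_iff).1 he
    exact hinj a ha b hb (by omega)

end Pool.Agent.LC0y
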