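import Pool.Agent.Lib_MP_0bab5c_y.Y0
import Pool.Agent.Lib_MP_0bab5c_co.Regions

/-!
# Minimal regions

`bp G W θ A = |bd A| + θ |A|` is submodular (`bd_submod` and `|A ∩ C| + |A ∪ C| = |A| + |C|`).
For `u ∈ W` let `Q u` be a set `A ⊆ W` containing `u` with `bp` minimum and, among these, `|A|` minimum
(`Finset.exists_min_image` on the powerset of `W`, twice).  If `v ∈ Q u`: `bp (Q u ∩ Q v) + bp (Q u ∪ Q v) ≤
bp (Q u) + bp (Q v)` and `bp (Q u ∪ Q v) ≥ bp (Q u)` (it contains `u`), so `bp (Q u ∩ Q v) ≤ bp (Q v)`, and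
`Q u ∩ Q v` contains `v`; by minimality of `|Q v|` it is `Q v`, i.e. `Q v ⊆ Q u`.
-/

namespace Pool.Agent.LC0y

open Finset Pool.Agent.LC0bab
open scoped Classical

universe u

variable {V : Type u}

/-- A system of regions. -/
structure QSys (G : SimpleGraph V) (W : Finset V) (θ : ℝ) (Q : V → Finset V) : Prop where
  mem : ∀ v ∈ W, v ∈ Q v
  sub : ∀ v ∈ W, Q v ⊆ W
  min : ∀ v ∈ W, ∀ A ⊆ W, v ∈ A → bp G W θ (Q v) ≤ bp G W θ A
  down : ∀ v ∈ W, ∀ w ∈ Q v, Q w ⊆ Q v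

theorem bp_submod (G : SimpleGraph V) {W A C : Finset V} (θ : ℝ) (hA : A ⊆ W) (hC : C ⊆ W) :
    bp G W θ (A ∩ C) + bp G W θ (A ∪ C) ≤ bp G W θ A + bp G W θ C := by
  have h1 : ((bd G W (A ∩ C)).card : ℝ) + ((bd G W (A ∪ C)).card : ℝ) ≤
      ((bd G W A).card : ℝ) + ((bd G W C).card : ℝ) := by
    exact_mod_cast bd_submod (G := G) hA hC
  have h2 : ((A ∩ C).card : ℝ) + ((A ∪ C).card : ℝ) = (A.card : ℝ) + (C.card : ℝ) := by
    exact_mod_cast card_inter_add_card_union A C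
  unfold bp
  linear_combination h1 + θ * h2

theorem exists_qsys (G : SimpleGraph V) (W : Finset V) (θ : ℝ) :
    ∃ Q : V → Finset V, QSys G W θ Q := by
  -- for each `v ∈ W` a set with minimal `bp` and, among these, of minimal size
  have hex : ∀ v : V, ∃ Qv : Finset V, v ∈ W → v ∈ Qv ∧ Qv ⊆ W ∧
      (∀ A ⊆ W, v ∈ A → bp G W θ Qv ≤ bp G W θ A) ∧
      (∀ A ⊆ W, v ∈ A → bp G W θ A ≤ bp G W θ Qv → Qv.card ≤ A.card) := by
    intro v
    by_cases hv : v ∈ W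
    · obtain ⟨A₁, hA₁, hmin₁⟩ := exists_min_image (W.powerset.filter fun A => v ∈ A)
        (fun A => bp G W θ A) ⟨W, mem_filter.2 ⟨mem_powerset.2 subset_rfl, hv⟩⟩
      obtain ⟨A₂, hA₂, hmin₂⟩ := exists_min_image
        (W.powerset.filter fun A => v ∈ A ∧ bp G W θ A ≤ bp G W θ A₁)
        (fun A => A.card)
        ⟨A₁, mem_filter.2 ⟨(mem_filter.1 hA₁).1, (mem_filter.1 hA₁).2, le_rfl⟩⟩
      rw [mem_filter, mem_powerset] at hA₁ hA₂
      refine ⟨A₂, fun _ => ⟨hA₂.2.1, hA₂.1, ?_, ?_⟩⟩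
      · intro A hA hvA
        exact hA₂.2.2.trans (hmin₁ A (mem_filter.2 ⟨mem_powerset.2 hA, hvA⟩))
      · intro A hA hvA hle
        exact hmin₂ A (mem_filter.2 ⟨mem_powerset.2 hA, hvA, hle.trans hA₂.2.2⟩)
    · exact ⟨∅, fun h => absurd h hv⟩
  choose Q hQ using hex
  refine ⟨Q, ⟨fun v hv => (hQ v hv).1, fun v hv => (hQ v hv).2.1,
    fun v hv => (hQ v hv).2.2.1, ?_⟩⟩
  intro v hv w hw
  have hwW : w ∈ W := (hQ v hv).2.1 hw
  obtain ⟨hv1, hv2, hv3, hv4⟩ := hQ v hv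
  obtain ⟨hw1, hw2, hw3, hw4⟩ := hQ w hwW
  have h1 := bp_submod G θ hv2 hw2
  have h2 := hv3 (Q v ∪ Q w) (union_subset hv2 hw2) (mem_union_left _ hv1)
  have h3 : bp G W θ (Q v ∩ Q w) ≤ bp G W θ (Q w) := by linarith
  have h4 := hw4 (Q v ∩ Q w) (inter_subset_right.trans hw2) (mem_inter.2 ⟨hw, hw1⟩) h3
  have h5 : Q v ∩ Q w = Q w := eq_of_subset_of_card_le inter_subset_right h4
  rw [← h5]
  exact inter_subset_left

/-- Cuts can be taken inside the region: `bp (A ∩ Q v) ≤ bp A`. -/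
theorem QSys.cap {G : SimpleGraph V} {W : Finset V} {θ : ℝ} {Q : V → Finset V}
    (h : QSys G W θ Q) {v : V} (hv : v ∈ W) {A : Finset V} (hA : A ⊆ W) (hvA : v ∈ A) :
    bp G W θ (A ∩ Q v) ≤ bp G W θ A := by
  have h1 := bp_submod G θ hA (h.sub v hv)
  have h2 := h.min v hv (A ∪ Q v) (union_subset hA (h.sub v hv)) (mem_union_left _ hvA)
  linarith

end Pool.Agent.LC0y
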