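import Pool.Agent.Lib_MP_0bab5c_y.CL
import Pool.Agent.Lib_MP_0bab5c_y.QS

/-!
# Sizes in a clean graph

`bd_lower`: let `X ⊆ W` be nonempty, `|X| ≤ (2/θ) k`, `|bd X| ≤ 2 k`.  `Clean.inc`, `e2_local` (with `Q = X`) and `dense_rel`
(`r = 2/θ + 2`, `η = 1/1000`, `B = ∅`, on `X ∪ bd X`, `RC` from `RC_mono`) give
`(1 + kap) k |X| ≤ e2 (X ∪ bd X) - e2 ((X ∪ bd X) \ X) ≤ k (|X| + |bd X|) + k^2/1000`, i.e. `kap |X| ≤ |bd X| + k/1000`.
For `x ∈ X`, `Clean.inc` with `{x}` and `e2_single`: `(1 + kap) k ≤ 2 |nb W x|`, and `nb W x ⊆ X ∪ bd X`, so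
`(1 + kap)/2 k ≤ |X| + |bd X| ≤ (|bd X| + k/1000)/kap + |bd X|`; with `0.0717 < kap < 0.0719` this gives
`|bd X| ≥ k/31`.

`q_bounds`: `bp (Q u) ≤ bp A ≤ k + 16 θ k` for the small set `A` of `Clean.cap`; so `|bd (Q u)| ≤ (1 + 16 θ) k` and
`|Q u| ≤ (1 + 16θ) k/θ ≤ (2/θ) k`; then `bd_lower` gives `kap |Q u| ≤ (1 + 16θ + 1/1000) k`, so `|Q u| ≤ 15 k`
(`16 θ ≤ 1/100`).  `nb W u ⊆ Q u ∪ bd (Q u)`, so `|nb W u| ≤ 17 k`.  The last part is `Clean.cover`.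
-/

namespace Pool.Agent.LC0y

open Finset Pool.Agent.LC0bab
open scoped Classical

universe u

theorem bd_lower (θ : ℝ) (hθ : 0 < θ) : ∃ k0 : ℕ, ∀ k : ℕ, k0 ≤ k → ∀ (V ι : Type u)
    [Fintype ι] (G : SimpleGraph V) (W : Finset V) (n ε δ0 ε1 : ℝ) (E : ι → Finset V),
    0 < ε → Clean G W k n ε θ δ0 ε1 E → ∀ X ⊆ W, X.Nonempty → (X.card : ℝ) ≤ 2 / θ * k →
      ((bd G W X).card : ℝ) ≤ 2 * k →
      kap * (X.card : ℝ) ≤ ((bd G W X).card : ℝ) + k / 1000 ∧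
        (k : ℝ) / 31 ≤ ((bd G W X).card : ℝ) := by
  obtain ⟨k0, hk0⟩ := dense_rel.{u} (2 / θ + 2) (1 / 1000) (by norm_num)
  refine ⟨max k0 1, fun k hk V ι _ G W n ε δ0 ε1 E hε h X hX hne hXc hbd => ?_⟩
  have hkk : k0 ≤ k := (le_max_left _ _).trans hk
  have hk1 : 1 ≤ k := (le_max_right _ _).trans hk
  have hkR : (1 : ℝ) ≤ k := by exact_mod_cast hk1
  obtain ⟨hκ0, hκ1⟩ := kap_bounds
  set b : ℝ := ((bd G W X).card : ℝ) with hb
  have hb0 : 0 ≤ b := Nat.cast_nonneg _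
  have hx0 : (0 : ℝ) ≤ (X.card : ℝ) := Nat.cast_nonneg _
  have hZW : X ∪ bd G W X ⊆ W := union_subset hX bd_subset
  have hZc : ((X ∪ bd G W X).card : ℝ) = X.card + b := by
    rw [hb, card_union_of_disjoint bd_disj.symm]
    push_cast
    ring
  have h1 := hk0 k hkk V G (X ∪ bd G W X) ∅ (empty_subset _)
    (by rw [hZc]; linarith) (RC_mono h.rc hZW)
  have h2 : (e2 G (X ∪ bd G W X) : ℝ) ≤ k * (X.card + b) + 1 / 1000 * (k : ℝ) ^ 2 := by
    rw [sdiff_empty, hZc] at h1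
    have h3 : (e2 G (X ∪ bd G W X) : ℝ) =
        ∑ v ∈ X ∪ bd G W X, ((nb G (X ∪ bd G W X) v).card : ℝ) := by
      unfold e2 ee
      push_cast
      rfl
    rw [h3]
    exact h1
  have h4 := h.inc X hX
  have h5 := e2_local (G := G) hX (subset_refl X)
  have h6 : (0 : ℝ) ≤ e2 G ((X ∪ bd G W X) \ X) := Nat.cast_nonneg _
  have h7 : (1 + kap + ε / 2) * k * X.card ≤ k * (X.card + b) + 1 / 1000 * (k : ℝ) ^ 2 := by
    linarith
  have h8 : kap * (X.card : ℝ) ≤ b + k / 1000 := by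
    have h9 : 0 ≤ ε / 2 * k * X.card := by positivity
    have h10 : (k : ℝ) * (kap * (X.card : ℝ)) ≤ k * (b + k / 1000) := by nlinarith
    exact le_of_mul_le_mul_left h10 (by linarith)
  refine ⟨h8, ?_⟩
  obtain ⟨x, hx⟩ := hne
  have h11 := h.inc {x} (singleton_subset_iff.2 (hX hx))
  rw [e2_single (hX hx), card_singleton] at h11
  have h12 : nb G W x ⊆ X ∪ bd G W X := by
    intro a ha
    obtain ⟨haW, hadj⟩ := mem_nb.1 ha
    by_cases haX : a ∈ X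
    · exact mem_union_left _ haX
    · exact mem_union_right _ (mem_bd.2 ⟨haW, haX, x, hx, hadj⟩)
  have h13 : ((nb G W x).card : ℝ) ≤ X.card + b := by
    rw [← hZc]
    exact_mod_cast card_le_card h12
  have h14 : (1 + kap) * k ≤ 2 * (X.card + b) := by
    have h15 : 0 ≤ ε / 2 * k := by positivity
    push_cast at h11
    nlinarith
  have h16 : kap * ((1 + kap) * k) ≤ kap * (2 * (X.card + b)) :=
    mul_le_mul_of_nonneg_left h14 (by linarith)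
  have h17 : kap * ((1 + kap) * k) - k / 500 ≤ 2 * (1 + kap) * b := by nlinarith
  by_contra hcon
  push Not at hcon
  have h18 : 2 * (1 + kap) * b ≤ 2 * (1 + kap) * (k / 31) :=
    mul_le_mul_of_nonneg_left hcon.le (by linarith)
  have h19 : (1 + kap) * k * (kap - 2 / 31) ≤ k / 500 := by nlinarith
  have h20 : (0.0071 : ℝ) ≤ kap - 2 / 31 := by linarith [hκ0]
  have h21 : (k : ℝ) * 0.0071 ≤ (1 + kap) * k * (kap - 2 / 31) := by
    have h22 : (k : ℝ) ≤ (1 + kap) * k := by nlinarith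
    calc (k : ℝ) * 0.0071 ≤ k * (kap - 2 / 31) := mul_le_mul_of_nonneg_left h20 (by linarith)
      _ ≤ (1 + kap) * k * (kap - 2 / 31) := mul_le_mul_of_nonneg_right h22 (by linarith)
  linarith

/-- Bounds for the regions. -/
structure QBd {V ι : Type u} (G : SimpleGraph V) (W : Finset V) (k : ℕ) (θ δ0 : ℝ)
    (E : ι → Finset V) (Q : V → Finset V) : Prop where
  cardQ : ∀ u ∈ W, (Q u).card ≤ 15 * k
  bdQ : ∀ u ∈ W, ((bd G W (Q u)).card : ℝ) ≤ (1 + 16 * θ) * k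
  bpQ : ∀ u ∈ W, bp G W θ (Q u) ≤ (1 + 16 * θ) * k
  deg : ∀ u ∈ W, (nb G W u).card ≤ 17 * k
  hub : ∀ u ∈ W, (((Q u).filter (fun v => ∀ i, v ∉ E i)).card : ℝ) ≤ δ0 * k
  low : ∀ u ∈ W, ∀ X ⊆ Q u, X.Nonempty → (k : ℝ) / 31 ≤ ((bd G W X).card : ℝ)

theorem q_bounds (θ : ℝ) (hθ : 0 < θ) (hθ1 : 16 * θ ≤ 1 / 100) : ∃ k0 : ℕ, ∀ k : ℕ, k0 ≤ k →
    ∀ (V ι : Type u) [Fintype ι] (G : SimpleGraph V) (W : Finset V) (n ε δ0 ε1 : ℝ)
    (E : ι → Finset V) (Q : V → Finset V), 0 < ε → Clean G W k n ε θ δ0 ε1 E →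
    QSys G W θ Q → QBd G W k θ δ0 E Q := by
  obtain ⟨k0, hk0⟩ := bd_lower.{u} θ hθ
  refine ⟨max k0 1, fun k hk V ι _ G W n ε δ0 ε1 E Q hε h hQ => ?_⟩
  have hkk : k0 ≤ k := (le_max_left _ _).trans hk
  have hk1 : 1 ≤ k := (le_max_right _ _).trans hk
  have hkR : (1 : ℝ) ≤ k := by exact_mod_cast hk1
  obtain ⟨hκ0, hκ1⟩ := kap_bounds
  have hbp : ∀ u ∈ W, bp G W θ (Q u) ≤ (1 + 16 * θ) * k := by
    intro u hu
    obtain ⟨A, hAW, huA, hbA, hcA⟩ := h.cap u hu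
    refine (hQ.min u hu A hAW huA).trans ?_
    have e1 : ((bd G W A).card : ℝ) ≤ k := by exact_mod_cast hbA
    have e2 : (A.card : ℝ) ≤ 16 * k := by exact_mod_cast hcA
    have e3 : θ * (A.card : ℝ) ≤ θ * (16 * k) := mul_le_mul_of_nonneg_left e2 hθ.le
    unfold bp
    linarith
  have hbd : ∀ u ∈ W, ((bd G W (Q u)).card : ℝ) ≤ (1 + 16 * θ) * k := by
    intro u hu
    have e1 := hbp u hu
    have e2 : 0 ≤ θ * ((Q u).card : ℝ) := by positivity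
    unfold bp at e1
    linarith
  have h2θ : ∀ u ∈ W, ((Q u).card : ℝ) ≤ 2 / θ * k := by
    intro u hu
    have e1 := hbp u hu
    have e2 : (0 : ℝ) ≤ ((bd G W (Q u)).card : ℝ) := Nat.cast_nonneg _
    unfold bp at e1
    have e3 : θ * ((Q u).card : ℝ) ≤ 2 * k := by
      have : (1 + 16 * θ) * (k : ℝ) ≤ 2 * k := by nlinarith
      linarith
    have e4 : 2 / θ * (k : ℝ) = 2 * k / θ := by ring
    rw [e4, le_div_iff₀ hθ]
    linarith
  have hbd2 : ∀ u ∈ W, ((bd G W (Q u)).card : ℝ) ≤ 101 / 100 * k := by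
    intro u hu
    have e1 := hbd u hu
    nlinarith
  have h15 : ∀ u ∈ W, ((Q u).card : ℝ) ≤ 15 * k := by
    intro u hu
    have e1 := (hk0 k hkk V ι G W n ε δ0 ε1 E hε h (Q u) (hQ.sub u hu) ⟨u, hQ.mem u hu⟩
      (h2θ u hu) (by have := hbd2 u hu; linarith)).1
    have e2 := hbd2 u hu
    have e3 : (0 : ℝ) ≤ ((Q u).card : ℝ) := Nat.cast_nonneg _
    nlinarith
  have h15n : ∀ u ∈ W, (Q u).card ≤ 15 * k := by
    intro u hu
    exact_mod_cast h15 u hu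
  refine ⟨h15n, hbd, hbp, ?_, ?_, ?_⟩
  · intro u hu
    have e1 : nb G W u ⊆ Q u ∪ bd G W (Q u) := by
      intro a ha
      obtain ⟨haW, hadj⟩ := mem_nb.1 ha
      by_cases haX : a ∈ Q u
      · exact mem_union_left _ haX
      · exact mem_union_right _ (mem_bd.2 ⟨haW, haX, u, hQ.mem u hu, hadj⟩)
    have e2 : (nb G W u).card ≤ (Q u).card + (bd G W (Q u)).card :=
      (card_le_card e1).trans (card_union_le _ _)
    have e3 : ((bd G W (Q u)).card : ℝ) ≤ 2 * k := by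
      have := hbd2 u hu
      linarith
    have e4 : (bd G W (Q u)).card ≤ 2 * k := by exact_mod_cast e3
    have e5 := h15n u hu
    omega
  · intro u hu
    have e1 := h.cover (Q u) (hQ.sub u hu) ((h15n u hu).trans (by omega)) (hbd u hu)
    convert e1
  · intro u hu X hX hne
    by_cases hc : ((bd G W X).card : ℝ) ≤ 2 * k
    · exact (hk0 k hkk V ι G W n ε δ0 ε1 E hε h X (hX.trans (hQ.sub u hu)) hne
        ((by exact_mod_cast card_le_card hX : (X.card : ℝ) ≤ ((Q u).card : ℝ)).trans (h2θ u hu)) hc).2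
    · push Not at hc
      linarith

end Pool.Agent.LC0y
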