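import Pool.Agent.Lib_MP_0bab5c_y.NM
import Pool.Agent.Lib_MP_0bab5c_co.Dense
import Pool.Agent.Lib_MP_0bab5c_co.Regions
import Pool.Agent.Lib_MP_0bab5c_co.Cuts

/-!
# The minimal counterexample and its small cuts

Let `c = 1 + kap` (`1.0717 < c < 1.0719`).  Suppose `RC G k W ∅` and `(c + ε) k |W| < e2 G W`.
Take `W1 ⊆ W` of minimal size with `16 k ≤ |W1|` and `(c + ε) k (|W1| - k) < e2 G W1` (`W` itself qualifies:
if `|W| < 16 k`, `dense_rel` with `r = 16`, `B = ∅` gives `e2 G W ≤ k |W| + η k^2` and `e2 G W ≤ |W|^2`, so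
`(c+ε) k < |W|` and `k|W| + η k^2 < (c + ε) k |W|`, contradiction for small `η`).
`dense_rel` with a large `r = R` (`R` depends on `ε`): a subset `W'` with `16 k ≤ |W'| ≤ R k` has
`e2 G W' ≤ k |W'| + η k^2 ≤ (c + ε) k (|W'| - k)` because `(kap + ε) 16 ≥ 16 * 0.0717 + 16 ε = 1.147 + 16 ε ≥ c + ε + η`.
So `|W1| > R k`.
Small cuts: let `x ≠ z` in `W1`; `SCut_of_RC` gives `A` with `x ∈ A`, `z ∉ A`, `|bd A| ≤ k`, `2 |A| ≤ |W1|` (or with `x, z`
exchanged).  If `|A ∪ bd A| ≥ 16 k` then both `A ∪ bd A` and `W1 \ A` are proper subsets with at least `16 k` elements, so by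
minimality and `e2_sep`: `e2 G W1 ≤ (c+ε) k (|A| + |bd A| - k) + (c+ε) k (|W1| - |A| - k) ≤ (c+ε) k (|W1| - k)`,
contradiction.  So `|A| < 16 k`.
At most one vertex `y` of `W1` lies in no such small side (for two different vertices one of them is in a
small side).  Let `W' = W1 \ {y}` (or `W1`).  Then for `x ≠ z` in `W'` the cut restricted to `W'` works
(boundaries only get smaller).  `e2 G W' ≥ e2 G W1 - 2 |W1|` and
`(c + ε) k (|W1| - k) - 2 |W1| ≥ (c + 7 ε/8) k |W1| ≥ (c + 7ε/8) k |W'|` when `|W1| ≥ R k`, `(c+ε)/R ≤ ε/16`, `2 ≤ ε k/16`.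
`RC G k W' ∅` by `RC_mono`.
-/

namespace Pool.Agent.LC0y

open Finset Pool.Agent.LC0bab
open scoped Classical

universe u

variable {V : Type u}

/-- Small cut. -/
def SmC (G : SimpleGraph V) (W : Finset V) (k : ℕ) (x z : V) : Prop :=
  ∃ A, SepSet G W x z A ∧ (bd G W A).card ≤ k ∧ A.card ≤ 16 * k

private lemma bd_inter_card_le (G : SimpleGraph V) {W W' A : Finset V} (h : W' ⊆ W) :
    (bd G W' (A ∩ W')).card ≤ (bd G W A).card := by
  apply card_le_card
  intro v hv
  rw [mem_bd] at hv ⊢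
  obtain ⟨hv1, hv2, a, ha, hav⟩ := hv
  exact ⟨h hv1, fun hA => hv2 (mem_inter.2 ⟨hA, hv1⟩), a, (mem_inter.1 ha).1, hav⟩

private lemma bd_union_card (G : SimpleGraph V) {W A : Finset V} :
    (A ∪ bd G W A).card = A.card + (bd G W A).card := by
  rw [card_union_of_disjoint]
  exact bd_disj.symm

theorem exists_min_core (ε : ℝ) (hε : 0 < ε) (hε1 : ε ≤ 1) : ∃ k0 : ℕ, ∀ k : ℕ, k0 ≤ k →
    ∀ (V : Type u) (G : SimpleGraph V) (W : Finset V), RC G k W ∅ →
      (1 + kap + ε) * k * W.card < e2 G W →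
      ∃ W' ⊆ W, W'.Nonempty ∧ RC G k W' ∅ ∧
        (1 + kap + 7 / 8 * ε) * k * W'.card ≤ e2 G W' ∧
        (∀ x ∈ W', ∀ z ∈ W', x ≠ z → SmC G W' k x z ∨ SmC G W' k z x) ∧
        (∀ x ∈ W', ∃ A ⊆ W', x ∈ A ∧ (bd G W' A).card ≤ k ∧ A.card ≤ 16 * k) := by
  obtain ⟨R, hR⟩ : ∃ R : ℝ, R = 48 / ε := ⟨_, rfl⟩
  have hRε : R * ε = 48 := by rw [hR]; field_simp
  have hR48 : 48 ≤ R := by rw [hR, le_div_iff₀ hε]; linarith
  obtain ⟨k1, hk1⟩ := dense_rel.{u} R (1 / 20) (by norm_num)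
  obtain ⟨k2, hk2⟩ := exists_nat_ge (32 / ε)
  refine ⟨max k1 (max k2 1), fun k hk V G W hRC hden => ?_⟩
  have hkk1 : k1 ≤ k := le_trans (le_max_left _ _) hk
  have hkk2 : k2 ≤ k := le_trans (le_trans (le_max_left _ _) (le_max_right _ _)) hk
  have hkone : 1 ≤ k := le_trans (le_trans (le_max_right _ _) (le_max_right _ _)) hk
  have hkR : (1 : ℝ) ≤ k := by exact_mod_cast hkone
  have hkpos : (0 : ℝ) < k := by linarith
  have hk32 : 32 ≤ ε * k := by
    have h1 : (32 : ℝ) / ε ≤ k := hk2.trans (by exact_mod_cast hkk2)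
    rw [div_le_iff₀ hε] at h1
    linarith
  obtain ⟨hkap0, hkap1⟩ := kap_bounds
  obtain ⟨C, hC⟩ : ∃ C : ℝ, C = 1 + kap + ε := ⟨_, rfl⟩
  have hC1 : 1 ≤ C := by rw [hC]; linarith
  have hC3 : C ≤ 3 := by rw [hC]; linarith
  have hCpos : 0 < C := by linarith
  rw [← hC] at hden
  have hdense : ∀ X ⊆ W, (X.card : ℝ) ≤ R * k →
      (e2 G X : ℝ) ≤ k * X.card + 1 / 20 * (k : ℝ) ^ 2 := by
    intro X hX hXc
    have h1 := hk1 k hkk1 V G X ∅ (empty_subset _) hXc (RC_mono hRC hX)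
    rw [sdiff_empty] at h1
    have h2 : (e2 G X : ℝ) = ∑ v ∈ X, ((nb G X v).card : ℝ) := by
      unfold e2 ee
      push_cast
      rfl
    rw [h2]
    exact h1
  have hWne : W.Nonempty := by
    by_contra h
    rw [not_nonempty_iff_eq_empty] at h
    subst h
    simp [e2, ee] at hden
  have hWpos : (0 : ℝ) < W.card := by exact_mod_cast hWne.card_pos
  have hW16 : 16 * k ≤ W.card := by
    by_contra h
    push Not at h
    have h16 : (W.card : ℝ) < 16 * k := by exact_mod_cast h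
    have h1 := hdense W subset_rfl (by nlinarith)
    have h2 : (e2 G W : ℝ) ≤ W.card * W.card := by exact_mod_cast ee_le_mul (G := G) W W
    have h3 : C * k < W.card := by
      by_contra h4
      push Not at h4
      have h5 : (W.card : ℝ) * W.card ≤ C * k * W.card :=
        mul_le_mul_of_nonneg_right h4 hWpos.le
      linarith
    -- (kap + ε) k |W| < k^2 / 20
    have h6 : (C - 1) * k * W.card < 1 / 20 * (k : ℝ) ^ 2 := by
      have h7 : C * k * W.card = (C - 1) * k * W.card + k * W.card := by ring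
      linarith
    have h8 : (C - 1) * k * (C * k) ≤ (C - 1) * k * W.card :=
      mul_le_mul_of_nonneg_left h3.le (mul_nonneg (by linarith) hkpos.le)
    have h9 : 1 / 20 * (k : ℝ) ^ 2 ≤ (C - 1) * k * (C * k) := by
      have h10 : (C - 1) * k * (C * k) = ((C - 1) * C) * (k : ℝ) ^ 2 := by ring
      rw [h10]
      apply mul_le_mul_of_nonneg_right _ (sq_nonneg _)
      have h11 : 0.0717 ≤ C - 1 := by rw [hC]; linarith
      nlinarith
    linarith
  -- the minimal set
  obtain ⟨W1, hW1mem, hW1min⟩ := Finset.exists_min_image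
    ((W.powerset).filter (fun X => 16 * k ≤ X.card ∧ C * k * ((X.card : ℝ) - k) < e2 G X)) card
    ⟨W, mem_filter.2 ⟨mem_powerset.2 subset_rfl, hW16, by nlinarith [mul_pos hCpos hkpos]⟩⟩
  rw [mem_filter, mem_powerset] at hW1mem
  obtain ⟨hW1W, hW1c, hW1e⟩ := hW1mem
  have hmin : ∀ X ⊆ W1, X.card < W1.card → 16 * k ≤ X.card →
      (e2 G X : ℝ) ≤ C * k * ((X.card : ℝ) - k) := by
    intro X hX hXc hX16
    by_contra h
    push Not at h
    have := hW1min X (mem_filter.2 ⟨mem_powerset.2 (hX.trans hW1W), hX16, h⟩)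
    omega
  have hRC1 : RC G k W1 ∅ := RC_mono hRC hW1W
  have hW1c' : (16 : ℝ) * k ≤ W1.card := by exact_mod_cast hW1c
  have hbig : R * k < W1.card := by
    by_contra h
    push Not at h
    have h1 := hdense W1 hW1W h
    -- k |W1| + k²/20 ≤ C k (|W1| - k)
    have h2 : (k : ℝ) * W1.card + 1 / 20 * (k : ℝ) ^ 2 ≤ C * k * ((W1.card : ℝ) - k) := by
      have h3 : (1 / 20 + C) * k ≤ (C - 1) * W1.card := by
        have h4 : (C - 1) * (16 * k) ≤ (C - 1) * W1.card :=
          mul_le_mul_of_nonneg_left hW1c' (by linarith)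
        have h5 : (1 / 20 + C) * k ≤ (C - 1) * (16 * k) := by
          have h6 : (1 / 20 + C) ≤ (C - 1) * 16 := by rw [hC]; linarith
          nlinarith
        linarith
      have h7 : C * k * ((W1.card : ℝ) - k) - (k * W1.card + 1 / 20 * (k : ℝ) ^ 2) =
          k * ((C - 1) * W1.card - (1 / 20 + C) * k) := by ring
      have h8 : 0 ≤ k * ((C - 1) * (W1.card : ℝ) - (1 / 20 + C) * k) :=
        mul_nonneg hkpos.le (by linarith)
      linarith
    linarith
  have hbig48 : 48 * k < W1.card := by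
    have h1 : (48 : ℝ) * k ≤ R * k := mul_le_mul_of_nonneg_right hR48 hkpos.le
    exact_mod_cast lt_of_le_of_lt h1 hbig
  -- small sides
  have hsmall : ∀ A ⊆ W1, A.Nonempty → (bd G W1 A).card ≤ k → 2 * A.card ≤ W1.card →
      A.card ≤ 16 * k := by
    intro A hA hAne hAb hA2
    by_contra h
    push Not at h
    have hcu := bd_union_card G (W := W1) (A := A)
    have hAsub : A ∪ bd G W1 A ⊆ W1 := union_subset hA bd_subset
    have hcd : (W1 \ A).card = W1.card - A.card := card_sdiff_of_subset hA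
    have hAle : A.card ≤ W1.card := card_le_card hA
    have hApos : 0 < A.card := hAne.card_pos
    have h1 := hmin (A ∪ bd G W1 A) hAsub (by omega) (by omega)
    have h2 := hmin (W1 \ A) sdiff_subset (by omega) (by omega)
    have h3 : (e2 G W1 : ℝ) ≤ e2 G (A ∪ bd G W1 A) + e2 G (W1 \ A) := by
      exact_mod_cast e2_sep (G := G) hA
    have h4 : ((A ∪ bd G W1 A).card : ℝ) = A.card + (bd G W1 A).card := by
      exact_mod_cast hcu
    have h5 : ((W1 \ A).card : ℝ) = (W1.card : ℝ) - A.card := by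
      rw [hcd, Nat.cast_sub hAle]
    have h6 : ((bd G W1 A).card : ℝ) ≤ k := by exact_mod_cast hAb
    rw [h4] at h1
    rw [h5] at h2
    have h7 : C * k * ((A.card : ℝ) + (bd G W1 A).card - k) + C * k * ((W1.card : ℝ) - A.card - k)
        ≤ C * k * ((W1.card : ℝ) - k) := by
      have h8 : C * k * ((A.card : ℝ) + (bd G W1 A).card - k) +
          C * k * ((W1.card : ℝ) - A.card - k) =
          C * k * ((W1.card : ℝ) - k) - C * k * (k - (bd G W1 A).card) := by ring
      have h9 : 0 ≤ C * k * ((k : ℝ) - (bd G W1 A).card) :=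
        mul_nonneg (mul_nonneg hCpos.le hkpos.le) (by linarith)
      linarith
    linarith
  have hpair : ∀ x ∈ W1, ∀ z ∈ W1, x ≠ z → SmC G W1 k x z ∨ SmC G W1 k z x := by
    have aux : ∀ x z : V, SCut G k W1 x z → SmC G W1 k x z := by
      intro x z hS
      obtain ⟨A, h1, h2, h3, h4, h5, h6⟩ := hS
      exact ⟨A, ⟨h1, h2, h3, h4⟩, h5, hsmall A h1 ⟨x, h2⟩ h5 h6⟩
    intro x hx z hz hxz
    rcases SCut_of_RC hRC1 hx hz hxz with h | h
    · exact Or.inl (aux x z h)
    · exact Or.inr (aux z x h)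
  -- vertices in small sides
  obtain ⟨P, hP⟩ : ∃ P : V → Prop, ∀ x, P x ↔
      ∃ A ⊆ W1, x ∈ A ∧ (bd G W1 A).card ≤ k ∧ A.card ≤ 16 * k := ⟨_, fun _ => Iff.rfl⟩
  have hPor : ∀ x ∈ W1, ∀ z ∈ W1, x ≠ z → P x ∨ P z := by
    intro x hx z hz hxz
    rcases hpair x hx z hz hxz with h | h
    · obtain ⟨A, h1, h2, h3⟩ := h
      exact Or.inl ((hP x).2 ⟨A, h1.sub, h1.mem, h2, h3⟩)
    · obtain ⟨A, h1, h2, h3⟩ := h
      exact Or.inr ((hP z).2 ⟨A, h1.sub, h1.mem, h2, h3⟩)
  -- a set W' obtained by removing at most one vertex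
  obtain ⟨W', hW'sub, hW'P, hW'c, hW'e⟩ : ∃ W' ⊆ W1, (∀ x ∈ W', P x) ∧ W1.card ≤ W'.card + 1 ∧
      (e2 G W1 : ℝ) - 2 * W1.card ≤ e2 G W' := by
    by_cases hall : ∀ x ∈ W1, P x
    · refine ⟨W1, subset_rfl, hall, by omega, ?_⟩
      have : (0 : ℝ) ≤ W1.card := Nat.cast_nonneg _
      linarith
    · push Not at hall
      obtain ⟨y, hy, hyP⟩ := hall
      refine ⟨W1 \ {y}, sdiff_subset, ?_, ?_, ?_⟩
      · intro x hx
        rw [mem_sdiff, mem_singleton] at hx
        rcases hPor x hx.1 y hy hx.2 with h | h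
        · exact h
        · exact absurd h hyP
      · have h1 : (W1 \ {y}).card = W1.card - 1 := by
          rw [card_sdiff_of_subset (singleton_subset_iff.2 hy), card_singleton]
        omega
      · have h1 := e2_single (G := G) hy
        have h2 : ((nb G W1 y).card : ℝ) ≤ W1.card := by
          exact_mod_cast card_le_card nb_subset
        linarith
  refine ⟨W', hW'sub.trans hW1W, ?_, RC_mono hRC1 hW'sub, ?_, ?_, ?_⟩
  · rw [← card_pos]
    omega
  · have h1 : ((W'.card : ℕ) : ℝ) ≤ W1.card := by exact_mod_cast card_le_card hW'sub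
    have hD : 1 + kap + 7 / 8 * ε = C - ε / 8 := by rw [hC]; ring
    rw [hD]
    have hDpos : 0 ≤ C - ε / 8 := by linarith
    have h2 : (C - ε / 8) * k * W'.card ≤ (C - ε / 8) * k * W1.card :=
      mul_le_mul_of_nonneg_left h1 (mul_nonneg hDpos hkpos.le)
    -- (ε/8) k |W1| ≥ C k² + 2 |W1|
    have hW1nn : (0 : ℝ) ≤ W1.card := Nat.cast_nonneg _
    have h3 : C * (k : ℝ) ^ 2 ≤ ε / 16 * k * W1.card := by
      have h4 : ε / 16 * k * (R * k) ≤ ε / 16 * k * W1.card :=
        mul_le_mul_of_nonneg_left hbig.le (by positivity)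
      have h5 : ε / 16 * k * (R * k) = 3 * (k : ℝ) ^ 2 := by
        have : ε / 16 * k * (R * k) = (R * ε) / 16 * (k : ℝ) ^ 2 := by ring
        rw [this, hRε]
        ring
      have h6 : C * (k : ℝ) ^ 2 ≤ 3 * (k : ℝ) ^ 2 :=
        mul_le_mul_of_nonneg_right hC3 (sq_nonneg _)
      linarith
    have h7 : 2 * (W1.card : ℝ) ≤ ε / 16 * k * W1.card := by
      apply mul_le_mul_of_nonneg_right _ hW1nn
      linarith
    have h8 : C * k * ((W1.card : ℝ) - k) = C * k * W1.card - C * (k : ℝ) ^ 2 := by ring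
    have h9 : (C - ε / 8) * k * W1.card = C * k * W1.card - ε / 16 * k * W1.card
        - ε / 16 * k * W1.card := by ring
    linarith
  · intro x hx z hz hxz
    have aux : ∀ x z : V, x ∈ W' → SmC G W1 k x z → SmC G W' k x z := by
      intro x z hx hS
      obtain ⟨A, h1, h2, h3⟩ := hS
      refine ⟨A ∩ W', ⟨inter_subset_right, mem_inter.2 ⟨h1.mem, hx⟩,
        fun h => h1.out (mem_inter.1 h).1, fun a ha => h1.adj a (mem_inter.1 ha).1⟩, ?_, ?_⟩
      · exact (bd_inter_card_le G hW'sub).trans h2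
      · exact (card_le_card inter_subset_left).trans h3
    rcases hpair x (hW'sub hx) z (hW'sub hz) hxz with h | h
    · exact Or.inl (aux x z hx h)
    · exact Or.inr (aux z x hz h)
  · intro x hx
    obtain ⟨A, h1, h2, h3, h4⟩ := (hP x).1 (hW'P x hx)
    exact ⟨A ∩ W', inter_subset_right, mem_inter.2 ⟨h2, hx⟩,
      (bd_inter_card_le G hW'sub).trans h3, (card_le_card inter_subset_left).trans h4⟩

end Pool.Agent.LC0y
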