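import Pool.Agent.Lib_MP_0bab5c_y.Y0

/-!
# Payments

`Hm ⊆ W` is the set of home vertices, `Q v` the region of `v`, `B v > 0` an upper bound for `|bd (Q v)|`, `s v ≥ 0` the
slack of `v`.  Every home vertex `v` sends `kap * k + s v` equally to `bd (Q v)`: each boundary vertex gets
`(kap * k + s v) / B v`.  A home vertex `w` forwards what it received directly (`inc w`) equally to `bd (Q w)`.
`pay u` is what `u` gets (directly or forwarded) from the members of `Z`.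

`pay_total`: with `h w = |bd (Q w) \ Hm| / B w`, `g w = |bd (Q w) ∩ Hm| / B w`, `h w + g w ≤ 1`:
`∑_{u ∈ W \ Hm} pay Hm u = ∑_{w ∈ Hm} h w (kap k + s w + inc w)`, `∑_{w ∈ Hm} inc w = ∑_{v ∈ Hm} g v (kap k + s v)`, so
the total is `≤ ∑ h w (kap k + s w) + ∑ inc w = ∑ (h w + g w)(kap k + s w) ≤ ∑_{w ∈ Hm} (kap k + s w)`.

`pay_class`: `U = {w ∈ Z | ∃ x ∈ Q w, x ~ u}`, `Y = Z \ U`.  For `w ∈ U` we have `u ∈ bd (Q w)` (`u ∉ Q w`), and for
`v ∈ Y ∩ N(w)`: `w ∉ Q v` (otherwise `Q w ⊆ Q v` and `v ∈ U`), so `w ∈ bd (Q v)` and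
`inc w ≥ |nb Y w| * (kap k) / p` (all `B v ≤ p` for `v ∈ Z`).  Hence
`pay Z u ≥ (1/p) ∑_{w ∈ U} (kap k + s w + (kap k / p) |nb Y w|)`.  Let `r = k - |U| - p`.
If `r ≤ 0`: `pay Z u ≥ kap k |U| / p`, which is the claim.  If `r > 0`, `V' = {w ∈ U | |nb Y w| ≤ r}`: for `w ∈ V'` use
`hs`: `∑_{V'} s w ≥ ∑_{V'} (r - |nb Y w|) - e`, and `r - y + (kap k/p) y ≥ min 1 (kap k/p) r` for `0 ≤ y ≤ r`; for
`w ∈ U \ V'`: `s w ≥ 0`, `(kap k/p) y ≥ (kap k / p) r`.
-/

namespace Pool.Agent.LC0y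

open Finset Pool.Agent.LC0bab
open scoped Classical

universe u

variable {V : Type u}

/-- What `w` receives directly. -/
noncomputable def inc (G : SimpleGraph V) (W Hm : Finset V) (k : ℝ) (Q : V → Finset V)
    (B s : V → ℝ) (w : V) : ℝ :=
  ∑ v ∈ Hm.filter (fun v => w ∈ bd G W (Q v)), (kap * k + s v) / B v

/-- What `u` gets from the members of `Z`. -/
noncomputable def pay (G : SimpleGraph V) (W Hm : Finset V) (k : ℝ) (Q : V → Finset V)
    (B s : V → ℝ) (Z : Finset V) (u : V) : ℝ :=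
  ∑ w ∈ Z.filter (fun w => u ∈ bd G W (Q w)), (kap * k + s w + inc G W Hm k Q B s w) / B w

/-- The members of `Z` whose region contains a neighbour of `u`. -/
noncomputable def UU (G : SimpleGraph V) (Q : V → Finset V) (Z : Finset V) (u : V) : Finset V :=
  Z.filter (fun w => ∃ x ∈ Q w, G.Adj x u)

end Pool.Agent.LC0y
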