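import Pool.Agent.Lib_MP_0bab5c_y.RF
import Pool.Agent.Lib_MP_0bab5c_y.HP

/-!
# Twins by keys and Hamiltonian paths

For every set `J` of homes which is a class of some vertex and every key value `κ` let
`s J κ = {v ∈ W | J ∈ cls v, keyf J v = κ}`.  By `CutSys.total` the relation `∃ A, Cut v z A` satisfies the
hypothesis of `ham_next` on `s J κ` (elements of `s J κ` lie in `W`).  Let `nx J v` be the image of `v` under the
map of `ham_next` for `s J (keyf J v)`, and let `Ex` consist of the pairs `(v, J)` with `v` in the exceptional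
set `t` (at most one element) of `s J (keyf J v)`.  So `Ex.card` is at most the number of pairs
`(J, κ)`.

Number of `J`: every `J` which is a class is nonempty, and for each `i` at most `B1` classes contain `i`: at
most `B1 * card ι`.  Each such `J` has at most `N` elements (`csize`).
Number of keys for given `J` with `J.card ≤ N`: the key is determined by its values on `J`; each value is
`none` or `some g` with `g j ≤ ⌊1/q⌋₊` (since `nb G C v ⊆ C`, the quotient is at most `1/q`; for an empty cell the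
quotient is `0`).  So at most `((⌊1/q⌋₊ + 1)^M + 1)^N` keys.  `B = B1 * ((⌊1/q⌋₊ + 1)^M + 1)^N`.
-/

namespace Pool.Agent.LC0y

open Finset Pool.Agent.LC0bab
open scoped Classical

universe u

/-- Number of keys. -/
theorem key_count (N M : ℕ) (q : ℝ) (hq : 0 < q) : ∃ K : ℕ, ∀ (V ι : Type u) [Fintype ι]
    (G : SimpleGraph V) (W : Finset V) (E : ι → Finset V) (c : ι → V → Fin M) (J : Finset ι),
    J.card ≤ N → (W.image (fun v => keyf G E c q J v)).card ≤ K := by
  let S : Finset (Option (Fin M → ℕ)) :=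
    insert none ((Fintype.piFinset (fun _ : Fin M => range (⌊1 / q⌋₊ + 1))).image some)
  refine ⟨S.card ^ N, ?_⟩
  intro V ι _ G W E c J hJ
  have hS : 0 < S.card := card_pos.2 ⟨none, mem_insert_self _ _⟩
  have hmem : ∀ (v : V) (i : ι), i ∈ J → keyf G E c q J v i ∈ S := by
    intro v i hi
    unfold keyf
    rw [if_pos hi]
    by_cases h0 : nb G (E i) v = ∅
    · rw [if_pos h0]
      exact mem_insert_self _ _
    · rw [if_neg h0]
      refine mem_insert_of_mem (mem_image_of_mem _ ?_)
      rw [Fintype.mem_piFinset]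
      intro j
      rw [mem_range, Nat.lt_succ_iff]
      refine Nat.floor_le_floor ?_
      have hle : ((nb G (cell (E i) (c i) j) v).card : ℝ) ≤ ((cell (E i) (c i) j).card : ℝ) := by
        exact_mod_cast card_le_card nb_subset
      rcases (Nat.cast_nonneg (α := ℝ) (cell (E i) (c i) j).card).eq_or_lt with h1 | h1
      · rw [← h1, mul_zero, div_zero]
        positivity
      · rw [div_le_div_iff₀ (mul_pos hq h1) hq, one_mul, mul_comm q]
        exact mul_le_mul_of_nonneg_right hle hq.le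
  have hcard : (W.image (fun v => keyf G E c q J v)).card ≤ (J.pi (fun _ => S)).card := by
    refine card_le_card_of_injOn (fun f => fun i _ => f i) ?_ ?_
    · intro f hf
      obtain ⟨v, _, rfl⟩ := mem_image.1 (mem_coe.1 hf)
      refine mem_coe.2 (mem_pi.2 ?_)
      intro i hi
      exact hmem v i hi
    · intro f hf f' hf' hff
      obtain ⟨v, _, rfl⟩ := mem_image.1 (mem_coe.1 hf)
      obtain ⟨v', _, rfl⟩ := mem_image.1 (mem_coe.1 hf')
      funext i
      by_cases hi : i ∈ J
      · exact congrFun (congrFun hff i) hi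
      · simp only [keyf, hi, if_false]
  refine hcard.trans ?_
  rw [card_pi, prod_const]
  exact Nat.pow_le_pow_right hS hJ

/-- Existence of the twin system. -/
theorem exists_twins (N B1 M : ℕ) (q : ℝ) (hq : 0 < q) : ∃ B : ℕ, ∀ (V ι : Type u) [Fintype ι]
    (G : SimpleGraph V) (W : Finset V) (k : ℕ) (σ : ℝ) (E : ι → Finset V)
    (cls : V → Finset (Finset ι)) (c : ι → V → Fin M) (Cut : V → V → Finset V → Prop),
    Frame G W k N B1 E cls → CutSys G W k σ Cut →
    ∃ (nx : Finset ι → V → V) (Ex : Finset (V × Finset ι)),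
      Twins G W E c q cls Cut nx Ex ∧ Ex.card ≤ B * Fintype.card ι := by
  obtain ⟨K, hK⟩ := key_count.{u} N M q hq
  refine ⟨B1 * K, ?_⟩
  intro V ι _ G W k σ E cls c Cut hF hC
  have hsJ : ∀ (J : Finset ι) (κ : ι → Option (Fin M → ℕ)), ∃ (t : Finset V) (nx : V → V),
      t ⊆ W.filter (fun v => J ∈ cls v ∧ keyf G E c q J v = κ) ∧ t.card ≤ 1 ∧
      (∀ a ∈ W.filter (fun v => J ∈ cls v ∧ keyf G E c q J v = κ), a ∉ t →
        nx a ∈ W.filter (fun v => J ∈ cls v ∧ keyf G E c q J v = κ) ∧ nx a ≠ a ∧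
          ∃ A, Cut a (nx a) A) ∧
      ∀ a ∈ W.filter (fun v => J ∈ cls v ∧ keyf G E c q J v = κ),
        ∀ b ∈ W.filter (fun v => J ∈ cls v ∧ keyf G E c q J v = κ),
          a ∉ t → b ∉ t → nx a = nx b → a = b := by
    intro J κ
    refine ham_next (W.filter (fun v => J ∈ cls v ∧ keyf G E c q J v = κ))
      (fun v z => ∃ A, Cut v z A) ?_
    intro a ha b hb hab
    exact hC.total a (mem_filter.1 ha).1 b (mem_filter.1 hb).1 hab
  choose t nx ht1 ht2 hnx hinj using hsJ
  let 𝒥 : Finset (Finset ι) := univ.filter (fun J => ∃ v ∈ W, J ∈ cls v)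
  let Ex : Finset (V × Finset ι) := 𝒥.biUnion (fun J =>
    (W.image (fun v => keyf G E c q J v)).biUnion (fun κ => (t J κ).image (fun v => (v, J))))
  have hcl : ∀ J ∈ 𝒥, J.card ≤ N := by
    intro J hJ
    obtain ⟨v, hv, hJv⟩ := (mem_filter.1 hJ).2
    exact (single_le_sum (f := fun J : Finset ι => J.card) (fun _ _ => Nat.zero_le _) hJv).trans
      (hF.csize v hv)
  have h𝒥 : 𝒥.card ≤ Fintype.card ι * B1 := by
    have hsub : 𝒥 ⊆ (univ : Finset ι).biUnion (fun i =>
        (univ : Finset (Finset ι)).filter (fun J => i ∈ J ∧ ∃ v ∈ W, J ∈ cls v)) := by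
      intro J hJ
      obtain ⟨v, hv, hJv⟩ := (mem_filter.1 hJ).2
      obtain ⟨i, hi⟩ := hF.cne v hv J hJv
      exact mem_biUnion.2 ⟨i, mem_univ i, mem_filter.2 ⟨mem_univ _, hi, v, hv, hJv⟩⟩
    refine (card_le_card hsub).trans (card_biUnion_le.trans ?_)
    refine (sum_le_card_nsmul _ _ B1 (fun i _ => hF.ccount i)).trans ?_
    simp
  have hkey : ∀ v ∈ W, ∀ J ∈ cls v, (v, J) ∉ Ex → v ∉ t J (keyf G E c q J v) := by
    intro v hv J hJ hEx hvt
    refine hEx (mem_biUnion.2 ⟨J, mem_filter.2 ⟨mem_univ _, v, hv, hJ⟩, ?_⟩)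
    exact mem_biUnion.2 ⟨keyf G E c q J v, mem_image_of_mem _ hv, mem_image_of_mem _ hvt⟩
  have hs : ∀ v ∈ W, ∀ J ∈ cls v,
      v ∈ W.filter (fun w => J ∈ cls w ∧ keyf G E c q J w = keyf G E c q J v) := by
    intro v hv J hJ
    exact mem_filter.2 ⟨hv, hJ, rfl⟩
  refine ⟨fun J v => nx J (keyf G E c q J v) v, Ex, ⟨?_, ?_, ?_, ?_⟩, ?_⟩
  · intro v hv J hJ hEx
    obtain ⟨h1, h2, _⟩ := hnx J (keyf G E c q J v) v (hs v hv J hJ) (hkey v hv J hJ hEx)
    exact ⟨(mem_filter.1 h1).1, (mem_filter.1 h1).2.1, h2⟩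
  · intro v hv J hJ hEx
    obtain ⟨h1, _, _⟩ := hnx J (keyf G E c q J v) v (hs v hv J hJ) (hkey v hv J hJ hEx)
    exact (mem_filter.1 h1).2.2
  · intro v hv J hJ hEx
    exact (hnx J (keyf G E c q J v) v (hs v hv J hJ) (hkey v hv J hJ hEx)).2.2
  · intro J v hv v' hv' hJ hJ' hEx hEx' he
    obtain ⟨h1, _, _⟩ := hnx J (keyf G E c q J v) v (hs v hv J hJ) (hkey v hv J hJ hEx)
    obtain ⟨h1', _, _⟩ := hnx J (keyf G E c q J v') v' (hs v' hv' J hJ')
      (hkey v' hv' J hJ' hEx')
    have e1 := (mem_filter.1 h1).2.2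
    have e2 := (mem_filter.1 h1').2.2
    beta_reduce at he
    rw [← he] at e2
    have e3 : keyf G E c q J v = keyf G E c q J v' := e1.symm.trans e2
    rw [e3] at he
    refine hinj J (keyf G E c q J v') v ?_ v' (hs v' hv' J hJ') ?_ (hkey v' hv' J hJ' hEx') he
    · exact mem_filter.2 ⟨hv, hJ, e3⟩
    · rw [← e3]
      exact hkey v hv J hJ hEx
  · have h1 : Ex.card ≤ 𝒥.card * K := by
      refine card_biUnion_le.trans ?_
      refine (sum_le_card_nsmul _ _ K ?_).trans (by simp)
      intro J hJ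
      refine card_biUnion_le.trans ?_
      refine (sum_le_card_nsmul _ _ 1 ?_).trans ?_
      · intro κ _
        exact card_image_le.trans (ht2 J κ)
      · rw [smul_eq_mul, mul_one]
        exact hK V ι G W E c J (hcl J hJ)
    refine h1.trans ?_
    calc 𝒥.card * K ≤ (Fintype.card ι * B1) * K := Nat.mul_le_mul_right K h𝒥
      _ = B1 * K * Fintype.card ι := by ring

end Pool.Agent.LC0y
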