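import Pool.Agent.Lib_MP_0bab5c_y.RF

/-!
# Requests of one vertex from one class

`v, z` have the same key for `J`, `A` is a cut side with `v ∈ A`, `z ∉ A` (`SepSet`).  `A'' = W \ (A ∪ bd A)`.

For a cell `C = cell (E i) (c i) j`, `i ∈ J` (a subset of `W`): `N(v) ⊆ A ∪ bd A` (inside `W`), so
`|nb C v| = |nb C v ∩ A| + |nb C v ∩ bd A| ≤ |nb C v ∩ A| + |bd A ∩ C|`.  Put `β = max 0 (|nb C v| - |bd A ∩ C|)`, so
`β ≤ |nb C v ∩ A|`.  If `C` is split let `ρ x = β / |nb C v ∩ A|` on `nb C v ∩ A` (if this set is not empty), it adds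
up to `β`; otherwise `ρ = 0` on `C`.  If `ρ x ≠ 0` then `x ∈ A`, `x ~ v`, hence `x ≠ v` and (SepSet.adj) `x` is not
adjacent to `z`.
If `C` is not split: either `|A ∩ C| < η |C|`, then `β ≤ |A ∩ C| ≤ η |C|`; or `|A'' ∩ C| < η |C|`, then
`|nb C v| ≤ |nb C z| + q |C|` and `nb C z ⊆ (C \ A) ∪ {v}`, so `|nb C z| ≤ |bd A ∩ C| + |A'' ∩ C| + [v ∈ C]` and
`β ≤ (η + q) |C| + [v ∈ C]`.
Sum over the cells of the homes of `J` (disjoint, union `EJ E J`; `v` lies in at most one of them):
`|N(v) ∩ EJ| - |bd A ∩ EJ| = ∑ (|nb C v| - |bd A ∩ C|) ≤ ∑ β ≤ ∑ ρ + (η + q) |EJ| + 1`.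
-/

namespace Pool.Agent.LC0y

open Finset Pool.Agent.LC0bab
open scoped Classical

universe u

/-- A sum over `EJ E J` splits into the sums over the cells. -/
private lemma sum_EJ_cell {V ι : Type u} {M : ℕ} {E : ι → Finset V}
    (hd : ∀ i j, i ≠ j → Disjoint (E i) (E j)) (c : ι → V → Fin M) (J : Finset ι)
    (f : V → ℝ) :
    ∑ i ∈ J, ∑ j : Fin M, ∑ x ∈ cell (E i) (c i) j, f x = ∑ x ∈ EJ E J, f x := by
  unfold EJ
  rw [sum_biUnion (fun i _ i' _ h => hd i i' h)]
  exact sum_congr rfl (fun i _ => sum_cell (E i) (c i) f)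

/-- A cardinality in `EJ E J` splits into the cardinalities in the cells. -/
private lemma card_EJ_cell {V ι : Type u} {M : ℕ} {E : ι → Finset V}
    (hd : ∀ i j, i ≠ j → Disjoint (E i) (E j)) (c : ι → V → Fin M) (J : Finset ι)
    (P : V → Prop) [DecidablePred P] :
    ∑ i ∈ J, ∑ j : Fin M, (((cell (E i) (c i) j).filter P).card : ℝ) =
      (((EJ E J).filter P).card : ℝ) := by
  have h := sum_EJ_cell hd c J (fun x => if P x then (1 : ℝ) else 0)
  have e : ∀ S : Finset V, ((S.filter P).card : ℝ) = ∑ x ∈ S, (if P x then (1 : ℝ) else 0) := by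
    intro S
    rw [Finset.sum_boole]
  simp only [e]
  exact h

theorem one_req {V ι : Type u} [Fintype ι] {G : SimpleGraph V} {W : Finset V} {M : ℕ}
    {E : ι → Finset V} (hE : ∀ i, E i ⊆ W) (hd : ∀ i j, i ≠ j → Disjoint (E i) (E j))
    (c : ι → V → Fin M) {q η : ℝ} (hq : 0 ≤ q) (hη : 0 ≤ η) (J : Finset ι) {v z : V}
    {A : Finset V} (hcut : SepSet G W v z A) (hz : z ∈ W) (hkey : SameKey G E c q J v z) :
    ∃ ρ : V → ℝ, (∀ x, 0 ≤ ρ x) ∧ (∀ x, ρ x ≤ 1) ∧
      (∀ x, ρ x ≠ 0 → x ∈ A ∧ G.Adj v x ∧ ¬ G.Adj z x ∧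
        ∃ i ∈ J, ∃ j, x ∈ cell (E i) (c i) j ∧ Split G W η A (cell (E i) (c i) j)) ∧
      ((nb G (EJ E J) v).card : ℝ) - ((bd G W A ∩ EJ E J).card : ℝ) ≤
        ∑ x ∈ EJ E J, ρ x + (η + q) * ((EJ E J).card : ℝ) + 1 := by
  set C : ι → Fin M → Finset V := fun i j => cell (E i) (c i) j with hCdef
  set n : ι → Fin M → ℝ := fun i j => ((nb G (C i j) v).card : ℝ) with hn
  set bb : ι → Fin M → ℝ := fun i j => (((C i j).filter (fun x => x ∈ bd G W A)).card : ℝ)
    with hbb
  set nbA : ι → Fin M → Finset V := fun i j => nb G (C i j) v ∩ A with hnbA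
  set aa : ι → Fin M → ℝ := fun i j => ((nbA i j).card : ℝ) with haa
  set β : ι → Fin M → ℝ := fun i j => max 0 (n i j - bb i j) with hβ
  set w : ι → Fin M → ℝ := fun i j => if Split G W η A (C i j) then β i j / aa i j else 0 with hw
  have hCW : ∀ i j, C i j ⊆ W := fun i j => cell_subset.trans (hE i)
  have hβ0 : ∀ i j, 0 ≤ β i j := fun i j => le_max_left _ _
  have haa0 : ∀ i j, 0 ≤ aa i j := fun i j => Nat.cast_nonneg _
  have hnle : ∀ i j, n i j ≤ aa i j + bb i j := by
    intro i j
    have hsub : nb G (C i j) v ⊆ nbA i j ∪ (C i j).filter (fun x => x ∈ bd G W A) := by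
      intro x hx
      obtain ⟨hxC, hadj⟩ := mem_nb.1 hx
      by_cases hxA : x ∈ A
      · exact mem_union_left _ (mem_inter.2 ⟨hx, hxA⟩)
      · refine mem_union_right _ (mem_filter.2 ⟨hxC, mem_bd.2 ⟨hCW i j hxC, hxA, v, hcut.mem, hadj⟩⟩)
    have h := (card_le_card hsub).trans (card_union_le _ _)
    simp only [hn, haa, hbb]
    exact_mod_cast h
  have hβa : ∀ i j, β i j ≤ aa i j := by
    intro i j
    refine max_le (haa0 i j) ?_
    have := hnle i j
    linarith
  have hw0 : ∀ i j, 0 ≤ w i j := by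
    intro i j
    simp only [hw]
    split_ifs
    · exact div_nonneg (hβ0 i j) (haa0 i j)
    · exact le_refl _
  have hw1 : ∀ i j, w i j ≤ 1 := by
    intro i j
    simp only [hw]
    split_ifs
    · exact div_le_one_of_le₀ (hβa i j) (haa0 i j)
    · exact zero_le_one
  have haw : ∀ i j, aa i j * w i j = if Split G W η A (C i j) then β i j else 0 := by
    intro i j
    simp only [hw]
    split_ifs
    · rcases (haa0 i j).eq_or_lt with h0 | h0
      · have : β i j = 0 := le_antisymm (by rw [h0]; exact hβa i j) (hβ0 i j)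
        rw [this, ← h0]
        simp
      · field_simp
    · simp
  refine ⟨fun x => ∑ i ∈ J, ∑ j : Fin M, if x ∈ nbA i j then w i j else 0, ?_, ?_, ?_, ?_⟩
  · intro x
    refine sum_nonneg (fun i _ => sum_nonneg (fun j _ => ?_))
    split_ifs
    · exact hw0 i j
    · exact le_refl _
  · intro x
    by_cases hx : ∃ i ∈ J, x ∈ E i
    · obtain ⟨i, hi, hxi⟩ := hx
      have h1 : ∑ i ∈ J, ∑ j : Fin M, (if x ∈ nbA i j then w i j else 0) =
          ∑ j : Fin M, (if x ∈ nbA i j then w i j else 0) := by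
        refine sum_eq_single_of_mem i hi ?_
        intro i' _ hne
        refine sum_eq_zero (fun j _ => if_neg ?_)
        intro h
        have h2 : x ∈ E i' := cell_subset (mem_nb.1 (mem_inter.1 h).1).1
        exact disjoint_left.1 (hd i' i hne) h2 hxi
      have h2 : ∑ j : Fin M, (if x ∈ nbA i j then w i j else 0) =
          if x ∈ nbA i (c i x) then w i (c i x) else 0 := by
        refine sum_eq_single_of_mem (c i x) (mem_univ _) ?_
        intro j _ hne
        refine if_neg ?_
        intro h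
        exact hne (mem_cell.1 (mem_nb.1 (mem_inter.1 h).1).1).2.symm
      simp only [h1, h2]
      split_ifs
      · exact hw1 _ _
      · exact zero_le_one
    · have h1 : ∑ i ∈ J, ∑ j : Fin M, (if x ∈ nbA i j then w i j else 0) = 0 := by
        refine sum_eq_zero (fun i hi => sum_eq_zero (fun j _ => if_neg ?_))
        intro h
        exact hx ⟨i, hi, cell_subset (mem_nb.1 (mem_inter.1 h).1).1⟩
      simp only [h1]
      exact zero_le_one
  · intro x hx
    simp only at hx
    obtain ⟨i, hi, hx1⟩ := exists_ne_zero_of_sum_ne_zero hx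
    obtain ⟨j, _, hx2⟩ := exists_ne_zero_of_sum_ne_zero hx1
    have hxn : x ∈ nbA i j := by
      by_contra h
      exact hx2 (if_neg h)
    rw [if_pos hxn] at hx2
    have hsp : Split G W η A (C i j) := by
      by_contra h
      exact hx2 (if_neg h)
    obtain ⟨hxnb, hxA⟩ := mem_inter.1 hxn
    obtain ⟨hxC, hadj⟩ := mem_nb.1 hxnb
    refine ⟨hxA, hadj, ?_, i, hi, j, hxC, hsp⟩
    intro hzx
    exact hadj.ne (hcut.adj x hxA hzx.symm).symm
  · have hcell : ∀ i ∈ J, ∀ j : Fin M, n i j - bb i j ≤
        aa i j * w i j + (η + q) * ((C i j).card : ℝ) +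
          (((C i j).filter (fun x => x = v)).card : ℝ) := by
      intro i hi j
      rw [haw i j]
      have hC0 : (0 : ℝ) ≤ ((C i j).card : ℝ) := Nat.cast_nonneg _
      have hv0 : (0 : ℝ) ≤ (((C i j).filter (fun x => x = v)).card : ℝ) := Nat.cast_nonneg _
      by_cases hsp : Split G W η A (C i j)
      · rw [if_pos hsp]
        have h1 : n i j - bb i j ≤ β i j := le_max_right _ _
        have h2 : 0 ≤ (η + q) * ((C i j).card : ℝ) := mul_nonneg (add_nonneg hη hq) hC0
        linarith
      · rw [if_neg hsp, zero_add]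
        unfold Split at hsp
        rw [not_and_or, not_le, not_le] at hsp
        rcases hsp with h | h
        · have h1 := hnle i j
          have h2 : aa i j ≤ ((A ∩ C i j).card : ℝ) := by
            simp only [haa]
            have hsub : nbA i j ⊆ A ∩ C i j := by
              intro x hx
              obtain ⟨h3, h4⟩ := mem_inter.1 hx
              exact mem_inter.2 ⟨h4, (mem_nb.1 h3).1⟩
            exact_mod_cast card_le_card hsub
          have h3 : 0 ≤ q * ((C i j).card : ℝ) := mul_nonneg hq hC0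
          nlinarith
        · have hk := (abs_le.1 ((hkey i hi).2 j)).2
          have hsub : nb G (C i j) z ⊆ ((C i j).filter (fun x => x ∈ bd G W A) ∪
              ((W \ (A ∪ bd G W A)) ∩ C i j)) ∪ (C i j).filter (fun x => x = v) := by
            intro x hx
            obtain ⟨hxC, hadj⟩ := mem_nb.1 hx
            by_cases hxA : x ∈ A
            · exact mem_union_right _ (mem_filter.2 ⟨hxC, hcut.adj x hxA hadj.symm⟩)
            · refine mem_union_left _ ?_
              by_cases hxb : x ∈ bd G W A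
              · exact mem_union_left _ (mem_filter.2 ⟨hxC, hxb⟩)
              · refine mem_union_right _ (mem_inter.2 ⟨mem_sdiff.2 ⟨hCW i j hxC, ?_⟩, hxC⟩)
                intro h5
                rcases mem_union.1 h5 with h6 | h6
                · exact hxA h6
                · exact hxb h6
          have hcard := (card_le_card hsub).trans ((card_union_le _ _).trans
            (Nat.add_le_add_right (card_union_le _ _) _))
          have hcard' : ((nb G (C i j) z).card : ℝ) ≤ bb i j +
              (((W \ (A ∪ bd G W A)) ∩ C i j).card : ℝ) +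
              (((C i j).filter (fun x => x = v)).card : ℝ) := by
            simp only [hbb]
            exact_mod_cast hcard
          have hk' : n i j - ((nb G (C i j) z).card : ℝ) ≤ q * ((C i j).card : ℝ) := hk
          nlinarith
    have hsum := sum_le_sum (fun i hi => sum_le_sum (fun j (_ : j ∈ (univ : Finset (Fin M))) =>
      hcell i hi j))
    simp only [sum_sub_distrib, sum_add_distrib, ← mul_sum] at hsum
    have e1 : ∑ i ∈ J, ∑ j : Fin M, n i j = ((nb G (EJ E J) v).card : ℝ) :=
      card_EJ_cell hd c J (fun x => G.Adj v x)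
    have e2 : ∑ i ∈ J, ∑ j : Fin M, bb i j = ((bd G W A ∩ EJ E J).card : ℝ) := by
      have h := card_EJ_cell hd c J (fun x => x ∈ bd G W A)
      have h2 : (EJ E J).filter (fun x => x ∈ bd G W A) = bd G W A ∩ EJ E J := by
        ext x
        simp only [mem_filter, mem_inter]
        tauto
      rw [h2] at h
      exact h
    have e3 : ∑ i ∈ J, ∑ j : Fin M, ((C i j).card : ℝ) = ((EJ E J).card : ℝ) := by
      have h := card_EJ_cell hd c J (fun _ => True)
      simpa using h
    have e4 : ∑ i ∈ J, ∑ j : Fin M, (((C i j).filter (fun x => x = v)).card : ℝ) ≤ 1 := by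
      rw [card_EJ_cell hd c J (fun x => x = v)]
      have h : ((EJ E J).filter (fun x => x = v)).card ≤ 1 := by
        refine card_le_one.2 ?_
        intro a ha b hb
        rw [(mem_filter.1 ha).2, (mem_filter.1 hb).2]
      exact_mod_cast h
    have e5 : ∑ x ∈ EJ E J, (∑ i ∈ J, ∑ j : Fin M, if x ∈ nbA i j then w i j else 0) =
        ∑ i ∈ J, ∑ j : Fin M, aa i j * w i j := by
      rw [sum_comm]
      refine sum_congr rfl (fun i hi => ?_)
      rw [sum_comm]
      refine sum_congr rfl (fun j _ => ?_)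
      rw [sum_ite_mem]
      have h : EJ E J ∩ nbA i j = nbA i j := by
        refine inter_eq_right.2 ?_
        intro x hx
        exact mem_EJ.2 ⟨i, hi, cell_subset (mem_nb.1 (mem_inter.1 hx).1).1⟩
      rw [h, sum_const, nsmul_eq_mul]
    rw [e1, e2, e3] at hsum
    simp only [e5]
    linarith

end Pool.Agent.LC0y
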