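import Pool.Agent.Lib_MP_0bab5c_y.RF

/-!
# Solvency around a cut

Fix a home `i`, a payer cell `C = cell (E i) (c i) j` and a set `A ⊆ W` with `|bd A| ≤ (1+σ) k`.  For `x ∈ C` let
`D x = |nb W x|` and `mr x = #{v ∈ W | MReq i v x}`.

`solvency`.  Receiver cells: for `v ∈ W` having a class `J ∈ cls v` with `i ∈ J` (`J` is unique by `cdisj`) let
`R v = {v' ∈ W | J ∈ cls v', keyf J v' = keyf J v}`; these sets form a partition of the set of all such vertices
(if `v' ∈ R v` then `J` is the unique class of `v'` containing `i`).  If `v` is adjacent to some vertex of `E i`, so is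
every `v' ∈ R v` (keys: `nb (E i) v = ∅ ↔ nb (E i) v' = ∅`), hence `R v ⊆ nbs G W (E i)`.
For `x ∈ C` and a receiver cell `R`: `|N(x) ∩ R| + #{v ∈ R | MReq i v x} ≤ |R|`, because `v ↦ nx J v` maps
`{v ∈ R | MReq i v x}` injectively into `R \ N(x)`; also it is `≤ 2 |N(x) ∩ R|`.  Therefore (`min a b ≤ s a + (1-s) b`,
`s = |R ∩ bd A| / |R|`) it is `≤ |R ∩ bd A| + 2 (|R \ bd A| / |R|) |N(x) ∩ R|`.  A vertex `v ∈ N(x) ∩ W` without a class
containing `i` contributes `1 ≤ [v ∈ bd A] + [v ∉ bd A]` to `D x` and nothing to `mr x`.  Sum over all receiver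
cells meeting `nbs G W (E i)` and all other neighbours:
`D x + mr x ≤ |bd A| + 2 ∑_R (|R \ bd A| / |R|) |N(x) ∩ R| + |N(x) ∩ (W \ bd A) ∩ others|`.
Sum over `x ∈ C`: `∑_x |N(x) ∩ R| = ∑_{v ∈ R} |nb C v|`, and by equal keys (`sameKey_of_keyf`)
`(1/|R|) ∑_{v ∈ R} |nb C v| ≤ |nb C v'| + q |C|` for every `v' ∈ R`, so
`(|R \ bd A| / |R|) ∑_{v ∈ R} |nb C v| ≤ ∑_{v' ∈ R \ bd A} (|nb C v'| + q |C|)`.  Since the `R` used lie in
`nbs G W (E i)`, of size `≤ 18 k`:
`∑_{x ∈ C} max 0 (D x + mr x - (1+σ) k) ≤ 2 ∑_{v ∈ W \ bd A} |nb C v| + 2 q |C| 18 k`.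
(The `max 0` is harmless: the bound for `D x + mr x - |bd A|` is nonnegative for every `x`.)

`split_few`.  `A'' = W \ (A ∪ bd A)`.  `S = A ∩ E i`: for `y ∈ A''` there is no neighbour in `S`; WReg gives
`∑_{y ∈ A'' ∩ nbs} ∑_j (|S ∩ C_j| / |C_j|) |nb C_j y| ≤ εr |E i| |nbs|`, and `|S ∩ C_j|/|C_j| ≥ η` for split cells (for an
empty cell both sides vanish).  Vertices `y` outside `nbs` have no neighbours in `E i`.  The same with
`S = A'' ∩ E i` and `y ∈ A` (a vertex of `A` has no neighbour in `A''`, else that neighbour would be in `bd A`).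
-/

namespace Pool.Agent.LC0y

open Finset Pool.Agent.LC0bab
open scoped Classical

universe u

private lemma sol_real {n m b r : ℝ} (hr : 0 < r) (hb : 0 ≤ b) (hbr : b ≤ r) (h1 : n + m ≤ r)
    (h2 : m ≤ n) : n + m ≤ b + 2 * ((r - b) / r) * n := by
  have h3 : b / r * (n + m) ≤ b / r * r := by
    apply mul_le_mul_of_nonneg_left h1
    positivity
  have h4 : (r - b) / r * (n + m) ≤ (r - b) / r * (2 * n) := by
    apply mul_le_mul_of_nonneg_left (by linarith)
    apply div_nonneg (by linarith) hr.le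
  have h5 : b / r * (n + m) + (r - b) / r * (n + m) = n + m := by
    field_simp
    ring
  have h6 : b / r * r = b := by field_simp
  nlinarith

/-- the class of `v` containing the home `i` -/
private noncomputable def solJ {V ι : Type u} (cls : V → Finset (Finset ι)) (i : ι) (v : V) :
    Finset ι := if h : ∃ J ∈ cls v, i ∈ J then h.choose else ∅

private lemma solJ_eq {V ι : Type u} [Fintype ι] {G : SimpleGraph V} {W : Finset V} {k N B1 : ℕ}
    {E : ι → Finset V} {cls : V → Finset (Finset ι)} (hF : Frame G W k N B1 E cls) {i : ι} {v : V}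
    (hv : v ∈ W) {J : Finset ι} (hJ : J ∈ cls v) (hi : i ∈ J) : solJ cls i v = J := by
  have h : ∃ J ∈ cls v, i ∈ J := ⟨J, hJ, hi⟩
  unfold solJ
  rw [dif_pos h]
  by_contra hne
  have := hF.cdisj v hv _ h.choose_spec.1 J hJ hne
  exact Finset.disjoint_left.1 this h.choose_spec.2 hi

private lemma sol_sum_nb {V : Type u} {G : SimpleGraph V} (C R : Finset V) :
    ∑ x ∈ C, ((nb G R x).card : ℝ) = ∑ v ∈ R, ((nb G C v).card : ℝ) := by
  have h := ee_comm (G := G) C R
  unfold ee at h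
  exact_mod_cast h

/-- receiver cells: the estimate for one vertex `x` -/
private lemma sol_cell {V ι : Type u} [Fintype ι] {G : SimpleGraph V} {W : Finset V}
    {k N B1 M : ℕ} {E : ι → Finset V} {cls : V → Finset (Finset ι)}
    (hF : Frame G W k N B1 E cls) {c : ι → V → Fin M} {q : ℝ} {Cut : V → V → Finset V → Prop}
    {nx : Finset ι → V → V} {Ex : Finset (V × Finset ι)} (hT : Twins G W E c q cls Cut nx Ex)
    {i : ι} {x : V} (hx : x ∈ E i) {J : Finset ι} (hiJ : i ∈ J)
    (ky : ι → Option (Fin M → ℕ)) (R : Finset V)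
    (hR : ∀ v, v ∈ R ↔ v ∈ W ∧ J ∈ cls v ∧ v ∈ nbs G W (E i) ∧ keyf G E c q J v = ky) :
    (R.filter (fun v => MReq G W cls nx Ex i v x)).card ≤ (nb G R x).card ∧
    (nb G R x).card + (R.filter (fun v => MReq G W cls nx Ex i v x)).card ≤ R.card := by
  have hcls : ∀ v ∈ R, MReq G W cls nx Ex i v x → G.Adj v x ∧ (v, J) ∉ Ex ∧
      ¬ G.Adj (nx J v) x := by
    rintro v hv ⟨hvW, hadj, J', hJ', hi', hEx, hn⟩
    have h1 := solJ_eq hF hvW hJ' hi'
    have h2 := solJ_eq hF hvW ((hR v).1 hv).2.1 hiJ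
    rw [h1] at h2
    subst h2
    exact ⟨hadj, hEx, hn⟩
  constructor
  · refine card_le_card ?_
    intro v hv
    rw [mem_filter] at hv
    rw [mem_nb]
    exact ⟨hv.1, (hcls v hv.1 hv.2).1.symm⟩
  · have h1 : (R.filter (fun v => MReq G W cls nx Ex i v x)).card ≤ (R \ nb G R x).card := by
      refine card_le_card_of_injOn (fun v => nx J v) ?_ ?_
      · intro v hv
        rw [mem_coe, mem_filter] at hv
        obtain ⟨hvR, hvM⟩ := hv
        obtain ⟨hadj, hEx, hn⟩ := hcls v hvR hvM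
        obtain ⟨hvW, hJv, hvn, hkey⟩ := (hR v).1 hvR
        obtain ⟨m1, m2, m3⟩ := hT.mem v hvW J hJv hEx
        have hk := hT.key v hvW J hJv hEx
        have hne : nb G (E i) v ≠ ∅ := by
          intro h0
          have : x ∈ nb G (E i) v := mem_nb.2 ⟨hx, hadj⟩
          rw [h0] at this
          exact notMem_empty _ this
        have hne' : nb G (E i) (nx J v) ≠ ∅ := by
          intro h0
          have h2 := congrFun hk i
          unfold keyf at h2
          rw [if_pos hiJ, if_pos hiJ, if_pos h0, if_neg hne] at h2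
          exact absurd h2 (by simp)
        obtain ⟨z, hz⟩ := nonempty_iff_ne_empty.2 hne'
        rw [mem_nb] at hz
        rw [mem_coe, mem_sdiff]
        refine ⟨(hR _).2 ⟨m1, m2, mem_nbs.2 ⟨m1, z, hz.1, hz.2.symm⟩, hk.trans hkey⟩, ?_⟩
        intro h0
        exact hn (mem_nb.1 h0).2.symm
      · intro v hv v' hv' hvv
        rw [mem_coe, mem_filter] at hv hv'
        obtain ⟨hvR, hvM⟩ := hv
        obtain ⟨hvR', hvM'⟩ := hv'
        exact hT.inj J v ((hR v).1 hvR).1 v' ((hR v').1 hvR').1 ((hR v).1 hvR).2.1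
          ((hR v').1 hvR').2.1 (hcls v hvR hvM).2.1 (hcls v' hvR' hvM').2.1 hvv
    have h2 : (R \ nb G R x).card + (nb G R x).card = R.card :=
      card_sdiff_add_card_eq_card nb_subset
    omega

theorem solvency {V ι : Type u} [Fintype ι] {G : SimpleGraph V} {W : Finset V} {k N B1 M : ℕ}
    {E : ι → Finset V} {cls : V → Finset (Finset ι)} (hF : Frame G W k N B1 E cls)
    {c : ι → V → Fin M} {q σ : ℝ} (hq : 0 < q) {Cut : V → V → Finset V → Prop}
    {nx : Finset ι → V → V} {Ex : Finset (V × Finset ι)}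
    (hT : Twins G W E c q cls Cut nx Ex) {A : Finset V} (hA : A ⊆ W)
    (hbd : ((bd G W A).card : ℝ) ≤ (1 + σ) * k) (i : ι) (j : Fin M) :
    ∑ x ∈ cell (E i) (c i) j, max 0 (((nb G W x).card : ℝ) +
        ((W.filter (fun v => MReq G W cls nx Ex i v x)).card : ℝ) - (1 + σ) * k) ≤
      2 * (ee G (cell (E i) (c i) j) (W \ bd G W A) : ℝ) +
        36 * q * k * ((cell (E i) (c i) j).card : ℝ) := by
  set C := cell (E i) (c i) j with hC
  set B := bd G W A with hB
  have hCE : C ⊆ E i := cell_subset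
  have hBW : B ⊆ W := bd_subset
  set R0 := W.filter (fun v => (∃ J ∈ cls v, i ∈ J) ∧ v ∈ nbs G W (E i)) with hR0
  have hR0W : R0 ⊆ W := filter_subset _ _
  have hR0c : (R0.card : ℝ) ≤ 18 * k := by
    have h1 : R0 ⊆ nbs G W (E i) := fun v hv => (mem_filter.1 hv).2.2
    have h2 := (card_le_card h1).trans (hF.cardN i)
    exact_mod_cast h2
  let ka : V → Finset ι × (ι → Option (Fin M → ℕ)) := fun v =>
    (solJ cls i v, keyf G E c q (solJ cls i v) v)
  set T := R0.image ka with hTdef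
  let R : (Finset ι × (ι → Option (Fin M → ℕ))) → Finset V := fun r =>
    R0.filter (fun v => ka v = r)
  have hfib : ∀ f : V → ℝ, ∑ r ∈ T, ∑ v ∈ R r, f v = ∑ v ∈ R0, f v := by
    intro f
    exact sum_fiberwise_of_maps_to (fun v hv => mem_image_of_mem ka hv) f
  have hRsub : ∀ r, R r ⊆ R0 := fun r => filter_subset _ _
  have hRne : ∀ r ∈ T, 0 < ((R r).card : ℝ) := by
    intro r hr
    obtain ⟨v, hv, rfl⟩ := mem_image.1 hr
    have : 0 < (R (ka v)).card := card_pos.2 ⟨v, mem_filter.2 ⟨hv, rfl⟩⟩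
    exact_mod_cast this
  -- members of a receiver cell
  have hRmem : ∀ r ∈ T, i ∈ r.1 ∧ ∀ v, v ∈ R r ↔ v ∈ W ∧ r.1 ∈ cls v ∧ v ∈ nbs G W (E i) ∧
      keyf G E c q r.1 v = r.2 := by
    intro r hr
    obtain ⟨w, hw, rfl⟩ := mem_image.1 hr
    obtain ⟨hwW, ⟨J, hJ, hiJ⟩, hwn⟩ := mem_filter.1 hw
    have hJw := solJ_eq hF hwW hJ hiJ
    have hi : i ∈ (ka w).1 := by
      show i ∈ solJ cls i w
      rw [hJw]
      exact hiJ
    refine ⟨hi, fun v => ?_⟩
    constructor
    · intro hv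
      obtain ⟨hv0, hvr⟩ := mem_filter.1 hv
      obtain ⟨hvW, ⟨J', hJ', hiJ'⟩, hvn⟩ := mem_filter.1 hv0
      have hJv := solJ_eq hF hvW hJ' hiJ'
      have e1 : solJ cls i v = (ka w).1 := congrArg Prod.fst hvr
      have e2 : keyf G E c q (solJ cls i v) v = (ka w).2 := congrArg Prod.snd hvr
      refine ⟨hvW, ?_, hvn, ?_⟩
      · rw [← e1, hJv]
        exact hJ'
      · rw [← e1]
        exact e2
    · rintro ⟨hvW, hJv, hvn, hk⟩
      have e1 := solJ_eq hF hvW hJv hi
      refine mem_filter.2 ⟨mem_filter.2 ⟨hvW, ⟨_, hJv, hi⟩, hvn⟩, ?_⟩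
      refine Prod.ext ?_ ?_
      · exact e1
      · show keyf G E c q (solJ cls i v) v = _
        rw [e1]
        exact hk
  -- the numbers of a cell
  let w : (Finset ι × (ι → Option (Fin M → ℕ))) → ℝ := fun r =>
    2 * ((((R r).card : ℝ) - ((R r ∩ B).card : ℝ)) / ((R r).card : ℝ))
  have hcapR : ∀ r, ((R r ∩ B).card : ℝ) ≤ ((R r).card : ℝ) := by
    intro r
    exact_mod_cast card_le_card inter_subset_left
  have hw0 : ∀ r, 0 ≤ w r := by
    intro r
    have := hcapR r
    have h2 : (0 : ℝ) ≤ ((R r).card : ℝ) := Nat.cast_nonneg _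
    show 0 ≤ 2 * _
    exact mul_nonneg zero_le_two (div_nonneg (by linarith) h2)
  let t : V → ℝ := fun x => ∑ r ∈ T, w r * ((nb G (R r) x).card : ℝ) +
    ((nb G ((W \ R0) \ B) x).card : ℝ)
  have ht0 : ∀ x, 0 ≤ t x := by
    intro x
    refine add_nonneg (sum_nonneg fun r _ => mul_nonneg (hw0 r) (Nat.cast_nonneg _))
      (Nat.cast_nonneg _)
  -- the estimate for one vertex
  have hpt : ∀ x ∈ C, ((nb G W x).card : ℝ) +
      ((W.filter (fun v => MReq G W cls nx Ex i v x)).card : ℝ) ≤ (B.card : ℝ) + t x := by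
    intro x hx
    have hxE := hCE hx
    have hMR0 : W.filter (fun v => MReq G W cls nx Ex i v x) =
        R0.filter (fun v => MReq G W cls nx Ex i v x) := by
      ext v
      rw [mem_filter, mem_filter]
      constructor
      · rintro ⟨hv, hm⟩
        obtain ⟨_, hadj, J, hJ, hiJ, _⟩ := id hm
        exact ⟨mem_filter.2 ⟨hv, ⟨J, hJ, hiJ⟩, mem_nbs.2 ⟨hv, x, hxE, hadj.symm⟩⟩, hm⟩
      · rintro ⟨hv, hm⟩
        exact ⟨hR0W hv, hm⟩
    have hD : ((nb G W x).card : ℝ) = ((nb G R0 x).card : ℝ) + ((nb G (W \ R0) x).card : ℝ) := by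
      exact_mod_cast nb_card_split hR0W x
    have hO : ((nb G (W \ R0) x).card : ℝ) ≤ (((W \ R0) ∩ B).card : ℝ) +
        ((nb G ((W \ R0) \ B) x).card : ℝ) := by
      have h1 : nb G (W \ R0) x ⊆ ((W \ R0) ∩ B) ∪ nb G ((W \ R0) \ B) x := by
        intro v hv
        rw [mem_nb] at hv
        by_cases hvB : v ∈ B
        · exact mem_union_left _ (mem_inter.2 ⟨hv.1, hvB⟩)
        · exact mem_union_right _ (mem_nb.2 ⟨mem_sdiff.2 ⟨hv.1, hvB⟩, hv.2⟩)
      have h2 := (card_le_card h1).trans (card_union_le _ _)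
      exact_mod_cast h2
    have hcardsum : ∀ (P : V → Prop), ((R0.filter P).card : ℝ) =
        ∑ r ∈ T, (((R r).filter P).card : ℝ) := by
      intro P
      have h1 : ∀ X : Finset V, ((X.filter P).card : ℝ) = ∑ v ∈ X, (if P v then (1 : ℝ) else 0) := by
        intro X
        rw [card_filter]
        push_cast
        rfl
      rw [h1, ← hfib]
      exact sum_congr rfl fun r _ => (h1 (R r)).symm
    have hnb : ∀ X : Finset V, nb G X x = X.filter (fun a => G.Adj x a) := fun X => rfl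
    have hcap : ∀ X : Finset V, X ∩ B = X.filter (fun a => a ∈ B) := by
      intro X
      ext v
      rw [mem_inter, mem_filter]
    have hmain : ((nb G R0 x).card : ℝ) + ((R0.filter (fun v => MReq G W cls nx Ex i v x)).card : ℝ)
        ≤ ((R0 ∩ B).card : ℝ) + ∑ r ∈ T, w r * ((nb G (R r) x).card : ℝ) := by
      have k1 : ((nb G R0 x).card : ℝ) = ∑ r ∈ T, ((nb G (R r) x).card : ℝ) :=
        hcardsum (fun a => G.Adj x a)
      have k2 : ((R0 ∩ B).card : ℝ) = ∑ r ∈ T, ((R r ∩ B).card : ℝ) := by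
        rw [hcap R0]
        refine Eq.trans ?_ ((hcardsum (fun a => a ∈ B)).trans ?_)
        · congr
        · refine sum_congr rfl fun r _ => ?_
          rw [hcap (R r)]
          congr
      rw [k1, k2, hcardsum (fun v => MReq G W cls nx Ex i v x), ← sum_add_distrib,
        ← sum_add_distrib]
      refine sum_le_sum fun r hr => ?_
      obtain ⟨hi, hm⟩ := hRmem r hr
      obtain ⟨e1, e2⟩ := sol_cell hF hT hxE hi r.2 (R r) hm
      have e1' : (((R r).filter (fun v => MReq G W cls nx Ex i v x)).card : ℝ) ≤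
        ((nb G (R r) x).card : ℝ) := by exact_mod_cast e1
      have e2' : ((nb G (R r) x).card : ℝ) +
        (((R r).filter (fun v => MReq G W cls nx Ex i v x)).card : ℝ) ≤ ((R r).card : ℝ) := by
        exact_mod_cast e2
      exact sol_real (hRne r hr) (Nat.cast_nonneg _) (hcapR r) e2' e1'
    have hBsplit : ((R0 ∩ B).card : ℝ) + (((W \ R0) ∩ B).card : ℝ) = (B.card : ℝ) := by
      have h1 : (R0 ∩ B) ∪ ((W \ R0) ∩ B) = B := by
        ext v
        rw [mem_union, mem_inter, mem_inter, mem_sdiff]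
        constructor
        · rintro (⟨_, h⟩ | ⟨_, h⟩) <;> exact h
        · intro h
          by_cases h0 : v ∈ R0
          · exact Or.inl ⟨h0, h⟩
          · exact Or.inr ⟨⟨hBW h, h0⟩, h⟩
      have h2 : Disjoint (R0 ∩ B) ((W \ R0) ∩ B) := by
        rw [disjoint_left]
        intro v hv hv'
        exact (mem_sdiff.1 (mem_inter.1 hv').1).2 (mem_inter.1 hv).1
      have h3 := card_union_of_disjoint h2
      rw [h1] at h3
      exact_mod_cast h3.symm
    rw [hMR0, hD]
    show _ ≤ (B.card : ℝ) + (∑ r ∈ T, w r * ((nb G (R r) x).card : ℝ) +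
      ((nb G ((W \ R0) \ B) x).card : ℝ))
    linarith
  -- the sum over one cell
  have hcell : ∀ r ∈ T, ∑ x ∈ C, w r * ((nb G (R r) x).card : ℝ) ≤
      2 * ∑ v ∈ R r \ B, (((nb G C v).card : ℝ) + q * (C.card : ℝ)) := by
    intro r hr
    have hpos := hRne r hr
    obtain ⟨hi, hm⟩ := hRmem r hr
    rw [← mul_sum, sol_sum_nb]
    have hS : ∀ v' ∈ R r, ∑ v ∈ R r, ((nb G C v).card : ℝ) ≤
        ((R r).card : ℝ) * (((nb G C v').card : ℝ) + q * (C.card : ℝ)) := by
      intro v' hv'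
      have h1 : ∀ v ∈ R r, ((nb G C v).card : ℝ) ≤ ((nb G C v').card : ℝ) + q * (C.card : ℝ) := by
        intro v hv
        have hk : keyf G E c q r.1 v = keyf G E c q r.1 v' :=
          (((hm v).1 hv).2.2.2).trans (((hm v').1 hv').2.2.2).symm
        have h2 := ((sameKey_of_keyf hq hk) i hi).2 j
        have h3 := (abs_le.1 h2).2
        linarith
      have h2 := sum_le_card_nsmul (R r) _ _ h1
      rw [nsmul_eq_mul] at h2
      exact h2
    have hsum := sum_le_sum fun v' (hv' : v' ∈ R r \ B) => hS v' (mem_sdiff.1 hv').1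
    rw [sum_const, nsmul_eq_mul, ← mul_sum] at hsum
    have hcd : ((R r \ B).card : ℝ) = ((R r).card : ℝ) - ((R r ∩ B).card : ℝ) := by
      have h1 := card_sdiff_add_card_inter (R r) B
      have h2 : ((R r \ B).card : ℝ) + ((R r ∩ B).card : ℝ) = ((R r).card : ℝ) := by
        exact_mod_cast h1
      linarith
    rw [hcd] at hsum
    show 2 * ((((R r).card : ℝ) - ((R r ∩ B).card : ℝ)) / ((R r).card : ℝ)) * _ ≤ _
    rw [mul_assoc]
    refine mul_le_mul_of_nonneg_left ?_ zero_le_two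
    rw [div_mul_eq_mul_div, div_le_iff₀ hpos]
    linarith
  -- conclusion
  have h1 : ∑ x ∈ C, max 0 (((nb G W x).card : ℝ) +
      ((W.filter (fun v => MReq G W cls nx Ex i v x)).card : ℝ) - (1 + σ) * k) ≤ ∑ x ∈ C, t x := by
    refine sum_le_sum fun x hx => ?_
    rw [max_le_iff]
    refine ⟨ht0 x, ?_⟩
    have := hpt x hx
    linarith
  have h2 : ∑ x ∈ C, t x ≤ 2 * ∑ v ∈ R0 \ B, (((nb G C v).card : ℝ) + q * (C.card : ℝ)) +
      ∑ v ∈ (W \ R0) \ B, ((nb G C v).card : ℝ) := by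
    show ∑ x ∈ C, (∑ r ∈ T, w r * ((nb G (R r) x).card : ℝ) +
      ((nb G ((W \ R0) \ B) x).card : ℝ)) ≤ _
    rw [sum_add_distrib, sol_sum_nb, sum_comm]
    refine add_le_add ?_ le_rfl
    refine (sum_le_sum hcell).trans ?_
    rw [← mul_sum]
    refine mul_le_mul_of_nonneg_left ?_ zero_le_two
    have hsd : ∀ X : Finset V, ∀ f : V → ℝ, ∑ v ∈ X \ B, f v =
        ∑ v ∈ X, (if v ∈ B then 0 else f v) := by
      intro X f
      have e1 : X \ B = X.filter (fun v => ¬ v ∈ B) := by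
        ext v
        rw [mem_sdiff, mem_filter]
      rw [e1, sum_filter]
      refine sum_congr rfl fun v _ => ?_
      by_cases hv : v ∈ B
      · rw [if_neg (by simpa using hv), if_pos hv]
      · rw [if_pos hv, if_neg hv]
    rw [hsd, ← hfib]
    exact le_of_eq (sum_congr rfl fun r _ => hsd _ _)
  have h3 : (ee G C (W \ B) : ℝ) = ∑ v ∈ R0 \ B, ((nb G C v).card : ℝ) +
      ∑ v ∈ (W \ R0) \ B, ((nb G C v).card : ℝ) := by
    have e1 : (ee G C (W \ B) : ℝ) = ∑ v ∈ W \ B, ((nb G C v).card : ℝ) := by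
      rw [ee_comm]
      unfold ee
      push_cast
      rfl
    have e2 : W \ B = (R0 \ B) ∪ ((W \ R0) \ B) := by
      ext v
      rw [mem_union, mem_sdiff, mem_sdiff, mem_sdiff, mem_sdiff]
      constructor
      · rintro ⟨ha, hb⟩
        by_cases h0 : v ∈ R0
        · exact Or.inl ⟨h0, hb⟩
        · exact Or.inr ⟨⟨ha, h0⟩, hb⟩
      · rintro (⟨ha, hb⟩ | ⟨⟨ha, _⟩, hb⟩)
        · exact ⟨hR0W ha, hb⟩
        · exact ⟨ha, hb⟩
    have e3 : Disjoint (R0 \ B) ((W \ R0) \ B) := by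
      rw [disjoint_left]
      intro v hv hv'
      exact (mem_sdiff.1 (mem_sdiff.1 hv').1).2 (mem_sdiff.1 hv).1
    rw [e1, e2, sum_union e3]
  have h4 : ∑ v ∈ R0 \ B, (((nb G C v).card : ℝ) + q * (C.card : ℝ)) ≤
      ∑ v ∈ R0 \ B, ((nb G C v).card : ℝ) + 18 * k * (q * (C.card : ℝ)) := by
    rw [sum_add_distrib, sum_const, nsmul_eq_mul]
    refine add_le_add le_rfl ?_
    have e1 : ((R0 \ B).card : ℝ) ≤ 18 * k := by
      refine le_trans ?_ hR0c
      exact_mod_cast card_le_card sdiff_subset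
    exact mul_le_mul_of_nonneg_right e1 (mul_nonneg hq.le (Nat.cast_nonneg _))
  have h5 : 0 ≤ ∑ v ∈ (W \ R0) \ B, ((nb G C v).card : ℝ) :=
    sum_nonneg fun v _ => Nat.cast_nonneg _
  rw [h3]
  linarith

private lemma sf_half {V ι : Type u} {G : SimpleGraph V} {W : Finset V} {M : ℕ}
    {E : ι → Finset V} {c : ι → V → Fin M} {i : ι} {εr η : ℝ} (hη : 0 < η)
    (hW : WReg G εr (E i) (nbs G W (E i)) (c i)) {S Y : Finset V} (hS : S ⊆ E i) (hY : Y ⊆ W)
    (hno : ∀ y ∈ Y, ∀ s ∈ S, ¬ G.Adj s y) (P : Finset (Fin M))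
    (hP : ∀ j ∈ P, η * ((cell (E i) (c i) j).card : ℝ) ≤ ((cell S (c i) j).card : ℝ)) :
    ∑ j ∈ P, ∑ y ∈ Y, ((nb G (cell (E i) (c i) j) y).card : ℝ) ≤
      εr / η * ((E i).card : ℝ) * ((nbs G W (E i)).card : ℝ) := by
  have h1 := hW S hS
  rw [sum_comm]
  have h2 : η * ∑ y ∈ Y, ∑ j ∈ P, ((nb G (cell (E i) (c i) j) y).card : ℝ) ≤
      ∑ y ∈ nbs G W (E i), |((nb G S y).card : ℝ) - ∑ j : Fin M,
        ((cell S (c i) j).card : ℝ) / ((cell (E i) (c i) j).card : ℝ) *
          ((nb G (cell (E i) (c i) j) y).card : ℝ)| := by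
    have h3 : ∑ y ∈ Y, ∑ j ∈ P, ((nb G (cell (E i) (c i) j) y).card : ℝ) =
        ∑ y ∈ Y.filter (fun y => y ∈ nbs G W (E i)), ∑ j ∈ P,
          ((nb G (cell (E i) (c i) j) y).card : ℝ) := by
      rw [sum_filter]
      refine sum_congr rfl fun y hy => ?_
      by_cases hyn : y ∈ nbs G W (E i)
      · rw [if_pos hyn]
      · rw [if_neg hyn]
        refine sum_eq_zero fun j _ => ?_
        rw [Nat.cast_eq_zero, card_eq_zero, eq_empty_iff_forall_notMem]
        intro z hz
        rw [mem_nb] at hz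
        exact hyn (mem_nbs.2 ⟨hY hy, z, cell_subset hz.1, hz.2.symm⟩)
    rw [h3, mul_sum]
    refine (sum_le_sum (g := fun y => |((nb G S y).card : ℝ) - ∑ j : Fin M,
        ((cell S (c i) j).card : ℝ) / ((cell (E i) (c i) j).card : ℝ) *
          ((nb G (cell (E i) (c i) j) y).card : ℝ)|) fun y hy => ?_).trans
      (sum_le_sum_of_subset_of_nonneg (fun y hy => (mem_filter.1 hy).2)
        fun y _ _ => abs_nonneg _)
    have hyY := (mem_filter.1 hy).1
    have h4 : nb G S y = ∅ := by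
      rw [eq_empty_iff_forall_notMem]
      intro z hz
      rw [mem_nb] at hz
      exact hno y hyY z hz.1 hz.2.symm
    have h5 : ∀ j : Fin M, 0 ≤ ((cell S (c i) j).card : ℝ) / ((cell (E i) (c i) j).card : ℝ) *
          ((nb G (cell (E i) (c i) j) y).card : ℝ) := fun j => by positivity
    rw [h4, card_empty, Nat.cast_zero, zero_sub, abs_neg,
      abs_of_nonneg (sum_nonneg fun j _ => h5 j), mul_sum]
    refine le_trans (sum_le_sum fun j hj => ?_)
      (sum_le_sum_of_subset_of_nonneg (subset_univ P) fun j _ _ => h5 j)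
    rcases (Nat.cast_nonneg (α := ℝ) (cell (E i) (c i) j).card).eq_or_lt with h0 | h0
    · have e0 : cell (E i) (c i) j = ∅ := by
        rw [← card_eq_zero]
        exact_mod_cast h0.symm
      rw [e0]
      simp [nb]
    · refine mul_le_mul_of_nonneg_right ?_ (Nat.cast_nonneg _)
      rw [le_div_iff₀ h0]
      exact hP j hj
  have h3 := h2.trans h1
  rw [div_mul_eq_mul_div, div_mul_eq_mul_div, le_div_iff₀ hη]
  linarith

theorem split_few {V ι : Type u} {G : SimpleGraph V} {W : Finset V} {M : ℕ}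
    {E : ι → Finset V} {c : ι → V → Fin M} {i : ι} (hE : E i ⊆ W) {εr η : ℝ} (hη : 0 < η)
    (hW : WReg G εr (E i) (nbs G W (E i)) (c i)) {A : Finset V} (hA : A ⊆ W) :
    ∑ j ∈ univ.filter (fun j : Fin M => Split G W η A (cell (E i) (c i) j)),
        (ee G (cell (E i) (c i) j) (W \ bd G W A) : ℝ) ≤
      2 * εr / η * ((E i).card : ℝ) * ((nbs G W (E i)).card : ℝ) := by
  set P := univ.filter (fun j : Fin M => Split G W η A (cell (E i) (c i) j)) with hP
  set A2 := W \ (A ∪ bd G W A) with hA2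
  have hWB : W \ bd G W A = A ∪ A2 := by
    ext v
    rw [mem_sdiff, mem_union, hA2, mem_sdiff, mem_union]
    constructor
    · rintro ⟨h1, h2⟩
      by_cases hv : v ∈ A
      · exact Or.inl hv
      · exact Or.inr ⟨h1, fun h => h.elim hv h2⟩
    · rintro (h | ⟨h1, h2⟩)
      · exact ⟨hA h, fun h' => (mem_bd.1 h').2.1 h⟩
      · exact ⟨h1, fun h => h2 (Or.inr h)⟩
  have hdis : Disjoint A A2 := by
    rw [disjoint_left]
    intro v hv hv2
    exact (mem_sdiff.1 hv2).2 (mem_union_left _ hv)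
  have hee : ∀ C : Finset V, (ee G C (W \ bd G W A) : ℝ) = ∑ y ∈ A2, ((nb G C y).card : ℝ) +
      ∑ y ∈ A, ((nb G C y).card : ℝ) := by
    intro C
    rw [hWB, ee_comm]
    unfold ee
    push_cast
    rw [sum_union hdis, add_comm]
  have hcellcap : ∀ (X : Finset V) (j : Fin M), cell (X ∩ E i) (c i) j =
      X ∩ cell (E i) (c i) j := by
    intro X j
    ext v
    rw [mem_cell, mem_inter, mem_inter, mem_cell, and_assoc]
  have ha := sf_half (G := G) (W := W) (E := E) (c := c) (i := i) hη hW (S := A ∩ E i) (Y := A2)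
    inter_subset_right sdiff_subset (by
      intro y hy s hs hadj
      obtain ⟨hyW, hyn⟩ := mem_sdiff.1 hy
      refine hyn (mem_union_right _ (mem_bd.2 ⟨hyW, fun h => hyn (mem_union_left _ h), s,
        (mem_inter.1 hs).1, hadj⟩))) P (by
      intro j hj
      rw [hcellcap]
      exact (mem_filter.1 hj).2.1)
  have hb := sf_half (G := G) (W := W) (E := E) (c := c) (i := i) hη hW (S := A2 ∩ E i) (Y := A)
    inter_subset_right hA (by
      intro y hy s hs hadj
      obtain ⟨hsW, hsn⟩ := mem_sdiff.1 (mem_inter.1 hs).1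
      refine hsn (mem_union_right _ (mem_bd.2 ⟨hsW, fun h => hsn (mem_union_left _ h), y,
        hy, hadj.symm⟩))) P (by
      intro j hj
      rw [hcellcap]
      exact (mem_filter.1 hj).2.2)
  calc ∑ j ∈ P, (ee G (cell (E i) (c i) j) (W \ bd G W A) : ℝ)
      = ∑ j ∈ P, ∑ y ∈ A2, ((nb G (cell (E i) (c i) j) y).card : ℝ) +
        ∑ j ∈ P, ∑ y ∈ A, ((nb G (cell (E i) (c i) j) y).card : ℝ) := by
        rw [← sum_add_distrib]
        exact sum_congr rfl fun j _ => hee _
    _ ≤ εr / η * ((E i).card : ℝ) * ((nbs G W (E i)).card : ℝ) +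
        εr / η * ((E i).card : ℝ) * ((nbs G W (E i)).card : ℝ) := add_le_add ha hb
    _ = 2 * εr / η * ((E i).card : ℝ) * ((nbs G W (E i)).card : ℝ) := by ring

end Pool.Agent.LC0y
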