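import Pool.Agent.Lib_MP_0bab5c_y.RF

/-!
# A fixed set of payers

`V' ⊆ E i` is any set.  For `v ∈ W` let `m v = #{x ∈ V' | MReq i v x}`.  If `m v ≠ 0`, `v` has a (unique) class
`J ∈ cls v` with `i ∈ J`, `(v,J) ∉ Ex`; let `z = nx J v`.  Then `m v = |(N(v) \ N(z)) ∩ V'|` and
`|nb V' v| + m v - |V'| ≤ |nb V' v| - |nb V' z|` (since `|(N(v) \ N(z)) ∩ V'| + |N(z) ∩ V'| ≤ |V'|`).
With `θ_j = |V' ∩ C_j|/|C_j|` and `err y = | |nb V' y| - ∑_j θ_j |nb C_j y| |` (WReg with `S = V'`; note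
`cell V' c j = V' ∩ C_j`) equal keys give `|nb V' v| - |nb V' z| ≤ err v + err z + ∑_j θ_j q |C_j| = err v + err z + q |V'|`.
If `m v = 0`, `|nb V' v| - |V'| ≤ 0`.  Only vertices `v` adjacent to `E i` matter, then `z` is adjacent to `E i` too (keys), so `v, z ∈
nbs G W (E i)`.  The map `v ↦ z` is injective on these `v` (if `nx J v = nx J' v' = z` then `J, J' ∈ cls z` both contain `i`,
so `J = J'` by `cdisj`, then `Twins.inj`).  So the sum is at most
`∑ err v + ∑ err z + q |V'| |nbs| ≤ 2 εr |E i| |nbs| + q |E i| |nbs|`.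
-/

namespace Pool.Agent.LC0y

open Finset Pool.Agent.LC0bab
open scoped Classical

universe u

private theorem cls_unique {V ι : Type u} [Fintype ι] {G : SimpleGraph V} {W : Finset V}
    {k N B1 : ℕ} {E : ι → Finset V} {cls : V → Finset (Finset ι)}
    (hF : Frame G W k N B1 E cls) {i : ι} {v : V} (hv : v ∈ W) {J J' : Finset ι}
    (hJ : J ∈ cls v) (hJ' : J' ∈ cls v) (hi : i ∈ J) (hi' : i ∈ J') : J = J' := by
  by_contra hne
  exact disjoint_left.1 (hF.cdisj v hv J hJ J' hJ' hne) hi hi'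

private theorem reg_compare {V : Type u} {G : SimpleGraph V} {M : ℕ} {X V' : Finset V}
    {c : V → Fin M} {q : ℝ} (hV : V' ⊆ X) {v z : V}
    (hs : ∀ j : Fin M, |((nb G (cell X c j) v).card : ℝ) - ((nb G (cell X c j) z).card : ℝ)| ≤
      q * ((cell X c j).card : ℝ)) :
    ((nb G V' v).card : ℝ) - ((nb G V' z).card : ℝ) ≤
      |((nb G V' v).card : ℝ) - ∑ j : Fin M,
        ((cell V' c j).card : ℝ) / ((cell X c j).card : ℝ) * ((nb G (cell X c j) v).card : ℝ)| +
      |((nb G V' z).card : ℝ) - ∑ j : Fin M,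
        ((cell V' c j).card : ℝ) / ((cell X c j).card : ℝ) * ((nb G (cell X c j) z).card : ℝ)| +
      q * (V'.card : ℝ) := by
  have h1 : ∑ j : Fin M, ((cell V' c j).card : ℝ) / ((cell X c j).card : ℝ) *
      ((nb G (cell X c j) v).card : ℝ) - ∑ j : Fin M,
        ((cell V' c j).card : ℝ) / ((cell X c j).card : ℝ) * ((nb G (cell X c j) z).card : ℝ) ≤
      q * (V'.card : ℝ) := by
    rw [← sum_sub_distrib, ← card_cell V' c, mul_sum]
    refine sum_le_sum (fun j _ => ?_)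
    rw [← mul_sub]
    rcases (Nat.cast_nonneg (α := ℝ) (cell X c j).card).eq_or_lt with h0 | h0
    · have e0 : (cell X c j).card = 0 := by exact_mod_cast h0.symm
      have e1 : (cell V' c j).card = 0 := by
        refine Nat.le_zero.1 (e0 ▸ card_le_card ?_)
        intro x hx
        rw [mem_cell] at hx ⊢
        exact ⟨hV hx.1, hx.2⟩
      rw [e0, e1]
      simp
    · have h2 := (abs_le.1 (hs j)).2
      have h3 : 0 ≤ ((cell V' c j).card : ℝ) / ((cell X c j).card : ℝ) := by positivity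
      refine (mul_le_mul_of_nonneg_left h2 h3).trans (le_of_eq ?_)
      field_simp
  have h2 := le_abs_self (((nb G V' v).card : ℝ) - ∑ j : Fin M,
        ((cell V' c j).card : ℝ) / ((cell X c j).card : ℝ) * ((nb G (cell X c j) v).card : ℝ))
  have h3 := neg_abs_le (((nb G V' z).card : ℝ) - ∑ j : Fin M,
        ((cell V' c j).card : ℝ) / ((cell X c j).card : ℝ) * ((nb G (cell X c j) z).card : ℝ))
  linarith

theorem fixed_set {V ι : Type u} [Fintype ι] {G : SimpleGraph V} {W : Finset V}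
    {k N B1 M : ℕ} {E : ι → Finset V} {cls : V → Finset (Finset ι)}
    (hF : Frame G W k N B1 E cls) {c : ι → V → Fin M} {q : ℝ} (hq : 0 < q)
    {Cut : V → V → Finset V → Prop} {nx : Finset ι → V → V} {Ex : Finset (V × Finset ι)}
    (hT : Twins G W E c q cls Cut nx Ex) {i : ι} {εr : ℝ}
    (hW : WReg G εr (E i) (nbs G W (E i)) (c i)) {V' : Finset V} (hV : V' ⊆ E i) :
    ∑ v ∈ W, max 0 (((nb G V' v).card : ℝ) +
        ((V'.filter (fun x => MReq G W cls nx Ex i v x)).card : ℝ) - (V'.card : ℝ)) ≤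
      (2 * εr + q) * ((E i).card : ℝ) * ((nbs G W (E i)).card : ℝ) := by
  let err : V → ℝ := fun y => |((nb G V' y).card : ℝ) - ∑ j : Fin M,
    ((cell V' (c i) j).card : ℝ) / ((cell (E i) (c i) j).card : ℝ) *
      ((nb G (cell (E i) (c i) j) y).card : ℝ)|
  have herr0 : ∀ y, 0 ≤ err y := fun y => abs_nonneg _
  have herr : ∑ y ∈ nbs G W (E i), err y ≤ εr * ((E i).card : ℝ) * ((nbs G W (E i)).card : ℝ) :=
    hW V' hV
  let Q : Finset V := (nbs G W (E i)).filter (fun v => ∃ J ∈ cls v, i ∈ J ∧ (v, J) ∉ Ex)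
  let Jf : V → Finset ι := fun v =>
    if h : ∃ J, J ∈ cls v ∧ i ∈ J ∧ (v, J) ∉ Ex then h.choose else ∅
  have hJf : ∀ v ∈ Q, v ∈ W ∧ Jf v ∈ cls v ∧ i ∈ Jf v ∧ (v, Jf v) ∉ Ex := by
    intro v hv
    have hv' := mem_filter.1 hv
    have hex : ∃ J, J ∈ cls v ∧ i ∈ J ∧ (v, J) ∉ Ex := hv'.2
    have e : Jf v = hex.choose := dif_pos hex
    rw [e]
    exact ⟨(mem_nbs.1 hv'.1).1, hex.choose_spec⟩
  let z : V → V := fun v => nx (Jf v) v
  have hz : ∀ v ∈ Q, z v ∈ nbs G W (E i) := by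
    intro v hv
    obtain ⟨hvW, h1, h2, h3⟩ := hJf v hv
    have hm := hT.mem v hvW _ h1 h3
    have hk := (sameKey_of_keyf hq (hT.key v hvW _ h1 h3) i h2).1
    have hne : nb G (E i) v ≠ ∅ := by
      obtain ⟨x, hx, hxv⟩ := (mem_nbs.1 (mem_filter.1 hv).1).2
      exact ne_empty_of_mem (mem_nb.2 ⟨hx, hxv.symm⟩)
    have hne' : nb G (E i) (z v) ≠ ∅ := fun h => hne (hk.1 h)
    obtain ⟨x, hx⟩ := nonempty_iff_ne_empty.2 hne'
    have hx' := mem_nb.1 hx
    exact mem_nbs.2 ⟨hm.1, x, hx'.1, hx'.2.symm⟩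
  have hinj : ∀ v ∈ Q, ∀ v' ∈ Q, z v = z v' → v = v' := by
    intro v hv v' hv' he
    obtain ⟨hvW, h1, h2, h3⟩ := hJf v hv
    obtain ⟨hvW', h1', h2', h3'⟩ := hJf v' hv'
    have hm := hT.mem v hvW _ h1 h3
    have hm' := hT.mem v' hvW' _ h1' h3'
    have hJJ : Jf v = Jf v' := by
      refine cls_unique hF hm.1 hm.2.1 ?_ h2 h2'
      change Jf v' ∈ cls (z v)
      rw [he]
      exact hm'.2.1
    refine hT.inj (Jf v) v hvW v' hvW' h1 (hJJ ▸ h1') h3 (hJJ ▸ h3') ?_
    change z v = nx (Jf v) v'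
    rw [he, hJJ]
  have hterm : ∀ v ∈ Q, max 0 (((nb G V' v).card : ℝ) +
      ((V'.filter (fun x => MReq G W cls nx Ex i v x)).card : ℝ) - (V'.card : ℝ)) ≤
      err v + err (z v) + q * (V'.card : ℝ) := by
    intro v hv
    obtain ⟨hvW, h1, h2, h3⟩ := hJf v hv
    refine max_le ?_ ?_
    · have := herr0 v
      have := herr0 (z v)
      positivity
    · have hsub : V'.filter (fun x => MReq G W cls nx Ex i v x) ⊆ V' \ nb G V' (z v) := by
        intro x hx
        obtain ⟨hx1, _, hx2, J, hJ1, hJ2, hJ3, hJ4⟩ := mem_filter.1 hx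
        have hJJ : J = Jf v := cls_unique hF hvW hJ1 h1 hJ2 h2
        refine mem_sdiff.2 ⟨hx1, fun hxz => ?_⟩
        rw [hJJ] at hJ4
        exact hJ4 (mem_nb.1 hxz).2
      have hc : (V'.filter (fun x => MReq G W cls nx Ex i v x)).card + (nb G V' (z v)).card ≤
          V'.card := by
        have h4 := card_le_card hsub
        have h5 := card_sdiff_add_card_eq_card (nb_subset (G := G) (W := V') (v := z v))
        omega
      have hc' : ((V'.filter (fun x => MReq G W cls nx Ex i v x)).card : ℝ) +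
          ((nb G V' (z v)).card : ℝ) ≤ (V'.card : ℝ) := by exact_mod_cast hc
      have hk := sameKey_of_keyf hq (hT.key v hvW _ h1 h3) i h2
      have h6 := reg_compare (G := G) (c := c i) (q := q) hV (v := v) (z := z v) (fun j => by
        rw [abs_sub_comm]
        exact hk.2 j)
      change _ ≤ err v + err (z v) + q * (V'.card : ℝ) at h6
      linarith
  have hzero : ∀ v ∈ W, v ∉ Q → max 0 (((nb G V' v).card : ℝ) +
      ((V'.filter (fun x => MReq G W cls nx Ex i v x)).card : ℝ) - (V'.card : ℝ)) = 0 := by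
    intro v hv hvQ
    have hm : V'.filter (fun x => MReq G W cls nx Ex i v x) = ∅ := by
      refine filter_eq_empty_iff.2 ?_
      intro x hx hreq
      obtain ⟨_, hadj, J, hJ1, hJ2, hJ3, _⟩ := hreq
      refine hvQ (mem_filter.2 ⟨mem_nbs.2 ⟨hv, x, hV hx, hadj.symm⟩, J, hJ1, hJ2, hJ3⟩)
    rw [hm, card_empty, Nat.cast_zero, add_zero]
    refine max_eq_left ?_
    have : ((nb G V' v).card : ℝ) ≤ (V'.card : ℝ) := by exact_mod_cast card_le_card nb_subset
    linarith
  have hQW : Q ⊆ W := fun v hv => (hJf v hv).1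
  rw [← sum_subset hQW hzero]
  have hs1 : ∑ v ∈ Q, err v ≤ ∑ y ∈ nbs G W (E i), err y :=
    sum_le_sum_of_subset_of_nonneg (filter_subset _ _) (fun y _ _ => herr0 y)
  have hs2 : ∑ v ∈ Q, err (z v) ≤ ∑ y ∈ nbs G W (E i), err y := by
    rw [← sum_image (f := err) (s := Q) (g := z) (fun v hv v' hv' h => hinj v hv v' hv' h)]
    refine sum_le_sum_of_subset_of_nonneg ?_ (fun y _ _ => herr0 y)
    intro y hy
    obtain ⟨v, hv, rfl⟩ := mem_image.1 hy
    exact hz v hv
  have hQc : (Q.card : ℝ) ≤ ((nbs G W (E i)).card : ℝ) := by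
    exact_mod_cast card_le_card (filter_subset _ _)
  have hVc : (V'.card : ℝ) ≤ ((E i).card : ℝ) := by exact_mod_cast card_le_card hV
  have hs3 : (Q.card : ℝ) * (q * (V'.card : ℝ)) ≤
      ((nbs G W (E i)).card : ℝ) * (q * ((E i).card : ℝ)) := by
    refine mul_le_mul hQc (mul_le_mul_of_nonneg_left hVc hq.le) (by positivity) (by positivity)
  calc ∑ v ∈ Q, max 0 (((nb G V' v).card : ℝ) +
        ((V'.filter (fun x => MReq G W cls nx Ex i v x)).card : ℝ) - (V'.card : ℝ))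
      ≤ ∑ v ∈ Q, (err v + err (z v) + q * (V'.card : ℝ)) := sum_le_sum hterm
    _ = ∑ v ∈ Q, err v + ∑ v ∈ Q, err (z v) + (Q.card : ℝ) * (q * (V'.card : ℝ)) := by
        rw [sum_add_distrib, sum_add_distrib, sum_const, nsmul_eq_mul]
    _ ≤ (2 * εr + q) * ((E i).card : ℝ) * ((nbs G W (E i)).card : ℝ) := by
        linarith [hs1, hs2, hs3, herr]

end Pool.Agent.LC0y
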