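import Pool.Agent.Lib_MP_0bab5c_y.WR
import Pool.Agent.Lib_MP_0bab5c_y.RQ1
import Pool.Agent.Lib_MP_0bab5c_y.RQ2
import Pool.Agent.Lib_MP_0bab5c_y.RQ3
import Pool.Agent.Lib_MP_0bab5c_y.RQ4

/-!
# The request theorem (assembly)

Choose `η, q` small with `(η + q) 16 N ≤ τ/2`, `576 N q ≤ τ^2/16`, `q ≤ τ/1000`, then `εr` with
`1152 N εr/η ≤ τ^2/16`, `εr ≤ τ/2000`; `M` from `weak_reg εr`, colourings `c i` of `E i` with respect to
`nbs G W (E i)`; `B` from `exists_twins`; `k0 ≥ 2/τ`.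
For `v ∈ W`, `J ∈ cls v`, `(v,J) ∉ Ex` choose `A` with `Cut v (nx J v) A` and `ρ_(v,J)` from `one_req`
(`sameKey_of_keyf`).  `req v x := ∑_{J ∈ cls v, (v,J) ∉ Ex, x ∈ EJ E J} ρ_(v,J) x` for `v ∈ W` and `0` otherwise: for each `x` at most
one `J` contributes (the `J` are disjoint, the homes are disjoint).  So `0 ≤ req ≤ 1`, and `req v x ≠ 0` with
`x ∈ E i` implies `MReq i v x`.
* class inequality: `one_req`, `(η+q) |EJ| + 1 ≤ (η+q) 16 N k + 1 ≤ τ k`.
* solvency: let `mr x = #{v ∈ W | MReq i v x}`, `r x = max 0 (D x + mr x - (1+σ) k)` for `x ∈ E i`.  `∑_v req v x ≤ mr x`.  For `v ∈ W`: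
`∑_x req v x r x ≤ ∑_{J ∈ cls v} ∑_{i ∈ J} ∑_{j split by A_(v,J)} ∑_{x ∈ C_j} r x ≤ ∑_i (2 (2 εr/η) 16k 18k + 36 q k 16 k) ≤
N k^2 (1152 εr/η + 576 q)` (solvency, split_few, csize).  With `Req x = ∑_v req v x`:
`min (Req x) (r x) ≤ (τ/2) k + Req x r x / ((τ/2) k)`, so
`∑_{x ∈ W} min (Req x) (r x) ≤ (τ/2) k |W| + |W| N k (1152 εr/η + 576 q)/(τ/2) ≤ τ k |W|`.
(For `x` outside all homes `Req x = 0`.)
* fixed set: `fixed_set`, `(2 εr + q) 16 k 18 k ≤ τ k^2`, and `∑_{x ∈ V'} req v x ≤ #{x ∈ V' | MReq i v x}`.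
-/

namespace Pool.Agent.LC0y

open Finset Pool.Agent.LC0bab
open scoped Classical

universe u

/-- The properties of a system of requests with error `τ`. -/
structure ReqSys {V ι : Type u} (G : SimpleGraph V) (W : Finset V) (k : ℕ) (σ τ : ℝ)
    (E : ι → Finset V) (cls : V → Finset (Finset ι)) (Cut : V → V → Finset V → Prop)
    (req : V → V → ℝ) (Ex : Finset (V × Finset ι)) : Prop where
  nonneg : ∀ v x, 0 ≤ req v x
  le_one : ∀ v x, req v x ≤ 1
  supp : ∀ v x, req v x ≠ 0 → v ∈ W ∧ G.Adj v x ∧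
    ∃ J ∈ cls v, ∃ i ∈ J, x ∈ E i ∧ ∃ z A, Cut v z A ∧ x ∈ A
  class_ineq : ∀ v ∈ W, ∀ J ∈ cls v, (v, J) ∉ Ex → ∃ z A, z ∈ W ∧ z ≠ v ∧ Cut v z A ∧
    ((nb G (EJ E J) v).card : ℝ) - ((bd G W A ∩ EJ E J).card : ℝ) ≤
      ∑ x ∈ EJ E J, req v x + τ * k
  solvent : ∑ x ∈ W, min (∑ v ∈ W, req v x)
    (max 0 (((nb G W x).card : ℝ) + ∑ v ∈ W, req v x - (1 + σ) * k)) ≤ τ * k * W.card
  fixed : ∀ i, ∀ V' ⊆ E i, ∑ v ∈ W, max 0 (((nb G V' v).card : ℝ) + ∑ x ∈ V', req v x -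
    (V'.card : ℝ)) ≤ τ * (k : ℝ) ^ 2

private theorem min_le_aux {a b s : ℝ} (ha : 0 ≤ a) (hb : 0 ≤ b) (hs : 0 < s) :
    min a b ≤ s + a * b / s := by
  rcases le_total (min a b) s with h | h
  · have h1 : 0 ≤ a * b / s := by positivity
    linarith
  · have h1 : min a b * min a b ≤ a * b :=
      mul_le_mul (min_le_left _ _) (min_le_right _ _) (le_min ha hb) ha
    have h2 : min a b * s ≤ min a b * min a b := mul_le_mul_of_nonneg_left h (le_min ha hb)
    have h3 : min a b ≤ a * b / s := by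
      rw [le_div_iff₀ hs]
      linarith
    linarith

private theorem home_unique {V ι : Type u} [Fintype ι] {G : SimpleGraph V} {W : Finset V}
    {k N B1 : ℕ} {E : ι → Finset V} {cls : V → Finset (Finset ι)}
    (hF : Frame G W k N B1 E cls) {i i' : ι} {x : V} (h : x ∈ E i) (h' : x ∈ E i') : i = i' := by
  by_contra hne
  exact disjoint_left.1 (hF.disj i i' hne) h h'

private theorem class_unique {V ι : Type u} [Fintype ι] {G : SimpleGraph V} {W : Finset V}
    {k N B1 : ℕ} {E : ι → Finset V} {cls : V → Finset (Finset ι)}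
    (hF : Frame G W k N B1 E cls) {v x : V} (hv : v ∈ W) {J J' : Finset ι}
    (hJ : J ∈ cls v) (hJ' : J' ∈ cls v) (hx : x ∈ EJ E J) (hx' : x ∈ EJ E J') : J = J' := by
  obtain ⟨i, hi, hxi⟩ := mem_EJ.1 hx
  obtain ⟨i', hi', hxi'⟩ := mem_EJ.1 hx'
  have e := home_unique hF hxi hxi'
  subst e
  by_contra hne
  exact disjoint_left.1 (hF.cdisj v hv J hJ J' hJ' hne) hi hi'

private theorem pair_bound {V ι : Type u} [Fintype ι] {G : SimpleGraph V} {W : Finset V}
    {k N B1 M : ℕ} {E : ι → Finset V} {cls : V → Finset (Finset ι)}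
    (hF : Frame G W k N B1 E cls) {c : ι → V → Fin M} {q σ εr η : ℝ} (hq : 0 < q) (hη : 0 < η)
    (hε : 0 ≤ εr) {Cut : V → V → Finset V → Prop} {nx : Finset ι → V → V}
    {Ex : Finset (V × Finset ι)} (hT : Twins G W E c q cls Cut nx Ex) {A : Finset V}
    (hA : A ⊆ W) (hbd : ((bd G W A).card : ℝ) ≤ (1 + σ) * k)
    (hreg : ∀ i, WReg G εr (E i) (nbs G W (E i)) (c i)) {J : Finset ι} {ρ r : V → ℝ}
    (hρ1 : ∀ x, ρ x ≤ 1) (hr0 : ∀ x, 0 ≤ r x)
    (hρ : ∀ x, ρ x ≠ 0 → ∃ i ∈ J, ∃ j, x ∈ cell (E i) (c i) j ∧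
      Split G W η A (cell (E i) (c i) j))
    (hr : ∀ i, ∀ x ∈ E i, r x ≤ max 0 (((nb G W x).card : ℝ) +
        ((W.filter (fun v => MReq G W cls nx Ex i v x)).card : ℝ) - (1 + σ) * k)) :
    ∑ x ∈ EJ E J, ρ x * r x ≤ (J.card : ℝ) * ((1152 * εr / η + 576 * q) * (k : ℝ) ^ 2) := by
  have hcell : ∀ i ∈ J, ∑ x ∈ E i, ρ x * r x ≤ (1152 * εr / η + 576 * q) * (k : ℝ) ^ 2 := by
    intro i _
    rw [← sum_cell (E i) (c i) (fun x => ρ x * r x)]
    have h0 : ∀ j ∈ (univ : Finset (Fin M)),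
        j ∉ univ.filter (fun j : Fin M => Split G W η A (cell (E i) (c i) j)) →
        ∑ x ∈ cell (E i) (c i) j, ρ x * r x = 0 := by
      intro j _ hj
      refine sum_eq_zero ?_
      intro x hx
      have hρx : ρ x = 0 := by
        by_contra hne
        obtain ⟨i', _, j', hx', hs⟩ := hρ x hne
        have hxi := mem_cell.1 hx
        have hxi' := mem_cell.1 hx'
        have e := home_unique hF hxi.1 hxi'.1
        subst e
        have e' : j = j' := hxi.2.symm.trans hxi'.2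
        subst e'
        exact hj (mem_filter.2 ⟨mem_univ _, hs⟩)
      rw [hρx, zero_mul]
    rw [← sum_subset (filter_subset _ _) h0]
    have h1 : ∀ j ∈ univ.filter (fun j : Fin M => Split G W η A (cell (E i) (c i) j)),
        ∑ x ∈ cell (E i) (c i) j, ρ x * r x ≤
          2 * (ee G (cell (E i) (c i) j) (W \ bd G W A) : ℝ) +
            36 * q * k * ((cell (E i) (c i) j).card : ℝ) := by
      intro j _
      refine le_trans (sum_le_sum ?_) (solvency hF hq hT hA hbd i j)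
      intro x hx
      have h2 : ρ x * r x ≤ r x := by
        have := mul_le_mul_of_nonneg_right (hρ1 x) (hr0 x)
        linarith
      exact h2.trans (hr i x (mem_cell.1 hx).1)
    refine (sum_le_sum h1).trans ?_
    rw [sum_add_distrib, ← mul_sum, ← mul_sum]
    have h2 := split_few (G := G) (W := W) (hF.sub i) hη (hreg i) hA
    have h3 : ∑ j ∈ univ.filter (fun j : Fin M => Split G W η A (cell (E i) (c i) j)),
        ((cell (E i) (c i) j).card : ℝ) ≤ ((E i).card : ℝ) := by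
      rw [← card_cell (E i) (c i)]
      exact sum_le_sum_of_subset_of_nonneg (filter_subset _ _) (fun _ _ _ => Nat.cast_nonneg _)
    have h4 : ((E i).card : ℝ) ≤ 16 * k := by exact_mod_cast hF.cardE i
    have h5 : ((nbs G W (E i)).card : ℝ) ≤ 18 * k := by exact_mod_cast hF.cardN i
    have hk0 : (0 : ℝ) ≤ k := Nat.cast_nonneg _
    have h6 : ((E i).card : ℝ) * ((nbs G W (E i)).card : ℝ) ≤ (16 * k) * (18 * k) :=
      mul_le_mul h4 h5 (Nat.cast_nonneg _) (by positivity)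
    have h7 : 2 * εr / η * ((E i).card : ℝ) * ((nbs G W (E i)).card : ℝ) ≤
        2 * εr / η * ((16 * k) * (18 * k)) := by
      rw [mul_assoc]
      exact mul_le_mul_of_nonneg_left h6 (by positivity)
    have h8 : 36 * q * k * ∑ j ∈ univ.filter
        (fun j : Fin M => Split G W η A (cell (E i) (c i) j)), ((cell (E i) (c i) j).card : ℝ) ≤
        36 * q * k * (16 * k) :=
      mul_le_mul_of_nonneg_left (h3.trans h4) (by positivity)
    have h9 : 2 * (2 * εr / η * ((16 * k) * (18 * k))) + 36 * q * k * (16 * k) =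
        (1152 * εr / η + 576 * q) * (k : ℝ) ^ 2 := by
      ring
    linarith
  have hdis : (J : Set ι).PairwiseDisjoint E := by
    intro i _ j _ hij
    exact hF.disj i j hij
  unfold EJ
  rw [sum_biUnion hdis]
  refine (sum_le_sum hcell).trans ?_
  rw [sum_const, nsmul_eq_mul]

theorem req_main (N B1 : ℕ) (σ τ : ℝ) (hσ0 : 0 ≤ σ) (hσ1 : σ ≤ 1) (hτ : 0 < τ) :
    ∃ B k0 : ℕ, ∀ k : ℕ, k0 ≤ k → ∀ (V ι : Type u) [Fintype ι] (G : SimpleGraph V)
    (W : Finset V) (E : ι → Finset V) (cls : V → Finset (Finset ι))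
    (Cut : V → V → Finset V → Prop), Frame G W k N B1 E cls → CutSys G W k σ Cut →
    ∃ (req : V → V → ℝ) (Ex : Finset (V × Finset ι)),
      ReqSys G W k σ τ E cls Cut req Ex ∧ Ex.card ≤ B * Fintype.card ι := by
  have hN : (0 : ℝ) ≤ (N : ℝ) := Nat.cast_nonneg N
  -- parameters
  obtain ⟨q, hq, hq1, hq2, hq3⟩ : ∃ q : ℝ, 0 < q ∧ q * (16 * N) ≤ τ / 4 ∧
      576 * N * q ≤ τ ^ 2 / 16 ∧ q ≤ τ / 1000 := by
    refine ⟨min (τ / (64 * (N + 1))) (min (τ ^ 2 / (9216 * (N + 1))) (τ / 1000)), ?_, ?_, ?_, ?_⟩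
    · have h1 : 0 < τ / (64 * ((N : ℝ) + 1)) := by positivity
      have h2 : 0 < τ ^ 2 / (9216 * ((N : ℝ) + 1)) := by positivity
      have h3 : 0 < τ / 1000 := by positivity
      exact lt_min h1 (lt_min h2 h3)
    · have h1 := min_le_left (τ / (64 * ((N : ℝ) + 1)))
        (min (τ ^ 2 / (9216 * ((N : ℝ) + 1))) (τ / 1000))
      have h2 : τ / (64 * ((N : ℝ) + 1)) * (16 * N) ≤ τ / 4 := by
        rw [div_mul_eq_mul_div, div_le_iff₀ (by positivity)]
        nlinarith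
      exact (mul_le_mul_of_nonneg_right h1 (by positivity)).trans h2
    · have h1 := (min_le_right (τ / (64 * ((N : ℝ) + 1)))
        (min (τ ^ 2 / (9216 * ((N : ℝ) + 1))) (τ / 1000))).trans (min_le_left _ _)
      have h2 : 576 * N * (τ ^ 2 / (9216 * ((N : ℝ) + 1))) ≤ τ ^ 2 / 16 := by
        rw [mul_div_assoc', div_le_iff₀ (by positivity)]
        nlinarith [sq_nonneg τ]
      exact (mul_le_mul_of_nonneg_left h1 (by positivity)).trans h2
    · exact (min_le_right _ _).trans (min_le_right _ _)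
  obtain ⟨η, hη, hη1⟩ : ∃ η : ℝ, 0 < η ∧ η * (16 * N) ≤ τ / 4 := by
    refine ⟨τ / (64 * (N + 1)), by positivity, ?_⟩
    rw [div_mul_eq_mul_div, div_le_iff₀ (by positivity)]
    nlinarith
  obtain ⟨εr, hε, hε1, hε2⟩ : ∃ εr : ℝ, 0 < εr ∧ N * (1152 * εr / η) ≤ τ ^ 2 / 16 ∧
      εr ≤ τ / 2000 := by
    refine ⟨min (τ ^ 2 * η / (18432 * (N + 1))) (τ / 2000), ?_, ?_, min_le_right _ _⟩
    · have h1 : 0 < τ ^ 2 * η / (18432 * ((N : ℝ) + 1)) := by positivity
      have h3 : 0 < τ / 2000 := by positivity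
      exact lt_min h1 h3
    · have h1 := min_le_left (τ ^ 2 * η / (18432 * ((N : ℝ) + 1))) (τ / 2000)
      have h2 : (N : ℝ) * (1152 * min (τ ^ 2 * η / (18432 * ((N : ℝ) + 1))) (τ / 2000) / η) ≤
          N * (1152 * (τ ^ 2 * η / (18432 * ((N : ℝ) + 1))) / η) := by
        refine mul_le_mul_of_nonneg_left ?_ hN
        exact div_le_div_of_nonneg_right (mul_le_mul_of_nonneg_left h1 (by norm_num)) hη.le
      refine h2.trans ?_
      have h3 : (N : ℝ) * (1152 * (τ ^ 2 * η / (18432 * ((N : ℝ) + 1))) / η) =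
          (N * τ ^ 2) / (16 * ((N : ℝ) + 1)) := by
        field_simp
        ring
      rw [h3, div_le_iff₀ (by positivity)]
      nlinarith [sq_nonneg τ]
  obtain ⟨M, _, hM⟩ := weak_reg.{u} εr hε
  obtain ⟨B, hB⟩ := exists_twins.{u} N B1 M q hq
  refine ⟨B, ⌈2 / τ⌉₊, ?_⟩
  intro k hk V ι _ G W E cls Cut hF hC
  have hk1 : 2 / τ ≤ (k : ℝ) := (Nat.le_ceil _).trans (by exact_mod_cast hk)
  have hkτ : 2 ≤ τ * k := by
    rw [div_le_iff₀ hτ] at hk1
    linarith
  have hkpos : (0 : ℝ) < k := by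
    by_contra hneg
    have hk0 : (k : ℝ) ≤ 0 := not_lt.1 hneg
    nlinarith
  choose c hreg using fun i : ι => hM V G (E i) (nbs G W (E i))
  obtain ⟨nx, Ex, hT, hExc⟩ := hB V ι G W k σ E cls c Cut hF hC
  have hone : ∀ (v : V) (J : Finset ι), ∃ (A : Finset V) (ρ : V → ℝ),
      v ∈ W → J ∈ cls v → (v, J) ∉ Ex → Cut v (nx J v) A ∧ (∀ x, 0 ≤ ρ x) ∧ (∀ x, ρ x ≤ 1) ∧
      (∀ x, ρ x ≠ 0 → x ∈ A ∧ G.Adj v x ∧ ¬ G.Adj (nx J v) x ∧
        ∃ i ∈ J, ∃ j, x ∈ cell (E i) (c i) j ∧ Split G W η A (cell (E i) (c i) j)) ∧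
      ((nb G (EJ E J) v).card : ℝ) - ((bd G W A ∩ EJ E J).card : ℝ) ≤
        ∑ x ∈ EJ E J, ρ x + (η + q) * ((EJ E J).card : ℝ) + 1 := by
    intro v J
    by_cases h : v ∈ W ∧ J ∈ cls v ∧ (v, J) ∉ Ex
    · obtain ⟨A, hA⟩ := hT.cut v h.1 J h.2.1 h.2.2
      obtain ⟨ρ, hρ⟩ := one_req (η := η) hF.sub hF.disj c hq.le hη.le J (hC.sep _ _ _ hA)
        (hT.mem v h.1 J h.2.1 h.2.2).1 (sameKey_of_keyf hq (hT.key v h.1 J h.2.1 h.2.2).symm)
      exact ⟨A, ρ, fun _ _ _ => ⟨hA, hρ⟩⟩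
    · exact ⟨∅, fun _ => 0, fun h1 h2 h3 => absurd ⟨h1, h2, h3⟩ h⟩
  choose A ρ hA using hone
  -- the requests
  set req : V → V → ℝ := fun v x => if v ∈ W then
    ∑ J ∈ (cls v).filter (fun J => (v, J) ∉ Ex), (if x ∈ EJ E J then ρ v J x else 0) else 0
    with hreq
  have hreqW : ∀ v ∈ W, ∀ x, req v x =
      ∑ J ∈ (cls v).filter (fun J => (v, J) ∉ Ex), (if x ∈ EJ E J then ρ v J x else 0) := by
    intro v hv x
    simp only [hreq, if_pos hv]
  have hR1 : ∀ v ∈ W, ∀ J ∈ cls v, (v, J) ∉ Ex → ∀ x ∈ EJ E J, req v x = ρ v J x := by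
    intro v hv J hJ hEx x hx
    rw [hreqW v hv x, sum_eq_single J]
    · rw [if_pos hx]
    · intro J' hJ' hne
      have hJ'' := (mem_filter.1 hJ').1
      rw [if_neg]
      intro hx'
      exact hne (class_unique hF hv hJ'' hJ hx' hx)
    · intro hno
      exact absurd (mem_filter.2 ⟨hJ, hEx⟩) hno
  have hR2 : ∀ v x, req v x ≠ 0 → v ∈ W ∧ ∃ J ∈ cls v, (v, J) ∉ Ex ∧ x ∈ EJ E J ∧
      req v x = ρ v J x := by
    intro v x hne
    have hv : v ∈ W := by
      by_contra hv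
      apply hne
      simp only [hreq, if_neg hv]
    have h1 := hne
    rw [hreqW v hv x] at h1
    obtain ⟨J, hJ, hJne⟩ := exists_ne_zero_of_sum_ne_zero h1
    have hJ' := mem_filter.1 hJ
    have hx : x ∈ EJ E J := by
      by_contra hx
      exact hJne (if_neg hx)
    exact ⟨hv, J, hJ'.1, hJ'.2, hx, hR1 v hv J hJ'.1 hJ'.2 x hx⟩
  have hnonneg : ∀ v x, 0 ≤ req v x := by
    intro v x
    by_cases h : req v x = 0
    · rw [h]
    · obtain ⟨hv, J, hJ, hEx, hx, he⟩ := hR2 v x h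
      rw [he]
      exact (hA v J hv hJ hEx).2.1 x
  have hle1 : ∀ v x, req v x ≤ 1 := by
    intro v x
    by_cases h : req v x = 0
    · rw [h]
      norm_num
    · obtain ⟨hv, J, hJ, hEx, hx, he⟩ := hR2 v x h
      rw [he]
      exact (hA v J hv hJ hEx).2.2.1 x
  have hsupp : ∀ v x, req v x ≠ 0 → ∀ i, x ∈ E i → MReq G W cls nx Ex i v x := by
    intro v x h i hxi
    obtain ⟨hv, J, hJ, hEx, hx, he⟩ := hR2 v x h
    rw [he] at h
    obtain ⟨_, h2, h3, _⟩ := (hA v J hv hJ hEx).2.2.2.1 x h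
    obtain ⟨i', hi', hxi'⟩ := mem_EJ.1 hx
    have e := home_unique hF hxi hxi'
    subst e
    exact ⟨hv, h2, J, hJ, hi', hEx, h3⟩
  have hJN : ∀ v ∈ W, ∀ J ∈ cls v, (J.card : ℝ) ≤ N := by
    intro v hv J hJ
    have h1 := (single_le_sum (f := fun J : Finset ι => J.card) (fun _ _ => Nat.zero_le _) hJ).trans
      (hF.csize v hv)
    exact_mod_cast h1
  have hEJc : ∀ J : Finset ι, ((EJ E J).card : ℝ) ≤ J.card * (16 * k) := by
    intro J
    have h1 : (EJ E J).card ≤ ∑ i ∈ J, (E i).card := card_biUnion_le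
    have h2 : ∑ i ∈ J, (E i).card ≤ J.card • (16 * k) := sum_le_card_nsmul _ _ _
      (fun i _ => hF.cardE i)
    rw [smul_eq_mul] at h2
    exact_mod_cast h1.trans h2
  refine ⟨req, Ex, ⟨hnonneg, hle1, ?_, ?_, ?_, ?_⟩, hExc⟩
  · -- support
    intro v x h
    obtain ⟨hv, J, hJ, hEx, hx, he⟩ := hR2 v x h
    rw [he] at h
    obtain ⟨h1, h2, h3, i, hi, j, hxj, _⟩ := (hA v J hv hJ hEx).2.2.2.1 x h
    exact ⟨hv, h2, J, hJ, i, hi, (mem_cell.1 hxj).1, nx J v, A v J, (hA v J hv hJ hEx).1, h1⟩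
  · -- class inequality
    intro v hv J hJ hEx
    obtain ⟨h1, h2, h3, h4, h5⟩ := hA v J hv hJ hEx
    obtain ⟨m1, m2, m3⟩ := hT.mem v hv J hJ hEx
    refine ⟨nx J v, A v J, m1, m3, h1, ?_⟩
    have hsum : ∑ x ∈ EJ E J, req v x = ∑ x ∈ EJ E J, ρ v J x :=
      sum_congr rfl (fun x hx => hR1 v hv J hJ hEx x hx)
    rw [hsum]
    have hJn := hJN v hv J hJ
    have hEc := hEJc J
    have h6 : ((EJ E J).card : ℝ) ≤ (16 * N) * k := by
      have : (J.card : ℝ) * (16 * k) ≤ N * (16 * k) :=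
        mul_le_mul_of_nonneg_right hJn (by positivity)
      linarith
    have h7 : (η + q) * ((EJ E J).card : ℝ) ≤ (η + q) * ((16 * N) * k) :=
      mul_le_mul_of_nonneg_left h6 (by positivity)
    have h8 : (η + q) * ((16 * N) * k) = (η * (16 * N) + q * (16 * N)) * k := by ring
    have h9 : (η * (16 * N) + q * (16 * N)) * k ≤ (τ / 2) * k :=
      mul_le_mul_of_nonneg_right (by linarith) hkpos.le
    linarith
  · -- solvency
    set r : V → ℝ := fun x => max 0 (((nb G W x).card : ℝ) + ∑ v ∈ W, req v x - (1 + σ) * k)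
      with hr
    have hr0 : ∀ x, 0 ≤ r x := fun x => le_max_left _ _
    have hRq0 : ∀ x, 0 ≤ ∑ v ∈ W, req v x := fun x => sum_nonneg (fun v _ => hnonneg v x)
    have hrle : ∀ i, ∀ x ∈ E i, r x ≤ max 0 (((nb G W x).card : ℝ) +
        ((W.filter (fun v => MReq G W cls nx Ex i v x)).card : ℝ) - (1 + σ) * k) := by
      intro i x hx
      have h1 : ∑ v ∈ W, req v x ≤ ((W.filter (fun v => MReq G W cls nx Ex i v x)).card : ℝ) := by
        rw [card_filter]
        push_cast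
        refine sum_le_sum ?_
        intro v _
        by_cases h : req v x = 0
        · rw [h]
          split_ifs <;> norm_num
        · rw [if_pos (hsupp v x h i hx)]
          exact hle1 v x
      exact max_le_max le_rfl (by linarith)
    set K : ℝ := (1152 * εr / η + 576 * q) * (k : ℝ) ^ 2 with hK
    have hK0 : 0 ≤ K := by positivity
    have hv : ∀ v ∈ W, ∑ x ∈ W, req v x * r x ≤ N * K := by
      intro v hv
      have h1 : ∑ x ∈ W, req v x * r x =
          ∑ J ∈ (cls v).filter (fun J => (v, J) ∉ Ex), ∑ x ∈ EJ E J, ρ v J x * r x := by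
        have h2 : ∀ x ∈ W, req v x * r x = ∑ J ∈ (cls v).filter (fun J => (v, J) ∉ Ex),
            (if x ∈ EJ E J then ρ v J x * r x else 0) := by
          intro x _
          rw [hreqW v hv x, sum_mul]
          refine sum_congr rfl ?_
          intro J _
          split_ifs <;> simp
        rw [sum_congr rfl h2, sum_comm]
        refine sum_congr rfl ?_
        intro J _
        rw [← sum_filter]
        refine sum_congr ?_ (fun _ _ => rfl)
        ext x
        rw [mem_filter]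
        constructor
        · exact fun h => h.2
        · intro h
          obtain ⟨i, _, hxi⟩ := mem_EJ.1 h
          exact ⟨hF.sub i hxi, h⟩
      rw [h1]
      have h3 : ∀ J ∈ (cls v).filter (fun J => (v, J) ∉ Ex),
          ∑ x ∈ EJ E J, ρ v J x * r x ≤ (J.card : ℝ) * K := by
        intro J hJ
        have hJ' := mem_filter.1 hJ
        obtain ⟨p1, p2, p3, p4, p5⟩ := hA v J hv hJ'.1 hJ'.2
        exact pair_bound hF hq hη hε.le hT (hC.sep _ _ _ p1).sub (hC.small _ _ _ p1) hreg p3 hr0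
          (fun x hx => (p4 x hx).2.2.2) hrle
      refine (sum_le_sum h3).trans ?_
      rw [← sum_mul]
      refine mul_le_mul_of_nonneg_right ?_ hK0
      have h4 : ∑ J ∈ (cls v).filter (fun J => (v, J) ∉ Ex), (J.card : ℝ) ≤
          ∑ J ∈ cls v, (J.card : ℝ) :=
        sum_le_sum_of_subset_of_nonneg (filter_subset _ _) (fun _ _ _ => Nat.cast_nonneg _)
      have h5 : ∑ J ∈ cls v, (J.card : ℝ) ≤ N := by exact_mod_cast hF.csize v hv
      exact h4.trans h5
    have hs : 0 < τ / 2 * k := by positivity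
    have hmin : ∀ x ∈ W, min (∑ v ∈ W, req v x) (r x) ≤
        τ / 2 * k + (∑ v ∈ W, req v x) * r x / (τ / 2 * k) :=
      fun x _ => min_le_aux (hRq0 x) (hr0 x) hs
    refine (sum_le_sum hmin).trans ?_
    rw [sum_add_distrib, ← sum_div, sum_const, nsmul_eq_mul]
    have h6 : ∑ x ∈ W, (∑ v ∈ W, req v x) * r x ≤ (W.card : ℝ) * (N * K) := by
      have h7 : ∑ x ∈ W, (∑ v ∈ W, req v x) * r x = ∑ v ∈ W, ∑ x ∈ W, req v x * r x := by
        rw [sum_comm]
        refine sum_congr rfl ?_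
        intro x _
        rw [sum_mul]
      rw [h7]
      refine (sum_le_sum hv).trans ?_
      rw [sum_const, nsmul_eq_mul]
    have h8 : (∑ x ∈ W, (∑ v ∈ W, req v x) * r x) / (τ / 2 * k) ≤ τ / 2 * k * W.card := by
      rw [div_le_iff₀ hs]
      refine h6.trans ?_
      have h9 : (N : ℝ) * K ≤ (τ ^ 2 / 8) * (k : ℝ) ^ 2 := by
        have e : (N : ℝ) * K = (N * (1152 * εr / η) + 576 * N * q) * (k : ℝ) ^ 2 := by
          rw [hK]
          ring
        rw [e]
        exact mul_le_mul_of_nonneg_right (by linarith) (by positivity)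
      have h10 : (W.card : ℝ) * (N * K) ≤ W.card * ((τ ^ 2 / 8) * (k : ℝ) ^ 2) :=
        mul_le_mul_of_nonneg_left h9 (Nat.cast_nonneg _)
      have h11 : τ / 2 * k * W.card * (τ / 2 * k) = W.card * ((τ ^ 2 / 4) * (k : ℝ) ^ 2) := by
        ring
      rw [h11]
      refine h10.trans (mul_le_mul_of_nonneg_left ?_ (Nat.cast_nonneg _))
      have h12 : 0 ≤ τ ^ 2 * (k : ℝ) ^ 2 := by positivity
      linarith
    have h13 : (W.card : ℝ) * (τ / 2 * k) = τ / 2 * k * W.card := by ring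
    rw [h13]
    linarith
  · -- fixed sets
    intro i V' hV'
    have h1 : ∀ v ∈ W, max 0 (((nb G V' v).card : ℝ) + ∑ x ∈ V', req v x - (V'.card : ℝ)) ≤
        max 0 (((nb G V' v).card : ℝ) +
        ((V'.filter (fun x => MReq G W cls nx Ex i v x)).card : ℝ) - (V'.card : ℝ)) := by
      intro v _
      have h2 : ∑ x ∈ V', req v x ≤ ((V'.filter (fun x => MReq G W cls nx Ex i v x)).card : ℝ) := by
        rw [card_filter]
        push_cast
        refine sum_le_sum ?_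
        intro x hx
        by_cases h : req v x = 0
        · rw [h]
          split_ifs <;> norm_num
        · rw [if_pos (hsupp v x h i (hV' hx))]
          exact hle1 v x
      exact max_le_max le_rfl (by linarith)
    refine (sum_le_sum h1).trans ?_
    refine (fixed_set hF hq hT (hreg i) hV').trans ?_
    have h4 : ((E i).card : ℝ) ≤ 16 * k := by exact_mod_cast hF.cardE i
    have h5 : ((nbs G W (E i)).card : ℝ) ≤ 18 * k := by exact_mod_cast hF.cardN i
    have h6 : ((E i).card : ℝ) * ((nbs G W (E i)).card : ℝ) ≤ (16 * k) * (18 * k) :=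
      mul_le_mul h4 h5 (Nat.cast_nonneg _) (by positivity)
    rw [mul_assoc]
    refine (mul_le_mul_of_nonneg_left h6 (by positivity)).trans ?_
    have h7 : (2 * εr + q) * (16 * (k : ℝ) * (18 * k)) = (288 * (2 * εr + q)) * (k : ℝ) ^ 2 := by
      ring
    rw [h7]
    refine mul_le_mul_of_nonneg_right ?_ (by positivity)
    linarith

end Pool.Agent.LC0y
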