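import Pool.Agent.Lib_MP_0bab5c_y.SB0

/-! # Separation of the classes (proof in the docstring of SB0.lean) -/

namespace Pool.Agent.LC0y

open Finset Pool.Agent.LC0bab
open scoped Classical

universe u

private theorem hub_cov {V ι : Type u} {G : SimpleGraph V} {W : Finset V} {k : ℕ}
    {θ δ0 : ℝ} {E : ι → Finset V} {Q : V → Finset V} (hB : QBd G W k θ δ0 E Q)
    {u : V} (hu : u ∈ W) : ∃ Hb : Finset V, (Hb.card : ℝ) ≤ δ0 * k ∧
      ∀ y ∈ Q u, (∀ i, y ∉ E i) → y ∈ Hb :=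
  ⟨_, hB.hub u hu, fun _ h1 h2 => mem_filter.2 ⟨h1, h2⟩⟩

theorem cls_sep {V ι : Type u} [Fintype ι] {G : SimpleGraph V} {W : Finset V} {k N B1 : ℕ}
    {θ δ δ0 : ℝ} {E : ι → Finset V} {Q : V → Finset V} {cls : V → Finset (Finset ι)}
    (hQ : QSys G W θ Q) (hB : QBd G W k θ δ0 E Q) (hF : Frame G W k N B1 E cls)
    (hS : ClsSys G W k δ E Q cls) (hδ0 : 0 ≤ δ0) (hδ : 0 ≤ δ) (hNδ : (N : ℝ) ^ 2 * δ ≤ δ0)
    {u : V} (hu : u ∈ W) (hun : ∀ i, u ∉ E i) :
    ∑ J ∈ cls u, ((bd G W (ZZ E Q u J)).card : ℝ) + ((RR G W E Q cls u).card : ℝ) ≤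
      ((bd G W (Q u)).card : ℝ) + (2 + ((cls u).card : ℝ)) * δ0 * k := by
  have hk0 : (0 : ℝ) ≤ (k : ℝ) := Nat.cast_nonneg k
  obtain ⟨X, hX⟩ : ∃ X : ι → Finset V, ∀ i, X i = E i ∪ nbs G W (E i) := ⟨_, fun i => rfl⟩
  obtain ⟨BB, hBB⟩ : ∃ BB : Finset ι → Finset ι → Finset V, ∀ J J', BB J J' =
      if J = J' then ∅ else J.biUnion (fun i => J'.biUnion (fun i' => X i ∩ X i')) :=
    ⟨_, fun J J' => rfl⟩
  have hS1 : ∑ J ∈ cls u, ∑ J' ∈ cls u, ((BB J J').card : ℝ) ≤ δ0 * k := by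
    have h1 : ∀ J ∈ cls u, ∀ J' ∈ cls u,
        ((BB J J').card : ℝ) ≤ (J.card : ℝ) * (J'.card : ℝ) * (δ * k) := by
      intro J hJ J' hJ'
      rw [hBB]
      by_cases h : J = J'
      · rw [if_pos h]
        simp only [card_empty, Nat.cast_zero]
        positivity
      · rw [if_neg h]
        have e1 : ((J.biUnion (fun i => J'.biUnion (fun i' => X i ∩ X i'))).card : ℝ) ≤
            ∑ i ∈ J, ∑ i' ∈ J', ((X i ∩ X i').card : ℝ) := by
          have := (card_biUnion_le (s := J) (t := fun i => J'.biUnion (fun i' => X i ∩ X i'))).trans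
            (sum_le_sum (fun i _ => card_biUnion_le))
          exact_mod_cast this
        refine e1.trans ?_
        calc ∑ i ∈ J, ∑ i' ∈ J', ((X i ∩ X i').card : ℝ) ≤ ∑ i ∈ J, ∑ i' ∈ J', (δ * k) := by
              refine sum_le_sum (fun i hi => sum_le_sum (fun i' hi' => ?_))
              rw [hX, hX]
              exact hS.far u hu hun J hJ J' hJ' h i hi i' hi'
          _ = (J.card : ℝ) * (J'.card : ℝ) * (δ * k) := by
              rw [sum_const, sum_const, nsmul_eq_mul, nsmul_eq_mul]; ring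
    have h2 : ∑ J ∈ cls u, (J.card : ℝ) ≤ (N : ℝ) := by
      exact_mod_cast hF.csize u hu
    have h3 : (0 : ℝ) ≤ ∑ J ∈ cls u, (J.card : ℝ) := sum_nonneg (fun _ _ => Nat.cast_nonneg _)
    calc ∑ J ∈ cls u, ∑ J' ∈ cls u, ((BB J J').card : ℝ)
        ≤ ∑ J ∈ cls u, ∑ J' ∈ cls u, (J.card : ℝ) * (J'.card : ℝ) * (δ * k) :=
          sum_le_sum (fun J hJ => sum_le_sum (h1 J hJ))
      _ = (∑ J ∈ cls u, (J.card : ℝ)) * (∑ J' ∈ cls u, (J'.card : ℝ)) * (δ * k) := by
          rw [sum_mul_sum, sum_mul]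
          refine sum_congr rfl (fun J _ => ?_)
          rw [sum_mul]
      _ ≤ ((N : ℝ) * N) * (δ * k) := by
          refine mul_le_mul_of_nonneg_right (mul_le_mul h2 h2 h3 (Nat.cast_nonneg _)) (by positivity)
      _ = ((N : ℝ) ^ 2 * δ) * k := by ring
      _ ≤ δ0 * k := mul_le_mul_of_nonneg_right hNδ hk0
  -- membership in the boundary of two classes
  have hz : ∀ J y, y ∈ bd G W (ZZ E Q u J) → y ∈ W ∧ ∃ i ∈ J, y ∈ nbs G W (E i) := by
    intro J y hy
    obtain ⟨hyW, -, a, ha, hay⟩ := mem_bd.1 hy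
    obtain ⟨i, hi, hai⟩ := mem_EJ.1 (mem_inter.1 ha).2
    exact ⟨hyW, i, hi, mem_nbs.2 ⟨hyW, a, hai, hay⟩⟩
  have hbb : ∀ J J' y, J ≠ J' → y ∈ bd G W (ZZ E Q u J) → y ∈ bd G W (ZZ E Q u J') →
      y ∈ BB J J' := by
    intro J J' y hne h1 h2
    obtain ⟨-, i, hi, hyi⟩ := hz J y h1
    obtain ⟨-, i', hi', hyi'⟩ := hz J' y h2
    rw [hBB, if_neg hne]
    refine mem_biUnion.2 ⟨i, hi, mem_biUnion.2 ⟨i', hi', mem_inter.2 ⟨?_, ?_⟩⟩⟩
    · rw [hX]; exact mem_union_right _ hyi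
    · rw [hX]; exact mem_union_right _ hyi'
  obtain ⟨Hb, hHb, hHb'⟩ : ∃ Hb : Finset V, (Hb.card : ℝ) ≤ δ0 * k ∧
      ∀ y ∈ Q u, (∀ i, y ∉ E i) → y ∈ Hb :=
    hub_cov hB hu
  -- splitting of one boundary
  have hone : ∀ J ∈ cls u, ((bd G W (ZZ E Q u J)).card : ℝ) ≤
      ((bd G W (ZZ E Q u J) ∩ bd G W (Q u)).card : ℝ) + δ0 * k +
        ∑ J' ∈ cls u, ((BB J J').card : ℝ) := by
    intro J hJ
    have hsub : bd G W (ZZ E Q u J) ⊆ ((bd G W (ZZ E Q u J) ∩ bd G W (Q u)) ∪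
        Hb) ∪ (cls u).biUnion (fun J' => BB J J') := by
      intro y hy
      obtain ⟨hyW, hyZ, a, ha, hay⟩ := mem_bd.1 hy
      have haQ : a ∈ Q u := (mem_inter.1 ha).1
      by_cases hyQ : y ∈ Q u
      · by_cases hyE : ∀ i, y ∉ E i
        · exact mem_union_left _ (mem_union_right _ (hHb' y hyQ hyE))
        · push Not at hyE
          obtain ⟨i', hyi'⟩ := hyE
          obtain ⟨J', hJ', hiJ'⟩ := hS.all u hu hun i' ⟨y, mem_inter.2 ⟨hyQ, hyi'⟩⟩
          have hne : J ≠ J' := by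
            rintro rfl
            exact hyZ (mem_inter.2 ⟨hyQ, mem_EJ.2 ⟨i', hiJ', hyi'⟩⟩)
          obtain ⟨-, i, hi, hyi⟩ := hz J y hy
          refine mem_union_right _ (mem_biUnion.2 ⟨J', hJ', ?_⟩)
          rw [hBB, if_neg hne]
          refine mem_biUnion.2 ⟨i, hi, mem_biUnion.2 ⟨i', hiJ', mem_inter.2 ⟨?_, ?_⟩⟩⟩
          · rw [hX]; exact mem_union_right _ hyi
          · rw [hX]; exact mem_union_left _ hyi'
      · exact mem_union_left _ (mem_union_left _ (mem_inter.2 ⟨hy, mem_bd.2 ⟨hyW, hyQ, a, haQ, hay⟩⟩))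
    have h1 := card_le_card hsub
    have h2 := h1.trans ((card_union_le _ _).trans (Nat.add_le_add (card_union_le _ _) card_biUnion_le))
    have h3 : ((bd G W (ZZ E Q u J)).card : ℝ) ≤
        ((bd G W (ZZ E Q u J) ∩ bd G W (Q u)).card : ℝ) +
          (Hb.card : ℝ) +
          ∑ J' ∈ cls u, ((BB J J').card : ℝ) := by exact_mod_cast h2
    linarith
  -- counting the vertices of the boundary of the region
  obtain ⟨U, hU⟩ : ∃ U, U = (cls u).biUnion (fun J => bd G W (ZZ E Q u J)) := ⟨_, rfl⟩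
  have hcount : ∑ J ∈ cls u, ((bd G W (ZZ E Q u J) ∩ bd G W (Q u)).card : ℝ) ≤
      ((bd G W (Q u) ∩ U).card : ℝ) + ∑ J ∈ cls u, ∑ J' ∈ cls u, ((BB J J').card : ℝ) := by
    have hN : ∑ J ∈ cls u, (bd G W (ZZ E Q u J) ∩ bd G W (Q u)).card ≤
        (bd G W (Q u) ∩ U).card + ∑ J ∈ cls u, ∑ J' ∈ cls u, (BB J J').card := by
      have e1 : ∀ J ∈ cls u, (bd G W (ZZ E Q u J) ∩ bd G W (Q u)).card =
          ∑ y ∈ bd G W (Q u), (if y ∈ bd G W (ZZ E Q u J) then 1 else 0) := by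
        intro J _
        rw [inter_comm, ← filter_mem_eq_inter, card_filter]
      rw [sum_congr rfl e1, sum_comm]
      have e2 : ∀ y ∈ bd G W (Q u), ∑ J ∈ cls u, (if y ∈ bd G W (ZZ E Q u J) then 1 else 0) ≤
          (if y ∈ U then 1 else 0) + ∑ J ∈ cls u, ∑ J' ∈ cls u, (if y ∈ BB J J' then 1 else 0) := by
        intro y _
        by_cases hyU : y ∈ U
        · rw [if_pos hyU]
          rw [hU] at hyU
          obtain ⟨J0, hJ0, hy0⟩ := mem_biUnion.1 hyU
          have f1 : ∀ J ∈ cls u, (if y ∈ bd G W (ZZ E Q u J) then 1 else 0) ≤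
              (if J = J0 then 1 else 0) + (if y ∈ BB J J0 then 1 else 0) := by
            intro J _
            by_cases hJJ : J = J0
            · rw [if_pos hJJ]; split_ifs <;> omega
            · by_cases hyJ : y ∈ bd G W (ZZ E Q u J)
              · rw [if_pos (hbb J J0 y hJJ hyJ hy0)]
                split_ifs <;> omega
              · rw [if_neg hyJ]; omega
          refine (sum_le_sum f1).trans ?_
          rw [sum_add_distrib, sum_ite_eq' (cls u) J0, if_pos hJ0]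
          refine Nat.add_le_add_left ?_ 1
          refine sum_le_sum (fun J _ => ?_)
          exact single_le_sum (f := fun J' => if y ∈ BB J J' then 1 else 0)
            (fun _ _ => Nat.zero_le _) hJ0
        · have f2 : ∀ J ∈ cls u, (if y ∈ bd G W (ZZ E Q u J) then 1 else 0) = 0 := by
            intro J hJ
            rw [if_neg]
            intro h
            apply hyU
            rw [hU]
            exact mem_biUnion.2 ⟨J, hJ, h⟩
          rw [sum_congr rfl f2]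
          simp
      refine (sum_le_sum e2).trans ?_
      rw [sum_add_distrib]
      refine Nat.add_le_add (le_of_eq ?_) ?_
      · rw [← filter_mem_eq_inter, card_filter]
      · rw [sum_comm]
        refine sum_le_sum (fun J _ => ?_)
        rw [sum_comm]
        refine sum_le_sum (fun J' _ => ?_)
        rw [← card_filter]
        exact card_le_card (fun y hy => (mem_filter.1 hy).2)
    exact_mod_cast hN
  -- the remaining neighbours
  have hR : ((bd G W (Q u) ∩ U).card : ℝ) + ((RR G W E Q cls u).card : ℝ) ≤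
      ((bd G W (Q u)).card : ℝ) := by
    have hdis : Disjoint (bd G W (Q u) ∩ U) (RR G W E Q cls u) := by
      rw [disjoint_left]
      intro y hy hy'
      unfold RR at hy'
      rw [← hU] at hy'
      exact (mem_sdiff.1 hy').2 (mem_union_right _ (mem_inter.1 hy).2)
    have hsub : (bd G W (Q u) ∩ U) ∪ RR G W E Q cls u ⊆ bd G W (Q u) := by
      refine union_subset inter_subset_left (fun y hy => ?_)
      unfold RR at hy
      obtain ⟨h1, h2⟩ := mem_sdiff.1 hy
      obtain ⟨h3, h4⟩ := mem_nb.1 h1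
      exact mem_bd.2 ⟨h3, fun h => h2 (mem_union_left _ h), u, hQ.mem u hu, h4⟩
    have := card_le_card hsub
    rw [card_union_of_disjoint hdis] at this
    exact_mod_cast this
  have hsum := sum_le_sum hone
  rw [sum_add_distrib, sum_add_distrib, sum_const, nsmul_eq_mul] at hsum
  linarith

end Pool.Agent.LC0y
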