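import Pool.Agent.Lib_MP_0bab5c_y.Y0

/-!
# One sided weak regularity lemma (pure)

Proof (energy increment).  For a colouring `c : V → Fin m` of `X` put `d j y = |N(y) ∩ cell j| / |cell j|`
(`0` if the cell is empty) and the energy `q c = ∑ j, |cell j| * ∑ y ∈ Y, (d j y)^2`, so
`0 ≤ q c ≤ |X| |Y|` (because `0 ≤ d ≤ 1` and the cell sizes add up to `|X|`).
If `WReg G ε X Y c` fails there is `S ⊆ X` with
`ε |X| |Y| < ∑ y, | ∑ j (|N(y) ∩ S_j| - (|S_j| / |cell j|) |N(y) ∩ cell j|) |` where `S_j = cell S c j`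
(note `|N(y) ∩ S| = ∑ j |N(y) ∩ S_j|`).  Let `c'` be the colouring `(c, [x ∈ S])` with `2 m` colours.
With `a_j = |S_j| / |cell j|`, `d1 = |N(y) ∩ S_j| / |S_j|`, `d2` the same for `cell j \ S`:
`d = a d1 + (1 - a) d2`, hence `a d1^2 + (1 - a) d2^2 - d^2 = a (d1 - d)^2 + (1 - a)(d2 - d)^2 ≥ a (d1 - d)^2`
and `q c' - q c ≥ ∑ j |S_j| ∑ y (d1 - d)^2`.  By Cauchy-Schwarz
`(ε |X| |Y|)^2 < (∑ j ∑ y |S_j| |d1 - d|)^2 ≤ (∑ j |S_j| |Y|) (∑ j ∑ y |S_j| (d1 - d)^2) ≤ |X| |Y| (q c' - q c)`,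
so `q c' > q c + ε^2 |X| |Y|`.  After at most `⌈1/ε^2⌉` steps WReg must hold; a colouring with fewer than
`M` colours can be read as a colouring with `M` colours (the additional cells are empty: state the
induction as: for every `t` there is a colouring with `2^t` colours which is WReg or has energy
`≥ t ε^2 |X||Y|`; then embed `Fin (2^t)` into `Fin (2^T)`, `T = ⌈1/ε^2⌉ + 1`, with `Fin.castLE`;
if WReg holds for `c` it holds for the composed colouring since the new cells are empty).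
If `|X||Y| = 0` everything is trivial.
-/

namespace Pool.Agent.LC0y

open Finset Pool.Agent.LC0bab
open scoped Classical

universe u

section weakreg

variable {V : Type u} {ι κ : Type}

/-- cell of a colouring with arbitrary colours -/
private noncomputable def wrCl (X : Finset V) (c : V → ι) (j : ι) : Finset V :=
  X.filter (fun x => c x = j)

/-- weak regularity with arbitrary colours -/
private def wrReg [Fintype ι] (G : SimpleGraph V) (ε : ℝ) (X Y : Finset V) (c : V → ι) : Prop :=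
  ∀ S ⊆ X, ∑ y ∈ Y, |((nb G S y).card : ℝ) - ∑ j : ι,
    ((wrCl S c j).card : ℝ) / ((wrCl X c j).card : ℝ) * ((nb G (wrCl X c j) y).card : ℝ)|
      ≤ ε * X.card * Y.card

/-- energy -/
private noncomputable def wrEn [Fintype ι] (G : SimpleGraph V) (X Y : Finset V) (c : V → ι) : ℝ :=
  ∑ j : ι, ∑ y ∈ Y, ((nb G (wrCl X c j) y).card : ℝ) ^ 2 / ((wrCl X c j).card : ℝ)

private lemma wrCl_comp (X : Finset V) (c : V → ι) (e : ι → κ) (he : Function.Injective e) (j : ι) :
    wrCl X (e ∘ c) (e j) = wrCl X c j := by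
  unfold wrCl
  refine filter_congr fun x _ => ?_
  simp only [Function.comp_apply]
  exact he.eq_iff

private lemma wrCl_comp_not (X : Finset V) (c : V → ι) (e : ι → κ) (j : κ)
    (hj : j ∉ Set.range e) : wrCl X (e ∘ c) j = ∅ := by
  unfold wrCl
  refine filter_eq_empty_iff.2 fun x _ h => hj ⟨c x, h⟩

private lemma nb_empty_wr (G : SimpleGraph V) (y : V) : nb G ∅ y = ∅ := by
  simp [nb]

private lemma wrReg_comp [Fintype ι] [Fintype κ] (G : SimpleGraph V) (ε : ℝ) (X Y : Finset V)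
    (c : V → ι) (e : ι → κ) (he : Function.Injective e) (h : wrReg G ε X Y c) :
    wrReg G ε X Y (e ∘ c) := by
  intro S hS
  refine le_trans (le_of_eq ?_) (h S hS)
  refine sum_congr rfl fun y _ => ?_
  congr 2
  symm
  refine Fintype.sum_of_injective e he _ _ ?_ ?_
  · intro j hj
    rw [wrCl_comp_not X c e j hj, nb_empty_wr]
    simp
  · intro j
    rw [wrCl_comp X c e he, wrCl_comp S c e he]

private lemma wrEn_comp [Fintype ι] [Fintype κ] (G : SimpleGraph V) (X Y : Finset V)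
    (c : V → ι) (e : ι → κ) (he : Function.Injective e) :
    wrEn G X Y (e ∘ c) = wrEn G X Y c := by
  unfold wrEn
  symm
  refine Fintype.sum_of_injective e he _ _ ?_ ?_
  · intro j hj
    refine sum_eq_zero fun y _ => ?_
    rw [wrCl_comp_not X c e j hj, nb_empty_wr]
    simp
  · intro j
    rw [wrCl_comp X c e he]

private lemma wr_sum_card [Fintype ι] (X : Finset V) (c : V → ι) :
    ∑ j : ι, ((wrCl X c j).card : ℝ) = (X.card : ℝ) := by
  have h := sum_fiberwise X c (fun _ => (1 : ℝ))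
  unfold wrCl
  simpa using h

private lemma wr_nb_sum [Fintype ι] (G : SimpleGraph V) (S : Finset V) (c : V → ι) (y : V) :
    ((nb G S y).card : ℝ) = ∑ j : ι, ((nb G (wrCl S c j) y).card : ℝ) := by
  have h := sum_fiberwise (nb G S y) c (fun _ => (1 : ℝ))
  simp only [sum_const, nsmul_eq_mul, mul_one] at h
  rw [← h]
  refine sum_congr rfl fun j _ => ?_
  congr 2
  ext x
  simp only [nb, wrCl, mem_filter]
  tauto

private lemma wrEn_le [Fintype ι] (G : SimpleGraph V) (X Y : Finset V) (c : V → ι) :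
    wrEn G X Y c ≤ X.card * Y.card := by
  unfold wrEn
  rw [← wr_sum_card X c, sum_mul]
  refine sum_le_sum fun j _ => ?_
  rw [mul_comm, ← nsmul_eq_mul, ← sum_const]
  refine sum_le_sum fun y _ => ?_
  have h1 : ((nb G (wrCl X c j) y).card : ℝ) ≤ ((wrCl X c j).card : ℝ) := by
    exact_mod_cast card_le_card nb_subset
  have h0 : (0 : ℝ) ≤ ((nb G (wrCl X c j) y).card : ℝ) := Nat.cast_nonneg _
  rcases (Nat.cast_nonneg (wrCl X c j).card : (0 : ℝ) ≤ _).eq_or_lt with h | h
  · rw [← h]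
    simp
  · rw [div_le_iff₀ h]
    nlinarith

private lemma wr_alg (n s N A : ℝ) (hs : 0 ≤ s) (hsn : s ≤ n) (hA : 0 ≤ A) (hAs : A ≤ s)
    (hAN : A ≤ N) (hNA : N - A ≤ n - s) :
    (A - s / n * N) ^ 2 / s ≤ A ^ 2 / s + (N - A) ^ 2 / (n - s) - N ^ 2 / n := by
  rcases hs.eq_or_lt with h | h
  · subst h
    have hA0 : A = 0 := le_antisymm hAs hA
    subst hA0
    simp
  · rcases hsn.eq_or_lt with h' | h'
    · subst h'
      have h1 : N = A := by linarith
      subst h1
      rw [div_self h.ne', sub_self, one_mul, sub_self]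
      simp
    · have hn : 0 < n := lt_trans h h'
      have hd : 0 < n - s := by linarith
      have key : A ^ 2 / s + (N - A) ^ 2 / (n - s) - N ^ 2 / n - (A - s / n * N) ^ 2 / s =
          ((N - A) - (n - s) / n * N) ^ 2 / (n - s) := by
        field_simp
        ring
      have h2 : 0 ≤ ((N - A) - (n - s) / n * N) ^ 2 / (n - s) := by positivity
      linarith

private lemma wr_step [Fintype ι] (G : SimpleGraph V) (ε : ℝ) (hε : 0 < ε) (X Y : Finset V)
    (c : V → ι) (h : ¬ wrReg G ε X Y c) : ∃ c' : V → ι × Bool,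
      (ε * X.card * Y.card) ^ 2 < X.card * Y.card * (wrEn G X Y c' - wrEn G X Y c) := by
  unfold wrReg at h
  push Not at h
  obtain ⟨S, hS, hlt⟩ := h
  refine ⟨fun x => (c x, decide (x ∈ S)), ?_⟩
  set c' : V → ι × Bool := fun x => (c x, decide (x ∈ S)) with hc'
  have hT : ∀ j, wrCl X c' (j, true) = wrCl S c j := by
    intro j
    ext x
    simp only [wrCl, hc', mem_filter, Prod.mk.injEq, decide_eq_true_eq]
    constructor
    · rintro ⟨_, h1, h2⟩
      exact ⟨h2, h1⟩
    · rintro ⟨h1, h2⟩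
      exact ⟨hS h1, h2, h1⟩
  have hF : ∀ j, wrCl X c' (j, false) = wrCl X c j \ wrCl S c j := by
    intro j
    ext x
    simp only [wrCl, hc', mem_filter, Prod.mk.injEq, decide_eq_false_iff_not, mem_sdiff]
    tauto
  have hsub : ∀ j, wrCl S c j ⊆ wrCl X c j := by
    intro j x hx
    simp only [wrCl, mem_filter] at hx ⊢
    exact ⟨hS hx.1, hx.2⟩
  have hcard : ∀ j, ((wrCl X c j \ wrCl S c j).card : ℝ) =
      ((wrCl X c j).card : ℝ) - ((wrCl S c j).card : ℝ) := by
    intro j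
    rw [card_sdiff_of_subset (hsub j), Nat.cast_sub (card_le_card (hsub j))]
  have hnb : ∀ j y, ((nb G (wrCl X c j \ wrCl S c j) y).card : ℝ) =
      ((nb G (wrCl X c j) y).card : ℝ) - ((nb G (wrCl S c j) y).card : ℝ) := by
    intro j y
    have h1 := nb_card_split (G := G) (hsub j) y
    rw [h1]
    push_cast
    ring
  -- energy increment
  have hinc : ∑ j : ι, ∑ y ∈ Y, (((nb G (wrCl S c j) y).card : ℝ) -
      ((wrCl S c j).card : ℝ) / ((wrCl X c j).card : ℝ) * ((nb G (wrCl X c j) y).card : ℝ)) ^ 2 /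
      ((wrCl S c j).card : ℝ) ≤ wrEn G X Y c' - wrEn G X Y c := by
    unfold wrEn
    rw [Fintype.sum_prod_type, ← sum_sub_distrib]
    refine sum_le_sum fun j _ => ?_
    rw [Fintype.sum_bool, hT, hF, ← sum_add_distrib, ← sum_sub_distrib]
    refine sum_le_sum fun y _ => ?_
    rw [hcard, hnb]
    refine wr_alg _ _ _ _ (Nat.cast_nonneg _) ?_ (Nat.cast_nonneg _) ?_ ?_ ?_
    · exact_mod_cast card_le_card (hsub j)
    · exact_mod_cast card_le_card nb_subset
    · exact_mod_cast card_le_card (nb_mono (hsub j) y)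
    · rw [← hcard, ← hnb]
      exact_mod_cast card_le_card nb_subset
  -- Cauchy-Schwarz
  have hCS : (∑ p ∈ (univ : Finset ι) ×ˢ Y, |((nb G (wrCl S c p.1) p.2).card : ℝ) -
      ((wrCl S c p.1).card : ℝ) / ((wrCl X c p.1).card : ℝ) *
        ((nb G (wrCl X c p.1) p.2).card : ℝ)|) ^ 2 ≤
      (∑ p ∈ (univ : Finset ι) ×ˢ Y, ((wrCl S c p.1).card : ℝ)) *
      (∑ p ∈ (univ : Finset ι) ×ˢ Y, (((nb G (wrCl S c p.1) p.2).card : ℝ) -
      ((wrCl S c p.1).card : ℝ) / ((wrCl X c p.1).card : ℝ) *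
        ((nb G (wrCl X c p.1) p.2).card : ℝ)) ^ 2 / ((wrCl S c p.1).card : ℝ)) := by
    refine sum_sq_le_sum_mul_sum_of_sq_le_mul _ (fun p _ => Nat.cast_nonneg _)
      (fun p _ => by positivity) (fun p _ => le_of_eq ?_)
    rw [sq_abs]
    rcases (Nat.cast_nonneg (wrCl S c p.1).card : (0 : ℝ) ≤ _).eq_or_lt with h0 | h0
    · have h1 : wrCl S c p.1 = ∅ := by
        rw [← card_eq_zero]
        exact_mod_cast h0.symm
      rw [h1, nb_empty_wr]
      simp
    · rw [mul_div_cancel₀ _ h0.ne']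
  rw [sum_product, sum_product, sum_product] at hCS
  have hS1 : (∑ j : ι, ∑ _y ∈ Y, ((wrCl S c j).card : ℝ)) ≤ X.card * Y.card := by
    have h1 : (∑ j : ι, ∑ _y ∈ Y, ((wrCl S c j).card : ℝ)) = S.card * Y.card := by
      rw [← wr_sum_card S c, sum_mul]
      refine sum_congr rfl fun j _ => ?_
      rw [sum_const, nsmul_eq_mul, mul_comm]
    rw [h1]
    have h2 : (S.card : ℝ) ≤ X.card := by exact_mod_cast card_le_card hS
    exact mul_le_mul_of_nonneg_right h2 (Nat.cast_nonneg _)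
  have hsum : ∑ y ∈ Y, |((nb G S y).card : ℝ) - ∑ j : ι,
      ((wrCl S c j).card : ℝ) / ((wrCl X c j).card : ℝ) * ((nb G (wrCl X c j) y).card : ℝ)| ≤
      ∑ j : ι, ∑ y ∈ Y, |((nb G (wrCl S c j) y).card : ℝ) -
      ((wrCl S c j).card : ℝ) / ((wrCl X c j).card : ℝ) * ((nb G (wrCl X c j) y).card : ℝ)| := by
    rw [sum_comm]
    refine sum_le_sum fun y _ => ?_
    rw [wr_nb_sum G S c y, ← sum_sub_distrib]
    exact abs_sum_le_sum_abs _ _
  have hpos : 0 ≤ ε * X.card * Y.card := by positivity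
  have hQ : 0 ≤ ∑ j : ι, ∑ y ∈ Y, (((nb G (wrCl S c j) y).card : ℝ) -
      ((wrCl S c j).card : ℝ) / ((wrCl X c j).card : ℝ) * ((nb G (wrCl X c j) y).card : ℝ)) ^ 2 /
      ((wrCl S c j).card : ℝ) := sum_nonneg fun j _ => sum_nonneg fun y _ => by positivity
  calc (ε * X.card * Y.card) ^ 2 < (∑ j : ι, ∑ y ∈ Y, |((nb G (wrCl S c j) y).card : ℝ) -
      ((wrCl S c j).card : ℝ) / ((wrCl X c j).card : ℝ) *
        ((nb G (wrCl X c j) y).card : ℝ)|) ^ 2 := by
        refine pow_lt_pow_left₀ (lt_of_lt_of_le hlt hsum) hpos two_ne_zero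
    _ ≤ _ := hCS
    _ ≤ X.card * Y.card * (∑ j : ι, ∑ y ∈ Y, (((nb G (wrCl S c j) y).card : ℝ) -
      ((wrCl S c j).card : ℝ) / ((wrCl X c j).card : ℝ) * ((nb G (wrCl X c j) y).card : ℝ)) ^ 2 /
      ((wrCl S c j).card : ℝ)) := mul_le_mul_of_nonneg_right hS1 hQ
    _ ≤ X.card * Y.card * (wrEn G X Y c' - wrEn G X Y c) :=
        mul_le_mul_of_nonneg_left hinc (by positivity)

private lemma wr_ind (ε : ℝ) (hε : 0 < ε) (G : SimpleGraph V) (X Y : Finset V) (t : ℕ) :
    ∃ c : V → Fin (2 ^ t), wrReg G ε X Y c ∨ t * ε ^ 2 * (X.card * Y.card) ≤ wrEn G X Y c := by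
  induction t with
  | zero =>
    refine ⟨fun _ => 0, Or.inr ?_⟩
    rw [Nat.cast_zero, zero_mul, zero_mul]
    exact sum_nonneg fun j _ => sum_nonneg fun y _ => by positivity
  | succ t ih =>
    obtain ⟨c, hc⟩ := ih
    by_cases hr : wrReg G ε X Y c
    · have hle : 2 ^ t ≤ 2 ^ (t + 1) := Nat.pow_le_pow_right two_pos (Nat.le_succ t)
      exact ⟨Fin.castLE hle ∘ c, Or.inl (wrReg_comp G ε X Y c _ (Fin.castLE_injective hle) hr)⟩
    · have hen := hc.resolve_left hr
      obtain ⟨c', hc'⟩ := wr_step G ε hε X Y c hr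
      have hcard : Fintype.card (Fin (2 ^ t) × Bool) = 2 ^ (t + 1) := by
        rw [Fintype.card_prod, Fintype.card_fin, Fintype.card_bool, pow_succ]
      let e := Fintype.equivFinOfCardEq hcard
      refine ⟨e ∘ c', Or.inr ?_⟩
      rw [wrEn_comp G X Y c' e e.injective]
      have h0 : (0 : ℝ) ≤ X.card * Y.card := by positivity
      rcases h0.eq_or_lt with h1 | h1
      · exfalso
        rw [← h1, zero_mul, mul_assoc, ← h1] at hc'
        simp at hc'
      · have h2 : (ε * X.card * Y.card) ^ 2 =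
            X.card * Y.card * (ε ^ 2 * (X.card * Y.card)) := by ring
        rw [h2] at hc'
        have h3 := lt_of_mul_lt_mul_left hc' h0
        push_cast
        linarith

private lemma wrCl_eq {M : ℕ} (X : Finset V) (c : V → Fin M) (j : Fin M) :
    wrCl X c j = cell X c j := by
  ext x
  simp only [wrCl, mem_filter, mem_cell]

end weakreg

/-- Weak regularity: for every `ε` a bounded number of colours suffices, uniformly in all graphs. -/
theorem weak_reg (ε : ℝ) (hε : 0 < ε) : ∃ M : ℕ, 0 < M ∧ ∀ (V : Type u) (G : SimpleGraph V)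
    (X Y : Finset V), ∃ c : V → Fin M, WReg G ε X Y c := by
  obtain ⟨T, hT⟩ := exists_nat_gt (1 / ε ^ 2)
  refine ⟨2 ^ T, by positivity, fun V G X Y => ?_⟩
  obtain ⟨c, hc⟩ := wr_ind ε hε G X Y T
  refine ⟨c, ?_⟩
  by_contra hn
  have hn' : ¬ wrReg G ε X Y c := by
    intro h
    refine hn fun S hS => ?_
    have h1 := h S hS
    simp only [wrCl_eq] at h1
    exact h1
  have hen := hc.resolve_left hn'
  obtain ⟨c', hc'⟩ := wr_step G ε hε X Y c hn'
  have h0 : (0 : ℝ) ≤ X.card * Y.card := by positivity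
  rcases h0.eq_or_lt with h1 | h1
  · rw [← h1, zero_mul, mul_assoc, ← h1] at hc'
    simp at hc'
  · have h2 := wrEn_le G X Y c
    have h3 : 1 < (T : ℝ) * ε ^ 2 := by
      rwa [div_lt_iff₀ (by positivity)] at hT
    nlinarith

end Pool.Agent.LC0y
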