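import Pool.Agent.Lib_MP_0bab5c_co.Defs

/-!
# Exact upper bound: basic notions

Everything is relative to a finite vertex set `W` of a graph `G` (see `Lib_MP_0bab5c_co.Defs` for
`nb`, `bd`, `ee`, `e2`).
-/

namespace Pool.Agent.LC0y

open Finset Pool.Agent.LC0bab
open scoped Classical

universe u

variable {V : Type u}

/-- `kap = (2 - √3)^2 = 7 - 4 √3`. -/
noncomputable def kap : ℝ := 7 - 4 * Real.sqrt 3

/-- The vertices of `W` which have a neighbour in `X`. -/
noncomputable def nbs (G : SimpleGraph V) (W X : Finset V) : Finset V :=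
  W.filter (fun y => ∃ x ∈ X, G.Adj x y)

/-- The part of `X` of colour `j`. -/
noncomputable def cell {M : ℕ} (X : Finset V) (c : V → Fin M) (j : Fin M) : Finset V :=
  X.filter (fun x => c x = j)

/-- The union of the homes `E i`, `i ∈ J`. -/
noncomputable def EJ {ι : Type u} (E : ι → Finset V) (J : Finset ι) : Finset V :=
  J.biUnion E

/-- One sided weak regularity of the colouring `c` of `X` with respect to `Y`. -/
def WReg {M : ℕ} (G : SimpleGraph V) (ε : ℝ) (X Y : Finset V) (c : V → Fin M) : Prop :=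
  ∀ S ⊆ X, ∑ y ∈ Y, |((nb G S y).card : ℝ) - ∑ j : Fin M,
    ((cell S c j).card : ℝ) / ((cell X c j).card : ℝ) * ((nb G (cell X c j) y).card : ℝ)|
      ≤ ε * X.card * Y.card

/-- Penalised boundary. -/
noncomputable def bp (G : SimpleGraph V) (W : Finset V) (θ : ℝ) (A : Finset V) : ℝ :=
  ((bd G W A).card : ℝ) + θ * (A.card : ℝ)

/-- The side `A` of a cut with `x ∈ A` and `z ∉ A`, where only `x` of `A` may be adjacent to `z`. -/
structure SepSet (G : SimpleGraph V) (W : Finset V) (x z : V) (A : Finset V) : Prop where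
  sub : A ⊆ W
  mem : x ∈ A
  out : z ∉ A
  adj : ∀ a ∈ A, G.Adj a z → a = x

variable {G : SimpleGraph V}

lemma mem_nbs {W X : Finset V} {y : V} : y ∈ nbs G W X ↔ y ∈ W ∧ ∃ x ∈ X, G.Adj x y := by
  simp [nbs]

lemma mem_cell {M : ℕ} {X : Finset V} {c : V → Fin M} {j : Fin M} {x : V} :
    x ∈ cell X c j ↔ x ∈ X ∧ c x = j := by
  simp [cell]

lemma mem_EJ {ι : Type u} {E : ι → Finset V} {J : Finset ι} {x : V} :
    x ∈ EJ E J ↔ ∃ i ∈ J, x ∈ E i := by
  simp [EJ]

lemma cell_subset {M : ℕ} {X : Finset V} {c : V → Fin M} {j : Fin M} : cell X c j ⊆ X :=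
  filter_subset _ _

lemma nbs_subset {W X : Finset V} : nbs G W X ⊆ W := filter_subset _ _

/-- `X` is the disjoint union of its cells. -/
lemma sum_cell {M : ℕ} (X : Finset V) (c : V → Fin M) (f : V → ℝ) :
    ∑ j : Fin M, ∑ x ∈ cell X c j, f x = ∑ x ∈ X, f x := by
  unfold cell
  exact sum_fiberwise X c f

lemma card_cell {M : ℕ} (X : Finset V) (c : V → Fin M) :
    ∑ j : Fin M, ((cell X c j).card : ℝ) = (X.card : ℝ) := by
  have h := sum_cell X c (fun _ => (1 : ℝ))
  simpa using h

end Pool.Agent.LC0y
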